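import Mathlib

set_option autoImplicit false
set_option linter.unusedSectionVars false

namespace Pool.Agent.H56.RDS

open NumberField Finset

section Num

variable {p k : ℕ} [hp : Fact p.Prime] {ι : Type}

/-- The prime `p` is associated to a power of `ζ - 1`. -/
lemma assoc_p (K : Type) [Field K] [NumberField K] [IsCyclotomicExtension {p ^ (k + 1)} ℚ K]
    {z : K} (hz : IsPrimitiveRoot z (p ^ (k + 1))) :
    Associated (p : 𝓞 K) ((hz.toInteger - 1) ^ Module.finrank ℚ K) := by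
  have h := IsCyclotomicExtension.Rat.map_eq_span_zeta_sub_one_pow p k hz
  rw [Ideal.map_span, Set.image_singleton, Ideal.span_singleton_pow] at h
  rw [← Ideal.span_singleton_eq_span_singleton, ← h]
  simp

/-- If `a * a'' = p ^ B` then `a` is associated to a power of `ζ - 1`. -/
lemma assoc_pow (K : Type) [Field K] [NumberField K] [IsCyclotomicExtension {p ^ (k + 1)} ℚ K]
    {z : K} (hz : IsPrimitiveRoot z (p ^ (k + 1))) (a a' : 𝓞 K) (B : ℕ)
    (h : a * a' = (p : 𝓞 K) ^ B) : ∃ i : ℕ, Associated a ((hz.toInteger - 1) ^ i) := by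
  have h1 : a ∣ ((hz.toInteger - 1) ^ Module.finrank ℚ K) ^ B := by
    have h2 : Associated ((p : 𝓞 K) ^ B) (((hz.toInteger - 1) ^ Module.finrank ℚ K) ^ B) :=
      (assoc_p K hz).pow_pow
    exact (Dvd.intro _ h).trans h2.dvd
  rw [← pow_mul] at h1
  obtain ⟨i, _, hi⟩ := (dvd_prime_pow hz.zeta_sub_one_prime _).mp h1
  exact ⟨i, hi⟩

lemma conj_pow_root {n : ℕ} (hn : 0 < n) {ζ : ℂ} (hζ : ζ ^ n = 1) (m : ℕ) :
    ζ ^ ((n - 1) * m) = (starRingEnd ℂ) (ζ ^ m) := by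
  have hnorm : ‖ζ‖ = 1 := Complex.norm_eq_one_of_pow_eq_one hζ (by omega)
  have hz0 : ζ ^ m ≠ 0 := by
    intro h
    have : ‖ζ ^ m‖ = 0 := by rw [h, norm_zero]
    rw [norm_pow, hnorm, one_pow] at this
    exact one_ne_zero this
  have hm : ‖ζ ^ m‖ = 1 := by rw [norm_pow, hnorm, one_pow]
  have h1 : ζ ^ m * (starRingEnd ℂ) (ζ ^ m) = 1 := by
    rw [Complex.mul_conj, Complex.normSq_eq_norm_sq, hm]; simp
  have h2 : ζ ^ m * ζ ^ ((n - 1) * m) = 1 := by
    rw [← pow_add]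
    have : m + (n - 1) * m = n * m := by
      obtain ⟨n', rfl⟩ : ∃ n', n = n' + 1 := ⟨n - 1, by omega⟩
      simp; ring
    rw [this, pow_mul, hζ, one_pow]
  exact mul_left_cancel₀ hz0 (h2.trans h1.symm)

/-- Key number-theoretic fact: a character sum of constant absolute value `p ^ (B / 2)` over all
conjugates is an eigenvector of `ζ ↦ ζ ^ (1 + p ^ k)`. -/
theorem key_num_aux (K : Type) [Field K] [NumberField K]
    [IsCyclotomicExtension {p ^ (k + 1)} ℚ K]
    (hp2 : p ≠ 2) (hk : 1 ≤ k) (D : Finset ι) (i : ι → ℕ) (B : ℕ) (ζ : ℂ) (hζ : IsPrimitiveRoot ζ (p ^ (k + 1)))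
    (h : ∀ t : ℕ, t.Coprime p → ‖∑ d ∈ D, ζ ^ (t * i d)‖ ^ 2 = (p : ℝ) ^ B) :
    ∃ ω : ℂ, ω ^ p = 1 ∧
      ∀ j : ℕ, ∑ d ∈ D, ζ ^ ((1 + j * p ^ k) * i d) = ω ^ j * ∑ d ∈ D, ζ ^ (i d) := by
  classical
  have hpp : p.Prime := hp.out
  have hpodd : Odd p := hpp.odd_of_ne_two hp2
  obtain ⟨n, hn⟩ : ∃ n : ℕ, n = p ^ (k + 1) := ⟨_, rfl⟩
  have hnpos : 0 < n := by rw [hn]; exact pow_pos hpp.pos _
  have hnodd : Odd n := by rw [hn]; exact hpodd.pow
  have hp0 : (p : ℝ) ≠ 0 := by exact_mod_cast hpp.ne_zero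
  have hz₀ : IsPrimitiveRoot (IsCyclotomicExtension.zeta (p ^ (k + 1)) ℚ K) (p ^ (k + 1)) :=
    IsCyclotomicExtension.zeta_spec _ _ _
  obtain ⟨φ₀⟩ : Nonempty (K →+* ℂ) := inferInstance
  have hφz₀ := hz₀.map_of_injective φ₀.injective
  obtain ⟨s, hs1, hs2, hs3⟩ := hφz₀.isPrimitiveRoot_iff.mp hζ
  obtain ⟨z, hzdef⟩ : ∃ z : K, z = (IsCyclotomicExtension.zeta (p ^ (k + 1)) ℚ K) ^ s := ⟨_, rfl⟩
  have hz : IsPrimitiveRoot z (p ^ (k + 1)) := by rw [hzdef]; exact hz₀.pow_of_coprime s hs2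
  have hφz : φ₀ z = ζ := by rw [hzdef, map_pow, hs3]
  have hzn : z ^ n = 1 := by rw [hn]; exact hz.pow_eq_one
  have hζn : ζ ^ n = 1 := by rw [hn]; exact hζ.pow_eq_one
  -- the sums
  set A : ℕ → K := fun t => ∑ d ∈ D, z ^ (t * i d) with hA
  set AI : ℕ → 𝓞 K := fun t => ∑ d ∈ D, hz.toInteger ^ (t * i d) with hAI
  have hzI : algebraMap (𝓞 K) K hz.toInteger = z := rfl
  have hcoe : ∀ t, algebraMap (𝓞 K) K (AI t) = A t := by
    intro t
    simp only [hAI, hA, map_sum, map_pow, hzI]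
  have hφ₀A : ∀ t, φ₀ (A t) = ∑ d ∈ D, ζ ^ (t * i d) := by
    intro t
    simp only [hA, map_sum, map_pow, hφz]
  have hφA : ∀ φ : K →+* ℂ, ∀ t : ℕ, t.Coprime p → ‖φ (A t)‖ ^ 2 = (p : ℝ) ^ B := by
    intro φ t ht
    have h1 := hz.map_of_injective φ.injective
    obtain ⟨s', _, hs2', hs3'⟩ := hζ.isPrimitiveRoot_iff.mp h1
    have h2 : φ (A t) = ∑ d ∈ D, ζ ^ ((s' * t) * i d) := by
      simp only [hA, map_sum, map_pow, ← hs3']
      refine Finset.sum_congr rfl (fun d _ => ?_)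
      rw [← pow_mul, mul_assoc]
    rw [h2]
    apply h
    apply Nat.Coprime.mul_left _ ht
    exact Nat.Coprime.coprime_dvd_right (dvd_pow_self p (by omega)) hs2'
  have hne : ∀ φ : K →+* ℂ, ∀ t : ℕ, t.Coprime p → φ (A t) ≠ 0 := by
    intro φ t ht h0
    have h1 := hφA φ t ht
    rw [h0, norm_zero] at h1
    have h2 : (p : ℝ) ^ B ≠ 0 := pow_ne_zero _ hp0
    apply h2
    rw [← h1]; norm_num
  have hmul : ∀ t : ℕ, t.Coprime p → AI t * AI (t * (n - 1)) = (p : 𝓞 K) ^ B := by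
    intro t ht
    have hinj : Function.Injective (fun x : 𝓞 K => φ₀ (algebraMap (𝓞 K) K x)) := by
      intro x y hxy
      exact RingOfIntegers.coe_injective (φ₀.injective hxy)
    apply hinj
    simp only [map_mul, map_pow, map_natCast]
    rw [hcoe, hcoe, hφ₀A, hφ₀A]
    have h1 : ∑ d ∈ D, ζ ^ (t * (n - 1) * i d) = (starRingEnd ℂ) (∑ d ∈ D, ζ ^ (t * i d)) := by
      rw [map_sum]
      refine Finset.sum_congr rfl (fun d _ => ?_)
      rw [← conj_pow_root hnpos hζn]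
      congr 1
      ring
    rw [h1, Complex.mul_conj, Complex.normSq_eq_norm_sq, h t ht]
    push_cast
    rfl
  have hc1 : Nat.Coprime 1 p := Nat.coprime_one_left p
  have hc2 : Nat.Coprime (1 + p ^ k) p := by
    have : Nat.Coprime (1 + p * p ^ (k - 1)) p := by
      simp
    rwa [← pow_succ', Nat.sub_add_cancel hk] at this
  -- the quotient is a root of unity
  obtain ⟨r, N, hN, hrN, hr⟩ : ∃ r : K, ∃ N : ℕ, 0 < N ∧ r ^ N = 1 ∧ A (1 + p ^ k) = A 1 * r := by
    obtain ⟨i1, hi1⟩ := assoc_pow K hz (AI 1) _ B (hmul 1 hc1)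
    obtain ⟨i2, hi2⟩ := assoc_pow K hz (AI (1 + p ^ k)) _ B (hmul _ hc2)
    rcases le_total i1 i2 with hle | hle
    · have hd : AI 1 ∣ AI (1 + p ^ k) :=
        (hi1.dvd.trans (pow_dvd_pow _ hle)).trans hi2.symm.dvd
      obtain ⟨c, hc⟩ := hd
      have hcK : A (1 + p ^ k) = A 1 * algebraMap (𝓞 K) K c := by
        rw [← hcoe, ← hcoe, hc, map_mul]
      obtain ⟨N, hN, hcN⟩ := NumberField.Embeddings.pow_eq_one_of_norm_eq_one K ℂ
        (x := algebraMap (𝓞 K) K c) c.isIntegral_coe (by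
          intro φ
          have h1 := hφA φ _ hc2
          have h2 := hφA φ _ hc1
          rw [hcK, map_mul, norm_mul, mul_pow, h2] at h1
          have h3 : ‖φ (algebraMap (𝓞 K) K c)‖ ^ 2 = 1 := by
            have h4 : (p : ℝ) ^ B ≠ 0 := pow_ne_zero _ hp0
            exact mul_left_cancel₀ h4 (by rw [h1, mul_one])
          exact (pow_eq_one_iff_of_nonneg (norm_nonneg _) two_ne_zero).mp h3)
      exact ⟨algebraMap (𝓞 K) K c, N, hN, hcN, hcK⟩
    · have hd : AI (1 + p ^ k) ∣ AI 1 :=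
        (hi2.dvd.trans (pow_dvd_pow _ hle)).trans hi1.symm.dvd
      obtain ⟨c, hc⟩ := hd
      have hcK : A 1 = A (1 + p ^ k) * algebraMap (𝓞 K) K c := by
        rw [← hcoe, ← hcoe, hc, map_mul]
      obtain ⟨N, hN, hcN⟩ := NumberField.Embeddings.pow_eq_one_of_norm_eq_one K ℂ
        (x := algebraMap (𝓞 K) K c) c.isIntegral_coe (by
          intro φ
          have h1 := hφA φ _ hc2
          have h2 := hφA φ _ hc1
          rw [hcK, map_mul, norm_mul, mul_pow, h1] at h2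
          have h3 : ‖φ (algebraMap (𝓞 K) K c)‖ ^ 2 = 1 := by
            have h4 : (p : ℝ) ^ B ≠ 0 := pow_ne_zero _ hp0
            exact mul_left_cancel₀ h4 (by rw [h2, mul_one])
          exact (pow_eq_one_iff_of_nonneg (norm_nonneg _) two_ne_zero).mp h3)
      have hc0 : algebraMap (𝓞 K) K c ≠ 0 := by
        intro h0
        rw [h0, zero_pow hN.ne'] at hcN
        exact zero_ne_one hcN
      refine ⟨(algebraMap (𝓞 K) K c)⁻¹, N, hN, by rw [inv_pow, hcN, inv_one], ?_⟩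
      rw [hcK, mul_assoc, mul_inv_cancel₀ hc0, mul_one]
  -- classification of the roots of unity
  obtain ⟨ε, m, hε, hrm⟩ : ∃ ε : K, ∃ m : ℕ, (ε = 1 ∨ ε = -1) ∧ r = ε * z ^ m := by
    have hfin : IsOfFinOrder r := isOfFinOrder_iff_pow_eq_one.mpr ⟨N, hN, hrN⟩
    obtain ⟨m, _, hm⟩ := hz.exists_pow_or_neg_mul_pow_of_isOfFinOrder
      (by rw [← hn]; exact hnodd) hfin
    rcases hm with hm | hm
    · exact ⟨1, m, Or.inl rfl, by rw [one_mul]; exact hm⟩
    · exact ⟨-1, m, Or.inr rfl, by rw [hm]; ring⟩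
  -- the automorphism
  obtain ⟨σ, hσ⟩ : ∃ σ : Gal(K/ℚ), σ z = z ^ (1 + p ^ k) := by
    have hcop : Nat.Coprime (1 + p ^ k) (p ^ (k + 1)) := Nat.Coprime.pow_right _ hc2
    refine ⟨(IsCyclotomicExtension.Rat.galEquivZMod (p ^ (k + 1)) K).symm
      (ZMod.unitOfCoprime (1 + p ^ k) hcop), ?_⟩
    rw [IsCyclotomicExtension.Rat.galEquivZMod_apply_of_pow_eq (p ^ (k + 1)) K _ hz.pow_eq_one,
      MulEquiv.apply_symm_apply, ZMod.coe_unitOfCoprime, ZMod.val_natCast,
      ← pow_eq_pow_mod _ hz.pow_eq_one]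
  have hdvd : n ∣ p ^ (2 * k) := by rw [hn]; exact pow_dvd_pow _ (by omega)
  have hpow1 : ∀ x : ℕ, n ∣ x → z ^ x = 1 := by
    rintro x ⟨c, rfl⟩
    rw [pow_mul, hzn, one_pow]
  have hσA : ∀ t : ℕ, σ (A t) = A ((1 + p ^ k) * t) := by
    intro t
    simp only [hA, map_sum, map_pow, hσ]
    refine Finset.sum_congr rfl (fun d _ => ?_)
    rw [← pow_mul, mul_assoc]
  have hAstep : ∀ j : ℕ, A ((1 + p ^ k) * (1 + j * p ^ k)) = A (1 + (j + 1) * p ^ k) := by
    intro j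
    simp only [hA]
    refine Finset.sum_congr rfl (fun d _ => ?_)
    have e1 : (1 + p ^ k) * (1 + j * p ^ k) * i d
        = (1 + (j + 1) * p ^ k) * i d + (p ^ (2 * k)) * (j * i d) := by
      rw [two_mul, pow_add]; ring
    rw [e1, pow_add, hpow1 _ (hdvd.mul_right _), mul_one]
  have hσ1 : σ (A 1) = A 1 * (ε * z ^ m) := by
    rw [hσA, mul_one, hr, hrm]
  have hσε : σ ε = ε := by
    rcases hε with rfl | rfl
    · exact map_one σ
    · rw [map_neg, map_one]
  have hmain : ∀ j : ℕ, A (1 + j * p ^ k)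
      = ε ^ j * z ^ (m * (j + j.choose 2 * p ^ k)) * A 1 := by
    intro j
    induction j with
    | zero => simp
    | succ j ih =>
      rw [← hAstep j, ← hσA, ih, map_mul, map_mul, map_pow, map_pow, hσε, hσ, hσ1]
      have e1 : (z ^ (1 + p ^ k)) ^ (m * (j + j.choose 2 * p ^ k)) * z ^ m
          = z ^ (m * (j + 1 + (j + 1).choose 2 * p ^ k)) := by
        rw [← pow_mul, ← pow_add]
        have e2 : (j + 1).choose 2 = j.choose 2 + j := by
          rw [Nat.choose_succ_succ' j 1, Nat.choose_one_right]; ring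
        have e3 : (1 + p ^ k) * (m * (j + j.choose 2 * p ^ k)) + m
            = m * (j + 1 + (j + 1).choose 2 * p ^ k) + p ^ (2 * k) * (m * j.choose 2) := by
          rw [e2, two_mul, pow_add]; ring
        rw [e3, pow_add, hpow1 _ (hdvd.mul_right _), mul_one]
      calc ε ^ j * (z ^ (1 + p ^ k)) ^ (m * (j + j.choose 2 * p ^ k)) * (A 1 * (ε * z ^ m))
          = ε ^ (j + 1) * ((z ^ (1 + p ^ k)) ^ (m * (j + j.choose 2 * p ^ k)) * z ^ m) * A 1 := by
            ring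
        _ = _ := by rw [e1]
  have hA1 : A 1 ≠ 0 := by
    intro h0
    apply hne φ₀ 1 hc1
    rw [h0, map_zero]
  -- evaluate at `j = p`
  have hev : ε * z ^ (m * p) = 1 := by
    have h1 := hmain p
    have h2 : A (1 + p * p ^ k) = A 1 := by
      simp only [hA]
      refine Finset.sum_congr rfl (fun d _ => ?_)
      have e1 : (1 + p * p ^ k) * i d = 1 * i d + n * i d := by
        rw [hn, pow_succ]; ring
      rw [e1, pow_add, hpow1 _ (Dvd.intro _ rfl), mul_one]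
    have h3 : ε ^ p = ε := by
      rcases hε with rfl | rfl
      · exact one_pow _
      · exact hpodd.neg_one_pow
    have h4 : z ^ (m * (p + p.choose 2 * p ^ k)) = z ^ (m * p) := by
      have h5 : n ∣ m * (p.choose 2 * p ^ k) := by
        have h6 : p ∣ p.choose 2 := hpp.dvd_choose_self (by norm_num) (by
          rcases hpp.two_le.lt_or_eq with h | h
          · exact h
          · exact absurd h.symm hp2)
        rw [hn, pow_succ']
        exact (Nat.mul_dvd_mul_right h6 _).mul_left _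
      rw [mul_add, pow_add, hpow1 _ h5, mul_one]
    rw [h2, h3, h4] at h1
    have h7 : (ε * z ^ (m * p)) * A 1 = 1 * A 1 := by rw [← h1, one_mul]
    exact mul_right_cancel₀ hA1 h7
  have hε1 : ε = 1 := by
    rcases hε with h1 | h1
    · exact h1
    · exfalso
      have h2 : (ε * z ^ (m * p)) ^ (p ^ k) = 1 := by rw [hev, one_pow]
      rw [mul_pow, ← pow_mul, hpow1 (m * p * p ^ k) (by
        rw [hn, pow_succ', mul_assoc]; exact Dvd.intro_left _ rfl), mul_one, h1,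
        (hpodd.pow).neg_one_pow] at h2
      have h3 : (2 : K) = 0 := by
        have : (1 : K) + 1 = 0 := by
          nth_rewrite 2 [← h2]
          ring
        rw [← this]; norm_num
      exact two_ne_zero h3
  rw [hε1, one_mul] at hev
  have hpm : p ^ k ∣ m := by
    have h1 : p ^ (k + 1) ∣ m * p := (hz.pow_eq_one_iff_dvd _).mp hev
    rw [pow_succ] at h1
    exact Nat.dvd_of_mul_dvd_mul_right hpp.pos h1
  refine ⟨ζ ^ m, ?_, ?_⟩
  · rw [← pow_mul, ← hφz, ← map_pow, hev, map_one]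
  · intro j
    have h1 := hmain j
    have h2 : z ^ (m * (j + j.choose 2 * p ^ k)) = (z ^ m) ^ j := by
      have h3 : n ∣ m * (j.choose 2 * p ^ k) := by
        have h4 : p ^ k * p ^ k ∣ m * (j.choose 2 * p ^ k) := by
          obtain ⟨c, hc⟩ := hpm
          refine ⟨c * j.choose 2, ?_⟩
          rw [hc]; ring
        refine dvd_trans ?_ h4
        rw [hn, ← pow_add]
        exact pow_dvd_pow _ (by omega)
      rw [mul_add, pow_add, hpow1 _ h3, mul_one, pow_mul]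
    rw [hε1, one_pow, one_mul, h2] at h1
    have h5 := congrArg φ₀ h1
    rw [map_mul, map_pow, map_pow, hφz, hφ₀A, hφ₀A] at h5
    rw [h5]
    simp

theorem key_num (hp2 : p ≠ 2) (hk : 1 ≤ k) (D : Finset ι) (i : ι → ℕ) (B : ℕ)
    (ζ : ℂ) (hζ : IsPrimitiveRoot ζ (p ^ (k + 1)))
    (h : ∀ t : ℕ, t.Coprime p → ‖∑ d ∈ D, ζ ^ (t * i d)‖ ^ 2 = (p : ℝ) ^ B) :
    ∃ ω : ℂ, ω ^ p = 1 ∧
      ∀ j : ℕ, ∑ d ∈ D, ζ ^ ((1 + j * p ^ k) * i d) = ω ^ j * ∑ d ∈ D, ζ ^ (i d) := by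
  have h1 : @IsCyclotomicExtension {p ^ (k + 1)} ℚ (CyclotomicField (p ^ (k + 1)) ℚ) _ _
      (CyclotomicField.algebra _ _) := inferInstance
  have h2 : (CyclotomicField.algebra (p ^ (k + 1)) ℚ :
      Algebra ℚ (CyclotomicField (p ^ (k + 1)) ℚ)) = DivisionRing.toRatAlgebra :=
    Subsingleton.elim _ _
  rw [h2] at h1
  exact key_num_aux (CyclotomicField (p ^ (k + 1)) ℚ) hp2 hk D i B ζ hζ h

end Num

end Pool.Agent.H56.RDS
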