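import Mathlib
import Pool.Agent.H56.RDSNum

set_option autoImplicit false
set_option linter.unusedSectionVars false

namespace Pool.Agent.H56.RDS

open Finset

section Char

variable {G : Type} [AddCommGroup G] [Fintype G] [DecidableEq G]

/-- The character sum over a finite set. -/
noncomputable def cs (χ : AddChar G ℂ) (E : Finset G) : ℂ := ∑ d ∈ E, χ d

/-- The number of representations as a difference. -/
def rep (E : Finset G) (g : G) : ℕ := ((E ×ˢ E).filter (fun x => x.1 - x.2 = g)).card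

/-- Parseval's identity. -/
lemma parseval (f : G → ℂ) :
    ∑ χ : AddChar G ℂ, ‖∑ g, f g * χ g‖ ^ 2 = Fintype.card G * ∑ g, ‖f g‖ ^ 2 := by
  have h : ∀ χ : AddChar G ℂ, ((‖∑ g, f g * χ g‖ ^ 2 : ℝ) : ℂ)
      = ∑ g, ∑ h, f g * (starRingEnd ℂ) (f h) * χ (g - h) := by
    intro χ
    push_cast
    rw [← Complex.mul_conj', map_sum, Finset.sum_mul_sum]
    refine Finset.sum_congr rfl (fun g _ => Finset.sum_congr rfl (fun h _ => ?_))
    rw [map_mul, sub_eq_add_neg, AddChar.map_add_eq_mul, AddChar.map_neg_eq_conj]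
    ring
  have h2 : ((∑ χ : AddChar G ℂ, ‖∑ g, f g * χ g‖ ^ 2 : ℝ) : ℂ)
      = ((Fintype.card G * ∑ g, ‖f g‖ ^ 2 : ℝ) : ℂ) := by
    rw [Complex.ofReal_sum, Finset.sum_congr rfl (fun χ _ => h χ), Finset.sum_comm]
    have h3 : ∀ g : G, ∑ χ : AddChar G ℂ, ∑ h, f g * (starRingEnd ℂ) (f h) * χ (g - h)
        = Fintype.card G * (‖f g‖ ^ 2 : ℝ) := by
      intro g
      rw [Finset.sum_comm]
      have h4 : ∀ h : G, ∑ χ : AddChar G ℂ, f g * (starRingEnd ℂ) (f h) * χ (g - h)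
          = if h = g then (Fintype.card G : ℂ) * (f g * (starRingEnd ℂ) (f h)) else 0 := by
        intro h
        rw [← Finset.mul_sum, AddChar.sum_apply_eq_ite]
        by_cases hg : h = g
        · rw [if_pos hg, if_pos (by rw [hg, sub_self])]; ring
        · rw [if_neg hg, if_neg (fun e => hg (sub_eq_zero.mp e).symm), mul_zero]
      rw [Finset.sum_congr rfl (fun h _ => h4 h), Finset.sum_ite_eq' Finset.univ g]
      simp only [Finset.mem_univ, if_true]
      rw [Complex.mul_conj']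
      push_cast
      rfl
    rw [Finset.sum_congr rfl (fun g _ => h3 g)]
    push_cast
    rw [Finset.mul_sum]
  exact_mod_cast h2

lemma norm_sq_cs (χ : AddChar G ℂ) (E : Finset G) :
    ((‖cs χ E‖ ^ 2 : ℝ) : ℂ) = ∑ g, (rep E g : ℂ) * χ g := by
  push_cast
  rw [← Complex.mul_conj']
  unfold cs
  rw [map_sum, Finset.sum_mul_sum, ← Finset.sum_product']
  have h1 : ∀ x ∈ E ×ˢ E, χ x.1 * (starRingEnd ℂ) (χ x.2) = χ (x.1 - x.2) := by
    intro x _
    rw [sub_eq_add_neg, AddChar.map_add_eq_mul, AddChar.map_neg_eq_conj]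
  rw [Finset.sum_congr rfl h1]
  rw [← Finset.sum_fiberwise (E ×ˢ E) (fun x => x.1 - x.2) (fun x => χ (x.1 - x.2))]
  refine Finset.sum_congr rfl (fun g _ => ?_)
  rw [Finset.sum_congr rfl (g := fun _ => χ g) (fun x hx => by
    rw [(Finset.mem_filter.mp hx).2]), Finset.sum_const, nsmul_eq_mul]
  rfl

lemma rep_zero (E : Finset G) : rep E 0 = E.card := by
  unfold rep
  rw [← Finset.card_image_of_injective E (f := fun d => (d, d)) (fun a b h => (Prod.mk.inj h).1)]
  congr 1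
  ext ⟨a, b⟩
  simp only [Finset.mem_filter, Finset.mem_product, Finset.mem_image, Prod.mk.injEq, sub_eq_zero]
  constructor
  · rintro ⟨⟨h1, _⟩, h3⟩
    exact ⟨a, h1, rfl, h3⟩
  · rintro ⟨d, hd, rfl, rfl⟩
    exact ⟨⟨hd, hd⟩, rfl⟩

lemma sum_rep (E : Finset G) : ∑ g, rep E g = E.card ^ 2 := by
  unfold rep
  rw [← Finset.card_eq_sum_card_fiberwise (fun x _ => Finset.mem_univ _), Finset.card_product, sq]

lemma rep_mono {E D : Finset G} (h : E ⊆ D) (g : G) : rep E g ≤ rep D g :=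
  Finset.card_le_card (Finset.filter_subset_filter _ (Finset.product_subset_product h h))

/-- The fourth moment. -/
lemma fourth_moment (E : Finset G) (hE : ∀ g, g ≠ 0 → rep E g ≤ 1) :
    ∑ χ : AddChar G ℂ, ‖cs χ E‖ ^ 4
      ≤ Fintype.card G * (2 * (E.card : ℝ) ^ 2 - E.card) := by
  have h1 : ∀ χ : AddChar G ℂ, ‖cs χ E‖ ^ 4 = ‖∑ g, (rep E g : ℂ) * χ g‖ ^ 2 := by
    intro χ
    rw [← norm_sq_cs, Complex.norm_real, Real.norm_of_nonneg (by positivity)]
    ring
  rw [Finset.sum_congr rfl (fun χ _ => h1 χ), parseval]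
  apply mul_le_mul_of_nonneg_left _ (Nat.cast_nonneg _)
  have h2 : ∑ g, (rep E g) ^ 2 ≤ E.card ^ 2 + ∑ g ∈ Finset.univ.erase (0 : G), rep E g := by
    rw [← Finset.add_sum_erase Finset.univ (fun g => (rep E g) ^ 2) (Finset.mem_univ (0 : G)),
      rep_zero]
    apply Nat.add_le_add_left
    refine Finset.sum_le_sum (fun g hg => ?_)
    have h3 := hE g (Finset.ne_of_mem_erase hg)
    nlinarith
  have h3 : E.card + ∑ g ∈ Finset.univ.erase (0 : G), rep E g = E.card ^ 2 := by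
    rw [← sum_rep, ← Finset.add_sum_erase Finset.univ (fun g => rep E g) (Finset.mem_univ (0 : G)),
      rep_zero]
  have h4 : ∑ g, ‖((rep E g : ℕ) : ℂ)‖ ^ 2 = ((∑ g, (rep E g) ^ 2 : ℕ) : ℝ) := by
    push_cast
    refine Finset.sum_congr rfl (fun g _ => ?_)
    rw [Complex.norm_natCast]
  rw [h4]
  have h5 : ((∑ g, (rep E g) ^ 2 : ℕ) : ℝ)
      ≤ ((E.card ^ 2 + ∑ g ∈ Finset.univ.erase (0 : G), rep E g : ℕ) : ℝ) := by exact_mod_cast h2
  have h6 : ((E.card + ∑ g ∈ Finset.univ.erase (0 : G), rep E g : ℕ) : ℝ)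
      = ((E.card ^ 2 : ℕ) : ℝ) := by exact_mod_cast h3
  rw [Nat.cast_add] at h5 h6
  push_cast at h5 h6 ⊢
  linarith

/-- The sum of a nontrivial character over a subgroup. -/
lemma sum_subgroup_zero (H : AddSubgroup G) [DecidablePred (· ∈ H)] (χ : AddChar G ℂ)
    (h : ∃ x ∈ H, χ x ≠ 1) : ∑ g ∈ Finset.univ.filter (· ∈ H), χ g = 0 := by
  obtain ⟨x, hx, hχ⟩ := h
  have h1 : χ x * ∑ g ∈ Finset.univ.filter (· ∈ H), χ g
      = ∑ g ∈ Finset.univ.filter (· ∈ H), χ g := by
    rw [Finset.mul_sum]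
    refine Finset.sum_nbij' (fun g => x + g) (fun g => -x + g) ?_ ?_ ?_ ?_ ?_
    · intro g hg
      rw [Finset.mem_filter] at hg ⊢
      exact ⟨Finset.mem_univ _, H.add_mem hx hg.2⟩
    · intro g hg
      rw [Finset.mem_filter] at hg ⊢
      exact ⟨Finset.mem_univ _, H.add_mem (H.neg_mem hx) hg.2⟩
    · intro g _; simp
    · intro g _; simp
    · intro g _
      rw [AddChar.map_add_eq_mul]
  exact eq_zero_of_mul_eq_self_left hχ h1

lemma card_filter_subgroup (H : AddSubgroup G) [DecidablePred (· ∈ H)] :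
    (Finset.univ.filter (· ∈ H)).card = Nat.card H := by
  rw [Nat.card_eq_fintype_card, Fintype.card_subtype]

/-- The number of characters that are trivial on a subgroup. -/
lemma card_annihilator (H : AddSubgroup G) [DecidablePred (fun χ : AddChar G ℂ => ∀ x ∈ H, χ x = 1)] :
    (Finset.univ.filter (fun χ : AddChar G ℂ => ∀ x ∈ H, χ x = 1)).card * Nat.card H
      = Fintype.card G := by
  classical
  have h1 : ∑ χ : AddChar G ℂ, ∑ g ∈ Finset.univ.filter (· ∈ H), χ g = (Fintype.card G : ℂ) := by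
    rw [Finset.sum_comm]
    rw [Finset.sum_congr rfl (fun g _ => AddChar.sum_apply_eq_ite g)]
    rw [Finset.sum_ite_eq' _ (0 : G)]
    rw [if_pos]
    rw [Finset.mem_filter]
    exact ⟨Finset.mem_univ _, H.zero_mem⟩
  have h2 : ∀ χ : AddChar G ℂ, ∑ g ∈ Finset.univ.filter (· ∈ H), χ g
      = if (∀ x ∈ H, χ x = 1) then (Nat.card H : ℂ) else 0 := by
    intro χ
    by_cases h : ∀ x ∈ H, χ x = 1
    · rw [if_pos h, Finset.sum_congr rfl (g := fun _ => (1:ℂ)) (fun g hg => h g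
        (Finset.mem_filter.mp hg).2), Finset.sum_const, nsmul_eq_mul, mul_one,
        card_filter_subgroup]
    · rw [if_neg h]
      push Not at h
      exact sum_subgroup_zero H χ h
  rw [Finset.sum_congr rfl (fun χ _ => h2 χ), ← Finset.sum_filter, Finset.sum_const,
    nsmul_eq_mul] at h1
  have h3 : (((Finset.univ.filter (fun χ : AddChar G ℂ => ∀ x ∈ H, χ x = 1)).card
      * Nat.card H : ℕ) : ℂ) = ((Fintype.card G : ℕ) : ℂ) := by
    push_cast
    rw [← h1]
  exact_mod_cast h3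

end Char

section RDS

variable {G : Type} [AddCommGroup G] [Fintype G] [DecidableEq G]
variable (N : AddSubgroup G) (D : Finset G)
  (hD1 : ∀ g : G, g ∉ N → ((D ×ˢ D).filter (fun x => x.1 - x.2 = g)).card = 1)
  (hD0 : ∀ g : G, g ∈ N → g ≠ 0 → ((D ×ˢ D).filter (fun x => x.1 - x.2 = g)).card = 0)

include hD1 hD0

lemma rep_le_one {E : Finset G} (hE : E ⊆ D) (g : G) (hg : g ≠ 0) : rep E g ≤ 1 := by
  refine (rep_mono hE g).trans ?_
  by_cases h : g ∈ N
  · exact (le_of_eq (hD0 g h hg)).trans zero_le_one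
  · exact le_of_eq (hD1 g h)

/-- The absolute value of a character sum of a relative difference set. -/
lemma norm_sq_rds (χ : AddChar G ℂ) [DecidablePred (· ∈ N)] :
    ((‖cs χ D‖ ^ 2 : ℝ) : ℂ)
      = D.card + ∑ g, χ g - ∑ g ∈ Finset.univ.filter (· ∈ N), χ g := by
  rw [norm_sq_cs]
  have h1 : ∀ g : G, (rep D g : ℂ) * χ g
      = (if g = 0 then (D.card : ℂ) else 0) + χ g - (if g ∈ N then χ g else 0) := by
    intro g
    by_cases h0 : g = 0
    · rw [h0, rep_zero, if_pos rfl, if_pos N.zero_mem, AddChar.map_zero_eq_one]; ring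
    · rw [if_neg h0]
      by_cases hN : g ∈ N
      · have : rep D g = 0 := hD0 g hN h0
        rw [if_pos hN, this]; simp
      · have : rep D g = 1 := hD1 g hN
        rw [if_neg hN, this]; simp
  rw [Finset.sum_congr rfl (fun g _ => h1 g), Finset.sum_sub_distrib, Finset.sum_add_distrib,
    Finset.sum_ite_eq' Finset.univ (0 : G), if_pos (Finset.mem_univ _), Finset.sum_filter]

lemma norm_sq_of_nontrivial (χ : AddChar G ℂ) (h : ∃ x ∈ N, χ x ≠ 1) :
    ‖cs χ D‖ ^ 2 = (D.card : ℝ) := by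
  classical
  have h1 := norm_sq_rds N D hD1 hD0 χ
  rw [sum_subgroup_zero N χ h] at h1
  have h2 : ∑ g, χ g = 0 := by
    have h3 := sum_subgroup_zero (⊤ : AddSubgroup G) χ (by
      obtain ⟨x, _, hx⟩ := h
      exact ⟨x, AddSubgroup.mem_top x, hx⟩)
    simpa using h3
  rw [h2, add_zero, sub_zero] at h1
  exact_mod_cast h1

lemma norm_sq_of_trivial (χ : AddChar G ℂ) (h : ∀ x ∈ N, χ x = 1) (h' : ∃ x, χ x ≠ 1)
    (hN : Nat.card N = D.card) : cs χ D = 0 := by
  classical
  have h1 := norm_sq_rds N D hD1 hD0 χ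
  have h2 : ∑ g, χ g = 0 := by
    have h3 := sum_subgroup_zero (⊤ : AddSubgroup G) χ (by
      obtain ⟨x, hx⟩ := h'
      exact ⟨x, AddSubgroup.mem_top x, hx⟩)
    simpa using h3
  have h3 : ∑ g ∈ Finset.univ.filter (· ∈ N), χ g = (D.card : ℂ) := by
    rw [Finset.sum_congr rfl (g := fun _ => (1:ℂ)) (fun g hg => h g
      (Finset.mem_filter.mp hg).2), Finset.sum_const, nsmul_eq_mul, mul_one,
      card_filter_subgroup, hN]
  rw [h2, h3, add_zero, sub_self] at h1
  have h4 : ‖cs χ D‖ ^ 2 = (0:ℝ) := by exact_mod_cast h1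
  rw [sq_eq_zero_iff, norm_eq_zero] at h4
  exact h4

end RDS

end Pool.Agent.H56.RDS
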