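import Mathlib
import Pool.Agent.H56.RDSNum
import Pool.Agent.H56.RDSChar

set_option autoImplicit false
set_option linter.unusedSectionVars false

namespace Pool.Agent.H56.RDS

open Finset

lemma sum_roots {p : ℕ} (u : ℂ) (hu : u ^ p = 1) :
    ∑ j ∈ Finset.range p, u ^ j = if u = 1 then (p : ℂ) else 0 := by
  by_cases h : u = 1
  · rw [if_pos h, h]; simp
  · rw [if_neg h]
    have h1 := mul_geom_sum u p
    rw [hu, sub_self] at h1
    rcases mul_eq_zero.mp h1 with h2 | h2
    · exact absurd (sub_eq_zero.mp h2) h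
    · exact h2

section Main

variable {G : Type} [AddCommGroup G] [Fintype G] [DecidableEq G]
variable {p k b : ℕ} [hp : Fact p.Prime]

/-- The part of `D` over `a` under multiplication by `q`. -/
def part (D : Finset G) (q : ℕ) (a : G) : Finset G := D.filter (fun d => q • d = a)

lemma part_subset (D : Finset G) (q : ℕ) (a : G) : part D q a ⊆ D := Finset.filter_subset _ _

lemma sum_cs_part (χ : AddChar G ℂ) (D : Finset G) (q : ℕ) :
    ∑ a, cs χ (part D q a) = cs χ D := by
  unfold cs part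
  exact Finset.sum_fiberwise D (fun d => q • d) (fun d => χ d)

lemma sum_card_part (D : Finset G) (q : ℕ) : ∑ a, (part D q a).card = D.card := by
  unfold part
  rw [← Finset.card_eq_sum_card_fiberwise (fun x _ => Finset.mem_univ _)]

/-- A nontrivial character is injective on a subgroup of prime order. -/
lemma inj_on_prime (A : AddSubgroup G) (hAc : Nat.card A = p) (χ : AddChar G ℂ)
    (h : ∃ x ∈ A, χ x ≠ 1) {a : G} (ha : a ∈ A) (h1 : χ a = 1) : a = 0 := by
  let K : AddSubgroup G :=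
    { carrier := {x | x ∈ A ∧ χ x = 1}
      zero_mem' := ⟨A.zero_mem, AddChar.map_zero_eq_one χ⟩
      add_mem' := by
        rintro x y ⟨hx, hx'⟩ ⟨hy, hy'⟩
        exact ⟨A.add_mem hx hy, by rw [AddChar.map_add_eq_mul, hx', hy', one_mul]⟩
      neg_mem' := by
        rintro x ⟨hx, hx'⟩
        exact ⟨A.neg_mem hx, by rw [AddChar.map_neg_eq_inv, hx', inv_one]⟩ }
  have hK : K ≤ A := fun x hx => hx.1
  have hcard : Nat.card K ∣ Nat.card A := AddSubgroup.card_dvd_of_le hK
  rw [hAc] at hcard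
  rcases (Nat.dvd_prime hp.out).mp hcard with h2 | h2
  · have h3 : K = ⊥ := AddSubgroup.card_eq_one.mp h2
    have h4 : a ∈ K := ⟨ha, h1⟩
    rw [h3] at h4
    exact h4
  · exfalso
    have h3 : K = A := AddSubgroup.eq_of_le_of_card_ge hK (by rw [h2, hAc])
    obtain ⟨x, hx, hx'⟩ := h
    rw [← h3] at hx
    exact hx' hx.2

variable (N : AddSubgroup G) (D : Finset G)
  (hD1 : ∀ g : G, g ∉ N → ((D ×ˢ D).filter (fun x => x.1 - x.2 = g)).card = 1)
  (hD0 : ∀ g : G, g ∈ N → g ≠ 0 → ((D ×ˢ D).filter (fun x => x.1 - x.2 = g)).card = 0)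

include hD1 hD0

/-- The character sum is carried by one of the parts. -/
theorem carried (hp2 : p ≠ 2) (hk : 1 ≤ k) (hDc : D.card = p ^ b)
    (hexp : ∀ g : G, p ^ (k + 1) • g = 0) (A : AddSubgroup G) (hA : ∀ g : G, p ^ k • g ∈ A)
    (hAc : Nat.card A = p) (χ : AddChar G ℂ) (h1 : ∃ x ∈ N, χ x ≠ 1) (h2 : ∃ x ∈ A, χ x ≠ 1) :
    ∃ a : G, ‖cs χ (part D (p ^ k) a)‖ ^ 2 = (p : ℝ) ^ b := by
  classical
  have hpp := hp.out
  have hp0 : (p : ℝ) ≠ 0 := by exact_mod_cast hpp.ne_zero
  have hq0 : p ^ (k + 1) ≠ 0 := pow_ne_zero _ hpp.ne_zero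
  obtain ⟨ζ, hζ⟩ : ∃ ζ : ℂ, IsPrimitiveRoot ζ (p ^ (k + 1)) :=
    ⟨_, Complex.isPrimitiveRoot_exp _ hq0⟩
  have hval : ∀ g : G, ∃ i : ℕ, ζ ^ i = χ g := by
    intro g
    have h3 : χ g ^ (p ^ (k + 1)) = 1 := by
      rw [← AddChar.map_nsmul_eq_pow, hexp, AddChar.map_zero_eq_one]
    have : NeZero (p ^ (k + 1)) := ⟨hq0⟩
    obtain ⟨i, _, hi⟩ := hζ.eq_pow_of_pow_eq_one h3
    exact ⟨i, hi⟩
  choose i hi using hval
  have hsum : ∀ t : ℕ, ∑ d ∈ D, ζ ^ (t * i d) = cs (χ ^ t) D := by
    intro t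
    unfold cs
    refine Finset.sum_congr rfl (fun d _ => ?_)
    rw [AddChar.pow_apply, ← hi d, ← pow_mul, mul_comm]
  obtain ⟨ω, hω1, hω2⟩ := key_num (p := p) (k := k) hp2 hk D i b ζ hζ (by
    intro t ht
    rw [hsum, norm_sq_of_nontrivial N D hD1 hD0 (χ ^ t) ?_, hDc]
    · push_cast; rfl
    · obtain ⟨x, hx, hx'⟩ := h1
      refine ⟨x, hx, fun h3 => hx' ?_⟩
      rw [AddChar.pow_apply] at h3
      have h4 : χ x ^ (p ^ (k + 1)) = 1 := by
        rw [← AddChar.map_nsmul_eq_pow, hexp, AddChar.map_zero_eq_one]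
      have h5 : orderOf (χ x) ∣ Nat.gcd t (p ^ (k + 1)) :=
        Nat.dvd_gcd (orderOf_dvd_of_pow_eq_one h3) (orderOf_dvd_of_pow_eq_one h4)
      rw [Nat.Coprime.pow_right _ ht] at h5
      exact orderOf_eq_one_iff.mp (Nat.dvd_one.mp h5))
  have hsum1 : ∑ d ∈ D, ζ ^ (i d) = cs χ D := by
    have := hsum 1
    simpa using this
  -- each part gives zero or the full sum
  have hpart : ∀ a : G, cs χ (part D (p ^ k) a) = 0 ∨ cs χ (part D (p ^ k) a) = cs χ D := by
    intro a
    by_cases ha : a ∈ A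
    · set c := χ a with hc
      have hc0 : c ≠ 0 := by
        intro h0
        have := AddChar.norm_apply χ a
        rw [← hc, h0, norm_zero] at this
        exact zero_ne_one this
      have hpa : ∀ x ∈ A, p • x = 0 := by
        intro x hx
        have h3 : p • (⟨x, hx⟩ : A) = 0 := by
          have h4 := card_nsmul_eq_zero' (x := (⟨x, hx⟩ : A))
          rwa [hAc] at h4
        exact congrArg Subtype.val h3
      have hcp : ∀ x ∈ A, χ x ^ p = 1 := by
        intro x hx
        rw [← AddChar.map_nsmul_eq_pow, hpa x hx, AddChar.map_zero_eq_one]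
      -- two evaluations of the same sum
      have hL : ∑ j ∈ Finset.range p, (c⁻¹) ^ j * ∑ d ∈ D, ζ ^ ((1 + j * p ^ k) * i d)
          = (p : ℂ) * cs χ (part D (p ^ k) a) := by
        have e1 : ∀ j ∈ Finset.range p, (c⁻¹) ^ j * ∑ d ∈ D, ζ ^ ((1 + j * p ^ k) * i d)
            = ∑ d ∈ D, χ d * (c⁻¹ * χ (p ^ k • d)) ^ j := by
          intro j _
          rw [Finset.mul_sum]
          refine Finset.sum_congr rfl (fun d _ => ?_)
          have e2 : (1 + j * p ^ k) * i d = i d + (i d) * (p ^ k) * j := by ring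
          rw [e2, pow_add, pow_mul, pow_mul, hi d, mul_pow, AddChar.map_nsmul_eq_pow]
          ring
        rw [Finset.sum_congr rfl e1, Finset.sum_comm]
        have e3 : ∀ d ∈ D, ∑ j ∈ Finset.range p, χ d * (c⁻¹ * χ (p ^ k • d)) ^ j
            = if p ^ k • d = a then (p : ℂ) * χ d else 0 := by
          intro d _
          rw [← Finset.mul_sum, sum_roots]
          · by_cases hd : p ^ k • d = a
            · rw [if_pos hd, if_pos (by rw [hd, ← hc, inv_mul_cancel₀ hc0])]; ring
            · rw [if_neg hd, if_neg, mul_zero]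
              intro h3
              apply hd
              have h4 : χ (p ^ k • d - a) = 1 := by
                rw [AddChar.map_sub_eq_div, ← hc, div_eq_mul_inv, mul_comm, h3]
              exact sub_eq_zero.mp (inj_on_prime A hAc χ h2 (A.sub_mem (hA d) ha) h4)
          · rw [mul_pow, inv_pow, hcp a ha, hcp _ (hA d)]; simp
        rw [Finset.sum_congr rfl e3, ← Finset.sum_filter]
        unfold cs part
        rw [Finset.mul_sum]
      have hR : ∑ j ∈ Finset.range p, (c⁻¹) ^ j * ∑ d ∈ D, ζ ^ ((1 + j * p ^ k) * i d)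
          = (if c⁻¹ * ω = 1 then (p : ℂ) else 0) * cs χ D := by
        rw [← sum_roots (c⁻¹ * ω) (by rw [mul_pow, inv_pow, hcp a ha, hω1]; simp), Finset.sum_mul]
        refine Finset.sum_congr rfl (fun j _ => ?_)
        rw [hω2 j, hsum1, mul_pow]; ring
      rw [hL] at hR
      have hpc : (p : ℂ) ≠ 0 := by exact_mod_cast hpp.ne_zero
      by_cases hcω : c⁻¹ * ω = 1
      · right
        rw [if_pos hcω] at hR
        exact mul_left_cancel₀ hpc hR
      · left
        rw [if_neg hcω, zero_mul] at hR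
        exact (mul_eq_zero.mp hR).resolve_left hpc
    · left
      have : part D (p ^ k) a = ∅ := by
        unfold part
        rw [Finset.filter_eq_empty_iff]
        intro d _ hd
        exact ha (hd ▸ hA d)
      rw [this]; unfold cs; simp
  have hfull : ‖cs χ D‖ ^ 2 = (p : ℝ) ^ b := by
    rw [norm_sq_of_nontrivial N D hD1 hD0 χ h1, hDc]; push_cast; rfl
  have hne : cs χ D ≠ 0 := by
    intro h0
    rw [h0, norm_zero] at hfull
    have : (p : ℝ) ^ b ≠ 0 := pow_ne_zero _ hp0
    exact this (by rw [← hfull]; norm_num)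
  obtain ⟨a, ha⟩ : ∃ a : G, cs χ (part D (p ^ k) a) ≠ 0 := by
    by_contra hcon
    push Not at hcon
    apply hne
    rw [← sum_cs_part χ D (p ^ k)]
    exact Finset.sum_eq_zero (fun a _ => hcon a)
  refine ⟨a, ?_⟩
  rcases hpart a with h3 | h3
  · exact absurd h3 ha
  · rw [h3, hfull]

end Main

end Pool.Agent.H56.RDS
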