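import Mathlib
import Pool.Agent.H56.RDSMain

set_option autoImplicit false
set_option linter.unusedSectionVars false

namespace Pool.Agent.H56.RDS

open Finset

section Final

variable {G : Type} [AddCommGroup G] [Fintype G] [DecidableEq G]
variable {p k b : ℕ} [hp : Fact p.Prime]

/-- The sum of the squares of the sizes of the parts. -/
def s2 (D : Finset G) (q : ℕ) : ℕ := ∑ a, (part D q a).card ^ 2

/-- The fourth moment of the parts. -/
noncomputable def mom (D : Finset G) (q : ℕ) (χ : AddChar G ℂ) : ℝ :=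
  ∑ a, ‖cs χ (part D q a)‖ ^ 4

lemma mom_nonneg (D : Finset G) (q : ℕ) (χ : AddChar G ℂ) : 0 ≤ mom D q χ :=
  Finset.sum_nonneg (fun _ _ => by positivity)

/-- Upper bound for the sum of the fourth moments. -/
lemma sum_mom_le (D : Finset G) (q : ℕ) (hD : ∀ E ⊆ D, ∀ g, g ≠ 0 → rep E g ≤ 1) :
    ∑ χ : AddChar G ℂ, mom D q χ
      ≤ Fintype.card G * (2 * (s2 D q : ℝ) - D.card) := by
  unfold mom
  rw [Finset.sum_comm]
  refine (Finset.sum_le_sum (fun a _ => fourth_moment (part D q a)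
    (hD _ (part_subset D q a)))).trans ?_
  rw [← Finset.mul_sum, Finset.sum_sub_distrib, ← Finset.mul_sum]
  apply mul_le_mul_of_nonneg_left _ (Nat.cast_nonneg _)
  apply le_of_eq
  have h1 := sum_card_part D q
  have h2 : (∑ a, ((part D q a).card : ℝ)) = D.card := by exact_mod_cast h1
  rw [h2]
  unfold s2
  push_cast
  rfl

lemma cs_pow (D : Finset G) (q : ℕ) (ψ : AddChar G ℂ) :
    cs (ψ ^ q) D = ∑ a, ((part D q a).card : ℂ) * ψ a := by
  unfold cs
  rw [← Finset.sum_fiberwise D (fun d => q • d) (fun d => (ψ ^ q) d)]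
  refine Finset.sum_congr rfl (fun a _ => ?_)
  rw [Finset.sum_congr rfl (g := fun _ => ψ a) (fun d hd => by
    rw [AddChar.pow_apply, ← AddChar.map_nsmul_eq_pow, (Finset.mem_filter.mp hd).2]),
    Finset.sum_const, nsmul_eq_mul]
  rfl

/-- Parseval for the sizes of the parts. -/
lemma parseval_s2 (D : Finset G) (q : ℕ) :
    ∑ ψ : AddChar G ℂ, ‖cs (ψ ^ q) D‖ ^ 2 = Fintype.card G * (s2 D q : ℝ) := by
  rw [Finset.sum_congr rfl (fun ψ _ => by rw [cs_pow D q ψ]), parseval]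
  unfold s2
  push_cast
  congr 1
  refine Finset.sum_congr rfl (fun a _ => ?_)
  rw [Complex.norm_natCast]

lemma cs_one (D : Finset G) : cs (1 : AddChar G ℂ) D = D.card := by
  unfold cs
  rw [Finset.sum_congr rfl (g := fun _ => (1 : ℂ)) (fun d _ => AddChar.one_apply d)]
  simp

variable (N : AddSubgroup G) (D : Finset G)
  (hD1 : ∀ g : G, g ∉ N → ((D ×ˢ D).filter (fun x => x.1 - x.2 = g)).card = 1)
  (hD0 : ∀ g : G, g ∈ N → g ≠ 0 → ((D ×ˢ D).filter (fun x => x.1 - x.2 = g)).card = 0)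

include hD1 hD0

/-- The subgroup `p ^ k • G` cannot have order `p`. -/
theorem card_ne_prime (hp2 : p ≠ 2) (hk : 1 ≤ k) (hG : Fintype.card G = p ^ (2 * b))
    (hN : Nat.card N = p ^ b) (hDc : D.card = p ^ b)
    (hexp : ∀ g : G, p ^ (k + 1) • g = 0) (A : AddSubgroup G) (hA : ∀ g : G, p ^ k • g ∈ A)
    (hAs : ∀ a ∈ A, ∃ g : G, p ^ k • g = a) (hAc : Nat.card A = p) : False := by
  classical
  have hpp := hp.out
  have hp3 : 3 ≤ p := by
    have := hpp.two_le
    omega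
  set q := p ^ k with hq
  have hNA : ∀ x ∈ A, p • x = 0 := by
    intro x hx
    have h3 : p • (⟨x, hx⟩ : A) = 0 := by
      have h4 := card_nsmul_eq_zero' (x := (⟨x, hx⟩ : A))
      rwa [hAc] at h4
    exact congrArg Subtype.val h3
  have hqA : ∀ x ∈ A, q • x = 0 := by
    intro x hx
    obtain ⟨m, rfl⟩ : ∃ m, k = m + 1 := ⟨k - 1, by omega⟩
    rw [hq, pow_succ, mul_nsmul', hNA x hx, nsmul_zero]
  -- the characters
  set TA : Finset (AddChar G ℂ) := Finset.univ.filter (fun χ => ∀ x ∈ A, χ x = 1) with hTA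
  set TN : Finset (AddChar G ℂ) := Finset.univ.filter (fun χ => ∀ x ∈ N, χ x = 1) with hTN
  set R : Finset (AddChar G ℂ) := Finset.univ.filter
    (fun χ => (∃ x ∈ N, χ x ≠ 1) ∧ (∃ x ∈ A, χ x ≠ 1)) with hR
  have hcTA : TA.card * p = p ^ (2 * b) := by
    have := card_annihilator A
    rw [hAc, hG] at this
    exact this
  have hcTN : TN.card = p ^ b := by
    have h1 := card_annihilator N
    rw [hN, hG] at h1
    have h2 : p ^ (2 * b) = p ^ b * p ^ b := by rw [two_mul, pow_add]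
    rw [h2] at h1
    exact Nat.eq_of_mul_eq_mul_right (pow_pos hpp.pos _) h1
  have hcU : (Finset.univ : Finset (AddChar G ℂ)).card = p ^ (2 * b) := by
    rw [Finset.card_univ, AddChar.card_eq, hG]
  have hp0R : (0 : ℝ) < p := by exact_mod_cast hpp.pos
  set n : ℝ := (p : ℝ) ^ b with hn
  have hn1 : 1 ≤ n := one_le_pow₀ (by exact_mod_cast hpp.one_le)
  have hDn : (D.card : ℝ) = n := by rw [hDc, hn]; push_cast; rfl
  have hGn : (Fintype.card G : ℝ) = n ^ 2 := by
    rw [hG, hn, ← pow_mul, mul_comm b 2]; push_cast; rfl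
  -- fourth moment, upper bound
  have hup : ∑ χ : AddChar G ℂ, mom D q χ ≤ n ^ 2 * (2 * (s2 D q : ℝ) - n) := by
    have := sum_mom_le D q (fun E hE g hg => rep_le_one N D hD1 hD0 hE g hg)
    rwa [hGn, hDn] at this
  -- an element of order p in A and a character
  obtain ⟨a₀, ha₀, ha₀0⟩ : ∃ a ∈ A, a ≠ 0 := by
    by_contra hcon
    push Not at hcon
    have h1 : A = ⊥ := (AddSubgroup.eq_bot_iff_forall A).mpr hcon
    rw [h1, AddSubgroup.card_bot] at hAc
    omega
  obtain ⟨ψ₁, hψ₁⟩ : ∃ ψ : AddChar G ℂ, ψ a₀ ≠ 1 := AddChar.exists_apply_ne_zero.mpr ha₀0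
  set θ : AddChar G ℂ := ψ₁ ^ q with hθ
  have hθ1 : θ ≠ 1 := by
    obtain ⟨g₀, hg₀⟩ := hAs a₀ ha₀
    intro h1
    apply hψ₁
    rw [← hg₀, AddChar.map_nsmul_eq_pow, ← AddChar.pow_apply, ← hθ, h1, AddChar.one_apply]
  have hθp : θ ^ p = 1 := by
    ext x
    rw [hθ, ← pow_mul, AddChar.pow_apply, ← AddChar.map_nsmul_eq_pow, hq, ← pow_succ, hexp,
      AddChar.map_zero_eq_one, AddChar.one_apply]
  have hord : orderOf θ = p := orderOf_eq_prime hθp hθ1
  set Th : Finset (AddChar G ℂ) := (Finset.range p).image (fun j => θ ^ j) with hTh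
  have hinj : Set.InjOn (fun j => θ ^ j) (Finset.range p : Set ℕ) := by
    intro i hi j hj hij
    have h1 := pow_injOn_Iio_orderOf (x := θ)
    rw [hord] at h1
    apply h1 _ _ hij
    · simpa using hi
    · simpa using hj
  have hθA : ∀ j : ℕ, ∀ x ∈ A, (θ ^ j) x = 1 := by
    intro j x hx
    rw [AddChar.pow_apply, hθ, AddChar.pow_apply, ← AddChar.map_nsmul_eq_pow, hqA x hx,
      AddChar.map_zero_eq_one, one_pow]
  have hdisj : Disjoint R Th := by
    rw [Finset.disjoint_left]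
    intro χ h1 h2
    obtain ⟨_, x, hx, hx'⟩ := (Finset.mem_filter.mp h1).2
    obtain ⟨j, _, rfl⟩ := Finset.mem_image.mp h2
    exact hx' (hθA j x hx)
  -- the moment of the characters in Th
  have hmomTh : ∀ j : ℕ, mom D q (θ ^ j) = ∑ a, ((part D q a).card : ℝ) ^ 4 := by
    intro j
    unfold mom
    refine Finset.sum_congr rfl (fun a _ => ?_)
    have h1 : cs (θ ^ j) (part D q a) = (part D q a).card * (ψ₁ a) ^ j := by
      unfold cs
      rw [Finset.sum_congr rfl (g := fun _ => (ψ₁ a) ^ j) (fun d hd => by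
        rw [AddChar.pow_apply, hθ, AddChar.pow_apply, ← AddChar.map_nsmul_eq_pow,
          (Finset.mem_filter.mp hd).2]), Finset.sum_const, nsmul_eq_mul]
    rw [h1, norm_mul, norm_pow, AddChar.norm_apply, one_pow, mul_one, Complex.norm_natCast]
  have hs4 : (s2 D q : ℝ) ^ 2 ≤ p * ∑ a, ((part D q a).card : ℝ) ^ 4 := by
    have hz : ∀ a : G, a ∉ A → (part D q a).card = 0 := by
      intro a ha
      rw [Finset.card_eq_zero]
      unfold part
      rw [Finset.filter_eq_empty_iff]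
      intro d _ hd
      exact ha (hd ▸ hA d)
    have h1 : (s2 D q : ℝ) = ∑ a ∈ Finset.univ.filter (· ∈ A), ((part D q a).card : ℝ) ^ 2 := by
      unfold s2
      push_cast
      symm
      apply Finset.sum_subset (Finset.filter_subset _ _)
      intro a _ ha
      rw [hz a (fun h => ha (Finset.mem_filter.mpr ⟨Finset.mem_univ _, h⟩))]
      simp
    have h2 : ∑ a, ((part D q a).card : ℝ) ^ 4
        = ∑ a ∈ Finset.univ.filter (· ∈ A), (((part D q a).card : ℝ) ^ 2) ^ 2 := by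
      symm
      rw [← Finset.sum_subset (Finset.filter_subset (· ∈ A) Finset.univ)
        (f := fun a => (((part D q a).card : ℝ)) ^ 4)]
      · refine Finset.sum_congr rfl (fun a _ => by ring)
      · intro a _ ha
        rw [hz a (fun h => ha (Finset.mem_filter.mpr ⟨Finset.mem_univ _, h⟩))]
        simp
    rw [h1, h2]
    have h3 := sq_sum_le_card_mul_sum_sq (s := Finset.univ.filter (· ∈ A))
      (f := fun a => ((part D q a).card : ℝ) ^ 2)
    rw [card_filter_subgroup, hAc] at h3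
    exact h3
  -- the moment of the characters in R
  have hmomR : ∀ χ ∈ R, n ^ 2 ≤ mom D q χ := by
    intro χ hχ
    obtain ⟨h1, h2⟩ := (Finset.mem_filter.mp hχ).2
    obtain ⟨a, ha⟩ := carried N D hD1 hD0 hp2 hk hDc hexp A hA hAc χ h1 h2
    have h3 : n ^ 2 = ‖cs χ (part D q a)‖ ^ 4 := by
      rw [hn, ← ha]; ring
    rw [h3]
    unfold mom
    exact Finset.single_le_sum (f := fun a => ‖cs χ (part D q a)‖ ^ 4)
      (fun _ _ => by positivity) (Finset.mem_univ a)
  have hlow : n ^ 2 * R.card + (s2 D q : ℝ) ^ 2 ≤ ∑ χ : AddChar G ℂ, mom D q χ := by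
    have h1 : ∑ χ ∈ R ∪ Th, mom D q χ ≤ ∑ χ : AddChar G ℂ, mom D q χ :=
      Finset.sum_le_sum_of_subset_of_nonneg (Finset.subset_univ _)
        (fun χ _ _ => mom_nonneg D q χ)
    rw [Finset.sum_union hdisj] at h1
    have h2 : n ^ 2 * R.card ≤ ∑ χ ∈ R, mom D q χ := by
      have := Finset.card_nsmul_le_sum R (mom D q) (n ^ 2) hmomR
      rw [nsmul_eq_mul] at this
      linarith
    have h3 : ∑ χ ∈ Th, mom D q χ = p * ∑ a, ((part D q a).card : ℝ) ^ 4 := by
      rw [hTh, Finset.sum_image hinj, Finset.sum_congr rfl (fun j _ => hmomTh j),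
        Finset.sum_const, Finset.card_range, nsmul_eq_mul]
    rw [h3] at h1
    linarith
  have hmain := hlow.trans hup
  -- the numbers
  set t : ℝ := (TA.card : ℝ) with ht
  have htp : t * p = n ^ 2 := by
    rw [ht, hn, ← pow_mul, mul_comm b 2]
    exact_mod_cast hcTA
  have hp3R : (3 : ℝ) ≤ p := by exact_mod_cast hp3
  have ht0 : 0 < t := by
    have h1 : 0 < t * p := by rw [htp]; positivity
    exact (pos_iff_pos_of_mul_pos h1).mpr hp0R
  have hPs := parseval_s2 D q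
  rw [hGn] at hPs
  have hpoly : 0 < (p : ℝ) ^ 2 - 3 * p + 1 := by nlinarith
  have hAtriv : ∀ ψ ∈ TA, ‖cs (ψ ^ q) D‖ ^ 2 = n ^ 2 := by
    intro ψ hψ
    have h1 : ψ ^ q = 1 := by
      ext x
      rw [AddChar.pow_apply, ← AddChar.map_nsmul_eq_pow, (Finset.mem_filter.mp hψ).2 _ (hA x),
        AddChar.one_apply]
    rw [h1, cs_one, Complex.norm_natCast, hDn]
  have hsplit : ∑ ψ : AddChar G ℂ, ‖cs (ψ ^ q) D‖ ^ 2
      = t * n ^ 2 + ∑ ψ ∈ Finset.univ.filter (fun χ : AddChar G ℂ => ¬ ∀ x ∈ A, χ x = 1),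
          ‖cs (ψ ^ q) D‖ ^ 2 := by
    rw [← Finset.sum_filter_add_sum_filter_not Finset.univ
      (fun χ : AddChar G ℂ => ∀ x ∈ A, χ x = 1) (fun ψ => ‖cs (ψ ^ q) D‖ ^ 2)]
    congr 1
    rw [Finset.sum_congr rfl hAtriv, Finset.sum_const, nsmul_eq_mul]
  by_cases hcase : ∀ g ∈ N, q • g = 0
  · -- first case
    have h0 : ∀ ψ ∈ Finset.univ.filter (fun χ : AddChar G ℂ => ¬ ∀ x ∈ A, χ x = 1),
        ‖cs (ψ ^ q) D‖ ^ 2 = 0 := by
      intro ψ hψ
      have h1 := (Finset.mem_filter.mp hψ).2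
      push Not at h1
      obtain ⟨x, hx, hx'⟩ := h1
      rw [norm_sq_of_trivial N D hD1 hD0 (ψ ^ q) ?_ ?_ (by rw [hN, hDc])]
      · simp
      · intro y hy
        rw [AddChar.pow_apply, ← AddChar.map_nsmul_eq_pow, hcase y hy, AddChar.map_zero_eq_one]
      · obtain ⟨g, hg⟩ := hAs x hx
        refine ⟨g, ?_⟩
        rw [AddChar.pow_apply, ← AddChar.map_nsmul_eq_pow, hg]
        exact hx'
    rw [hsplit, Finset.sum_eq_zero h0, add_zero] at hPs
    have hst : (s2 D q : ℝ) = t := by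
      have h2 : n ^ 2 ≠ 0 := by positivity
      have h3 : n ^ 2 * (s2 D q : ℝ) = n ^ 2 * t := by linarith
      exact mul_left_cancel₀ h2 h3
    have hcov : (Finset.univ : Finset (AddChar G ℂ)) ⊆ (R ∪ TA) ∪ TN := by
      intro χ _
      by_cases h1 : ∀ x ∈ A, χ x = 1
      · exact Finset.mem_union_left _ (Finset.mem_union_right _
          (Finset.mem_filter.mpr ⟨Finset.mem_univ _, h1⟩))
      · by_cases h2 : ∀ x ∈ N, χ x = 1
        · exact Finset.mem_union_right _ (Finset.mem_filter.mpr ⟨Finset.mem_univ _, h2⟩)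
        · push Not at h1 h2
          exact Finset.mem_union_left _ (Finset.mem_union_left _
            (Finset.mem_filter.mpr ⟨Finset.mem_univ _, h2, h1⟩))
    have hcr : n ^ 2 ≤ R.card + t + n := by
      have h1 := (Finset.card_le_card hcov).trans (Finset.card_union_le _ _)
      have h2 := h1.trans (Nat.add_le_add_right (Finset.card_union_le R TA) TN.card)
      rw [hcU, hcTN] at h2
      have h3 : ((p ^ (2 * b) : ℕ) : ℝ) ≤ ((R.card + TA.card + p ^ b : ℕ) : ℝ) := by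
        exact_mod_cast h2
      push_cast at h3
      rw [ht, hn, ← pow_mul, mul_comm b 2]
      linarith
    rw [hst] at hmain
    have h1 : n ^ 2 * (n ^ 2 - t - n) ≤ n ^ 2 * R.card :=
      mul_le_mul_of_nonneg_left (by linarith) (by positivity)
    have h2 : n ^ 2 * (n ^ 2 - t - n) + t ^ 2 ≤ n ^ 2 * (2 * t - n) := by linarith
    have h3 : t ^ 2 * ((p : ℝ) ^ 2 - 3 * p + 1) ≤ 0 := by
      have h4 : n ^ 2 * (n ^ 2 - t - n) + t ^ 2 - n ^ 2 * (2 * t - n)
          = t ^ 2 * ((p : ℝ) ^ 2 - 3 * p + 1) := by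
        have h5 : n ^ 2 * (n ^ 2 - t - n) + t ^ 2 - n ^ 2 * (2 * t - n)
          = n ^ 2 * n ^ 2 - 3 * t * n ^ 2 + t ^ 2 := by ring
        rw [h5, ← htp]; ring
      linarith
    have h4 : 0 < t ^ 2 * ((p : ℝ) ^ 2 - 3 * p + 1) := by positivity
    linarith
  · -- second case
    push Not at hcase
    obtain ⟨g, hgN, hg⟩ := hcase
    have hns : ∀ χ : AddChar G ℂ, (∃ x ∈ A, χ x ≠ 1) → χ (q • g) ≠ 1 := by
      intro χ hχ h1
      exact hg (inj_on_prime A hAc χ hχ (hA g) h1)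
    have h0 : ∀ ψ ∈ Finset.univ.filter (fun χ : AddChar G ℂ => ¬ ∀ x ∈ A, χ x = 1),
        ‖cs (ψ ^ q) D‖ ^ 2 = n := by
      intro ψ hψ
      have h1 := (Finset.mem_filter.mp hψ).2
      push Not at h1
      rw [norm_sq_of_nontrivial N D hD1 hD0 (ψ ^ q) ⟨g, hgN, ?_⟩, hDn]
      rw [AddChar.pow_apply, ← AddChar.map_nsmul_eq_pow]
      exact hns ψ h1
    have hcnt : ((Finset.univ.filter (fun χ : AddChar G ℂ => ¬ ∀ x ∈ A, χ x = 1)).card : ℝ)
        = n ^ 2 - t := by
      have h1 := Finset.card_filter_add_card_filter_not (s := (Finset.univ : Finset (AddChar G ℂ)))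
        (fun χ : AddChar G ℂ => ∀ x ∈ A, χ x = 1)
      rw [hcU] at h1
      have h2 : ((TA.card : ℝ) + ((Finset.univ.filter
          (fun χ : AddChar G ℂ => ¬ ∀ x ∈ A, χ x = 1)).card : ℝ)) = ((p ^ (2 * b) : ℕ) : ℝ) := by
        exact_mod_cast h1
      push_cast at h2
      rw [ht, hn, ← pow_mul, mul_comm b 2]
      linarith
    rw [hsplit, Finset.sum_congr rfl h0, Finset.sum_const, nsmul_eq_mul, hcnt] at hPs
    have hsub : (Finset.univ.filter (fun χ : AddChar G ℂ => ¬ ∀ x ∈ A, χ x = 1)) ⊆ R := by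
      intro χ hχ
      have h1 := (Finset.mem_filter.mp hχ).2
      push Not at h1
      refine Finset.mem_filter.mpr ⟨Finset.mem_univ _, ?_, h1⟩
      by_contra h2
      push Not at h2
      refine hns χ h1 ?_
      rw [AddChar.map_nsmul_eq_pow, h2 g hgN, one_pow]
    have hcr : n ^ 2 - t ≤ R.card := by
      rw [← hcnt]
      exact_mod_cast Finset.card_le_card hsub
    set s : ℝ := (s2 D q : ℝ) with hs
    have h1 : n ^ 2 * (n ^ 2 - t) ≤ n ^ 2 * R.card :=
      mul_le_mul_of_nonneg_left hcr (by positivity)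
    have h2 : n ^ 2 * (n ^ 2 - t) + s ^ 2 ≤ n ^ 2 * (2 * s - n) := by linarith
    have hps : p * s = n ^ 2 + (p - 1) * n := by
      have h3 : t * (p * s) = t * (n ^ 2 + (p - 1) * n) := by
        have h4 : t * (p * s) = n ^ 2 * s := by rw [← htp]; ring
        rw [h4, ← hPs, ← htp]; ring
      exact mul_left_cancel₀ ht0.ne' h3
    have h3 : 0 ≤ (p : ℝ) ^ 2 * (n ^ 2 * (2 * s - n) - (n ^ 2 * (n ^ 2 - t) + s ^ 2)) := by
      apply mul_nonneg (by positivity)
      linarith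
    have h4 : (p : ℝ) ^ 2 * (n ^ 2 * (2 * s - n) - (n ^ 2 * (n ^ 2 - t) + s ^ 2))
        = 2 * p * n ^ 2 * (p * s) - p ^ 2 * n ^ 3 - p ^ 2 * n ^ 4 + p * n ^ 2 * (t * p)
          - (p * s) ^ 2 := by ring
    rw [h4, hps, htp] at h3
    have h5 : n ^ 2 * ((p : ℝ) ^ 2 - 3 * p + 1) - n * ((p : ℝ) ^ 2 - 4 * p + 2)
        + (p - 1) ^ 2 ≤ 0 := by
      have h6 : 2 * p * n ^ 2 * (n ^ 2 + (p - 1) * n) - p ^ 2 * n ^ 3 - p ^ 2 * n ^ 4
          + p * n ^ 2 * n ^ 2 - (n ^ 2 + (p - 1) * n) ^ 2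
          = - (n ^ 2 * (n ^ 2 * ((p : ℝ) ^ 2 - 3 * p + 1) - n * ((p : ℝ) ^ 2 - 4 * p + 2)
            + (p - 1) ^ 2)) := by ring
      rw [h6] at h3
      by_contra hcon
      push Not at hcon
      have : 0 < n ^ 2 * (n ^ 2 * ((p : ℝ) ^ 2 - 3 * p + 1) - n * ((p : ℝ) ^ 2 - 4 * p + 2)
            + (p - 1) ^ 2) := by positivity
      linarith
    have h6 : n * ((p : ℝ) ^ 2 - 3 * p + 1) ≤ n ^ 2 * ((p : ℝ) ^ 2 - 3 * p + 1) :=
      mul_le_mul_of_nonneg_right (by nlinarith) hpoly.le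
    have h7 : n * ((p : ℝ) ^ 2 - 3 * p + 1) - n * ((p : ℝ) ^ 2 - 4 * p + 2)
        = n * (p - 1) := by ring
    have h8 : 0 < n * ((p : ℝ) - 1) := mul_pos (by linarith) (by linarith)
    have h9 : 0 ≤ ((p : ℝ) - 1) ^ 2 := sq_nonneg _
    linarith

end Final

end Pool.Agent.H56.RDS
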