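import Mathlib

set_option autoImplicit false

namespace Pool.Agent.H56.Minor

/-- `H` is a minor of `G`: there are pairwise disjoint connected (in particular nonempty) branch
sets in `G`, one for each vertex of `H`, with an edge of `G` between the branch sets of any two
adjacent vertices of `H`. -/
def IsMinor {α β : Type} (H : SimpleGraph α) (G : SimpleGraph β) : Prop :=
  ∃ φ : α → Set β, (∀ a, (G.induce (φ a)).Connected) ∧
    (∀ a a', a ≠ a' → Disjoint (φ a) (φ a')) ∧
    (∀ a a', H.Adj a a' → ∃ x ∈ φ a, ∃ y ∈ φ a', G.Adj x y)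

/-- The average degree of a graph on `n` vertices. -/
noncomputable def avgDeg {n : ℕ} (G : SimpleGraph (Fin n)) : ℝ := 2 * (G.edgeSet.ncard : ℝ) / n

/-- The minor-forcing average-degree threshold `f(H)`: the infimum of the reals `c` such that
every (finite nonempty) graph of average degree at least `c` contains `H` as a minor. -/
noncomputable def threshold {α : Type} (H : SimpleGraph α) : ℝ :=
  sInf {c : ℝ | ∀ n : ℕ, 0 < n → ∀ G : SimpleGraph (Fin n), c ≤ avgDeg G → IsMinor H G}

/-- The graph obtained from `H₀` by adding `s` new dominant vertices: the new vertices are the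
`Sum.inr j`, they form a clique and each of them is adjacent to every vertex of `H₀`. -/
def addDominant {α : Type} (H₀ : SimpleGraph α) (s : ℕ) : SimpleGraph (α ⊕ Fin s) where
  Adj x y := x ≠ y ∧ ∀ u v, x = Sum.inl u → y = Sum.inl v → H₀.Adj u v
  symm := ⟨fun _ _ h => ⟨h.1.symm, fun u v hu hv => (h.2 v u hv hu).symm⟩⟩
  loopless := ⟨fun _ h => h.1 rfl⟩

end Pool.Agent.H56.Minor
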