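import Mathlib
import Pool.Agent.H56.MinorDefs

set_option autoImplicit false
set_option linter.unusedSectionVars false

namespace Pool.Agent.H56.Minor

open Finset

lemma union_connected {W V : Type} (Q : SimpleGraph W) (G : SimpleGraph V) (A : Set W)
    (φ : W → Set V) (hc : ∀ x ∈ A, (G.induce (φ x)).Connected)
    (hadj : ∀ x ∈ A, ∀ y ∈ A, Q.Adj x y → ∃ a ∈ φ x, ∃ b ∈ φ y, G.Adj a b)
    (hA : (Q.induce A).Connected) : (G.induce (⋃ x ∈ A, φ x)).Connected := by
  set U : Set V := ⋃ x ∈ A, φ x with hU
  have hsub : ∀ x ∈ A, φ x ⊆ U := fun x hx => Set.subset_biUnion_of_mem (u := φ) hx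
  have key1 : ∀ x (hx : x ∈ A) (p q : V) (hp : p ∈ φ x) (hq : q ∈ φ x),
      (G.induce U).Reachable ⟨p, hsub x hx hp⟩ ⟨q, hsub x hx hq⟩ := by
    intro x hx p q hp hq
    have h := (hc x hx).preconnected ⟨p, hp⟩ ⟨q, hq⟩
    exact h.map (G.induceHomOfLE (hsub x hx)).toHom
  have key2 : ∀ (x y : A) (_ : (Q.induce A).Walk x y) (p q : V) (hp : p ∈ φ x) (hq : q ∈ φ y),
      (G.induce U).Reachable ⟨p, hsub x x.2 hp⟩ ⟨q, hsub y y.2 hq⟩ := by
    intro x y w
    induction w with
    | nil => intro p q hp hq; exact key1 _ (Subtype.property _) p q hp hq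
    | @cons u v w' h _ ih =>
      intro p q hp hq
      have huv : Q.Adj u v := h
      obtain ⟨a, ha, b, hb, hab⟩ := hadj u u.2 v v.2 huv
      have r1 := key1 u u.2 p a hp ha
      have r2 : (G.induce U).Reachable ⟨a, hsub u u.2 ha⟩ ⟨b, hsub v v.2 hb⟩ :=
        SimpleGraph.Adj.reachable (by simpa using hab)
      exact (r1.trans r2).trans (ih b q hb hq)
  obtain ⟨⟨x0, hx0⟩⟩ := hA.nonempty
  obtain ⟨⟨p0, hp0⟩⟩ := (hc x0 hx0).nonempty
  rw [SimpleGraph.connected_iff_exists_forall_reachable]
  refine ⟨⟨p0, hsub x0 hx0 hp0⟩, ?_⟩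
  rintro ⟨q, hq⟩
  have hq' := hq
  rw [hU, Set.mem_iUnion₂] at hq'
  obtain ⟨y, hy, hqy⟩ := hq'
  obtain ⟨w⟩ := hA.preconnected ⟨x0, hx0⟩ ⟨y, hy⟩
  exact key2 _ _ w p0 q hp0 hqy

lemma singleton_connected {V : Type} (G : SimpleGraph V) (x : V) :
    (G.induce ({x} : Set V)).Connected := by
  have : Nonempty ({x} : Set V) := ⟨⟨x, rfl⟩⟩
  exact ⟨SimpleGraph.Preconnected.of_subsingleton⟩

section Active

variable {V : Type} [Fintype V] [DecidableEq V]

open Classical in
/-- Degree of `x` inside `S`. -/
noncomputable def dg (Q : SimpleGraph V) (S : Finset V) (x : V) : ℕ := (S.filter (Q.Adj x)).card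

open Classical in
/-- Number of common neighbours of `x` and `y` inside `S`. -/
noncomputable def cod (Q : SimpleGraph V) (S : Finset V) (x y : V) : ℕ :=
  (S.filter (fun z => Q.Adj x z ∧ Q.Adj y z)).card

/-- Twice the number of edges inside `S`. -/
noncomputable def E2 (Q : SimpleGraph V) (S : Finset V) : ℕ := ∑ x ∈ S, dg Q S x

/-- The graph `Q` restricted to `S` is a minor of `G`. -/
def MinorOn (G : SimpleGraph V) (S : Finset V) (Q : SimpleGraph V) : Prop :=
  ∃ φ : V → Set V, (∀ x ∈ S, (G.induce (φ x)).Connected) ∧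
    (∀ x ∈ S, ∀ y ∈ S, x ≠ y → Disjoint (φ x) (φ y)) ∧
    (∀ x ∈ S, ∀ y ∈ S, Q.Adj x y → ∃ a ∈ φ x, ∃ b ∈ φ y, G.Adj a b)

lemma MinorOn.mono {G : SimpleGraph V} {S T : Finset V} {Q : SimpleGraph V}
    (h : MinorOn G S Q) (hT : T ⊆ S) : MinorOn G T Q := by
  obtain ⟨φ, h1, h2, h3⟩ := h
  exact ⟨φ, fun x hx => h1 x (hT hx), fun x hx y hy => h2 x (hT hx) y (hT hy),
    fun x hx y hy => h3 x (hT hx) y (hT hy)⟩

lemma MinorOn.self (G : SimpleGraph V) : MinorOn G Finset.univ G := by
  refine ⟨fun x => {x}, fun x _ => ?_, fun x _ y _ hxy => ?_, fun x _ y _ hxy => ?_⟩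
  · exact singleton_connected G x
  · simpa using hxy
  · exact ⟨x, rfl, y, rfl, hxy⟩

/-- Contract the edge `u v` into `u`. -/
def contr (Q : SimpleGraph V) (u v : V) : SimpleGraph V where
  Adj x y := x ≠ y ∧ (Q.Adj x y ∨ (x = u ∧ Q.Adj v y) ∨ (y = u ∧ Q.Adj v x))
  symm := ⟨fun x y h => ⟨h.1.symm, by
    rcases h.2 with h | h | h
    · exact Or.inl h.symm
    · exact Or.inr (Or.inr h)
    · exact Or.inr (Or.inl h)⟩⟩
  loopless := ⟨fun x h => h.1 rfl⟩

lemma MinorOn.contr {G : SimpleGraph V} {S : Finset V} {Q : SimpleGraph V}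
    (h : MinorOn G S Q) {u v : V} (hu : u ∈ S) (hv : v ∈ S) (huv : Q.Adj u v) :
    MinorOn G (S.erase v) (contr Q u v) := by
  obtain ⟨φ, h1, h2, h3⟩ := h
  have hne : u ≠ v := huv.ne
  refine ⟨Function.update φ u (φ u ∪ φ v), fun x hx => ?_, fun x hx y hy hxy => ?_,
    fun x hx y hy hxy => ?_⟩
  · have hxS := Finset.mem_of_mem_erase hx
    by_cases hxu : x = u
    · subst hxu
      rw [Function.update_self]
      obtain ⟨a, ha, b, hb, hab⟩ := h3 x hu v hv huv
      exact SimpleGraph.connected_induce_union (h1 x hu).preconnected (h1 v hv).preconnected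
        ha hb hab
    · rw [Function.update_of_ne hxu]
      exact h1 x hxS
  · have hxS := Finset.mem_of_mem_erase hx
    have hyS := Finset.mem_of_mem_erase hy
    have hxv := Finset.ne_of_mem_erase hx
    have hyv := Finset.ne_of_mem_erase hy
    by_cases hxu : x = u
    · subst hxu
      rw [Function.update_self, Function.update_of_ne hxy.symm]
      rw [Set.disjoint_union_left]
      exact ⟨h2 x hxS y hyS hxy, h2 v hv y hyS hyv.symm⟩
    · rw [Function.update_of_ne hxu]
      by_cases hyu : y = u
      · subst hyu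
        rw [Function.update_self, Set.disjoint_union_right]
        exact ⟨h2 x hxS y hyS hxy, h2 x hxS v hv hxv⟩
      · rw [Function.update_of_ne hyu]
        exact h2 x hxS y hyS hxy
  · have hxS := Finset.mem_of_mem_erase hx
    have hyS := Finset.mem_of_mem_erase hy
    have sub : ∀ z, φ z ⊆ Function.update φ u (φ u ∪ φ v) z := by
      intro z
      by_cases hz : z = u
      · subst hz
        rw [Function.update_self]
        exact Set.subset_union_left
      · rw [Function.update_of_ne hz]
    have subv : φ v ⊆ Function.update φ u (φ u ∪ φ v) u := by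
      rw [Function.update_self]
      exact Set.subset_union_right
    rcases hxy.2 with h | ⟨hxu, h⟩ | ⟨hyu, h⟩
    · obtain ⟨a, ha, b, hb, hab⟩ := h3 x hxS y hyS h
      exact ⟨a, sub x ha, b, sub y hb, hab⟩
    · obtain ⟨a, ha, b, hb, hab⟩ := h3 v hv y hyS h
      exact ⟨a, by rw [hxu]; exact subv ha, b, sub y hb, hab⟩
    · obtain ⟨a, ha, b, hb, hab⟩ := h3 v hv x hxS h
      exact ⟨b, sub x hb, a, by rw [hyu]; exact subv ha, hab.symm⟩

lemma E2_erase {Q : SimpleGraph V} {S : Finset V} {v : V} (hv : v ∈ S) :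
    E2 Q S = E2 Q (S.erase v) + 2 * dg Q S v := by
  classical
  unfold E2
  rw [← Finset.add_sum_erase S _ hv]
  have h1 : ∀ x ∈ S.erase v, dg Q S x = dg Q (S.erase v) x + (if Q.Adj v x then 1 else 0) := by
    intro x hx
    unfold dg
    have e : S = insert v (S.erase v) := (Finset.insert_erase hv).symm
    conv_lhs => rw [e]
    rw [Finset.filter_insert]
    by_cases h : Q.Adj v x
    · rw [if_pos h.symm, if_pos h, Finset.card_insert_of_notMem]
      simp
    · rw [if_neg (fun h' => h h'.symm), if_neg h, add_zero]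
  rw [Finset.sum_congr rfl h1, Finset.sum_add_distrib, ← Finset.card_filter]
  have h2 : ((S.erase v).filter (Q.Adj v)).card = dg Q S v := by
    unfold dg
    congr 1
    ext x
    simp only [Finset.mem_filter, Finset.mem_erase]
    constructor
    · rintro ⟨⟨_, h⟩, h'⟩; exact ⟨h, h'⟩
    · rintro ⟨h, h'⟩; exact ⟨⟨h'.ne.symm, h⟩, h'⟩
  rw [h2]
  ring

lemma E2_contr {Q : SimpleGraph V} {S : Finset V} {u v : V} (hu : u ∈ S) (hv : v ∈ S)
    (huv : Q.Adj u v) :
    E2 Q S ≤ E2 (contr Q u v) (S.erase v) + 2 * cod Q S u v + 2 := by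
  classical
  have hne : u ≠ v := huv.ne
  have hu' : u ∈ S.erase v := Finset.mem_erase.mpr ⟨hne, hu⟩
  -- degrees of the other vertices
  have h1 : ∀ x ∈ (S.erase v).erase u, dg Q S x ≤ dg (contr Q u v) (S.erase v) x
      + (if Q.Adj u x ∧ Q.Adj v x then 1 else 0) := by
    intro x hx
    have hxu : x ≠ u := Finset.ne_of_mem_erase hx
    have hx2 := Finset.mem_of_mem_erase hx
    have hxv : x ≠ v := Finset.ne_of_mem_erase hx2
    unfold dg
    by_cases hvx : Q.Adj v x
    · by_cases hux : Q.Adj u x
      · rw [if_pos ⟨hux, hvx⟩]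
        calc (S.filter (Q.Adj x)).card
            ≤ (insert v ((S.erase v).filter ((contr Q u v).Adj x))).card := by
              apply Finset.card_le_card
              intro y hy
              rw [Finset.mem_filter] at hy
              by_cases hyv : y = v
              · rw [hyv]; exact Finset.mem_insert_self _ _
              · refine Finset.mem_insert_of_mem (Finset.mem_filter.mpr
                  ⟨Finset.mem_erase.mpr ⟨hyv, hy.1⟩, ?_⟩)
                exact ⟨hy.2.ne, Or.inl hy.2⟩
          _ ≤ _ := Finset.card_insert_le _ _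
      · rw [if_neg (fun h => hux h.1), add_zero]
        -- replace v by u
        calc (S.filter (Q.Adj x)).card
            = ((insert u ((S.filter (Q.Adj x)).erase v))).card := by
              have hvm : v ∈ S.filter (Q.Adj x) := Finset.mem_filter.mpr ⟨hv, hvx.symm⟩
              rw [Finset.card_insert_of_notMem, Finset.card_erase_of_mem hvm]
              · have : 0 < (S.filter (Q.Adj x)).card := Finset.card_pos.mpr ⟨v, hvm⟩
                omega
              · intro h
                have := (Finset.mem_filter.mp (Finset.mem_of_mem_erase h)).2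
                exact hux this.symm
          _ ≤ ((S.erase v).filter ((contr Q u v).Adj x)).card := by
              apply Finset.card_le_card
              intro y hy
              rcases Finset.mem_insert.mp hy with hy | hy
              · rw [hy]
                exact Finset.mem_filter.mpr ⟨hu', hxu, Or.inr (Or.inr ⟨rfl, hvx⟩)⟩
              · have hyv := Finset.ne_of_mem_erase hy
                have hy' := Finset.mem_filter.mp (Finset.mem_of_mem_erase hy)
                exact Finset.mem_filter.mpr ⟨Finset.mem_erase.mpr ⟨hyv, hy'.1⟩,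
                  hy'.2.ne, Or.inl hy'.2⟩
    · refine le_trans ?_ (Nat.le_add_right _ _)
      apply Finset.card_le_card
      intro y hy
      rw [Finset.mem_filter] at hy
      have hyv : y ≠ v := by
        rintro rfl
        exact hvx hy.2.symm
      exact Finset.mem_filter.mpr ⟨Finset.mem_erase.mpr ⟨hyv, hy.1⟩, hy.2.ne, Or.inl hy.2⟩
  -- degrees of u and v
  have h2 : dg Q S u + dg Q S v ≤ dg (contr Q u v) (S.erase v) u + cod Q S u v + 2 := by
    unfold dg cod
    have e1 := Finset.card_union_add_card_inter (S.filter (Q.Adj u)) (S.filter (Q.Adj v))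
    have e2 : (S.filter (Q.Adj u)) ∩ (S.filter (Q.Adj v))
        = S.filter (fun z => Q.Adj u z ∧ Q.Adj v z) := by
      rw [Finset.filter_and]
    rw [e2] at e1
    have e3 : ((S.filter (Q.Adj u)) ∪ (S.filter (Q.Adj v))).card
        ≤ ((S.erase v).filter ((contr Q u v).Adj u)).card + 2 := by
      calc ((S.filter (Q.Adj u)) ∪ (S.filter (Q.Adj v))).card
          ≤ (insert u (insert v ((S.erase v).filter ((contr Q u v).Adj u)))).card := by
            apply Finset.card_le_card
            intro y hy
            rw [Finset.mem_union, Finset.mem_filter, Finset.mem_filter] at hy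
            by_cases hyu : y = u
            · rw [hyu]; exact Finset.mem_insert_self _ _
            · by_cases hyv : y = v
              · rw [hyv]; exact Finset.mem_insert_of_mem (Finset.mem_insert_self _ _)
              · refine Finset.mem_insert_of_mem (Finset.mem_insert_of_mem ?_)
                rcases hy with hy | hy
                · exact Finset.mem_filter.mpr ⟨Finset.mem_erase.mpr ⟨hyv, hy.1⟩,
                    fun e => hyu e.symm, Or.inl hy.2⟩
                · exact Finset.mem_filter.mpr ⟨Finset.mem_erase.mpr ⟨hyv, hy.1⟩,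
                    fun e => hyu e.symm, Or.inr (Or.inl ⟨rfl, hy.2⟩)⟩
        _ ≤ _ := by
            refine (Finset.card_insert_le _ _).trans ?_
            have := Finset.card_insert_le v ((S.erase v).filter ((contr Q u v).Adj u))
            omega
    omega
  have h3 : ∑ x ∈ (S.erase v).erase u, (if Q.Adj u x ∧ Q.Adj v x then 1 else 0) ≤ cod Q S u v := by
    rw [← Finset.card_filter]
    unfold cod
    apply Finset.card_le_card
    intro y hy
    rw [Finset.mem_filter] at hy ⊢
    exact ⟨Finset.mem_of_mem_erase (Finset.mem_of_mem_erase hy.1), hy.2⟩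
  unfold E2
  rw [← Finset.add_sum_erase S _ hv, ← Finset.add_sum_erase (S.erase v) _ hu',
    ← Finset.add_sum_erase (S.erase v) (fun x => dg (contr Q u v) (S.erase v) x) hu']
  have h4 := Finset.sum_le_sum h1
  rw [Finset.sum_add_distrib] at h4
  omega

lemma dg_le_card (Q : SimpleGraph V) (S : Finset V) (x : V) : dg Q S x ≤ S.card := by
  classical
  exact Finset.card_le_card (Finset.filter_subset _ _)

lemma dg_filter_adj (Q : SimpleGraph V) (S : Finset V) (v w : V) [DecidablePred (Q.Adj v)] :
    dg Q (S.filter (Q.Adj v)) w = cod Q S v w := by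
  classical
  unfold dg cod
  rw [Finset.filter_filter]
  congr 1
  ext x
  simp

lemma dense_aux (G : SimpleGraph V) (lam : ℝ) (hlam : 60 ≤ lam) :
    ∀ (n : ℕ) (S : Finset V) (Q : SimpleGraph V), S.card = n → MinorOn G S Q →
      (n:ℝ) ^ 2 / 3 + lam ^ 2 / 2 ≤ E2 Q S →
      ∃ (S' : Finset V) (Q' : SimpleGraph V), MinorOn G S' Q' ∧ lam / 4 ≤ S'.card ∧
        ∀ x ∈ S', 11 * S'.card ≤ 20 * dg Q' S' x := by
  classical
  intro n
  induction n with
  | zero =>
    intro S Q hS _ hE
    exfalso
    have hS0 : S = ∅ := Finset.card_eq_zero.mp hS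
    have : E2 Q S = 0 := by rw [hS0]; simp [E2]
    rw [this] at hE
    push_cast at hE
    nlinarith
  | succ n ih =>
    intro S Q hS hM hE
    set m : ℝ := ((n + 1 : ℕ) : ℝ) with hm
    have hm1 : m = (n:ℝ) + 1 := by rw [hm]; push_cast; ring
    -- m is at least 0.8 lam
    have hEle : (E2 Q S : ℝ) ≤ m ^ 2 := by
      have : E2 Q S ≤ S.card * S.card := by
        unfold E2
        calc ∑ x ∈ S, dg Q S x ≤ ∑ x ∈ S, S.card :=
              Finset.sum_le_sum (fun x _ => dg_le_card Q S x)
          _ = S.card * S.card := by rw [Finset.sum_const, smul_eq_mul]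
      rw [hS] at this
      have h2 : (E2 Q S : ℝ) ≤ (((n + 1) * (n + 1) : ℕ) : ℝ) := by exact_mod_cast this
      rw [hm]
      push_cast at h2 ⊢
      linarith
    have hm0 : 0 ≤ m := by rw [hm1]; positivity
    have hmlam : 0.8 * lam ≤ m := by
      by_contra hcon
      push Not at hcon
      have : m ^ 2 < (0.8 * lam) ^ 2 := by
        apply pow_lt_pow_left₀ hcon hm0 (by norm_num)
      nlinarith
    have hn : (n:ℝ) = m - 1 := by rw [hm1]; ring
    by_cases hall : ∀ x ∈ S, 11 * S.card ≤ 20 * dg Q S x
    · refine ⟨S, Q, hM, ?_, hall⟩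
      rw [hS, ← hm]
      linarith
    push Not at hall
    obtain ⟨v, hv, hdv⟩ := hall
    have hdvR : 20 * (dg Q S v : ℝ) < 11 * m := by
      have : ((20 * dg Q S v : ℕ) : ℝ) < ((11 * S.card : ℕ) : ℝ) := by exact_mod_cast hdv
      rw [hS] at this
      push_cast at this
      rw [hm1]
      linarith
    by_cases hsmall : 6 * (dg Q S v : ℝ) ≤ 2 * m - 1
    · -- delete v
      refine ih (S.erase v) Q ?_ (hM.mono (Finset.erase_subset _ _)) ?_
      · rw [Finset.card_erase_of_mem hv, hS]; rfl
      · have h1 : (E2 Q S : ℝ) = E2 Q (S.erase v) + 2 * dg Q S v := by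
          exact_mod_cast E2_erase (Q := Q) hv
        rw [hn]
        nlinarith
    · push Not at hsmall
      by_cases hnb : ∀ w ∈ S.filter (Q.Adj v), 11 * dg Q S v ≤ 20 * cod Q S v w
      · refine ⟨S.filter (Q.Adj v), Q, hM.mono (Finset.filter_subset _ _), ?_, ?_⟩
        · have : ((S.filter (Q.Adj v)).card : ℝ) = dg Q S v := by
            unfold dg
            congr!
          rw [this]
          linarith
        · intro w hw
          rw [dg_filter_adj]
          have := hnb w hw
          unfold dg at this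
          convert this
      · push Not at hnb
        obtain ⟨w, hw, hcod⟩ := hnb
        rw [Finset.mem_filter] at hw
        have hcodR : 20 * (cod Q S v w : ℝ) < 11 * dg Q S v := by exact_mod_cast hcod
        refine ih (S.erase w) (contr Q v w) ?_ (hM.contr hv hw.1 hw.2) ?_
        · rw [Finset.card_erase_of_mem hw.1, hS]; rfl
        · have h1 : (E2 Q S : ℝ) ≤ E2 (contr Q v w) (S.erase w) + 2 * cod Q S v w + 2 := by
            exact_mod_cast E2_contr (Q := Q) hv hw.1 hw.2
          rw [hn]
          nlinarith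

/-- Dense minors: a graph with at least `k |V|` edges has a minor on at least `k / 4` vertices in
which all degrees are at least `11 / 20` times the number of vertices. -/
theorem dense_minor (G : SimpleGraph V) (k : ℝ) (hk : 60 ≤ k) (hV : 0 < Fintype.card V)
    (hE : 2 * k * Fintype.card V ≤ E2 G Finset.univ) :
    ∃ (S' : Finset V) (Q' : SimpleGraph V), MinorOn G S' Q' ∧ k / 4 ≤ S'.card ∧
        ∀ x ∈ S', 11 * S'.card ≤ 20 * dg Q' S' x := by
  classical
  -- choose a minor with maximal edge density
  let T := {p : Finset V × SimpleGraph V // MinorOn G p.1 p.2 ∧ p.1.Nonempty}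
  have hne : (Finset.univ : Finset V).Nonempty := by
    rw [← Finset.card_pos, Finset.card_univ]; exact hV
  have : Nonempty T := ⟨⟨(Finset.univ, G), MinorOn.self G, hne⟩⟩
  obtain ⟨⟨⟨S, Q⟩, hM, hSne⟩, hmax⟩ := Finite.exists_max
    (fun p : T => (E2 p.1.2 p.1.1 : ℝ) / p.1.1.card)
  simp only at hM hSne
  set mu : ℝ := (E2 Q S : ℝ) / S.card with hmu
  have hScard : (0:ℝ) < S.card := by exact_mod_cast Finset.card_pos.mpr hSne
  have hmuE : (E2 Q S : ℝ) = mu * S.card := by
    rw [hmu]; field_simp
  have hmuk : 2 * k ≤ mu := by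
    have := hmax ⟨(Finset.univ, G), MinorOn.self G, hne⟩
    simp only at this
    rw [hmu]
    refine le_trans ?_ this
    rw [le_div_iff₀ (by rw [Finset.card_univ]; exact_mod_cast hV), Finset.card_univ]
    exact hE
  have hmaxle : ∀ (S' : Finset V) (Q' : SimpleGraph V), MinorOn G S' Q' → S'.Nonempty →
      (E2 Q' S' : ℝ) ≤ mu * S'.card := by
    intro S' Q' h1 h2
    have := hmax ⟨(S', Q'), h1, h2⟩
    simp only at this
    have hc : (0:ℝ) < S'.card := by exact_mod_cast Finset.card_pos.mpr h2
    rwa [div_le_iff₀ hc] at this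
  -- a vertex of degree at most mu
  obtain ⟨v, hv, hdv⟩ : ∃ v ∈ S, (dg Q S v : ℝ) ≤ mu := by
    by_contra hcon
    push Not at hcon
    have : ∑ _x ∈ S, mu < ∑ x ∈ S, (dg Q S x : ℝ) := Finset.sum_lt_sum_of_nonempty hSne hcon
    rw [Finset.sum_const, nsmul_eq_mul] at this
    have h2 : (E2 Q S : ℝ) = ∑ x ∈ S, (dg Q S x : ℝ) := by
      unfold E2; push_cast; rfl
    rw [← h2, hmuE] at this
    linarith
  -- S has at least two vertices
  have hS2 : 2 ≤ S.card := by
    by_contra hcon
    have h1 : S.card = 1 := by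
      have := Finset.card_pos.mpr hSne
      omega
    have h2 : E2 Q S ≤ 1 := by
      unfold E2
      calc ∑ x ∈ S, dg Q S x ≤ ∑ x ∈ S, S.card :=
            Finset.sum_le_sum (fun x _ => dg_le_card Q S x)
        _ = 1 := by rw [Finset.sum_const, smul_eq_mul, h1]
    have h3 : (E2 Q S : ℝ) ≤ 1 := by exact_mod_cast h2
    rw [hmuE, h1] at h3
    push_cast at h3
    linarith
  have hlow : mu / 2 ≤ dg Q S v := by
    have hne' : (S.erase v).Nonempty := by
      rw [← Finset.card_pos, Finset.card_erase_of_mem hv]; omega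
    have h1 := hmaxle (S.erase v) Q (hM.mono (Finset.erase_subset _ _)) hne'
    have h2 : (E2 Q S : ℝ) = E2 Q (S.erase v) + 2 * dg Q S v := by
      exact_mod_cast E2_erase (Q := Q) hv
    have h3 : ((S.erase v).card : ℝ) = S.card - 1 := by
      rw [Finset.card_erase_of_mem hv, Nat.cast_sub (by omega)]; simp
    rw [h3] at h1
    nlinarith
  have hcod : ∀ w ∈ S.filter (Q.Adj v), mu / 2 - 1 ≤ cod Q S v w := by
    intro w hw
    rw [Finset.mem_filter] at hw
    have hne' : (S.erase w).Nonempty := by
      rw [← Finset.card_pos, Finset.card_erase_of_mem hw.1]; omega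
    have h1 := hmaxle (S.erase w) (contr Q v w) (hM.contr hv hw.1 hw.2) hne'
    have h2 : (E2 Q S : ℝ) ≤ E2 (contr Q v w) (S.erase w) + 2 * cod Q S v w + 2 := by
      exact_mod_cast E2_contr (Q := Q) hv hw.1 hw.2
    have h3 : ((S.erase w).card : ℝ) = S.card - 1 := by
      rw [Finset.card_erase_of_mem hw.1, Nat.cast_sub (by omega)]; simp
    rw [h3] at h1
    nlinarith
  -- the neighbourhood of v
  set N : Finset V := S.filter (Q.Adj v) with hN
  have hNcard : (N.card : ℝ) = dg Q S v := by
    rw [hN]
    unfold dg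
    congr!
  have hEN : (N.card : ℝ) * (mu / 2 - 1) ≤ E2 Q N := by
    unfold E2
    push_cast
    rw [← nsmul_eq_mul, ← Finset.sum_const]
    refine Finset.sum_le_sum (fun w hw => ?_)
    rw [hN, dg_filter_adj]
    exact hcod w hw
  obtain ⟨S', Q', h1, h2, h3⟩ := dense_aux G (mu / 2) (by linarith) N.card N Q rfl
    (hM.mono (Finset.filter_subset _ _)) (by
      refine le_trans ?_ hEN
      rw [hNcard]
      set D : ℝ := (dg Q S v : ℝ)
      nlinarith [mul_nonneg (sub_nonneg.mpr hlow) (sub_nonneg.mpr hdv)])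
  exact ⟨S', Q', h1, by linarith, h3⟩

section Greedy

variable (Q : SimpleGraph V) (S : Finset V)

open Classical in
/-- Vertices of `S` with no neighbour in `A`. -/
noncomputable def bad (A : Finset V) : Finset V := S.filter (fun v => ∀ w ∈ A, ¬ Q.Adj v w)

lemma bad_anti {A B : Finset V} (h : A ⊆ B) : bad Q S B ⊆ bad Q S A := by
  classical
  intro v hv
  unfold bad at *
  rw [Finset.mem_filter] at *
  exact ⟨hv.1, fun w hw => hv.2 w (h hw)⟩

/-- Choice of a random-like small set. -/
lemma tuple_exists {J : Type} (hdeg : ∀ x ∈ S, 11 * S.card ≤ 20 * dg Q S x)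
    (W : Finset V) (hWS : W ⊆ S) (hWne : W.Nonempty)
    (hW : 19 * S.card ≤ 20 * W.card) (a : ℕ) (ha : 1 ≤ a)
    (Js : Finset J) (P : J → Finset V)
    (hP : 2 * ∑ j ∈ Js, ((W ∩ P j).card) ^ a ≤ W.card ^ a) :
    ∃ T : Finset V, T ⊆ W ∧ T.Nonempty ∧ T.card ≤ a ∧ (∀ j ∈ Js, ¬ (T ⊆ P j)) ∧
      2 ^ a * (bad Q S T).card ≤ 4 * S.card := by
  classical
  have hWpos : 0 < W.card := Finset.card_pos.mpr hWne
  have hSpos : 0 < S.card := lt_of_lt_of_le hWpos (Finset.card_le_card hWS)
  set Om : Finset (Fin a → V) := Fintype.piFinset (fun _ => W) with hOm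
  have hOmc : Om.card = W.card ^ a := by
    rw [hOm, Fintype.card_piFinset_const]
  set X : J → Finset (Fin a → V) := fun j => Fintype.piFinset (fun _ => W ∩ P j) with hX
  have hXc : ∀ j, (X j).card = (W ∩ P j).card ^ a := by
    intro j
    rw [hX, Fintype.card_piFinset_const]
  set im : (Fin a → V) → Finset V := fun w => Finset.univ.image w with him
  set Y : Finset (Fin a → V) := Om.filter (fun w => 4 * S.card < 2 ^ a * (bad Q S (im w)).card)
    with hY
  -- non-neighbours
  have hnon : ∀ v ∈ S, 2 * (W.filter (fun w => ¬ Q.Adj v w)).card ≤ W.card := by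
    intro v hv
    have h1 : (W.filter (fun w => ¬ Q.Adj v w)).card ≤ (S.filter (fun w => ¬ Q.Adj v w)).card :=
      Finset.card_le_card (Finset.filter_subset_filter _ hWS)
    have h2 := Finset.card_filter_add_card_filter_not (s := S) (Q.Adj v)
    have h3 := hdeg v hv
    have h4 : dg Q S v = (S.filter (Q.Adj v)).card := by
      unfold dg; congr!
    omega
  -- total badness
  have htot : 2 ^ a * ∑ w ∈ Om, (bad Q S (im w)).card ≤ S.card * W.card ^ a := by
    have h1 : ∑ w ∈ Om, (bad Q S (im w)).card
        = ∑ v ∈ S, ((W.filter (fun w => ¬ Q.Adj v w)).card) ^ a := by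
      have e1 : ∀ w, (bad Q S (im w)).card
          = ∑ v ∈ S, (if ∀ i, ¬ Q.Adj v (w i) then 1 else 0) := by
        intro w
        unfold bad
        rw [Finset.card_filter]
        refine Finset.sum_congr rfl (fun v _ => ?_)
        congr 1
        rw [him]
        simp
      rw [Finset.sum_congr rfl (fun w _ => e1 w), Finset.sum_comm]
      refine Finset.sum_congr rfl (fun v _ => ?_)
      rw [← Finset.card_filter, ← Fintype.card_piFinset_const]
      congr 1
      ext w
      simp only [hOm, Finset.mem_filter, Fintype.mem_piFinset]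
      constructor
      · rintro ⟨h1, h2⟩ i; exact ⟨h1 i, h2 i⟩
      · intro h; exact ⟨fun i => (h i).1, fun i => (h i).2⟩
    rw [h1, Finset.mul_sum]
    calc ∑ v ∈ S, 2 ^ a * ((W.filter (fun w => ¬ Q.Adj v w)).card) ^ a
        ≤ ∑ v ∈ S, W.card ^ a := by
          refine Finset.sum_le_sum (fun v hv => ?_)
          rw [← mul_pow]
          exact Nat.pow_le_pow_left (hnon v hv) a
      _ = S.card * W.card ^ a := by rw [Finset.sum_const, smul_eq_mul]
  have hYc : 4 * Y.card ≤ W.card ^ a := by
    have h1 : ∑ w ∈ Y, (4 * S.card) ≤ 2 ^ a * ∑ w ∈ Om, (bad Q S (im w)).card := by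
      rw [Finset.mul_sum]
      calc ∑ w ∈ Y, (4 * S.card) ≤ ∑ w ∈ Y, 2 ^ a * (bad Q S (im w)).card := by
            refine Finset.sum_le_sum (fun w hw => ?_)
            rw [hY, Finset.mem_filter] at hw
            exact hw.2.le
        _ ≤ ∑ w ∈ Om, 2 ^ a * (bad Q S (im w)).card :=
            Finset.sum_le_sum_of_subset (Finset.filter_subset _ _)
    rw [Finset.sum_const, smul_eq_mul] at h1
    have h2 : S.card * (4 * Y.card) ≤ S.card * W.card ^ a := by
      calc S.card * (4 * Y.card) = Y.card * (4 * S.card) := by ring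
        _ ≤ _ := h1.trans htot
    exact Nat.le_of_mul_le_mul_left h2 hSpos
  -- find a good tuple
  have hex : ∃ w ∈ Om, w ∉ Y ∧ ∀ j ∈ Js, w ∉ X j := by
    by_contra hcon
    push Not at hcon
    have hsub : Om ⊆ Y ∪ Js.biUnion X := by
      intro w hw
      rw [Finset.mem_union, Finset.mem_biUnion]
      by_cases hwY : w ∈ Y
      · exact Or.inl hwY
      · exact Or.inr (hcon w hw hwY)
    have h1 := Finset.card_le_card hsub
    have h2 := Finset.card_union_le Y (Js.biUnion X)
    have h3 : (Js.biUnion X).card ≤ ∑ j ∈ Js, ((W ∩ P j).card) ^ a :=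
      Finset.card_biUnion_le.trans (le_of_eq (Finset.sum_congr rfl (fun j _ => hXc j)))
    have h4 : 0 < W.card ^ a := pow_pos hWpos a
    omega
  obtain ⟨w, hwO, hwY, hwX⟩ := hex
  have hwW : ∀ i, w i ∈ W := by
    rw [hOm, Fintype.mem_piFinset] at hwO
    exact hwO
  refine ⟨im w, ?_, ?_, ?_, ?_, ?_⟩
  · intro v hv
    rw [him, Finset.mem_image] at hv
    obtain ⟨i, _, rfl⟩ := hv
    exact hwW i
  · exact ⟨w ⟨0, ha⟩, Finset.mem_image_of_mem _ (Finset.mem_univ _)⟩
  · exact Finset.card_image_le.trans (by simp)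
  · intro j hj hsub
    apply hwX j hj
    rw [hX, Fintype.mem_piFinset]
    intro i
    rw [Finset.mem_inter]
    exact ⟨hwW i, hsub (Finset.mem_image_of_mem _ (Finset.mem_univ _))⟩
  · by_contra hcon
    push Not at hcon
    exact hwY (Finset.mem_filter.mpr ⟨hwO, hcon⟩)

/-- Connecting a small set through common neighbours. -/
lemma connect_exists (hdeg : ∀ x ∈ S, 11 * S.card ≤ 20 * dg Q S x) (Z : Finset V) :
    ∀ (T : Finset V), T.Nonempty → T ⊆ S → Disjoint T Z → 10 * (Z.card + 2 * T.card) ≤ S.card →
    ∃ A : Finset V, T ⊆ A ∧ A ⊆ S ∧ Disjoint A Z ∧ A.card ≤ 2 * T.card ∧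
      (Q.induce (A : Set V)).Connected := by
  classical
  intro T hT
  induction hT using Finset.Nonempty.cons_induction with
  | singleton x =>
    intro hS hZ _
    refine ⟨{x}, Finset.Subset.refl _, hS, hZ, by simp, ?_⟩
    rw [Finset.coe_singleton]
    exact singleton_connected Q x
  | cons x T hx hTne ih =>
    intro hS hZ hc
    rw [Finset.card_cons] at hc
    have hxS : x ∈ S := hS (Finset.mem_cons_self x T)
    have hTS : T ⊆ S := fun y hy => hS (Finset.mem_cons_of_mem hy)
    have hTZ : Disjoint T Z := by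
      rw [Finset.disjoint_left] at hZ ⊢
      exact fun y hy => hZ (Finset.mem_cons_of_mem hy)
    have hxZ : x ∉ Z := by
      rw [Finset.disjoint_left] at hZ
      exact hZ (Finset.mem_cons_self x T)
    obtain ⟨A, h1, h2, h3, h4, h5⟩ := ih hTS hTZ (by omega)
    by_cases hxA : x ∈ A
    · refine ⟨A, ?_, h2, h3, ?_, h5⟩
      · intro y hy
        rcases Finset.mem_cons.mp hy with rfl | hy
        · exact hxA
        · exact h1 hy
      · rw [Finset.card_cons]; omega
    · obtain ⟨u, hu⟩ := hTne
      have huA : u ∈ A := h1 hu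
      have huS : u ∈ S := h2 huA
      -- a common neighbour
      obtain ⟨c, hc1, hc2⟩ : ∃ c ∈ S.filter (fun z => Q.Adj u z ∧ Q.Adj x z), c ∉ Z ∪ A := by
        by_contra hcon
        push Not at hcon
        have e1 : (S.filter (fun z => Q.Adj u z ∧ Q.Adj x z)).card ≤ (Z ∪ A).card :=
          Finset.card_le_card hcon
        have e2 := Finset.card_union_le Z A
        have e3 := Finset.card_union_add_card_inter (S.filter (Q.Adj u)) (S.filter (Q.Adj x))
        have e4 : (S.filter (Q.Adj u)) ∩ (S.filter (Q.Adj x))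
            = S.filter (fun z => Q.Adj u z ∧ Q.Adj x z) := by
          rw [Finset.filter_and]
        have e5 : ((S.filter (Q.Adj u)) ∪ (S.filter (Q.Adj x))).card ≤ S.card :=
          Finset.card_le_card (Finset.union_subset (Finset.filter_subset _ _)
            (Finset.filter_subset _ _))
        have e6 := hdeg u huS
        have e7 := hdeg x hxS
        have e8 : dg Q S u = (S.filter (Q.Adj u)).card := by unfold dg; congr!
        have e9 : dg Q S x = (S.filter (Q.Adj x)).card := by unfold dg; congr!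
        rw [e4] at e3
        have hSpos : 0 < S.card := Finset.card_pos.mpr ⟨x, hxS⟩
        omega
      rw [Finset.mem_filter] at hc1
      rw [Finset.mem_union, not_or] at hc2
      refine ⟨A ∪ {c, x}, ?_, ?_, ?_, ?_, ?_⟩
      · intro y hy
        rcases Finset.mem_cons.mp hy with rfl | hy
        · simp
        · exact Finset.mem_union_left _ (h1 hy)
      · refine Finset.union_subset h2 ?_
        intro y hy
        rw [Finset.mem_insert, Finset.mem_singleton] at hy
        rcases hy with rfl | rfl
        · exact hc1.1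
        · exact hxS
      · rw [Finset.disjoint_union_left]
        refine ⟨h3, ?_⟩
        rw [Finset.disjoint_left]
        intro y hy
        rw [Finset.mem_insert, Finset.mem_singleton] at hy
        rcases hy with rfl | rfl
        · exact hc2.1
        · exact hxZ
      · rw [Finset.card_cons]
        have := Finset.card_union_le A {c, x}
        have h6 : ({c, x} : Finset V).card ≤ 2 := Finset.card_le_two
        omega
      · have h7 : (Q.induce (({c, x} : Finset V) : Set V)).Connected := by
          rw [Finset.coe_pair]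
          exact SimpleGraph.induce_pair_connected_of_adj (G := Q) hc1.2.2.symm
        rw [Finset.coe_union]
        refine SimpleGraph.connected_induce_union h5.preconnected h7.preconnected
          (v := u) (w := c) (by simpa using huA) (by simp) hc1.2.1

/-- Greedy embedding of a graph in a dense graph. -/
theorem greedy (hdeg : ∀ x ∈ S, 11 * S.card ≤ 20 * dg Q S x) (H : ℕ → ℕ → Prop)
    (a : ℕ → ℕ) (ha : ∀ i, 1 ≤ a i) (m : ℕ) (hS : 0 < S.card)
    (hsum : 40 * ∑ i ∈ Finset.range m, a i ≤ S.card)
    (hcond : ∀ i < m, ∀ F : Finset ℕ, (∀ j ∈ F, j < i ∧ H j i) →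
      2 * ∑ j ∈ F, ((8:ℝ) / 2 ^ (a j)) ^ (a i) ≤ 1) :
    ∃ A : ℕ → Finset V, (∀ i < m, A i ⊆ S ∧ (Q.induce (A i : Set V)).Connected) ∧
      (∀ i < m, ∀ j < m, i ≠ j → Disjoint (A i) (A j)) ∧
      (∀ i < m, ∀ j < i, H j i → ∃ x ∈ A j, ∃ y ∈ A i, Q.Adj x y) := by
  classical
  -- strengthened induction statement
  have main : ∀ k ≤ m, ∃ A : ℕ → Finset V,
      (∀ i < k, A i ⊆ S ∧ (Q.induce (A i : Set V)).Connected ∧ (A i).card ≤ 2 * a i ∧
        2 ^ (a i) * (bad Q S (A i)).card ≤ 4 * S.card) ∧
      (∀ i < k, ∀ j < k, i ≠ j → Disjoint (A i) (A j)) ∧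
      (∀ i < k, ∀ j < i, H j i → ∃ x ∈ A j, ∃ y ∈ A i, Q.Adj x y) := by
    intro k
    induction k with
    | zero =>
      intro _
      exact ⟨fun _ => ∅, fun i hi => absurd hi (Nat.not_lt_zero i),
        fun i hi => absurd hi (Nat.not_lt_zero i), fun i hi => absurd hi (Nat.not_lt_zero i)⟩
    | succ k ih =>
      intro hk
      obtain ⟨A, h1, h2, h3⟩ := ih (by omega)
      set Z : Finset V := (Finset.range k).biUnion A with hZ
      have hZc : Z.card ≤ 2 * ∑ i ∈ Finset.range k, a i := by
        rw [Finset.mul_sum]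
        exact Finset.card_biUnion_le.trans
          (Finset.sum_le_sum (fun i hi => (h1 i (Finset.mem_range.mp hi)).2.2.1))
      have hsumk : ∑ i ∈ Finset.range k, a i + a k ≤ ∑ i ∈ Finset.range m, a i := by
        rw [← Finset.sum_range_succ]
        exact Finset.sum_le_sum_of_subset (Finset.range_mono hk)
      have hZS : Z ⊆ S := by
        intro v hv
        rw [hZ, Finset.mem_biUnion] at hv
        obtain ⟨i, hi, hv⟩ := hv
        exact (h1 i (Finset.mem_range.mp hi)).1 hv
      set W : Finset V := S \ Z with hW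
      have hWc : W.card = S.card - Z.card := by
        rw [hW, Finset.card_sdiff_of_subset hZS]
      have hak := ha k
      have hWne : W.Nonempty := by
        rw [← Finset.card_pos]
        omega
      have hW19 : 19 * S.card ≤ 20 * W.card := by omega
      set F : Finset ℕ := (Finset.range k).filter (fun j => H j k) with hF
      have hFprop : ∀ j ∈ F, j < k ∧ H j k := by
        intro j hj
        rw [hF, Finset.mem_filter, Finset.mem_range] at hj
        exact hj
      have hPsum : 2 * ∑ j ∈ F, ((W ∩ bad Q S (A j)).card) ^ (a k) ≤ W.card ^ (a k) := by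
        have hc := hcond k (by omega) F hFprop
        have hWpos : (0:ℝ) < (W.card : ℝ) := by exact_mod_cast Finset.card_pos.mpr hWne
        have h4 : ∀ j ∈ F, (((W ∩ bad Q S (A j)).card : ℕ) : ℝ) ^ (a k)
            ≤ ((8:ℝ) / 2 ^ (a j)) ^ (a k) * (W.card : ℝ) ^ (a k) := by
          intro j hj
          rw [← mul_pow]
          apply pow_le_pow_left₀ (by positivity)
          have h5 := (h1 j (hFprop j hj).1).2.2.2
          have h6 : (W ∩ bad Q S (A j)).card ≤ (bad Q S (A j)).card :=
            Finset.card_le_card Finset.inter_subset_right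
          have h7 : 2 ^ (a j) * (W ∩ bad Q S (A j)).card ≤ 8 * W.card := by
            calc 2 ^ (a j) * (W ∩ bad Q S (A j)).card ≤ 2 ^ (a j) * (bad Q S (A j)).card :=
                  Nat.mul_le_mul_left _ h6
              _ ≤ 4 * S.card := h5
              _ ≤ 8 * W.card := by omega
          have h8 : (2:ℝ) ^ (a j) * ((W ∩ bad Q S (A j)).card : ℝ) ≤ 8 * (W.card : ℝ) := by
            exact_mod_cast h7
          rw [div_mul_eq_mul_div, le_div_iff₀ (by positivity)]
          linarith
        have h9 : (2:ℝ) * ∑ j ∈ F, (((W ∩ bad Q S (A j)).card : ℕ) : ℝ) ^ (a k)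
            ≤ (W.card : ℝ) ^ (a k) := by
          calc (2:ℝ) * ∑ j ∈ F, (((W ∩ bad Q S (A j)).card : ℕ) : ℝ) ^ (a k)
              ≤ 2 * ∑ j ∈ F, ((8:ℝ) / 2 ^ (a j)) ^ (a k) * (W.card : ℝ) ^ (a k) := by
                have := Finset.sum_le_sum h4
                linarith
            _ = (2 * ∑ j ∈ F, ((8:ℝ) / 2 ^ (a j)) ^ (a k)) * (W.card : ℝ) ^ (a k) := by
                rw [← Finset.sum_mul]; ring
            _ ≤ 1 * (W.card : ℝ) ^ (a k) := by
                apply mul_le_mul_of_nonneg_right hc (by positivity)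
            _ = _ := one_mul _
        exact_mod_cast h9
      obtain ⟨T, hT1, hT2, hT3, hT4, hT5⟩ := tuple_exists Q S hdeg W Finset.sdiff_subset hWne hW19
        (a k) hak F (fun j => bad Q S (A j)) hPsum
      have hTZ : Disjoint T Z := by
        rw [Finset.disjoint_left]
        intro v hv hvZ
        have := hT1 hv
        rw [hW, Finset.mem_sdiff] at this
        exact this.2 hvZ
      obtain ⟨B, hB1, hB2, hB3, hB4, hB5⟩ := connect_exists Q S hdeg Z T hT2
        (hT1.trans Finset.sdiff_subset) hTZ (by omega)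
      have hupd : ∀ i < k, Function.update A k B i = A i := fun i hi =>
        Function.update_of_ne (by omega) _ _
      have hBA : ∀ i < k, Disjoint B (A i) := by
        intro i hi
        rw [Finset.disjoint_left] at hB3 ⊢
        intro v hv hvA
        exact hB3 hv (Finset.mem_biUnion.mpr ⟨i, Finset.mem_range.mpr hi, hvA⟩)
      refine ⟨Function.update A k B, ?_, ?_, ?_⟩
      · intro i hi
        rcases Nat.lt_succ_iff_lt_or_eq.mp hi with hi | rfl
        · rw [hupd i hi]
          exact h1 i hi
        · rw [Function.update_self]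
          refine ⟨hB2, hB5, by omega, ?_⟩
          calc 2 ^ (a i) * (bad Q S B).card ≤ 2 ^ (a i) * (bad Q S T).card :=
                Nat.mul_le_mul_left _ (Finset.card_le_card (bad_anti Q S hB1))
            _ ≤ 4 * S.card := hT5
      · intro i hi j hj hij
        rcases Nat.lt_succ_iff_lt_or_eq.mp hi with hi | rfl
        · rw [hupd i hi]
          rcases Nat.lt_succ_iff_lt_or_eq.mp hj with hj | rfl
          · rw [hupd j hj]
            exact h2 i hi j hj hij
          · rw [Function.update_self]
            exact (hBA i hi).symm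
        · rw [Function.update_self]
          rcases Nat.lt_succ_iff_lt_or_eq.mp hj with hj | rfl
          · rw [hupd j hj]
            exact hBA j hj
          · exact absurd rfl hij
      · intro i hi j hj hH
        rcases Nat.lt_succ_iff_lt_or_eq.mp hi with hi | rfl
        · rw [hupd i hi, hupd j (by omega)]
          exact h3 i hi j hj hH
        · rw [Function.update_self, hupd j hj]
          have hjF : j ∈ F := Finset.mem_filter.mpr ⟨Finset.mem_range.mpr hj, hH⟩
          have h4 := hT4 j hjF
          rw [Finset.not_subset] at h4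
          obtain ⟨y, hyT, hyb⟩ := h4
          have hyS : y ∈ S := (hT1.trans Finset.sdiff_subset) hyT
          unfold bad at hyb
          rw [Finset.mem_filter, not_and] at hyb
          have h5 := hyb hyS
          push Not at h5
          obtain ⟨x, hxA, hxy⟩ := h5
          exact ⟨x, hxA, y, hB1 hyT, hxy.symm⟩
  obtain ⟨A, h1, h2, h3⟩ := main m le_rfl
  exact ⟨A, fun i hi => ⟨(h1 i hi).1, (h1 i hi).2.1⟩, h2, h3⟩

end Greedy

lemma term_bound (s b c : ℕ) (hs : 1 ≤ s)
    (h : 16 * s ^ 2 ≤ 2 ^ (b * c)) (hb : 6 ≤ b) :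
    ((8:ℝ) / 2 ^ b) ^ c ≤ 1 / (4 * s) := by
  have hs' : (0:ℝ) < s := by exact_mod_cast hs
  have h1 : ((8:ℝ) / 2 ^ b) ^ 2 ≤ 1 / 2 ^ b := by
    rw [div_pow, div_le_div_iff₀ (by positivity) (by positivity)]
    have h2 : (64:ℝ) ≤ 2 ^ b := by
      calc (64:ℝ) = 2 ^ 6 := by norm_num
        _ ≤ 2 ^ b := pow_le_pow_right₀ (by norm_num) hb
    nlinarith [pow_pos (show (0:ℝ) < 2 by norm_num) b]
  have h3 : (((8:ℝ) / 2 ^ b) ^ c) ^ 2 ≤ (1 / (4 * s)) ^ 2 := by
    calc (((8:ℝ) / 2 ^ b) ^ c) ^ 2 = (((8:ℝ) / 2 ^ b) ^ 2) ^ c := by rw [← pow_mul, ← pow_mul, mul_comm]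
      _ ≤ (1 / 2 ^ b) ^ c := pow_le_pow_left₀ (by positivity) h1 c
      _ = 1 / 2 ^ (b * c) := by rw [div_pow, one_pow, ← pow_mul]
      _ ≤ 1 / (16 * (s:ℝ) ^ 2) := by
          apply one_div_le_one_div_of_le (by positivity)
          exact_mod_cast h
      _ = (1 / (4 * s)) ^ 2 := by rw [div_pow, mul_pow]; norm_num
  exact le_of_sq_le_sq h3 (by positivity)

open Classical in
theorem upper_core (G : SimpleGraph V) (d s t a b : ℕ) (H₀ : SimpleGraph (Fin t))
    (hdeg : ∀ v, (Finset.univ.filter (H₀.Adj v)).card ≤ d) (hd : 1 ≤ d) (hs : 1 ≤ s) (ht : 1 ≤ t)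
    (ha : 6 ≤ a) (hab : a ≤ b) (h1 : 16 * d ^ 2 ≤ 2 ^ (a * a)) (h2 : 16 * s ^ 2 ≤ 2 ^ (a * b))
    (hV : 0 < Fintype.card V)
    (hE : 2 * (160 * (t * a + s * b)) * Fintype.card V ≤ E2 G Finset.univ) :
    IsMinor (addDominant H₀ s) G := by
  have hk : (60:ℝ) ≤ 160 * (t * a + s * b) := by
    have e1 : (1:ℝ) ≤ t := by exact_mod_cast ht
    have e2 : (6:ℝ) ≤ a := by exact_mod_cast ha
    have e3 : (0:ℝ) ≤ s * b := by positivity
    nlinarith
  obtain ⟨S, Q, ⟨φ, m1, m2, m3⟩, hScard, hQ⟩ := dense_minor G (160 * (t * a + s * b)) hk hV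
    (by exact_mod_cast hE)
  have hScard' : 40 * (t * a + s * b) ≤ S.card := by
    have : (40:ℝ) * (t * a + s * b) ≤ S.card := by linarith
    exact_mod_cast this
  set sz : ℕ → ℕ := fun i => if i < s then b else a with hsz
  set Hn : ℕ → ℕ → Prop := fun j i => i < s ∨ j < s ∨
    ∃ u v : Fin t, j = s + u ∧ i = s + v ∧ H₀.Adj u v with hHn
  have hszge : ∀ i, 1 ≤ sz i := by
    intro i
    simp only [hsz]
    split_ifs <;> omega
  have hsumsz : ∑ i ∈ Finset.range (s + t), sz i = s * b + t * a := by
    rw [Finset.sum_range_add]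
    have e1 : ∑ i ∈ Finset.range s, sz i = s * b := by
      rw [Finset.sum_congr (g := fun _ => b) rfl
        (fun i hi => if_pos (Finset.mem_range.mp hi))]
      simp
    have e2 : ∑ x ∈ Finset.range t, sz (s + x) = t * a := by
      rw [Finset.sum_congr (g := fun _ => a) rfl
        (fun i _ => if_neg (by omega))]
      simp
    rw [e1, e2]
  have hSpos : 0 < S.card := by
    have : 0 < t * a := Nat.mul_pos ht (by omega)
    omega
  have hs' : (0:ℝ) < s := by exact_mod_cast hs
  have hd' : (0:ℝ) < d := by exact_mod_cast hd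
  obtain ⟨A, g1, g2, g3⟩ := greedy Q S hQ Hn sz hszge (s + t) hSpos
    (by rw [hsumsz]; linarith) (by
      intro i hi F hF
      have tb : ((8:ℝ) / 2 ^ b) ^ b ≤ 1 / (4 * s) :=
        term_bound s b b hs (h2.trans (Nat.pow_le_pow_right (by norm_num)
          (Nat.mul_le_mul_right b hab))) (ha.trans hab)
      have ta : ((8:ℝ) / 2 ^ b) ^ a ≤ 1 / (4 * s) :=
        term_bound s b a hs (by rw [mul_comm b a]; exact h2) (ha.trans hab)
      have tc : ((8:ℝ) / 2 ^ a) ^ a ≤ 1 / (4 * d) := term_bound d a a hd h1 ha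
      by_cases his : i < s
      · have hFs : F ⊆ Finset.range s := fun j hj => Finset.mem_range.mpr ((hF j hj).1.trans his)
        have hFc : (F.card : ℝ) ≤ s := by
          have := Finset.card_le_card hFs
          rw [Finset.card_range] at this
          exact_mod_cast this
        have : ∑ j ∈ F, ((8:ℝ) / 2 ^ (sz j)) ^ (sz i) ≤ ∑ j ∈ F, 1 / (4 * (s:ℝ)) := by
          refine Finset.sum_le_sum (fun j hj => ?_)
          have hj' : j < s := Finset.mem_range.mp (hFs hj)
          simp only [hsz, if_pos his, if_pos hj']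
          exact tb
        rw [Finset.sum_const, nsmul_eq_mul] at this
        have h4 : (F.card : ℝ) * (1 / (4 * s)) ≤ s * (1 / (4 * s)) := by
          apply mul_le_mul_of_nonneg_right hFc (by positivity)
        have h5 : (s:ℝ) * (1 / (4 * s)) = 1 / 4 := by field_simp
        linarith
      · -- i is a vertex of H₀
        have hF1 : (F.filter (· < s)) ⊆ Finset.range s := fun j hj =>
          Finset.mem_range.mpr (Finset.mem_filter.mp hj).2
        have hF1c : ((F.filter (· < s)).card : ℝ) ≤ s := by
          have := Finset.card_le_card hF1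
          rw [Finset.card_range] at this
          exact_mod_cast this
        have hiv : i - s < t := by omega
        have hF2c : ((F.filter (fun j => ¬ j < s)).card : ℝ) ≤ d := by
          have : (F.filter (fun j => ¬ j < s)).card
              ≤ (Finset.univ.filter (H₀.Adj (⟨i - s, hiv⟩ : Fin t))).card := by
            apply Finset.card_le_card_of_surjOn (fun u : Fin t => s + (u:ℕ))
            intro j hj
            rw [Finset.mem_coe, Finset.mem_filter] at hj
            obtain ⟨hji, hH⟩ := hF j hj.1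
            rcases hH with h | h | ⟨u, v, hu, hv, huv⟩
            · exact absurd h his
            · exact absurd h hj.2
            · refine ⟨u, ?_, hu.symm⟩
              rw [Finset.mem_coe, Finset.mem_filter]
              refine ⟨Finset.mem_univ _, ?_⟩
              have : (⟨i - s, hiv⟩ : Fin t) = v := by
                apply Fin.ext
                simp only
                omega
              rw [this]
              exact huv.symm
          exact_mod_cast this.trans (hdeg _)
        rw [← Finset.sum_filter_add_sum_filter_not F (· < s)]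
        have e1 : ∑ j ∈ F.filter (· < s), ((8:ℝ) / 2 ^ (sz j)) ^ (sz i)
            ≤ (F.filter (· < s)).card * (1 / (4 * (s:ℝ))) := by
          rw [← nsmul_eq_mul, ← Finset.sum_const]
          refine Finset.sum_le_sum (fun j hj => ?_)
          have hj' : j < s := (Finset.mem_filter.mp hj).2
          simp only [hsz, if_neg his, if_pos hj']
          exact ta
        have e2 : ∑ j ∈ F.filter (fun j => ¬ j < s), ((8:ℝ) / 2 ^ (sz j)) ^ (sz i)
            ≤ (F.filter (fun j => ¬ j < s)).card * (1 / (4 * (d:ℝ))) := by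
          rw [← nsmul_eq_mul, ← Finset.sum_const]
          refine Finset.sum_le_sum (fun j hj => ?_)
          have hj' : ¬ j < s := (Finset.mem_filter.mp hj).2
          simp only [hsz, if_neg his, if_neg hj']
          exact tc
        have e3 : ((F.filter (· < s)).card : ℝ) * (1 / (4 * (s:ℝ))) ≤ s * (1 / (4 * s)) :=
          mul_le_mul_of_nonneg_right hF1c (by positivity)
        have e4 : ((F.filter (fun j => ¬ j < s)).card : ℝ) * (1 / (4 * (d:ℝ)))
            ≤ d * (1 / (4 * d)) :=
          mul_le_mul_of_nonneg_right hF2c (by positivity)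
        have e5 : (s:ℝ) * (1 / (4 * s)) = 1 / 4 := by field_simp
        have e6 : (d:ℝ) * (1 / (4 * d)) = 1 / 4 := by field_simp
        linarith)
  -- the model
  set idx : Fin t ⊕ Fin s → ℕ := fun x => Sum.elim (fun u : Fin t => s + (u:ℕ)) (fun w : Fin s => (w:ℕ)) x
    with hidx
  have hidxlt : ∀ x, idx x < s + t := by
    rintro (u | w)
    · have := u.2; simp only [hidx, Sum.elim_inl]; omega
    · have := w.2; simp only [hidx, Sum.elim_inr]; omega
  have hidxinj : ∀ x y, idx x = idx y → x = y := by
    rintro (u | u) (w | w) h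
    · simp only [hidx, Sum.elim_inl] at h
      congr 1
      exact Fin.ext (by omega)
    · simp only [hidx, Sum.elim_inl, Sum.elim_inr] at h
      have := w.2
      omega
    · simp only [hidx, Sum.elim_inl, Sum.elim_inr] at h
      have := u.2
      omega
    · simp only [hidx, Sum.elim_inr] at h
      congr 1
      exact Fin.ext h
  have hadj : ∀ x y, (addDominant H₀ s).Adj x y → ∃ p ∈ A (idx x), ∃ q ∈ A (idx y), Q.Adj p q := by
    -- it suffices to treat idx x < idx y
    have key : ∀ x y, (addDominant H₀ s).Adj x y → idx x < idx y →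
        ∃ p ∈ A (idx x), ∃ q ∈ A (idx y), Q.Adj p q := by
      intro x y hxy hlt
      refine g3 (idx y) (hidxlt y) (idx x) hlt ?_
      rcases x with u | u
      · rcases y with w | w
        · right; right
          exact ⟨u, w, rfl, rfl, hxy.2 u w rfl rfl⟩
        · left
          exact w.2
      · right; left
        exact u.2
    intro x y hxy
    rcases lt_trichotomy (idx x) (idx y) with h | h | h
    · exact key x y hxy h
    · exact absurd (hidxinj x y h) hxy.1
    · obtain ⟨p, hp, q, hq, hpq⟩ := key y x hxy.symm h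
      exact ⟨q, hq, p, hp, hpq.symm⟩
  refine ⟨fun x => ⋃ y ∈ (A (idx x) : Set V), φ y, ?_, ?_, ?_⟩
  · intro x
    obtain ⟨hAS, hAc⟩ := g1 (idx x) (hidxlt x)
    exact union_connected Q G (A (idx x) : Set V) φ (fun y hy => m1 y (hAS hy))
      (fun y hy z hz => m3 y (hAS hy) z (hAS hz)) hAc
  · intro x y hxy
    have hne : idx x ≠ idx y := fun h => hxy (hidxinj x y h)
    rw [Set.disjoint_left]
    intro v hv hv'
    rw [Set.mem_iUnion₂] at hv hv'
    obtain ⟨p, hp, hvp⟩ := hv
    obtain ⟨q, hq, hvq⟩ := hv'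
    have hpS := (g1 (idx x) (hidxlt x)).1 hp
    have hqS := (g1 (idx y) (hidxlt y)).1 hq
    have hpq : p ≠ q := by
      rintro rfl
      exact Finset.disjoint_left.mp (g2 (idx x) (hidxlt x) (idx y) (hidxlt y) hne) hp hq
    exact Set.disjoint_left.mp (m2 p hpS q hqS hpq) hvp hvq
  · intro x y hxy
    obtain ⟨p, hp, q, hq, hpq⟩ := hadj x y hxy
    obtain ⟨v, hv, w, hw, hvw⟩ := m3 p ((g1 (idx x) (hidxlt x)).1 hp) q
      ((g1 (idx y) (hidxlt y)).1 hq) hpq
    exact ⟨v, Set.mem_iUnion₂.mpr ⟨p, hp, hv⟩, w, Set.mem_iUnion₂.mpr ⟨q, hq, hw⟩, hvw⟩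

end Active

end Pool.Agent.H56.Minor
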