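import Mathlib
import Pool.Agent.H56.MinorDefs
import Pool.Agent.H56.Minor1

set_option autoImplicit false
set_option linter.unusedSectionVars false

namespace Pool.Agent.H56.Minor

open Finset

section GreedySeed

variable {V : Type} [Fintype V] [DecidableEq V]
variable (Q : SimpleGraph V) (S : Finset V)

/-- Greedy embedding of a graph in a dense graph, with prescribed seeds. -/
theorem greedy_seed (hdeg : ∀ x ∈ S, 11 * S.card ≤ 20 * dg Q S x) (H : ℕ → ℕ → Prop)
    (a : ℕ → ℕ) (ha : ∀ i, 1 ≤ a i) (m : ℕ) (hS : 0 < S.card) (D : ℕ → Finset V)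
    (hDS : ∀ i < m, D i ⊆ S) (hDd : ∀ i < m, ∀ j < m, i ≠ j → Disjoint (D i) (D j))
    (hsum : 60 * ∑ i ∈ Finset.range m, (a i + (D i).card) ≤ S.card)
    (hcond : ∀ i < m, ∀ F : Finset ℕ, (∀ j ∈ F, j < i ∧ H j i) →
      2 * ∑ j ∈ F, ((8:ℝ) / 2 ^ (a j)) ^ (a i) ≤ 1) :
    ∃ A : ℕ → Finset V, (∀ i < m, A i ⊆ S ∧ (Q.induce (A i : Set V)).Connected ∧ D i ⊆ A i) ∧
      (∀ i < m, ∀ j < m, i ≠ j → Disjoint (A i) (A j)) ∧
      (∀ i < m, ∀ j < i, H j i → ∃ x ∈ A j, ∃ y ∈ A i, Q.Adj x y) := by
  classical
  -- strengthened induction statement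
  have main : ∀ k ≤ m, ∃ A : ℕ → Finset V,
      (∀ i < k, A i ⊆ S ∧ (Q.induce (A i : Set V)).Connected ∧
        (A i).card ≤ 2 * (a i + (D i).card) ∧
        2 ^ (a i) * (bad Q S (A i)).card ≤ 4 * S.card ∧ D i ⊆ A i ∧
        ∀ j < m, j ≠ i → Disjoint (A i) (D j)) ∧
      (∀ i < k, ∀ j < k, i ≠ j → Disjoint (A i) (A j)) ∧
      (∀ i < k, ∀ j < i, H j i → ∃ x ∈ A j, ∃ y ∈ A i, Q.Adj x y) := by
    intro k
    induction k with
    | zero =>
      intro _
      exact ⟨fun _ => ∅, fun i hi => absurd hi (Nat.not_lt_zero i),
        fun i hi => absurd hi (Nat.not_lt_zero i), fun i hi => absurd hi (Nat.not_lt_zero i)⟩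
    | succ k ih =>
      intro hk
      obtain ⟨A, h1, h2, h3⟩ := ih (by omega)
      set DD : Finset V := ((Finset.range m).erase k).biUnion D with hDD
      set Z : Finset V := (Finset.range k).biUnion A ∪ DD with hZ
      have hDDc : DD.card ≤ ∑ i ∈ Finset.range m, (D i).card := by
        refine Finset.card_biUnion_le.trans ?_
        exact Finset.sum_le_sum_of_subset (Finset.erase_subset _ _)
      have hZc : Z.card ≤ 2 * ∑ i ∈ Finset.range k, (a i + (D i).card)
          + ∑ i ∈ Finset.range m, (D i).card := by
        refine (Finset.card_union_le _ _).trans (Nat.add_le_add ?_ hDDc)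
        rw [Finset.mul_sum]
        exact Finset.card_biUnion_le.trans
          (Finset.sum_le_sum (fun i hi => (h1 i (Finset.mem_range.mp hi)).2.2.1))
      have hsumD : ∑ i ∈ Finset.range m, (D i).card
          ≤ ∑ i ∈ Finset.range m, (a i + (D i).card) :=
        Finset.sum_le_sum (fun i _ => Nat.le_add_left _ _)
      have hsumk : ∑ i ∈ Finset.range k, (a i + (D i).card) + (a k + (D k).card)
          ≤ ∑ i ∈ Finset.range m, (a i + (D i).card) := by
        rw [← Finset.sum_range_succ (fun i => a i + (D i).card)]
        exact Finset.sum_le_sum_of_subset (Finset.range_mono hk)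
      have hZS : Z ⊆ S := by
        intro v hv
        rw [hZ, Finset.mem_union, Finset.mem_biUnion, hDD, Finset.mem_biUnion] at hv
        rcases hv with ⟨i, hi, hv⟩ | ⟨i, hi, hv⟩
        · exact (h1 i (Finset.mem_range.mp hi)).1 hv
        · rw [Finset.mem_erase, Finset.mem_range] at hi
          exact hDS i hi.2 hv
      set W : Finset V := S \ Z with hW
      have hWc : W.card = S.card - Z.card := by
        rw [hW, Finset.card_sdiff_of_subset hZS]
      have hak := ha k
      have hWne : W.Nonempty := by
        rw [← Finset.card_pos]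
        omega
      have hW19 : 19 * S.card ≤ 20 * W.card := by omega
      set F : Finset ℕ := (Finset.range k).filter (fun j => H j k) with hF
      have hFprop : ∀ j ∈ F, j < k ∧ H j k := by
        intro j hj
        rw [hF, Finset.mem_filter, Finset.mem_range] at hj
        exact hj
      have hPsum : 2 * ∑ j ∈ F, ((W ∩ bad Q S (A j)).card) ^ (a k) ≤ W.card ^ (a k) := by
        have hc := hcond k (by omega) F hFprop
        have hWpos : (0:ℝ) < (W.card : ℝ) := by exact_mod_cast Finset.card_pos.mpr hWne
        have h4 : ∀ j ∈ F, (((W ∩ bad Q S (A j)).card : ℕ) : ℝ) ^ (a k)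
            ≤ ((8:ℝ) / 2 ^ (a j)) ^ (a k) * (W.card : ℝ) ^ (a k) := by
          intro j hj
          rw [← mul_pow]
          apply pow_le_pow_left₀ (by positivity)
          have h5 := (h1 j (hFprop j hj).1).2.2.2.1
          have h6 : (W ∩ bad Q S (A j)).card ≤ (bad Q S (A j)).card :=
            Finset.card_le_card Finset.inter_subset_right
          have h7 : 2 ^ (a j) * (W ∩ bad Q S (A j)).card ≤ 8 * W.card := by
            calc 2 ^ (a j) * (W ∩ bad Q S (A j)).card ≤ 2 ^ (a j) * (bad Q S (A j)).card :=
                  Nat.mul_le_mul_left _ h6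
              _ ≤ 4 * S.card := h5
              _ ≤ 8 * W.card := by omega
          have h8 : (2:ℝ) ^ (a j) * ((W ∩ bad Q S (A j)).card : ℝ) ≤ 8 * (W.card : ℝ) := by
            exact_mod_cast h7
          rw [div_mul_eq_mul_div, le_div_iff₀ (by positivity)]
          linarith
        have h9 : (2:ℝ) * ∑ j ∈ F, (((W ∩ bad Q S (A j)).card : ℕ) : ℝ) ^ (a k)
            ≤ (W.card : ℝ) ^ (a k) := by
          calc (2:ℝ) * ∑ j ∈ F, (((W ∩ bad Q S (A j)).card : ℕ) : ℝ) ^ (a k)
              ≤ 2 * ∑ j ∈ F, ((8:ℝ) / 2 ^ (a j)) ^ (a k) * (W.card : ℝ) ^ (a k) := by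
                have := Finset.sum_le_sum h4
                linarith
            _ = (2 * ∑ j ∈ F, ((8:ℝ) / 2 ^ (a j)) ^ (a k)) * (W.card : ℝ) ^ (a k) := by
                rw [← Finset.sum_mul]; ring
            _ ≤ 1 * (W.card : ℝ) ^ (a k) := by
                apply mul_le_mul_of_nonneg_right hc (by positivity)
            _ = _ := one_mul _
        exact_mod_cast h9
      obtain ⟨T, hT1, hT2, hT3, hT4, hT5⟩ := tuple_exists Q S hdeg W Finset.sdiff_subset hWne hW19
        (a k) hak F (fun j => bad Q S (A j)) hPsum
      have hDkZ : Disjoint (D k) Z := by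
        rw [Finset.disjoint_left]
        intro v hv hvZ
        rw [hZ, Finset.mem_union, Finset.mem_biUnion, hDD, Finset.mem_biUnion] at hvZ
        rcases hvZ with ⟨i, hi, hv'⟩ | ⟨i, hi, hv'⟩
        · rw [Finset.mem_range] at hi
          exact Finset.disjoint_left.mp ((h1 i hi).2.2.2.2.2 k (by omega) (by omega)) hv' hv
        · rw [Finset.mem_erase, Finset.mem_range] at hi
          exact Finset.disjoint_left.mp (hDd k (by omega) i hi.2 hi.1.symm) hv hv'
      have hTZ : Disjoint (T ∪ D k) Z := by
        rw [Finset.disjoint_union_left]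
        refine ⟨?_, hDkZ⟩
        rw [Finset.disjoint_left]
        intro v hv hvZ
        have := hT1 hv
        rw [hW, Finset.mem_sdiff] at this
        exact this.2 hvZ
      have hTc : (T ∪ D k).card ≤ a k + (D k).card :=
        (Finset.card_union_le _ _).trans (Nat.add_le_add_right hT3 _)
      have hTS : T ∪ D k ⊆ S :=
        Finset.union_subset (hT1.trans Finset.sdiff_subset) (hDS k (by omega))
      obtain ⟨B, hB1, hB2, hB3, hB4, hB5⟩ := connect_exists Q S hdeg Z (T ∪ D k)
        (hT2.mono Finset.subset_union_left) hTS hTZ (by omega)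
      have hTB : T ⊆ B := Finset.subset_union_left.trans hB1
      have hupd : ∀ i < k, Function.update A k B i = A i := fun i hi =>
        Function.update_of_ne (by omega) _ _
      have hBA : ∀ i < k, Disjoint B (A i) := by
        intro i hi
        rw [Finset.disjoint_left] at hB3 ⊢
        intro v hv hvA
        exact hB3 hv (Finset.mem_union_left _
          (Finset.mem_biUnion.mpr ⟨i, Finset.mem_range.mpr hi, hvA⟩))
      have hBD : ∀ j < m, j ≠ k → Disjoint B (D j) := by
        intro j hj hjk
        rw [Finset.disjoint_left] at hB3 ⊢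
        intro v hv hvD
        exact hB3 hv (Finset.mem_union_right _
          (Finset.mem_biUnion.mpr ⟨j, Finset.mem_erase.mpr ⟨hjk, Finset.mem_range.mpr hj⟩, hvD⟩))
      refine ⟨Function.update A k B, ?_, ?_, ?_⟩
      · intro i hi
        rcases Nat.lt_succ_iff_lt_or_eq.mp hi with hi | rfl
        · rw [hupd i hi]
          exact h1 i hi
        · rw [Function.update_self]
          refine ⟨hB2, hB5, by omega, ?_, Finset.subset_union_right.trans hB1, hBD⟩
          calc 2 ^ (a i) * (bad Q S B).card ≤ 2 ^ (a i) * (bad Q S T).card :=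
                Nat.mul_le_mul_left _ (Finset.card_le_card (bad_anti Q S hTB))
            _ ≤ 4 * S.card := hT5
      · intro i hi j hj hij
        rcases Nat.lt_succ_iff_lt_or_eq.mp hi with hi | rfl
        · rw [hupd i hi]
          rcases Nat.lt_succ_iff_lt_or_eq.mp hj with hj | rfl
          · rw [hupd j hj]
            exact h2 i hi j hj hij
          · rw [Function.update_self]
            exact (hBA i hi).symm
        · rw [Function.update_self]
          rcases Nat.lt_succ_iff_lt_or_eq.mp hj with hj | rfl
          · rw [hupd j hj]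
            exact hBA j hj
          · exact absurd rfl hij
      · intro i hi j hj hH
        rcases Nat.lt_succ_iff_lt_or_eq.mp hi with hi | rfl
        · rw [hupd i hi, hupd j (by omega)]
          exact h3 i hi j hj hH
        · rw [Function.update_self, hupd j hj]
          have hjF : j ∈ F := Finset.mem_filter.mpr ⟨Finset.mem_range.mpr hj, hH⟩
          have h4 := hT4 j hjF
          rw [Finset.not_subset] at h4
          obtain ⟨y, hyT, hyb⟩ := h4
          have hyS : y ∈ S := (hT1.trans Finset.sdiff_subset) hyT
          unfold bad at hyb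
          rw [Finset.mem_filter, not_and] at hyb
          have h5 := hyb hyS
          push Not at h5
          obtain ⟨x, hxA, hxy⟩ := h5
          exact ⟨x, hxA, y, hTB hyT, hxy.symm⟩
  obtain ⟨A, h1, h2, h3⟩ := main m le_rfl
  exact ⟨A, fun i hi => ⟨(h1 i hi).1, (h1 i hi).2.1, (h1 i hi).2.2.2.2.1⟩, h2, h3⟩

end GreedySeed

section Biclique

variable {V : Type} [Fintype V] [DecidableEq V]
variable (Q : SimpleGraph V) (S : Finset V)

open Classical in
/-- Most tuples have few non-neighbours. -/
lemma bad_tuples (hdeg : ∀ x ∈ S, 11 * S.card ≤ 20 * dg Q S x)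
    (W : Finset V) (hWS : W ⊆ S) (hWne : W.Nonempty)
    (hW : 19 * S.card ≤ 20 * W.card) (a : ℕ) :
    4 * ((Fintype.piFinset (fun _ : Fin a => W)).filter
      (fun w => 4 * S.card < 2 ^ a * (bad Q S (Finset.univ.image w)).card)).card
      ≤ W.card ^ a := by
  have hWpos : 0 < W.card := Finset.card_pos.mpr hWne
  have hSpos : 0 < S.card := lt_of_lt_of_le hWpos (Finset.card_le_card hWS)
  set Om : Finset (Fin a → V) := Fintype.piFinset (fun _ => W) with hOm
  set im : (Fin a → V) → Finset V := fun w => Finset.univ.image w with him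
  set Y : Finset (Fin a → V) := Om.filter (fun w => 4 * S.card < 2 ^ a * (bad Q S (im w)).card)
    with hY
  have hnon : ∀ v ∈ S, 2 * (W.filter (fun w => ¬ Q.Adj v w)).card ≤ W.card := by
    intro v hv
    have h1 : (W.filter (fun w => ¬ Q.Adj v w)).card ≤ (S.filter (fun w => ¬ Q.Adj v w)).card :=
      Finset.card_le_card (Finset.filter_subset_filter _ hWS)
    have h2 := Finset.card_filter_add_card_filter_not (s := S) (Q.Adj v)
    have h3 := hdeg v hv
    have h4 : dg Q S v = (S.filter (Q.Adj v)).card := by
      unfold dg; congr!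
    omega
  have htot : 2 ^ a * ∑ w ∈ Om, (bad Q S (im w)).card ≤ S.card * W.card ^ a := by
    have h1 : ∑ w ∈ Om, (bad Q S (im w)).card
        = ∑ v ∈ S, ((W.filter (fun w => ¬ Q.Adj v w)).card) ^ a := by
      have e1 : ∀ w, (bad Q S (im w)).card
          = ∑ v ∈ S, (if ∀ i, ¬ Q.Adj v (w i) then 1 else 0) := by
        intro w
        unfold bad
        rw [Finset.card_filter]
        refine Finset.sum_congr rfl (fun v _ => ?_)
        congr 1
        rw [him]
        simp
      rw [Finset.sum_congr rfl (fun w _ => e1 w), Finset.sum_comm]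
      refine Finset.sum_congr rfl (fun v _ => ?_)
      rw [← Finset.card_filter, ← Fintype.card_piFinset_const]
      congr 1
      ext w
      simp only [hOm, Finset.mem_filter, Fintype.mem_piFinset]
      constructor
      · rintro ⟨h1, h2⟩ i; exact ⟨h1 i, h2 i⟩
      · intro h; exact ⟨fun i => (h i).1, fun i => (h i).2⟩
    rw [h1, Finset.mul_sum]
    calc ∑ v ∈ S, 2 ^ a * ((W.filter (fun w => ¬ Q.Adj v w)).card) ^ a
        ≤ ∑ v ∈ S, W.card ^ a := by
          refine Finset.sum_le_sum (fun v hv => ?_)
          rw [← mul_pow]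
          exact Nat.pow_le_pow_left (hnon v hv) a
      _ = S.card * W.card ^ a := by rw [Finset.sum_const, smul_eq_mul]
  have h1 : ∑ w ∈ Y, (4 * S.card) ≤ 2 ^ a * ∑ w ∈ Om, (bad Q S (im w)).card := by
    rw [Finset.mul_sum]
    calc ∑ w ∈ Y, (4 * S.card) ≤ ∑ w ∈ Y, 2 ^ a * (bad Q S (im w)).card := by
          refine Finset.sum_le_sum (fun w hw => ?_)
          rw [hY, Finset.mem_filter] at hw
          exact hw.2.le
      _ ≤ ∑ w ∈ Om, 2 ^ a * (bad Q S (im w)).card :=
          Finset.sum_le_sum_of_subset (Finset.filter_subset _ _)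
  rw [Finset.sum_const, smul_eq_mul] at h1
  have h2 : S.card * (4 * Y.card) ≤ S.card * W.card ^ a := by
    calc S.card * (4 * Y.card) = Y.card * (4 * S.card) := by ring
      _ ≤ _ := h1.trans htot
  exact Nat.le_of_mul_le_mul_left h2 hSpos

/-- Tuples avoiding a small set. -/
lemma avoid_count (W X : Finset V) (hW : 0 < W.card) (l : ℕ) :
    (W.card : ℝ) ^ l * (1 - l * X.card / W.card) ≤ ((W \ X).card : ℝ) ^ l := by
  have hWr : (0:ℝ) < W.card := by exact_mod_cast hW
  have h1 : (W.card : ℝ) - X.card ≤ (W \ X).card := by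
    have := Finset.le_card_sdiff X W
    have h2 : (W.card : ℝ) ≤ (W \ X).card + X.card := by
      have : W.card ≤ (W \ X).card + X.card := by omega
      exact_mod_cast this
    linarith
  by_cases hX : X.card ≤ W.card
  · have hXr : (X.card : ℝ) ≤ W.card := by exact_mod_cast hX
    have h2 : 1 + (l:ℝ) * (-(X.card / W.card)) ≤ (1 + -((X.card:ℝ) / W.card)) ^ l := by
      apply one_add_mul_le_pow
      have : (X.card : ℝ) / W.card ≤ 1 := by
        rw [div_le_one hWr]; exact hXr
      linarith
    calc (W.card : ℝ) ^ l * (1 - l * X.card / W.card)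
        = (W.card : ℝ) ^ l * (1 + (l:ℝ) * (-(X.card / W.card))) := by ring
      _ ≤ (W.card : ℝ) ^ l * (1 + -((X.card:ℝ) / W.card)) ^ l :=
          mul_le_mul_of_nonneg_left h2 (by positivity)
      _ = ((W.card : ℝ) - X.card) ^ l := by
          rw [← mul_pow]
          congr 1
          field_simp
          ring
      _ ≤ _ := pow_le_pow_left₀ (by linarith) h1 l
  · push Not at hX
    by_cases hl : l = 0
    · subst hl
      simp
    · have hXr : (W.card : ℝ) < X.card := by exact_mod_cast hX
      have hl1 : (1:ℝ) ≤ l := by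
        have : 1 ≤ l := by omega
        exact_mod_cast this
      have h2 : (1 - l * X.card / W.card : ℝ) ≤ 0 := by
        have : 1 ≤ l * (X.card : ℝ) / W.card := by
          rw [le_div_iff₀ hWr]
          nlinarith
        linarith
      have h3 : (W.card : ℝ) ^ l * (1 - l * X.card / W.card) ≤ 0 :=
        mul_nonpos_of_nonneg_of_nonpos (by positivity) h2
      exact h3.trans (by positivity)

lemma bad_symm (A B : Finset V) (hA : A ⊆ S) (hB : B ⊆ S) :
    A ⊆ bad Q S B ↔ B ⊆ bad Q S A := by
  classical
  unfold bad
  constructor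
  · intro h x hx
    rw [Finset.mem_filter]
    refine ⟨hB hx, fun w hw hxw => ?_⟩
    have := h hw
    rw [Finset.mem_filter] at this
    exact this.2 x hx hxw.symm
  · intro h x hx
    rw [Finset.mem_filter]
    refine ⟨hA hx, fun w hw hxw => ?_⟩
    have := h hw
    rw [Finset.mem_filter] at this
    exact this.2 x hx hxw.symm

/-- Two families of small sets, completely joined to each other. -/
theorem biclique (hdeg : ∀ x ∈ S, 11 * S.card ≤ 20 * dg Q S x)
    (W : Finset V) (hWS : W ⊆ S) (hWne : W.Nonempty)
    (hW : 19 * S.card ≤ 20 * W.card) (r l : ℕ) (e : ℝ)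
    (he : ((8:ℝ) / 2 ^ l) ^ l ≤ e) (he0 : 0 ≤ e) (he4 : 4 * e ≤ 1)
    (hsize : 2 * (r * l ^ 2) ≤ W.card)
    (hbig : (8:ℝ) * (r * l ^ 2) < 3 * (1 - 2 * e) ^ r * W.card) :
    ∃ T T' : ℕ → Finset V,
      (∀ i < r, T i ⊆ W ∧ (T i).card ≤ l ∧ T' i ⊆ W ∧ (T' i).card ≤ l) ∧
      (∀ i < r, ∀ j < r, Disjoint (T i) (T' j)) ∧
      (∀ i < r, ∀ j < r, i ≠ j → Disjoint (T i) (T j) ∧ Disjoint (T' i) (T' j)) ∧
      (∀ i < r, ∀ j < r, ∃ x ∈ T i, ∃ y ∈ T' j, Q.Adj x y) := by
  classical
  have hWpos : 0 < W.card := Finset.card_pos.mpr hWne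
  have hWr : (0:ℝ) < W.card := by exact_mod_cast hWpos
  have hNpos : (0:ℝ) < (W.card : ℝ) ^ l := by positivity
  set Om : Finset (Fin l → V) := Fintype.piFinset (fun _ => W) with hOm
  have hOmc : (Om.card : ℝ) = (W.card : ℝ) ^ l := by
    rw [hOm, Fintype.card_piFinset_const]; push_cast; rfl
  set im : (Fin l → V) → Finset V := fun w => Finset.univ.image w with him
  have himc : ∀ w, (im w).card ≤ l := by
    intro w
    rw [him]
    exact Finset.card_image_le.trans (by simp)
  have himW : ∀ w ∈ Om, im w ⊆ W := by
    intro w hw v hv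
    rw [him, Finset.mem_image] at hv
    obtain ⟨i, _, rfl⟩ := hv
    rw [hOm, Fintype.mem_piFinset] at hw
    exact hw i
  set Good : Finset (Fin l → V) :=
    Om.filter (fun w => ¬ 4 * S.card < 2 ^ l * (bad Q S (im w)).card) with hGood
  have hGoodc : 3 / 4 * (W.card : ℝ) ^ l ≤ Good.card := by
    have h1 := bad_tuples Q S hdeg W hWS hWne hW l
    have h2 := Finset.card_filter_add_card_filter_not (s := Om)
      (fun w => 4 * S.card < 2 ^ l * (bad Q S (im w)).card)
    have h3 : (4:ℝ) * ((Om.filter
        (fun w => 4 * S.card < 2 ^ l * (bad Q S (im w)).card)).card : ℝ)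
        ≤ (W.card : ℝ) ^ l := by
      exact_mod_cast h1
    have h4 : ((Om.filter (fun w => 4 * S.card < 2 ^ l * (bad Q S (im w)).card)).card : ℝ)
        + Good.card = (W.card : ℝ) ^ l := by
      rw [← hOmc]
      exact_mod_cast h2
    linarith
  -- for good tuples, few tuples are not joined to them
  have hfew : ∀ w' ∈ Good, (((W ∩ bad Q S (im w')).card : ℕ) : ℝ) ^ l ≤ e * (W.card : ℝ) ^ l := by
    intro w' hw'
    rw [hGood, Finset.mem_filter] at hw'
    have h1 : 2 ^ l * (W ∩ bad Q S (im w')).card ≤ 8 * W.card := by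
      calc 2 ^ l * (W ∩ bad Q S (im w')).card ≤ 2 ^ l * (bad Q S (im w')).card :=
            Nat.mul_le_mul_left _ (Finset.card_le_card Finset.inter_subset_right)
        _ ≤ 4 * S.card := not_lt.mp hw'.2
        _ ≤ 8 * W.card := by omega
    have h2 : (((W ∩ bad Q S (im w')).card : ℕ) : ℝ) ≤ 8 / 2 ^ l * W.card := by
      have h8 : (2:ℝ) ^ l * ((W ∩ bad Q S (im w')).card : ℝ) ≤ 8 * (W.card : ℝ) := by
        exact_mod_cast h1
      rw [div_mul_eq_mul_div, le_div_iff₀ (by positivity)]
      linarith
    calc (((W ∩ bad Q S (im w')).card : ℕ) : ℝ) ^ l ≤ (8 / 2 ^ l * W.card) ^ l :=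
          pow_le_pow_left₀ (by positivity) h2 l
      _ = (8 / 2 ^ l) ^ l * (W.card : ℝ) ^ l := mul_pow _ _ _
      _ ≤ e * (W.card : ℝ) ^ l := mul_le_mul_of_nonneg_right he hNpos.le
  -- first family
  have first : ∀ k ≤ r, ∃ T : ℕ → Finset V, ∃ C : Finset (Fin l → V), C ⊆ Good ∧
      3 / 4 * (W.card : ℝ) ^ l * (1 - 2 * e) ^ k ≤ C.card ∧
      (∀ i < k, T i ⊆ W ∧ (T i).card ≤ l) ∧
      (∀ i < k, ∀ j < k, i ≠ j → Disjoint (T i) (T j)) ∧
      (∀ i < k, ∀ w' ∈ C, ¬ (im w' ⊆ bad Q S (T i))) := by
    intro k
    induction k with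
    | zero =>
      intro _
      exact ⟨fun _ => ∅, Good, Finset.Subset.refl _, by simpa using hGoodc,
        fun i hi => absurd hi (Nat.not_lt_zero i), fun i hi => absurd hi (Nat.not_lt_zero i),
        fun i hi => absurd hi (Nat.not_lt_zero i)⟩
    | succ k ih =>
      intro hk
      obtain ⟨T, C, h1, h2, h3, h4, h5⟩ := ih (by omega)
      set X : Finset V := (Finset.range k).biUnion T with hX
      have hXc : X.card ≤ r * l := by
        calc X.card ≤ ∑ i ∈ Finset.range k, (T i).card := Finset.card_biUnion_le
          _ ≤ ∑ _i ∈ Finset.range k, l :=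
              Finset.sum_le_sum (fun i hi => (h3 i (Finset.mem_range.mp hi)).2)
          _ = k * l := by rw [Finset.sum_const, Finset.card_range, smul_eq_mul]
          _ ≤ r * l := Nat.mul_le_mul_right _ (by omega)
      set Om' : Finset (Fin l → V) := Fintype.piFinset (fun _ => W \ X) with hOm'
      have hOm'c : (W.card : ℝ) ^ l / 2 ≤ Om'.card := by
        have e1 : (Om'.card : ℝ) = ((W \ X).card : ℝ) ^ l := by
          rw [hOm', Fintype.card_piFinset_const]; push_cast; rfl
        rw [e1]
        refine le_trans ?_ (avoid_count W X hWpos l)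
        have h6 : (l:ℝ) * X.card / W.card ≤ 1 / 2 := by
          rw [div_le_iff₀ hWr]
          have h7 : (l:ℝ) * X.card ≤ l * (r * l) := by
            apply mul_le_mul_of_nonneg_left _ (by positivity)
            exact_mod_cast hXc
          have h8 : (2:ℝ) * (r * l ^ 2) ≤ W.card := by exact_mod_cast hsize
          nlinarith
        have := mul_le_mul_of_nonneg_left h6 hNpos.le
        nlinarith
      have hOm'sub : Om' ⊆ Om := by
        intro w hw
        rw [hOm', Fintype.mem_piFinset] at hw
        rw [hOm, Fintype.mem_piFinset]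
        exact fun i => Finset.sdiff_subset (hw i)
      -- double counting
      have hdc : ∑ w ∈ Om', ((C.filter (fun w' => im w' ⊆ bad Q S (im w))).card : ℝ)
          ≤ C.card * (e * (W.card : ℝ) ^ l) := by
        have e1 : ∀ w, ((C.filter (fun w' => im w' ⊆ bad Q S (im w))).card : ℝ)
            = ∑ w' ∈ C, (if im w' ⊆ bad Q S (im w) then (1:ℝ) else 0) := by
          intro w
          rw [Finset.card_filter]
          push_cast
          rfl
        rw [Finset.sum_congr rfl (fun w _ => e1 w), Finset.sum_comm, ← nsmul_eq_mul,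
          ← Finset.sum_const]
        refine Finset.sum_le_sum (fun w' hw' => ?_)
        have hw'G := h1 hw'
        refine le_trans ?_ (hfew w' hw'G)
        have e2 : ∑ w ∈ Om', (if im w' ⊆ bad Q S (im w) then (1:ℝ) else 0)
            = ((Om'.filter (fun w => im w' ⊆ bad Q S (im w))).card : ℝ) := by
          rw [Finset.card_filter]
          push_cast
          rfl
        rw [e2]
        have e3 : Om'.filter (fun w => im w' ⊆ bad Q S (im w))
            ⊆ Fintype.piFinset (fun _ : Fin l => W ∩ bad Q S (im w')) := by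
          intro w hw
          rw [Finset.mem_filter] at hw
          rw [Fintype.mem_piFinset]
          intro i
          have hwOm := hOm'sub hw.1
          have hw'Om : w' ∈ Om := by
            rw [hGood, Finset.mem_filter] at hw'G
            exact hw'G.1
          have h6 := (bad_symm Q S (im w') (im w) ((himW w' hw'Om).trans hWS)
            ((himW w hwOm).trans hWS)).mp hw.2
          rw [Finset.mem_inter]
          have hmem : w i ∈ im w := Finset.mem_image_of_mem _ (Finset.mem_univ _)
          exact ⟨himW w hwOm hmem, h6 hmem⟩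
        have e4 := Finset.card_le_card e3
        rw [Fintype.card_piFinset_const] at e4
        exact_mod_cast e4
      obtain ⟨w, hwO, hwC⟩ : ∃ w ∈ Om',
          ((C.filter (fun w' => im w' ⊆ bad Q S (im w))).card : ℝ) ≤ 2 * e * C.card := by
        by_contra hcon
        push Not at hcon
        have hne : Om'.Nonempty := by
          rw [← Finset.card_pos]
          have : (0:ℝ) < Om'.card := by linarith
          exact_mod_cast this
        have h6 : ∑ w ∈ Om', (2 * e * (C.card : ℝ))
            < ∑ w ∈ Om', ((C.filter (fun w' => im w' ⊆ bad Q S (im w))).card : ℝ) :=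
          Finset.sum_lt_sum_of_nonempty hne (fun w hw => hcon w hw)
        rw [Finset.sum_const, nsmul_eq_mul] at h6
        have h7 : (W.card : ℝ) ^ l / 2 * (2 * e * C.card) ≤ Om'.card * (2 * e * C.card) :=
          mul_le_mul_of_nonneg_right hOm'c (by positivity)
        nlinarith
      set C' := C.filter (fun w' => ¬ (im w' ⊆ bad Q S (im w))) with hC'
      have hC'c : (1 - 2 * e) * (C.card : ℝ) ≤ C'.card := by
        have h6 := Finset.card_filter_add_card_filter_not (s := C)
          (fun w' => im w' ⊆ bad Q S (im w))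
        have h7 : ((C.filter (fun w' => im w' ⊆ bad Q S (im w))).card : ℝ) + C'.card
            = C.card := by exact_mod_cast h6
        linarith
      have hwOm := hOm'sub hwO
      have hwX : Disjoint (im w) X := by
        rw [Finset.disjoint_left]
        intro v hv hvX
        rw [him, Finset.mem_image] at hv
        obtain ⟨i, _, rfl⟩ := hv
        rw [hOm', Fintype.mem_piFinset] at hwO
        have := hwO i
        rw [Finset.mem_sdiff] at this
        exact this.2 hvX
      have hwT : ∀ i < k, Disjoint (im w) (T i) := by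
        intro i hi
        rw [Finset.disjoint_left] at hwX ⊢
        intro v hv hvT
        exact hwX hv (Finset.mem_biUnion.mpr ⟨i, Finset.mem_range.mpr hi, hvT⟩)
      have hupd : ∀ i < k, Function.update T k (im w) i = T i := fun i hi =>
        Function.update_of_ne (by omega) _ _
      refine ⟨Function.update T k (im w), C', (Finset.filter_subset _ _).trans h1, ?_, ?_, ?_, ?_⟩
      · refine le_trans ?_ hC'c
        have h6 : 0 ≤ 1 - 2 * e := by linarith
        calc 3 / 4 * (W.card : ℝ) ^ l * (1 - 2 * e) ^ (k + 1)
            = (1 - 2 * e) * (3 / 4 * (W.card : ℝ) ^ l * (1 - 2 * e) ^ k) := by ring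
          _ ≤ _ := mul_le_mul_of_nonneg_left h2 h6
      · intro i hi
        rcases Nat.lt_succ_iff_lt_or_eq.mp hi with hi | rfl
        · rw [hupd i hi]; exact h3 i hi
        · rw [Function.update_self]
          exact ⟨himW w hwOm, himc w⟩
      · intro i hi j hj hij
        rcases Nat.lt_succ_iff_lt_or_eq.mp hi with hi | rfl
        · rw [hupd i hi]
          rcases Nat.lt_succ_iff_lt_or_eq.mp hj with hj | rfl
          · rw [hupd j hj]
            exact h4 i hi j hj hij
          · rw [Function.update_self]
            exact (hwT i hi).symm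
        · rw [Function.update_self]
          rcases Nat.lt_succ_iff_lt_or_eq.mp hj with hj | rfl
          · rw [hupd j hj]
            exact hwT j hj
          · exact absurd rfl hij
      · intro i hi w' hw'
        rw [hC', Finset.mem_filter] at hw'
        rcases Nat.lt_succ_iff_lt_or_eq.mp hi with hi | rfl
        · rw [hupd i hi]; exact h5 i hi w' hw'.1
        · rw [Function.update_self]
          exact hw'.2
  obtain ⟨T, C, h1, h2, h3, h4, h5⟩ := first r le_rfl
  -- second family
  have second : ∀ k ≤ r, ∃ T' : ℕ → Finset V,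
      (∀ i < k, T' i ⊆ W ∧ (T' i).card ≤ l) ∧
      (∀ i < r, ∀ j < k, Disjoint (T i) (T' j)) ∧
      (∀ i < k, ∀ j < k, i ≠ j → Disjoint (T' i) (T' j)) ∧
      (∀ i < r, ∀ j < k, ∃ x ∈ T i, ∃ y ∈ T' j, Q.Adj x y) := by
    intro k
    induction k with
    | zero =>
      intro _
      exact ⟨fun _ => ∅, fun i hi => absurd hi (Nat.not_lt_zero i),
        fun _ _ i hi => absurd hi (Nat.not_lt_zero i),
        fun i hi => absurd hi (Nat.not_lt_zero i),
        fun _ _ i hi => absurd hi (Nat.not_lt_zero i)⟩
    | succ k ih =>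
      intro hk
      obtain ⟨T', g1, g2, g3, g4⟩ := ih (by omega)
      set X : Finset V := (Finset.range r).biUnion T ∪ (Finset.range k).biUnion T' with hX
      have hXc : X.card ≤ 2 * (r * l) := by
        have e1 : ((Finset.range r).biUnion T).card ≤ r * l := by
          calc ((Finset.range r).biUnion T).card ≤ ∑ i ∈ Finset.range r, (T i).card :=
                Finset.card_biUnion_le
            _ ≤ ∑ _i ∈ Finset.range r, l :=
                Finset.sum_le_sum (fun i hi => (h3 i (Finset.mem_range.mp hi)).2)
            _ = r * l := by rw [Finset.sum_const, Finset.card_range, smul_eq_mul]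
        have e2 : ((Finset.range k).biUnion T').card ≤ r * l := by
          calc ((Finset.range k).biUnion T').card ≤ ∑ i ∈ Finset.range k, (T' i).card :=
                Finset.card_biUnion_le
            _ ≤ ∑ _i ∈ Finset.range k, l :=
                Finset.sum_le_sum (fun i hi => (g1 i (Finset.mem_range.mp hi)).2)
            _ = k * l := by rw [Finset.sum_const, Finset.card_range, smul_eq_mul]
            _ ≤ r * l := Nat.mul_le_mul_right _ (by omega)
        have e3 := Finset.card_union_le ((Finset.range r).biUnion T) ((Finset.range k).biUnion T')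
        rw [hX]
        omega
      set Om' : Finset (Fin l → V) := Fintype.piFinset (fun _ => W \ X) with hOm'
      have hOm'sub : Om' ⊆ Om := by
        intro w hw
        rw [hOm', Fintype.mem_piFinset] at hw
        rw [hOm, Fintype.mem_piFinset]
        exact fun i => Finset.sdiff_subset (hw i)
      obtain ⟨w', hw'C, hw'O⟩ : ∃ w' ∈ C, w' ∈ Om' := by
        by_contra hcon
        push Not at hcon
        have e1 : C ⊆ Om \ Om' := by
          intro w hw
          rw [Finset.mem_sdiff]
          refine ⟨?_, hcon w hw⟩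
          have := h1 hw
          rw [hGood, Finset.mem_filter] at this
          exact this.1
        have e2 : (C.card : ℝ) ≤ Om.card - Om'.card := by
          have := Finset.card_le_card e1
          rw [Finset.card_sdiff_of_subset hOm'sub] at this
          have e3 : C.card + Om'.card ≤ Om.card := by
            have := Finset.card_le_card hOm'sub
            omega
          have e4 : (C.card : ℝ) + Om'.card ≤ Om.card := by exact_mod_cast e3
          linarith
        have e5 : (Om'.card : ℝ) = ((W \ X).card : ℝ) ^ l := by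
          rw [hOm', Fintype.card_piFinset_const]; push_cast; rfl
        have e6 := avoid_count W X hWpos l
        rw [hOmc, e5] at e2
        have e7 : (C.card : ℝ) ≤ (W.card : ℝ) ^ l * (l * X.card / W.card) := by
          have : (W.card : ℝ) ^ l * (1 - l * X.card / W.card)
            = (W.card : ℝ) ^ l - (W.card : ℝ) ^ l * (l * X.card / W.card) := by ring
          linarith
        have e8 : 3 / 4 * (W.card : ℝ) ^ l * (1 - 2 * e) ^ r
            ≤ (W.card : ℝ) ^ l * (l * X.card / W.card) := h2.trans e7
        have e9 : 3 / 4 * (1 - 2 * e) ^ r ≤ l * X.card / W.card := by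
          have : (W.card : ℝ) ^ l * (3 / 4 * (1 - 2 * e) ^ r)
              ≤ (W.card : ℝ) ^ l * (l * X.card / W.card) := by linarith
          exact le_of_mul_le_mul_left this hNpos
        rw [le_div_iff₀ hWr] at e9
        have e10 : (l:ℝ) * X.card ≤ l * (2 * (r * l)) := by
          apply mul_le_mul_of_nonneg_left _ (by positivity)
          exact_mod_cast hXc
        nlinarith
      have hw'Om := hOm'sub hw'O
      have hwX : Disjoint (im w') X := by
        rw [Finset.disjoint_left]
        intro v hv hvX
        rw [him, Finset.mem_image] at hv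
        obtain ⟨i, _, rfl⟩ := hv
        rw [hOm', Fintype.mem_piFinset] at hw'O
        have := hw'O i
        rw [Finset.mem_sdiff] at this
        exact this.2 hvX
      have hwT : ∀ i < r, Disjoint (T i) (im w') := by
        intro i hi
        rw [Finset.disjoint_left] at hwX ⊢
        intro v hv hvT
        exact hwX hvT (Finset.mem_union_left _
          (Finset.mem_biUnion.mpr ⟨i, Finset.mem_range.mpr hi, hv⟩))
      have hwT' : ∀ i < k, Disjoint (im w') (T' i) := by
        intro i hi
        rw [Finset.disjoint_left] at hwX ⊢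
        intro v hv hvT
        exact hwX hv (Finset.mem_union_right _
          (Finset.mem_biUnion.mpr ⟨i, Finset.mem_range.mpr hi, hvT⟩))
      have hadjw : ∀ i < r, ∃ x ∈ T i, ∃ y ∈ im w', Q.Adj x y := by
        intro i hi
        have h6 := h5 i hi w' hw'C
        rw [Finset.not_subset] at h6
        obtain ⟨y, hy, hyb⟩ := h6
        unfold bad at hyb
        rw [Finset.mem_filter, not_and] at hyb
        have h7 := hyb (hWS (himW w' hw'Om hy))
        push Not at h7
        obtain ⟨x, hx, hyx⟩ := h7
        exact ⟨x, hx, y, hy, hyx.symm⟩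
      have hupd : ∀ i < k, Function.update T' k (im w') i = T' i := fun i hi =>
        Function.update_of_ne (by omega) _ _
      refine ⟨Function.update T' k (im w'), ?_, ?_, ?_, ?_⟩
      · intro i hi
        rcases Nat.lt_succ_iff_lt_or_eq.mp hi with hi | rfl
        · rw [hupd i hi]; exact g1 i hi
        · rw [Function.update_self]
          exact ⟨himW w' hw'Om, himc w'⟩
      · intro i hi j hj
        rcases Nat.lt_succ_iff_lt_or_eq.mp hj with hj | rfl
        · rw [hupd j hj]; exact g2 i hi j hj
        · rw [Function.update_self]; exact hwT i hi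
      · intro i hi j hj hij
        rcases Nat.lt_succ_iff_lt_or_eq.mp hi with hi | rfl
        · rw [hupd i hi]
          rcases Nat.lt_succ_iff_lt_or_eq.mp hj with hj | rfl
          · rw [hupd j hj]
            exact g3 i hi j hj hij
          · rw [Function.update_self]
            exact (hwT' i hi).symm
        · rw [Function.update_self]
          rcases Nat.lt_succ_iff_lt_or_eq.mp hj with hj | rfl
          · rw [hupd j hj]
            exact hwT' j hj
          · exact absurd rfl hij
      · intro i hi j hj
        rcases Nat.lt_succ_iff_lt_or_eq.mp hj with hj | rfl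
        · rw [hupd j hj]; exact g4 i hi j hj
        · rw [Function.update_self]; exact hadjw i hi
  obtain ⟨T', g1, g2, g3, g4⟩ := second r le_rfl
  exact ⟨T, T', fun i hi => ⟨(h3 i hi).1, (h3 i hi).2, (g1 i hi).1, (g1 i hi).2⟩, g2,
    fun i hi j hj hij => ⟨h4 i hi j hj hij, g3 i hi j hj hij⟩, g4⟩

end Biclique

end Pool.Agent.H56.Minor
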