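import Mathlib
import Pool.Agent.H56.MinorDefs
import Pool.Agent.H56.Minor1
import Pool.Agent.H56.Seeds1

set_option autoImplicit false
set_option linter.unusedSectionVars false

namespace Pool.Agent.H56.Minor

open Finset

section Blocks

variable {V : Type} [Fintype V] [DecidableEq V]
variable (Q : SimpleGraph V) (S : Finset V)

/-- Seeds for a graph all of whose components are small. -/
theorem block_seeds (hdeg : ∀ x ∈ S, 11 * S.card ≤ 20 * dg Q S x) (hS : 0 < S.card)
    (t r l : ℕ) (e : ℝ) (blk : Fin t → ℕ)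
    (hblk : ∀ β, (Finset.univ.filter (fun u => blk u = β)).card ≤ r)
    (he : ((8:ℝ) / 2 ^ l) ^ l ≤ e) (he0 : 0 ≤ e) (he4 : 4 * e ≤ 1)
    (hused : 20 * (2 * l * t) ≤ S.card)
    (hsize : 4 * (r * l ^ 2) ≤ S.card)
    (hbig : (16:ℝ) * (r * l ^ 2) < 3 * (1 - 2 * e) ^ r * S.card) :
    ∃ D : Fin t → Finset V, (∀ u, D u ⊆ S ∧ (D u).card ≤ 2 * l) ∧
      (∀ u v, u ≠ v → Disjoint (D u) (D v)) ∧
      (∀ u v, u ≠ v → blk u = blk v → ∃ x ∈ D u, ∃ y ∈ D v, Q.Adj x y) := by
  classical
  have main : ∀ B : Finset ℕ, ∃ D : Fin t → Finset V, (∀ u, D u ⊆ S ∧ (D u).card ≤ 2 * l) ∧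
      (∀ u v, u ≠ v → Disjoint (D u) (D v)) ∧
      (∀ u v, u ≠ v → blk u ∈ B → blk u = blk v → ∃ x ∈ D u, ∃ y ∈ D v, Q.Adj x y) := by
    intro B
    induction B using Finset.induction_on with
    | empty =>
      exact ⟨fun _ => ∅, fun u => ⟨Finset.empty_subset _, by simp⟩,
        fun u v _ => Finset.disjoint_empty_left _, fun u v _ h => absurd h (Finset.notMem_empty _)⟩
    | insert β B hβ ih =>
      obtain ⟨D, h1, h2, h3⟩ := ih
      set Z : Finset V := Finset.univ.biUnion D with hZ
      have hZc : Z.card ≤ 2 * l * t := by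
        calc Z.card ≤ ∑ u, (D u).card := Finset.card_biUnion_le
          _ ≤ ∑ _u : Fin t, 2 * l := Finset.sum_le_sum (fun u _ => (h1 u).2)
          _ = 2 * l * t := by
              rw [Finset.sum_const, Finset.card_univ, Fintype.card_fin, smul_eq_mul]; ring
      have hZS : Z ⊆ S := by
        intro v hv
        rw [hZ, Finset.mem_biUnion] at hv
        obtain ⟨u, _, hv⟩ := hv
        exact (h1 u).1 hv
      set W : Finset V := S \ Z with hW
      have hWc : W.card = S.card - Z.card := by
        rw [hW, Finset.card_sdiff_of_subset hZS]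
      have hW19 : 19 * S.card ≤ 20 * W.card := by omega
      have hW2 : S.card ≤ 2 * W.card := by omega
      have hWne : W.Nonempty := by
        rw [← Finset.card_pos]; omega
      have h1e : 0 ≤ 1 - 2 * e := by linarith
      obtain ⟨T, T', g1, g2, g3, g4⟩ := biclique Q S hdeg W Finset.sdiff_subset hWne hW19 r l e
        he he0 he4 (by omega) (by
          have h4 : (S.card : ℝ) ≤ 2 * W.card := by exact_mod_cast hW2
          have h5 : 3 * (1 - 2 * e) ^ r * (S.card : ℝ) ≤ 3 * (1 - 2 * e) ^ r * (2 * W.card) :=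
            mul_le_mul_of_nonneg_left h4 (by positivity)
          linarith)
      -- indices in the block
      set Bk : Finset (Fin t) := Finset.univ.filter (fun u => blk u = β) with hBk
      obtain ⟨idx, hidx1, hidx2⟩ : ∃ idx : Fin t → ℕ, (∀ u ∈ Bk, idx u < r) ∧
          (∀ u ∈ Bk, ∀ v ∈ Bk, idx u = idx v → u = v) := by
        refine ⟨fun u => if h : u ∈ Bk then (Bk.equivFin ⟨u, h⟩ : ℕ) else 0, ?_, ?_⟩
        · intro u hu
          simp only
          rw [dif_pos hu]
          exact lt_of_lt_of_le (Bk.equivFin ⟨u, hu⟩).2 (hblk β)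
        · intro u hu v hv huv
          simp only at huv
          rw [dif_pos hu, dif_pos hv] at huv
          have := Bk.equivFin.injective (Fin.ext huv)
          exact congrArg Subtype.val this
      have hmem : ∀ u, u ∈ Bk ↔ blk u = β := by
        intro u; rw [hBk, Finset.mem_filter]; simp
      have hWZ : ∀ (A : Finset V) (u : Fin t), A ⊆ W → Disjoint A (D u) := by
        intro A u hA
        rw [Finset.disjoint_left]
        intro v hv hvD
        have := hA hv
        rw [hW, Finset.mem_sdiff] at this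
        exact this.2 (Finset.mem_biUnion.mpr ⟨u, Finset.mem_univ _, hvD⟩)
      refine ⟨fun u => if u ∈ Bk then T (idx u) ∪ T' (idx u) else D u, ?_, ?_, ?_⟩
      · intro u
        by_cases hu : u ∈ Bk
        · simp only [if_pos hu]
          have h4 := g1 (idx u) (hidx1 u hu)
          refine ⟨(Finset.union_subset h4.1 h4.2.2.1).trans Finset.sdiff_subset, ?_⟩
          have := Finset.card_union_le (T (idx u)) (T' (idx u))
          omega
        · simp only [if_neg hu]
          exact h1 u
      · intro u v huv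
        by_cases hu : u ∈ Bk <;> by_cases hv : v ∈ Bk
        · simp only [if_pos hu, if_pos hv]
          have hne : idx u ≠ idx v := fun h => huv (hidx2 u hu v hv h)
          have h4 := g3 _ (hidx1 u hu) _ (hidx1 v hv) hne
          have h5 := g2 _ (hidx1 u hu) _ (hidx1 v hv)
          have h6 := g2 _ (hidx1 v hv) _ (hidx1 u hu)
          rw [Finset.disjoint_union_left, Finset.disjoint_union_right, Finset.disjoint_union_right]
          exact ⟨⟨h4.1, h5⟩, ⟨h6.symm, h4.2⟩⟩
        · simp only [if_pos hu, if_neg hv]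
          have h4 := g1 (idx u) (hidx1 u hu)
          exact hWZ _ v (Finset.union_subset h4.1 h4.2.2.1)
        · simp only [if_neg hu, if_pos hv]
          have h4 := g1 (idx v) (hidx1 v hv)
          exact (hWZ _ u (Finset.union_subset h4.1 h4.2.2.1)).symm
        · simp only [if_neg hu, if_neg hv]
          exact h2 u v huv
      · intro u v huv huB hb
        by_cases hu : u ∈ Bk
        · have hv : v ∈ Bk := by rw [hmem] at hu ⊢; rw [← hb]; exact hu
          simp only [if_pos hu, if_pos hv]
          obtain ⟨x, hx, y, hy, hxy⟩ := g4 _ (hidx1 u hu) _ (hidx1 v hv)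
          exact ⟨x, Finset.mem_union_left _ hx, y, Finset.mem_union_right _ hy, hxy⟩
        · have hv : v ∉ Bk := by rw [hmem] at hu ⊢; rw [← hb]; exact hu
          simp only [if_neg hu, if_neg hv]
          refine h3 u v huv ?_ hb
          rcases Finset.mem_insert.mp huB with h | h
          · exact absurd ((hmem u).mpr h) hu
          · exact h
  obtain ⟨D, h1, h2, h3⟩ := main (Finset.univ.image blk)
  exact ⟨D, h1, h2, fun u v huv hb =>
    h3 u v huv (Finset.mem_image_of_mem _ (Finset.mem_univ _)) hb⟩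

end Blocks

section UpperBlocks

variable {V : Type} [Fintype V] [DecidableEq V]

/-- Upper bound for graphs with small components and dominant vertices. -/
theorem upper_blocks (G : SimpleGraph V) (s t a b r l : ℕ) (e : ℝ) (H₀ : SimpleGraph (Fin t))
    (blk : Fin t → ℕ) (hadj0 : ∀ u v, H₀.Adj u v → blk u = blk v)
    (hblk : ∀ β, (Finset.univ.filter (fun u => blk u = β)).card ≤ r)
    (he : ((8:ℝ) / 2 ^ l) ^ l ≤ e) (he0 : 0 ≤ e) (he4 : 4 * e ≤ 1)
    (hsize : 4 * (r * l ^ 2) ≤ t)
    (hbig : (16:ℝ) * (r * l ^ 2) < 3 * (1 - 2 * e) ^ r * t)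
    (hs : 1 ≤ s) (ht : 1 ≤ t)
    (ha : 6 ≤ a) (hab : a ≤ b) (h2 : 16 * s ^ 2 ≤ 2 ^ (a * b))
    (hV : 0 < Fintype.card V)
    (hE : 2 * (240 * (t * (a + 2 * l) + s * b)) * Fintype.card V ≤ E2 G Finset.univ) :
    IsMinor (addDominant H₀ s) G := by
  classical
  have hk : (60:ℝ) ≤ 240 * (t * (a + 2 * l) + s * b) := by
    have e1 : (1:ℝ) ≤ t := by exact_mod_cast ht
    have e2 : (6:ℝ) ≤ a := by exact_mod_cast ha
    have e3 : (0:ℝ) ≤ s * b := by positivity
    have e4 : (0:ℝ) ≤ l := by positivity
    nlinarith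
  obtain ⟨S, Q, ⟨φ, m1, m2, m3⟩, hScard, hQ⟩ := dense_minor G
    (240 * (t * (a + 2 * l) + s * b)) hk hV (by exact_mod_cast hE)
  have hScard' : 60 * (t * (a + 2 * l) + s * b) ≤ S.card := by
    have : (60:ℝ) * (t * (a + 2 * l) + s * b) ≤ S.card := by linarith
    exact_mod_cast this
  have hta : t * 1 ≤ t * (a + 2 * l) := Nat.mul_le_mul_left _ (by omega)
  have htS : t ≤ S.card := by omega
  have hSpos : 0 < S.card := by omega
  have h1e : 0 ≤ 1 - 2 * e := by linarith
  obtain ⟨D₀, d1, d2, d3⟩ := block_seeds Q S hQ hSpos t r l e blk hblk he he0 he4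
    (by
      have : t * (2 * l) ≤ t * (a + 2 * l) := Nat.mul_le_mul_left _ (by omega)
      have h3 : 2 * l * t = t * (2 * l) := by ring
      omega) (hsize.trans htS) (by
      have h3 : (t:ℝ) ≤ S.card := by exact_mod_cast htS
      have h4 : 3 * (1 - 2 * e) ^ r * (t:ℝ) ≤ 3 * (1 - 2 * e) ^ r * S.card :=
        mul_le_mul_of_nonneg_left h3 (by positivity)
      linarith)
  set D : ℕ → Finset V := fun i => if h : s ≤ i ∧ i - s < t then D₀ ⟨i - s, h.2⟩ else ∅ with hD
  have hDs : ∀ i, i < s → D i = ∅ := by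
    intro i hi
    rw [hD]; simp only
    rw [dif_neg (by omega)]
  have hDt : ∀ u : Fin t, D (s + u) = D₀ u := by
    intro u
    rw [hD]; simp only
    have hu := u.2
    rw [dif_pos (by omega)]
    congr 1
    apply Fin.ext
    simp
  have hDor : ∀ i, D i = ∅ ∨ ∃ u : Fin t, i = s + u ∧ D i = D₀ u := by
    intro i
    by_cases h : s ≤ i ∧ i - s < t
    · right
      refine ⟨⟨i - s, h.2⟩, by simp only; omega, ?_⟩
      rw [hD]; simp only
      rw [dif_pos h]
    · left
      rw [hD]; simp only
      rw [dif_neg h]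
  set sz : ℕ → ℕ := fun i => if i < s then b else a with hsz
  set Hn : ℕ → ℕ → Prop := fun j i => i < s ∨ j < s with hHn
  have hszge : ∀ i, 1 ≤ sz i := by
    intro i
    simp only [hsz]
    split_ifs <;> omega
  have hsumsz : ∑ i ∈ Finset.range (s + t), (sz i + (D i).card) ≤ s * b + t * (a + 2 * l) := by
    rw [Finset.sum_range_add]
    have e1 : ∑ i ∈ Finset.range s, (sz i + (D i).card) = s * b := by
      rw [Finset.sum_congr (g := fun _ => b) rfl
        (fun i hi => by
          rw [hDs i (Finset.mem_range.mp hi), Finset.card_empty, add_zero]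
          exact if_pos (Finset.mem_range.mp hi))]
      simp
    have e2 : ∑ x ∈ Finset.range t, (sz (s + x) + (D (s + x)).card) ≤ t * (a + 2 * l) := by
      calc ∑ x ∈ Finset.range t, (sz (s + x) + (D (s + x)).card)
          ≤ ∑ x ∈ Finset.range t, (a + 2 * l) := by
            refine Finset.sum_le_sum (fun x hx => ?_)
            have hx' := Finset.mem_range.mp hx
            have h3 : sz (s + x) = a := if_neg (by omega)
            have h4 := hDt ⟨x, hx'⟩
            simp only at h4
            rw [h3, h4]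
            exact Nat.add_le_add_left (d1 _).2 _
        _ = _ := by simp
    rw [e1]
    omega
  have hs' : (0:ℝ) < s := by exact_mod_cast hs
  obtain ⟨A, g1, g2, g3⟩ := greedy_seed Q S hQ Hn sz hszge (s + t) hSpos D
    (by
      intro i _
      rcases hDor i with h | ⟨u, _, h⟩
      · rw [h]; exact Finset.empty_subset _
      · rw [h]; exact (d1 u).1)
    (by
      intro i _ j _ hij
      rcases hDor i with h | ⟨u, hu, h⟩
      · rw [h]; exact Finset.disjoint_empty_left _
      · rcases hDor j with h' | ⟨v, hv, h'⟩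
        · rw [h']; exact Finset.disjoint_empty_right _
        · rw [h, h']
          apply d2
          rintro rfl
          exact hij (hu.trans hv.symm))
    (by omega) (by
      intro i hi F hF
      have tb : ((8:ℝ) / 2 ^ b) ^ b ≤ 1 / (4 * s) :=
        term_bound s b b hs (h2.trans (Nat.pow_le_pow_right (by norm_num)
          (Nat.mul_le_mul_right b hab))) (ha.trans hab)
      have ta : ((8:ℝ) / 2 ^ b) ^ a ≤ 1 / (4 * s) :=
        term_bound s b a hs (by rw [mul_comm b a]; exact h2) (ha.trans hab)
      have hFs : F ⊆ Finset.range s := by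
        intro j hj
        rw [Finset.mem_range]
        obtain ⟨h3, h4⟩ := hF j hj
        rcases h4 with h4 | h4
        · omega
        · exact h4
      have hFc : (F.card : ℝ) ≤ s := by
        have := Finset.card_le_card hFs
        rw [Finset.card_range] at this
        exact_mod_cast this
      have : ∑ j ∈ F, ((8:ℝ) / 2 ^ (sz j)) ^ (sz i) ≤ ∑ j ∈ F, 1 / (4 * (s:ℝ)) := by
        refine Finset.sum_le_sum (fun j hj => ?_)
        have hj' : j < s := Finset.mem_range.mp (hFs hj)
        by_cases his : i < s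
        · simp only [hsz, if_pos his, if_pos hj']
          exact tb
        · simp only [hsz, if_neg his, if_pos hj']
          exact ta
      rw [Finset.sum_const, nsmul_eq_mul] at this
      have h4 : (F.card : ℝ) * (1 / (4 * s)) ≤ s * (1 / (4 * s)) := by
        apply mul_le_mul_of_nonneg_right hFc (by positivity)
      have h5 : (s:ℝ) * (1 / (4 * s)) = 1 / 4 := by field_simp
      linarith)
  -- the model
  set idx : Fin t ⊕ Fin s → ℕ := fun x => Sum.elim (fun u : Fin t => s + (u:ℕ)) (fun w : Fin s => (w:ℕ)) x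
    with hidx
  have hidxlt : ∀ x, idx x < s + t := by
    rintro (u | w)
    · have := u.2; simp only [hidx, Sum.elim_inl]; omega
    · have := w.2; simp only [hidx, Sum.elim_inr]; omega
  have hidxinj : ∀ x y, idx x = idx y → x = y := by
    rintro (u | u) (w | w) h
    · simp only [hidx, Sum.elim_inl] at h
      congr 1
      exact Fin.ext (by omega)
    · simp only [hidx, Sum.elim_inl, Sum.elim_inr] at h
      have := w.2
      omega
    · simp only [hidx, Sum.elim_inl, Sum.elim_inr] at h
      have := u.2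
      omega
    · simp only [hidx, Sum.elim_inr] at h
      congr 1
      exact Fin.ext h
  have hadj : ∀ x y, (addDominant H₀ s).Adj x y → ∃ p ∈ A (idx x), ∃ q ∈ A (idx y), Q.Adj p q := by
    -- it suffices to treat idx x < idx y
    have key : ∀ x y, (addDominant H₀ s).Adj x y → idx x < idx y →
        ∃ p ∈ A (idx x), ∃ q ∈ A (idx y), Q.Adj p q := by
      intro x y hxy hlt
      rcases x with u | u
      · rcases y with w | w
        · -- both in `H₀`
          have h3 : H₀.Adj u w := hxy.2 u w rfl rfl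
          obtain ⟨p, hp, q, hq, hpq⟩ := d3 u w h3.ne (hadj0 u w h3)
          have hAu := (g1 (idx (Sum.inl u)) (hidxlt _)).2.2
          have hAw := (g1 (idx (Sum.inl w)) (hidxlt _)).2.2
          refine ⟨p, hAu ?_, q, hAw ?_, hpq⟩
          · change p ∈ D (s + u)
            rw [hDt]; exact hp
          · change q ∈ D (s + w)
            rw [hDt]; exact hq
        · refine g3 _ (hidxlt _) _ hlt ?_
          left
          exact w.2
      · refine g3 _ (hidxlt _) _ hlt ?_
        right
        exact u.2
    intro x y hxy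
    rcases lt_trichotomy (idx x) (idx y) with h | h | h
    · exact key x y hxy h
    · exact absurd (hidxinj x y h) hxy.1
    · obtain ⟨p, hp, q, hq, hpq⟩ := key y x hxy.symm h
      exact ⟨q, hq, p, hp, hpq.symm⟩
  refine ⟨fun x => ⋃ y ∈ (A (idx x) : Set V), φ y, ?_, ?_, ?_⟩
  · intro x
    obtain ⟨hAS, hAc, _⟩ := g1 (idx x) (hidxlt x)
    exact union_connected Q G (A (idx x) : Set V) φ (fun y hy => m1 y (hAS hy))
      (fun y hy z hz => m3 y (hAS hy) z (hAS hz)) hAc
  · intro x y hxy
    have hne : idx x ≠ idx y := fun h => hxy (hidxinj x y h)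
    rw [Set.disjoint_left]
    intro v hv hv'
    rw [Set.mem_iUnion₂] at hv hv'
    obtain ⟨p, hp, hvp⟩ := hv
    obtain ⟨q, hq, hvq⟩ := hv'
    have hpS := (g1 (idx x) (hidxlt x)).1 hp
    have hqS := (g1 (idx y) (hidxlt y)).1 hq
    have hpq : p ≠ q := by
      rintro rfl
      exact Finset.disjoint_left.mp (g2 (idx x) (hidxlt x) (idx y) (hidxlt y) hne) hp hq
    exact Set.disjoint_left.mp (m2 p hpS q hqS hpq) hvp hvq
  · intro x y hxy
    obtain ⟨p, hp, q, hq, hpq⟩ := hadj x y hxy
    obtain ⟨v, hv, w, hw, hvw⟩ := m3 p ((g1 (idx x) (hidxlt x)).1 hp) q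
      ((g1 (idx y) (hidxlt y)).1 hq) hpq
    exact ⟨v, Set.mem_iUnion₂.mpr ⟨p, hp, hv⟩, w, Set.mem_iUnion₂.mpr ⟨q, hq, hw⟩, hvw⟩

end UpperBlocks

end Pool.Agent.H56.Minor
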