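import Mathlib

set_option autoImplicit false
set_option linter.unusedSectionVars false

namespace Pool.Agent.H56.Minor

open Finset

section Count

variable {E P : Type} [Fintype E] [DecidableEq E] [Fintype P] [DecidableEq P]

lemma sum_prod_zero (B : Finset E) :
    ∑ ε : E → Bool, ∏ e ∈ B, (if ε e then (0:ℝ) else 1)
      = 2 ^ Fintype.card E * (1 / 2) ^ B.card := by
  classical
  have h1 : ∀ ε : E → Bool, ∏ e ∈ B, (if ε e then (0:ℝ) else 1)
      = ∏ e, (if e ∈ B then (if ε e then (0:ℝ) else 1) else 1) := by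
    intro ε
    rw [Finset.prod_ite_mem, Finset.univ_inter]
  rw [Finset.sum_congr rfl (fun ε _ => h1 ε)]
  have h2 := Finset.prod_univ_sum (fun _ : E => (Finset.univ : Finset Bool))
    (fun e b => (if e ∈ B then (if b then (0:ℝ) else 1) else 1))
  rw [Fintype.piFinset_univ] at h2
  rw [← h2]
  have h3 : ∀ e : E, ∑ b : Bool, (if e ∈ B then (if b then (0:ℝ) else 1) else 1)
      = if e ∈ B then 2 * (1 / 2) else 2 := by
    intro e
    by_cases h : e ∈ B
    · simp [h]
    · simp [h]
  rw [Finset.prod_congr rfl (fun e _ => h3 e)]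
  have h4 : ∀ e : E, (if e ∈ B then (2:ℝ) * (1 / 2) else 2) = 2 * (if e ∈ B then 1 / 2 else 1) := by
    intro e; split_ifs <;> ring
  rw [Finset.prod_congr rfl (fun e _ => h4 e), Finset.prod_mul_distrib, Finset.prod_const,
    Finset.card_univ]
  congr 1
  rw [Finset.prod_ite, Finset.prod_const_one, mul_one, Finset.prod_const]
  congr 2
  ext e; simp

open Classical in
/-- The number of 0/1 functions on `E` hitting each of the disjoint sets `F p`. -/
lemma count_hit (F : P → Finset E) (hF : ∀ p q, p ≠ q → Disjoint (F p) (F q)) :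
    ((Finset.univ.filter (fun ε : E → Bool => ∀ p, ∃ e ∈ F p, ε e = true)).card : ℝ)
      = 2 ^ Fintype.card E * ∏ p, (1 - (1 / 2) ^ (F p).card) := by
  have h1 : ((Finset.univ.filter (fun ε : E → Bool => ∀ p, ∃ e ∈ F p, ε e = true)).card : ℝ)
      = ∑ ε : E → Bool, ∏ p, (1 + -(∏ e ∈ F p, (if ε e then (0:ℝ) else 1))) := by
    rw [Finset.card_filter]
    push_cast
    refine Finset.sum_congr rfl (fun ε _ => ?_)
    by_cases h : ∀ p, ∃ e ∈ F p, ε e = true
    · rw [if_pos h]
      symm
      apply Finset.prod_eq_one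
      intro p _
      obtain ⟨e, he, hεe⟩ := h p
      rw [Finset.prod_eq_zero he (by simp [hεe])]
      ring
    · rw [if_neg h]
      push Not at h
      obtain ⟨p, hp⟩ := h
      symm
      apply Finset.prod_eq_zero (Finset.mem_univ p)
      rw [Finset.prod_eq_one (fun e he => by
        have := hp e he
        simp at this
        simp [this])]
      ring
  rw [h1]
  have h2 : ∀ ε : E → Bool, ∏ p, (1 + -(∏ e ∈ F p, (if ε e then (0:ℝ) else 1)))
      = ∑ T : Finset P, (-1) ^ T.card * ∏ e ∈ T.biUnion F, (if ε e then (0:ℝ) else 1) := by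
    intro ε
    rw [Finset.prod_one_add]
    rw [Finset.powerset_univ]
    refine Finset.sum_congr rfl (fun T _ => ?_)
    rw [Finset.prod_biUnion (fun p _ q _ hpq => hF p q hpq)]
    rw [← Finset.prod_const, ← Finset.prod_mul_distrib]
    refine Finset.prod_congr rfl (fun p _ => ?_)
    ring
  rw [Finset.sum_congr rfl (fun ε _ => h2 ε), Finset.sum_comm]
  have h3 : ∀ T : Finset P, ∑ ε : E → Bool,
      (-1) ^ T.card * ∏ e ∈ T.biUnion F, (if ε e then (0:ℝ) else 1)
      = 2 ^ Fintype.card E * ∏ p ∈ T, (-((1 / 2) ^ (F p).card)) := by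
    intro T
    rw [← Finset.mul_sum, sum_prod_zero, Finset.card_biUnion (fun p _ q _ hpq => hF p q hpq),
      ← Finset.prod_pow_eq_pow_sum, ← Finset.prod_const]
    rw [show (∏ _x ∈ T, (-1:ℝ)) * (2 ^ Fintype.card E * ∏ i ∈ T, (1 / 2) ^ (F i).card)
      = 2 ^ Fintype.card E * ((∏ _x ∈ T, (-1:ℝ)) * ∏ i ∈ T, (1 / 2) ^ (F i).card) by ring,
      ← Finset.prod_mul_distrib]
    congr 1
    refine Finset.prod_congr rfl (fun p _ => ?_)
    ring
  rw [Finset.sum_congr rfl (fun T _ => h3 T), ← Finset.mul_sum]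
  congr 1
  have h4 : ∀ p : P, (1 - (1 / 2 : ℝ) ^ (F p).card) = 1 + (-((1 / 2) ^ (F p).card)) := by
    intro p; ring
  rw [Finset.prod_congr rfl (fun p _ => h4 p), Finset.prod_one_add, Finset.powerset_univ]

open Classical in
/-- Upper bound in exponential form. -/
lemma count_hit_le (F : P → Finset E) (hF : ∀ p q, p ≠ q → Disjoint (F p) (F q)) :
    ((Finset.univ.filter (fun ε : E → Bool => ∀ p, ∃ e ∈ F p, ε e = true)).card : ℝ)
      ≤ 2 ^ Fintype.card E * Real.exp (-∑ p, (1 / 2 : ℝ) ^ (F p).card) := by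
  rw [count_hit F hF, ← Finset.sum_neg_distrib, Real.exp_sum]
  apply mul_le_mul_of_nonneg_left _ (by positivity)
  apply Finset.prod_le_prod
  · intro p _
    have : (1 / 2 : ℝ) ^ (F p).card ≤ 1 := pow_le_one₀ (by norm_num) (by norm_num)
    linarith
  · intro p _
    have := Real.add_one_le_exp (-(1 / 2 : ℝ) ^ (F p).card)
    linarith

end Count

end Pool.Agent.H56.Minor
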