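import Mathlib
import Pool.Agent.H56.Minor1
import Pool.Agent.H56.Count1

set_option autoImplicit false
set_option linter.unusedSectionVars false

namespace Pool.Agent.H56.Minor

open Finset

/-- The graph with edge indicator `ε`. -/
def gr {n : ℕ} (ε : Sym2 (Fin n) → Bool) : SimpleGraph (Fin n) where
  Adj u v := u ≠ v ∧ ε s(u, v) = true
  symm := ⟨fun u v h => ⟨h.1.symm, by rw [Sym2.eq_swap]; exact h.2⟩⟩
  loopless := ⟨fun _ h => h.1 rfl⟩

lemma gr_adj {n : ℕ} (ε : Sym2 (Fin n) → Bool) (u v : Fin n) :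
    (gr ε).Adj u v ↔ u ≠ v ∧ ε s(u, v) = true := Iff.rfl

lemma E2_eq {V : Type} [Fintype V] [DecidableEq V] (G : SimpleGraph V) :
    E2 G Finset.univ = 2 * G.edgeSet.ncard := by
  classical
  have h := G.sum_degrees_eq_twice_card_edges
  have h1 : G.edgeSet.ncard = G.edgeFinset.card := by
    rw [← SimpleGraph.coe_edgeFinset, Set.ncard_coe_finset]
  rw [h1, ← h]
  unfold E2 dg
  refine Finset.sum_congr rfl (fun x _ => ?_)
  rw [← SimpleGraph.card_neighborFinset_eq_degree]
  congr 1
  ext y
  simp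

lemma E2_gr_add (n : ℕ) (ε : Sym2 (Fin n) → Bool) :
    E2 (gr ε) Finset.univ + E2 (gr (fun e => !(ε e))) Finset.univ = n * (n - 1) := by
  classical
  unfold E2
  rw [← Finset.sum_add_distrib]
  have h : ∀ x : Fin n, dg (gr ε) Finset.univ x + dg (gr (fun e => !(ε e))) Finset.univ x
      = n - 1 := by
    intro x
    unfold dg
    have e1 : (Finset.univ.filter (fun y : Fin n => y ≠ x)).card = n - 1 := by
      rw [Finset.filter_ne', Finset.card_erase_of_mem (Finset.mem_univ _), Finset.card_univ,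
        Fintype.card_fin]
    rw [← e1, ← Finset.card_union_of_disjoint]
    · congr 1
      ext y
      simp only [Finset.mem_union, Finset.mem_filter, Finset.mem_univ, true_and, gr_adj]
      constructor
      · rintro (h | h) <;> exact h.1.symm
      · intro h
        cases hε : ε s(x, y)
        · right
          exact ⟨h.symm, by simp⟩
        · left
          exact ⟨h.symm, rfl⟩
    · rw [Finset.disjoint_filter]
      intro y _ h1 h2
      rw [gr_adj] at h1 h2
      have := h1.2
      have h3 := h2.2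
      simp [this] at h3
  rw [Finset.sum_congr rfl (fun x _ => h x)]
  simp

lemma exists_graph (n : ℕ) {M P : Type} [Fintype M] [Fintype P] [DecidableEq P]
    (F : M → P → Finset (Sym2 (Fin n)))
    (hF : ∀ μ, ∀ p q, p ≠ q → Disjoint (F μ p) (F μ q)) (lam : ℝ)
    (hlam : ∀ μ, lam ≤ ∑ p, (1 / 2 : ℝ) ^ (F μ p).card)
    (hcount : (Fintype.card M : ℝ) * Real.exp (-lam) < 1 / 2) :
    ∃ ε : Sym2 (Fin n) → Bool, n * (n - 1) ≤ 2 * E2 (gr ε) Finset.univ ∧
      ∀ μ, ∃ p, ∀ e ∈ F μ p, ε e = false := by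
  classical
  by_contra hcon
  push Not at hcon
  set L : Finset (Sym2 (Fin n) → Bool) :=
    Finset.univ.filter (fun ε => n * (n - 1) ≤ 2 * E2 (gr ε) Finset.univ) with hL
  set B : M → Finset (Sym2 (Fin n) → Bool) := fun μ =>
    Finset.univ.filter (fun ε => ∀ p, ∃ e ∈ F μ p, ε e = true) with hB
  have hLB : L ⊆ Finset.univ.biUnion B := by
    intro ε hε
    rw [hL, Finset.mem_filter] at hε
    obtain ⟨μ, hμ⟩ := hcon ε hε.2
    rw [Finset.mem_biUnion]
    refine ⟨μ, Finset.mem_univ _, Finset.mem_filter.mpr ⟨Finset.mem_univ _, fun p => ?_⟩⟩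
    obtain ⟨e, he, h⟩ := hμ p
    exact ⟨e, he, by simpa using h⟩
  -- at least half of the graphs are large
  have hhalf : Fintype.card (Sym2 (Fin n) → Bool) ≤ 2 * L.card := by
    have hinj : Function.Injective (fun (ε : Sym2 (Fin n) → Bool) e => !(ε e)) := by
      intro ε ε' h
      funext e
      have := congrFun h e
      simpa using this
    have h1 : (Finset.univ \ L).card ≤ L.card := by
      apply Finset.card_le_card_of_injOn (fun (ε : Sym2 (Fin n) → Bool) e => !(ε e))
      · intro ε hε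
        simp only [Finset.coe_sdiff, Set.mem_sdiff, Finset.mem_coe, hL, Finset.mem_filter,
          Finset.mem_univ, true_and, not_le] at hε
        simp only [Finset.mem_coe, hL, Finset.mem_filter, Finset.mem_univ, true_and]
        have := E2_gr_add n ε
        omega
      · exact hinj.injOn
    have h2 := Finset.card_sdiff_add_card_inter (Finset.univ : Finset (Sym2 (Fin n) → Bool)) L
    rw [Finset.univ_inter, Finset.card_univ] at h2
    omega
  have hBc : ((Finset.univ.biUnion B).card : ℝ)
      ≤ Fintype.card M * (2 ^ Fintype.card (Sym2 (Fin n)) * Real.exp (-lam)) := by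
    have h1 : ((Finset.univ.biUnion B).card : ℝ) ≤ ∑ μ, ((B μ).card : ℝ) := by
      exact_mod_cast Finset.card_biUnion_le
    refine h1.trans ?_
    rw [← nsmul_eq_mul, ← Finset.card_univ, ← Finset.sum_const]
    refine Finset.sum_le_sum (fun μ _ => ?_)
    have h2 := count_hit_le (F μ) (hF μ)
    have h3 : ((B μ).card : ℝ) ≤ 2 ^ Fintype.card (Sym2 (Fin n))
        * Real.exp (-∑ p, (1 / 2 : ℝ) ^ (F μ p).card) := by
      rw [hB]
      convert h2
    refine h3.trans ?_
    apply mul_le_mul_of_nonneg_left _ (by positivity)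
    apply Real.exp_le_exp.mpr
    linarith [hlam μ]
  have h4 : (Fintype.card (Sym2 (Fin n) → Bool) : ℝ) = 2 ^ Fintype.card (Sym2 (Fin n)) := by
    rw [Fintype.card_fun, Fintype.card_bool]
    push_cast
    rfl
  have h5 : (L.card : ℝ) ≤ (Finset.univ.biUnion B).card := by
    exact_mod_cast Finset.card_le_card hLB
  have h6 : (2:ℝ) ^ Fintype.card (Sym2 (Fin n)) ≤ 2 * L.card := by
    rw [← h4]; exact_mod_cast hhalf
  have h7 : (0:ℝ) < 2 ^ Fintype.card (Sym2 (Fin n)) := by positivity
  have h8 : (Fintype.card M : ℝ) * (2 ^ Fintype.card (Sym2 (Fin n)) * Real.exp (-lam))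
      < 2 ^ Fintype.card (Sym2 (Fin n)) * (1 / 2) := by
    calc (Fintype.card M : ℝ) * (2 ^ Fintype.card (Sym2 (Fin n)) * Real.exp (-lam))
        = 2 ^ Fintype.card (Sym2 (Fin n)) * (Fintype.card M * Real.exp (-lam)) := by ring
      _ < _ := mul_lt_mul_of_pos_left hcount h7
  linarith

/-- Few classes of a partition are large. -/
lemma small_classes {I : Type} [Fintype I] (n : ℕ) (hn : 1 ≤ n) (c : I → ℕ)
    (hc : ∑ i, c i ≤ n) :
    Fintype.card I ≤ 2 * (Finset.univ.filter (fun i => Fintype.card I * c i ≤ 2 * n)).card := by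
  classical
  have h1 := Finset.card_filter_add_card_filter_not (s := (Finset.univ : Finset I))
    (fun i => Fintype.card I * c i ≤ 2 * n)
  rw [Finset.card_univ] at h1
  set A := Finset.univ.filter (fun i => Fintype.card I * c i ≤ 2 * n)
  set B := Finset.univ.filter (fun i => ¬ (Fintype.card I * c i ≤ 2 * n)) with hB
  have h2 : B.card * (2 * n) ≤ Fintype.card I * n := by
    calc B.card * (2 * n) = ∑ _i ∈ B, 2 * n := by rw [Finset.sum_const, smul_eq_mul]
      _ ≤ ∑ i ∈ B, Fintype.card I * c i := by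
          refine Finset.sum_le_sum (fun i hi => ?_)
          rw [hB, Finset.mem_filter] at hi
          omega
      _ ≤ ∑ i, Fintype.card I * c i := Finset.sum_le_sum_of_subset (Finset.filter_subset _ _)
      _ = Fintype.card I * ∑ i, c i := by rw [Finset.mul_sum]
      _ ≤ _ := Nat.mul_le_mul_left _ hc
  have h3 : 2 * B.card ≤ Fintype.card I := by
    have : n * (2 * B.card) ≤ n * Fintype.card I := by linarith
    exact Nat.le_of_mul_le_mul_left this (by omega)
  omega

theorem lower_core (s t n K : ℕ) (hs : 1 ≤ s) (ht : 1 ≤ t) (hn : 1 ≤ n)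
    (hK : 4 * n ^ 2 ≤ K * (s * t))
    (hnum : ((t + s + 1 : ℕ) : ℝ) ^ n * Real.exp (-(((s:ℝ) * t) / 4 * (1 / 2) ^ K)) < 1 / 2) :
    ∃ G : SimpleGraph (Fin n), ((n:ℝ) - 1) / 2 ≤ avgDeg G ∧
      ∀ (H₀ : SimpleGraph (Fin t)), ¬ IsMinor (addDominant H₀ s) G := by
  classical
  set M := Fin n → Option (Fin t ⊕ Fin s)
  set cl : M → (Fin t ⊕ Fin s) → Finset (Fin n) := fun μ x =>
    Finset.univ.filter (fun u => μ u = some x) with hcl
  have hcldisj : ∀ (μ : M) x y, x ≠ y → Disjoint (cl μ x) (cl μ y) := by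
    intro μ x y hxy
    rw [Finset.disjoint_left]
    intro u hu hu'
    simp only [hcl, Finset.mem_filter, Finset.mem_univ, true_and] at hu hu'
    rw [hu] at hu'
    exact hxy (Option.some.inj hu')
  set F : M → (Fin s × Fin t) → Finset (Sym2 (Fin n)) := fun μ p =>
    ((cl μ (Sum.inr p.1)) ×ˢ (cl μ (Sum.inl p.2))).image (fun x => s(x.1, x.2)) with hFdef
  have hF : ∀ μ, ∀ p q, p ≠ q → Disjoint (F μ p) (F μ q) := by
    intro μ p q hpq
    rw [Finset.disjoint_left]
    intro e he he'
    simp only [hFdef, Finset.mem_image, Finset.mem_product, hcl, Finset.mem_filter,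
      Finset.mem_univ, true_and, Prod.exists] at he he'
    obtain ⟨u, v, ⟨hu, hv⟩, rfl⟩ := he
    obtain ⟨u', v', ⟨hu', hv'⟩, h⟩ := he'
    rw [Sym2.eq_iff] at h
    rcases h with ⟨rfl, rfl⟩ | ⟨rfl, rfl⟩
    · rw [hu] at hu'
      rw [hv] at hv'
      have e1 := Option.some.inj hu'
      have e2 := Option.some.inj hv'
      apply hpq
      exact Prod.ext (Sum.inr.inj e1) (Sum.inl.inj e2)
    · rw [hv] at hu'
      have e1 := Option.some.inj hu'
      exact absurd e1 (by simp)
  have hlam : ∀ μ, ((s:ℝ) * t) / 4 * (1 / 2) ^ K ≤ ∑ p, (1 / 2 : ℝ) ^ (F μ p).card := by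
    intro μ
    have hsum : ∑ x, (cl μ x).card ≤ n := by
      rw [← Finset.card_biUnion (fun x _ y _ hxy => hcldisj μ x y hxy)]
      calc _ ≤ (Finset.univ : Finset (Fin n)).card := Finset.card_le_card (Finset.subset_univ _)
        _ = n := by simp
    rw [Fintype.sum_sum_type] at hsum
    have hA := small_classes n hn (fun i : Fin s => (cl μ (Sum.inr i)).card) (by omega)
    have hB := small_classes n hn (fun j : Fin t => (cl μ (Sum.inl j)).card) (by omega)
    rw [Fintype.card_fin] at hA hB
    set A := Finset.univ.filter (fun i : Fin s => s * (cl μ (Sum.inr i)).card ≤ 2 * n) with hAdef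
    set B := Finset.univ.filter (fun j : Fin t => t * (cl μ (Sum.inl j)).card ≤ 2 * n) with hBdef
    have hAr : (s:ℝ) ≤ 2 * A.card := by exact_mod_cast hA
    have hBr : (t:ℝ) ≤ 2 * B.card := by exact_mod_cast hB
    calc ((s:ℝ) * t) / 4 * (1 / 2) ^ K ≤ ((A.card : ℝ) * B.card) * (1 / 2) ^ K := by
          apply mul_le_mul_of_nonneg_right _ (by positivity)
          have h0 : (0:ℝ) ≤ t := by positivity
          have h1 : (0:ℝ) ≤ A.card := by positivity
          nlinarith [mul_le_mul hAr hBr h0 (by positivity)]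
      _ = ∑ p ∈ A ×ˢ B, (1 / 2 : ℝ) ^ K := by
          rw [Finset.sum_const, Finset.card_product, nsmul_eq_mul]
          push_cast
          rfl
      _ ≤ ∑ p ∈ A ×ˢ B, (1 / 2 : ℝ) ^ (F μ p).card := by
          refine Finset.sum_le_sum (fun p hp => ?_)
          rw [Finset.mem_product] at hp
          have h1 := (Finset.mem_filter.mp hp.1).2
          have h2 := (Finset.mem_filter.mp hp.2).2
          apply pow_le_pow_of_le_one (by norm_num) (by norm_num)
          have h3 : (F μ p).card ≤ (cl μ (Sum.inr p.1)).card * (cl μ (Sum.inl p.2)).card := by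
            rw [← Finset.card_product]
            exact Finset.card_image_le
          have h4 : (s * t) * ((cl μ (Sum.inr p.1)).card * (cl μ (Sum.inl p.2)).card)
              ≤ (s * t) * K := by
            calc (s * t) * ((cl μ (Sum.inr p.1)).card * (cl μ (Sum.inl p.2)).card)
                = (s * (cl μ (Sum.inr p.1)).card) * (t * (cl μ (Sum.inl p.2)).card) := by ring
              _ ≤ (2 * n) * (2 * n) := Nat.mul_le_mul h1 h2
              _ = 4 * n ^ 2 := by ring
              _ ≤ K * (s * t) := hK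
              _ = (s * t) * K := by ring
          exact h3.trans (Nat.le_of_mul_le_mul_left h4 (Nat.mul_pos hs ht))
      _ ≤ ∑ p, (1 / 2 : ℝ) ^ (F μ p).card :=
          Finset.sum_le_sum_of_subset_of_nonneg (Finset.subset_univ _)
            (fun _ _ _ => by positivity)
  have hcard : (Fintype.card M : ℝ) = ((t + s + 1 : ℕ) : ℝ) ^ n := by
    rw [Fintype.card_fun, Fintype.card_option, Fintype.card_sum, Fintype.card_fin,
      Fintype.card_fin, Fintype.card_fin]
    push_cast
    rfl
  obtain ⟨ε, hε1, hε2⟩ := exists_graph n F hF _ hlam (by rw [hcard]; exact hnum)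
  refine ⟨gr ε, ?_, ?_⟩
  · unfold avgDeg
    have hn' : (0:ℝ) < n := by exact_mod_cast hn
    rw [le_div_iff₀ hn']
    have h1 : (E2 (gr ε) Finset.univ : ℝ) = 2 * ((gr ε).edgeSet.ncard : ℝ) := by
      exact_mod_cast E2_eq (gr ε)
    have h2 : ((n * (n - 1) : ℕ) : ℝ) ≤ ((2 * E2 (gr ε) Finset.univ : ℕ) : ℝ) := by
      exact_mod_cast hε1
    rw [Nat.cast_mul, Nat.cast_sub hn] at h2
    push_cast at h2
    rw [← h1]
    linarith
  · rintro H₀ ⟨φ, h1, h2, h3⟩
    -- the model given by φ
    set μ : M := fun u => if h : ∃ x, u ∈ φ x then some h.choose else none with hμ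
    have hμφ : ∀ u x, u ∈ φ x → μ u = some x := by
      intro u x hux
      have hex : ∃ x, u ∈ φ x := ⟨x, hux⟩
      have h4 : μ u = some hex.choose := by
        rw [hμ]; simp only; rw [dif_pos hex]
      rw [h4]
      congr 1
      by_contra hne
      exact Set.disjoint_left.mp (h2 _ _ hne) hex.choose_spec hux
    obtain ⟨p, hp⟩ := hε2 μ
    obtain ⟨u, hu, v, hv, huv⟩ := h3 (Sum.inr p.1) (Sum.inl p.2)
      ⟨by simp, fun a b ha _ => by simp at ha⟩
    have hmem : s(u, v) ∈ F μ p := by
      simp only [hFdef, Finset.mem_image, Finset.mem_product, hcl, Finset.mem_filter,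
        Finset.mem_univ, true_and, Prod.exists]
      exact ⟨u, v, ⟨hμφ u _ hu, hμφ v _ hv⟩, rfl⟩
    have h5 := hp _ hmem
    have h6 : ε s(u, v) = true := huv.2
    rw [h5] at h6
    exact absurd h6 (by simp)

end Pool.Agent.H56.Minor
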