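import Mathlib

set_option autoImplicit false
set_option linter.unusedSectionVars false

namespace Pool.Agent.H56.Minor

open Finset

section PermCount

variable {α : Type} [Fintype α] [DecidableEq α]

lemma card_fix (K : Finset α) :
    (Finset.univ.filter (fun π : Equiv.Perm α => ∀ x ∈ K, π x = x)).card
      = (Fintype.card α - K.card).factorial := by
  classical
  have e := Equiv.Perm.subtypeEquivSubtypePerm (fun a : α => a ∉ K)
  have h1 : Fintype.card {f : Equiv.Perm α // ∀ a, ¬ (a ∉ K) → f a = a}
      = (Finset.univ.filter (fun π : Equiv.Perm α => ∀ x ∈ K, π x = x)).card := by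
    rw [Fintype.card_subtype]
    congr 1
    ext π
    simp
  rw [← h1, ← Fintype.card_congr e, Fintype.card_perm]
  congr 1
  rw [Fintype.card_subtype_compl]
  simp

lemma card_perm_le (K : Finset α) (A : α → Finset α) :
    (Finset.univ.filter (fun σ : Equiv.Perm α => ∀ x ∈ K, σ x ∈ A x)).card
      ≤ (∏ x ∈ K, (A x).card) * (Fintype.card α - K.card).factorial := by
  classical
  set X := Finset.univ.filter (fun σ : Equiv.Perm α => ∀ x ∈ K, σ x ∈ A x) with hX
  set f : Equiv.Perm α → (K → α) := fun σ x => σ x with hf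
  have hmap : ∀ σ ∈ X, f σ ∈ Fintype.piFinset (fun x : K => A x) := by
    intro σ hσ
    rw [hX, Finset.mem_filter] at hσ
    rw [Fintype.mem_piFinset]
    intro x
    exact hσ.2 x x.2
  have h1 := Finset.card_eq_sum_card_fiberwise (f := f) (s := X)
    (t := Fintype.piFinset (fun x : K => A x)) hmap
  rw [h1]
  have h2 : ∀ g ∈ Fintype.piFinset (fun x : K => A x),
      (X.filter (fun σ => f σ = g)).card ≤ (Fintype.card α - K.card).factorial := by
    intro g _
    by_cases hne : (X.filter (fun σ => f σ = g)).Nonempty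
    · obtain ⟨σ₀, hσ₀⟩ := hne
      rw [Finset.mem_filter] at hσ₀
      rw [← card_fix K]
      apply Finset.card_le_card_of_injOn (fun σ => σ₀⁻¹ * σ)
      · intro σ hσ
        rw [Finset.mem_coe, Finset.mem_filter] at hσ
        rw [Finset.mem_coe, Finset.mem_filter]
        refine ⟨Finset.mem_univ _, fun x hx => ?_⟩
        have e1 : σ x = σ₀ x := by
          have := congrFun (hσ.2.trans hσ₀.2.symm) ⟨x, hx⟩
          exact this
        rw [Equiv.Perm.mul_apply, e1]
        exact σ₀.symm_apply_apply x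
      · intro σ _ σ' _ h
        exact mul_left_cancel h
    · rw [Finset.not_nonempty_iff_eq_empty] at hne
      rw [hne]
      simp
  refine (Finset.sum_le_sum h2).trans ?_
  rw [Finset.sum_const, smul_eq_mul, Fintype.card_piFinset]
  apply Nat.mul_le_mul_right
  rw [← Finset.prod_coe_sort K (fun x => (A x).card)]

end PermCount

/-- Few permutations avoid a dense set of pairs. -/
lemma perm_avoid (N : ℕ) (hN : 1 ≤ N) (M : Finset (Fin N × Fin N)) :
    ((Finset.univ.filter (fun σ : Equiv.Perm (Fin N) => ∀ x, (x, σ x) ∉ M)).card : ℝ)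
      ≤ (N.factorial : ℝ) * Real.exp (-(((M.card : ℝ) / (N:ℝ) ^ 2) ^ 2 * N / 16)) := by
  classical
  have hNr : (0:ℝ) < N := by exact_mod_cast hN
  obtain ⟨mu, hmu⟩ : ∃ mu : ℝ, mu = (M.card : ℝ) / (N:ℝ) ^ 2 := ⟨_, rfl⟩
  rw [← hmu]
  have hmu0 : 0 ≤ mu := by rw [hmu]; positivity
  have hMc : (M.card : ℝ) = mu * N ^ 2 := by rw [hmu]; field_simp
  have hmu1 : mu ≤ 1 := by
    rw [hmu, div_le_one (by positivity)]
    have : M.card ≤ N * N := by
      calc M.card ≤ (Finset.univ : Finset (Fin N × Fin N)).card := Finset.card_le_univ M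
        _ = N * N := by rw [Finset.card_univ]; simp
    have h2 : (M.card : ℝ) ≤ N * N := by exact_mod_cast this
    rw [sq]; exact h2
  rcases hmu0.eq_or_lt with h0 | hpos
  · rw [← h0]
    have : (Finset.univ.filter (fun σ : Equiv.Perm (Fin N) => ∀ x, (x, σ x) ∉ M)).card
        ≤ N.factorial := by
      calc _ ≤ (Finset.univ : Finset (Equiv.Perm (Fin N))).card := Finset.card_filter_le _ _
        _ = N.factorial := by rw [Finset.card_univ, Fintype.card_perm, Fintype.card_fin]
    have h2 : ((Finset.univ.filter (fun σ : Equiv.Perm (Fin N) => ∀ x, (x, σ x) ∉ M)).card : ℝ)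
        ≤ (N.factorial : ℝ) := by exact_mod_cast this
    simpa using h2
  -- rows
  set row : Fin N → Finset (Fin N) := fun x => Finset.univ.filter (fun y => (x, y) ∈ M) with hrow
  have hrowsum : ∑ x, ((row x).card : ℝ) = mu * N ^ 2 := by
    rw [← hMc]
    have : ∑ x, (row x).card = M.card := by
      rw [Finset.card_eq_sum_card_fiberwise (f := Prod.fst) (s := M) (t := Finset.univ)
        (fun _ _ => Finset.mem_coe.mpr (Finset.mem_univ _))]
      refine Finset.sum_congr rfl (fun x _ => ?_)
      apply Finset.card_bij (fun y _ => (x, y))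
      · intro y hy
        rw [hrow, Finset.mem_filter] at hy
        exact Finset.mem_filter.mpr ⟨hy.2, rfl⟩
      · intro y _ y' _ h
        exact (Prod.mk.inj h).2
      · rintro ⟨a, b⟩ hab
        rw [Finset.mem_filter] at hab
        obtain ⟨h1, h2⟩ := hab
        simp only at h2
        subst h2
        exact ⟨b, Finset.mem_filter.mpr ⟨Finset.mem_univ _, h1⟩, rfl⟩
    exact_mod_cast this
  set I : Finset (Fin N) := Finset.univ.filter (fun x => mu * N / 2 ≤ ((row x).card : ℝ)) with hI
  have hIc : mu * N / 2 ≤ (I.card : ℝ) := by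
    have h1 : ∑ x, ((row x).card : ℝ) ≤ ∑ x : Fin N, ((if x ∈ I then (N:ℝ) else 0) + mu * N / 2) := by
      refine Finset.sum_le_sum (fun x _ => ?_)
      by_cases hx : x ∈ I
      · rw [if_pos hx]
        have : ((row x).card : ℝ) ≤ N := by
          have : (row x).card ≤ N := by
            calc (row x).card ≤ (Finset.univ : Finset (Fin N)).card := Finset.card_filter_le _ _
              _ = N := by simp
          exact_mod_cast this
        have : 0 ≤ mu * N / 2 := by positivity
        linarith
      · rw [if_neg hx, zero_add]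
        rw [hI, Finset.mem_filter] at hx
        push Not at hx
        exact (hx (Finset.mem_univ _)).le
    rw [Finset.sum_add_distrib, hrowsum, ← Finset.sum_filter, Finset.sum_const, Finset.sum_const,
      Finset.filter_mem_eq_inter, Finset.univ_inter, Finset.card_univ, Fintype.card_fin,
      nsmul_eq_mul, nsmul_eq_mul] at h1
    have h2 : mu * N / 2 * N ≤ (I.card : ℝ) * N := by nlinarith
    exact le_of_mul_le_mul_right h2 hNr
  obtain ⟨k, hk⟩ : ∃ k : ℕ, k = ⌈mu * N / 4⌉₊ := ⟨_, rfl⟩
  have hk1 : mu * N / 4 ≤ (k:ℝ) := by rw [hk]; exact Nat.le_ceil _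
  have hk2 : (k:ℝ) < mu * N / 4 + 1 := by rw [hk]; exact Nat.ceil_lt_add_one (by positivity)
  have hkI : k ≤ I.card := by
    rw [hk, Nat.ceil_le]
    have : 0 ≤ mu * N / 4 := by positivity
    linarith
  obtain ⟨K, hKI, hKc⟩ := Finset.exists_subset_card_eq hkI
  have hkN : k ≤ N := by
    calc k ≤ I.card := hkI
      _ ≤ (Finset.univ : Finset (Fin N)).card := Finset.card_le_univ _
      _ = N := by simp
  have h1 : (Finset.univ.filter (fun σ : Equiv.Perm (Fin N) => ∀ x, (x, σ x) ∉ M)).card
      ≤ (∏ x ∈ K, (Finset.univ \ row x).card) * (N - k).factorial := by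
    have h2 := card_perm_le K (fun x => Finset.univ \ row x)
    rw [Fintype.card_fin, hKc] at h2
    refine le_trans (Finset.card_le_card ?_) h2
    intro σ hσ
    simp only [Finset.mem_filter, Finset.mem_univ, true_and] at hσ ⊢
    intro x _
    rw [Finset.mem_sdiff]
    refine ⟨Finset.mem_univ _, fun h => ?_⟩
    rw [hrow, Finset.mem_filter] at h
    exact hσ x h.2
  have h3 : (∏ x ∈ K, ((Finset.univ \ row x).card : ℝ)) ≤ (N * (1 - mu / 2)) ^ k := by
    rw [← hKc, ← Finset.prod_const]
    apply Finset.prod_le_prod (fun x _ => Nat.cast_nonneg _)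
    intro x hx
    have hxI := hKI hx
    rw [hI, Finset.mem_filter] at hxI
    have h4 : (Finset.univ \ row x).card = N - (row x).card := by
      rw [Finset.card_sdiff_of_subset (Finset.subset_univ _), Finset.card_univ, Fintype.card_fin]
    have h5 : (row x).card ≤ N := by
      calc (row x).card ≤ (Finset.univ : Finset (Fin N)).card := Finset.card_filter_le _ _
        _ = N := by simp
    rw [h4, Nat.cast_sub h5]
    have := hxI.2
    linarith
  have h6 : ((N + 1 - k : ℕ) : ℝ) ^ k * ((N - k).factorial : ℝ) ≤ (N.factorial : ℝ) := by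
    have h7 := Nat.pow_sub_le_descFactorial N k
    have h8 := Nat.factorial_mul_descFactorial hkN
    have h9 : (N + 1 - k) ^ k * (N - k).factorial ≤ N.factorial := by
      rw [← h8, mul_comm (N - k).factorial]
      exact Nat.mul_le_mul_right _ h7
    exact_mod_cast h9
  have h10 : (N:ℝ) * (1 - mu / 4) ≤ ((N + 1 - k : ℕ) : ℝ) := by
    rw [Nat.cast_sub (by omega)]
    push_cast
    linarith
  have h11 : (N * (1 - mu / 2)) ^ k ≤ ((N + 1 - k : ℕ) : ℝ) ^ k * (1 - mu / 4) ^ k := by
    rw [← mul_pow]
    apply pow_le_pow_left₀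
    · have : 0 ≤ 1 - mu / 2 := by linarith
      positivity
    · calc (N:ℝ) * (1 - mu / 2) ≤ N * ((1 - mu / 4) * (1 - mu / 4)) := by
            apply mul_le_mul_of_nonneg_left _ hNr.le
            nlinarith
        _ = (N * (1 - mu / 4)) * (1 - mu / 4) := by ring
        _ ≤ _ := mul_le_mul_of_nonneg_right h10 (by linarith)
  have h12 : (1 - mu / 4) ^ k ≤ Real.exp (-(mu ^ 2 * N / 16)) := by
    have h13 : 1 - mu / 4 ≤ Real.exp (-(mu / 4)) := by
      have := Real.add_one_le_exp (-(mu / 4))
      linarith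
    calc (1 - mu / 4) ^ k ≤ (Real.exp (-(mu / 4))) ^ k :=
          pow_le_pow_left₀ (by linarith) h13 k
      _ = Real.exp (-(mu / 4) * k) := by
          rw [← Real.exp_nat_mul]; ring_nf
      _ ≤ Real.exp (-(mu ^ 2 * N / 16)) := by
          apply Real.exp_le_exp.mpr
          nlinarith
  calc ((Finset.univ.filter (fun σ : Equiv.Perm (Fin N) => ∀ x, (x, σ x) ∉ M)).card : ℝ)
      ≤ (∏ x ∈ K, ((Finset.univ \ row x).card : ℝ)) * ((N - k).factorial : ℝ) := by
        exact_mod_cast h1
    _ ≤ (((N + 1 - k : ℕ) : ℝ) ^ k * (1 - mu / 4) ^ k) * ((N - k).factorial : ℝ) := by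
        apply mul_le_mul_of_nonneg_right (h3.trans h11) (by positivity)
    _ = (((N + 1 - k : ℕ) : ℝ) ^ k * ((N - k).factorial : ℝ)) * (1 - mu / 4) ^ k := by ring
    _ ≤ (N.factorial : ℝ) * Real.exp (-(mu ^ 2 * N / 16)) := by
        apply mul_le_mul h6 h12 _ (by positivity)
        apply pow_nonneg; linarith

end Pool.Agent.H56.Minor
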