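import Mathlib
import Pool.Agent.H56.Minor1
import Pool.Agent.H56.Count1
import Pool.Agent.H56.Lower1
import Pool.Agent.H56.Perm1

set_option autoImplicit false
set_option linter.unusedSectionVars false

namespace Pool.Agent.H56.Minor

open Finset

section Supersat

variable {V : Type} [Fintype V] [DecidableEq V] {r : ℕ}

/-- The pair `u v` is in conflict. -/
def Conf (R : SimpleGraph (Fin r)) (T : V → Finset (Fin r)) (u v : V) : Prop :=
  (T u).Nonempty ∧ (T v).Nonempty ∧ Disjoint (T u) (T v) ∧
    ∀ x ∈ T u, ∀ y ∈ T v, ¬ R.Adj x y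

open Classical in
/-- The set of conflicting pairs. -/
noncomputable def confSet (R : SimpleGraph (Fin r)) (T : V → Finset (Fin r)) : Finset (V × V) :=
  Finset.univ.filter (fun p => Conf R T p.1 p.2)

/-- Property P1: no `k` disjoint small sets that are pairwise adjacent. -/
def NoModel (R : SimpleGraph (Fin r)) (k l : ℕ) : Prop :=
  ∀ T : Fin k → Finset (Fin r), (∀ i, (T i).Nonempty) → (∀ i, (T i).card ≤ l) →
    (∀ i j, i ≠ j → Disjoint (T i) (T j)) → ∃ i j, i ≠ j ∧ ∀ x ∈ T i, ∀ y ∈ T j, ¬ R.Adj x y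

open Classical in
lemma supersat (R : SimpleGraph (Fin r)) (k l m : ℕ) (hk : 1 ≤ k) (hR : NoModel R k l)
    (T : V → Finset (Fin r)) (hl : ∀ v, (T v).card ≤ l)
    (hL : 3 * Fintype.card V ≤ 4 * (Finset.univ.filter (fun v => (T v).Nonempty)).card)
    (hm : ∀ x : Fin r, (Finset.univ.filter (fun v => x ∈ T v)).card ≤ m)
    (hkl : 4 * k * l * m ≤ Fintype.card V) :
    Fintype.card V ^ 2 ≤ 16 * k * (confSet R T).card := by
  set t := Fintype.card V with ht
  by_contra hcon
  push Not at hcon
  set C : V → Finset V := fun u => Finset.univ.filter (fun v => Conf R T u v) with hC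
  set I : V → Finset V := fun u => Finset.univ.filter (fun v => ¬ Disjoint (T u) (T v)) with hI
  have hMsum : (confSet R T).card = ∑ u, (C u).card := by
    unfold confSet
    rw [Finset.card_eq_sum_card_fiberwise (f := Prod.fst) (t := Finset.univ)
      (fun _ _ => Finset.mem_coe.mpr (Finset.mem_univ _))]
    refine Finset.sum_congr rfl (fun x _ => ?_)
    symm
    apply Finset.card_bij (fun y _ => (x, y))
    · intro y hy
      rw [hC, Finset.mem_filter] at hy
      exact Finset.mem_filter.mpr ⟨Finset.mem_filter.mpr ⟨Finset.mem_univ _, hy.2⟩, rfl⟩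
    · intro y _ y' _ h
      exact (Prod.mk.inj h).2
    · rintro ⟨a, b⟩ hab
      rw [Finset.mem_filter, Finset.mem_filter] at hab
      obtain ⟨⟨_, h1⟩, h2⟩ := hab
      simp only at h2 h1
      subst h2
      exact ⟨b, Finset.mem_filter.mpr ⟨Finset.mem_univ _, h1⟩, rfl⟩
  set L := Finset.univ.filter (fun v => (T v).Nonempty) with hLdef
  set B := Finset.univ.filter (fun u => t ≤ 4 * k * (C u).card) with hB
  have hBc : 4 * B.card < t := by
    have h1 : B.card * t ≤ 4 * k * (confSet R T).card := by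
      rw [hMsum, Finset.mul_sum, ← smul_eq_mul, ← Finset.sum_const]
      calc ∑ _u ∈ B, t ≤ ∑ u ∈ B, 4 * k * (C u).card := by
            refine Finset.sum_le_sum (fun u hu => ?_)
            rw [hB, Finset.mem_filter] at hu
            exact hu.2
        _ ≤ ∑ u, 4 * k * (C u).card := Finset.sum_le_sum_of_subset (Finset.subset_univ _)
    have h2 : 4 * B.card * t < t * t := by nlinarith
    exact Nat.lt_of_mul_lt_mul_right h2
  set L' := L \ B with hL'
  have hL'c : t < 2 * L'.card := by
    have h1 : L.card ≤ L'.card + B.card := by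
      rw [hL']
      have := Finset.card_le_card_sdiff_add_card (s := L) (t := B)
      exact this
    omega
  have hIc : ∀ u, (I u).card ≤ l * m := by
    intro u
    have h1 : I u ⊆ (T u).biUnion (fun x => Finset.univ.filter (fun v => x ∈ T v)) := by
      intro v hv
      rw [hI, Finset.mem_filter, Finset.not_disjoint_iff] at hv
      obtain ⟨_, x, hx, hx'⟩ := hv
      exact Finset.mem_biUnion.mpr ⟨x, hx, Finset.mem_filter.mpr ⟨Finset.mem_univ _, hx'⟩⟩
    calc (I u).card ≤ _ := Finset.card_le_card h1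
      _ ≤ ∑ x ∈ T u, (Finset.univ.filter (fun v => x ∈ T v)).card := Finset.card_biUnion_le
      _ ≤ ∑ _x ∈ T u, m := Finset.sum_le_sum (fun x _ => hm x)
      _ = (T u).card * m := by rw [Finset.sum_const, smul_eq_mul]
      _ ≤ l * m := Nat.mul_le_mul_right _ (hl u)
  -- greedy choice
  have greedy : ∀ j ≤ k, ∃ K : Finset V, K ⊆ L' ∧ K.card = j ∧
      ∀ u ∈ K, ∀ v ∈ K, u ≠ v → Disjoint (T u) (T v) ∧ ∃ x ∈ T u, ∃ y ∈ T v, R.Adj x y := by
    intro j
    induction j with
    | zero =>
      intro _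
      exact ⟨∅, by simp, rfl, by simp⟩
    | succ j ih =>
      intro hj
      obtain ⟨K, hK1, hK2, hK3⟩ := ih (by omega)
      set X := K.biUnion (fun u => I u ∪ C u) with hX
      have hXc : 4 * k * X.card ≤ j * (2 * t) := by
        calc 4 * k * X.card ≤ 4 * k * ∑ u ∈ K, (I u ∪ C u).card :=
              Nat.mul_le_mul_left _ Finset.card_biUnion_le
          _ = ∑ u ∈ K, 4 * k * (I u ∪ C u).card := by rw [Finset.mul_sum]
          _ ≤ ∑ _u ∈ K, 2 * t := by
              refine Finset.sum_le_sum (fun u hu => ?_)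
              have h1 := Finset.card_union_le (I u) (C u)
              have h2 := hIc u
              have h3 : 4 * k * (C u).card < t := by
                have h4 : u ∉ B := (Finset.mem_sdiff.mp (hK1 hu)).2
                by_contra h5
                exact h4 (Finset.mem_filter.mpr ⟨Finset.mem_univ _, by omega⟩)
              calc 4 * k * (I u ∪ C u).card ≤ 4 * k * (l * m + (C u).card) :=
                    Nat.mul_le_mul_left _ (by omega)
                _ = 4 * k * l * m + 4 * k * (C u).card := by ring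
                _ ≤ 2 * t := by omega
          _ = j * (2 * t) := by rw [Finset.sum_const, smul_eq_mul, hK2]
      obtain ⟨v, hv, hvX⟩ : ∃ v ∈ L', v ∉ X := by
        by_contra hcon2
        push Not at hcon2
        have h1 : L'.card ≤ X.card := Finset.card_le_card hcon2
        have h2 : 4 * k * L'.card ≤ j * (2 * t) := (Nat.mul_le_mul_left _ h1).trans hXc
        have h3 : j * (2 * t) ≤ k * (2 * t) := Nat.mul_le_mul_right _ (by omega)
        have h4 : k * (2 * t) < k * (2 * (2 * L'.card)) :=
          Nat.mul_lt_mul_of_pos_left (by omega) (by omega)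
        have h5 : k * (2 * (2 * L'.card)) = 4 * k * L'.card := by ring
        omega
      have hvT : (T v).Nonempty := by
        rw [hL', Finset.mem_sdiff, hLdef, Finset.mem_filter] at hv
        exact hv.1.2
      have hgood : ∀ u ∈ K, Disjoint (T u) (T v) ∧ ∃ x ∈ T u, ∃ y ∈ T v, R.Adj x y := by
        intro u hu
        have huT : (T u).Nonempty := by
          have := hK1 hu
          rw [hL', Finset.mem_sdiff, hLdef, Finset.mem_filter] at this
          exact this.1.2
        have h1 : v ∉ I u ∧ v ∉ C u := by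
          constructor
          · intro h; exact hvX (Finset.mem_biUnion.mpr ⟨u, hu, Finset.mem_union_left _ h⟩)
          · intro h; exact hvX (Finset.mem_biUnion.mpr ⟨u, hu, Finset.mem_union_right _ h⟩)
        have h2 : Disjoint (T u) (T v) := by
          by_contra h
          exact h1.1 (Finset.mem_filter.mpr ⟨Finset.mem_univ _, h⟩)
        refine ⟨h2, ?_⟩
        by_contra h
        push Not at h
        exact h1.2 (Finset.mem_filter.mpr ⟨Finset.mem_univ _, huT, hvT, h2, h⟩)
      have hvK : v ∉ K := by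
        intro h
        have := (hgood v h).1
        rw [Finset.disjoint_self_iff_empty] at this
        exact hvT.ne_empty this
      refine ⟨insert v K, Finset.insert_subset hv hK1, ?_, ?_⟩
      · rw [Finset.card_insert_of_notMem hvK, hK2]
      · intro a ha b hb hab
        rcases Finset.mem_insert.mp ha with ha' | ha'
        · rcases Finset.mem_insert.mp hb with hb' | hb'
          · exact absurd (ha'.trans hb'.symm) hab
          · obtain ⟨h1, x, hx, y, hy, hxy⟩ := hgood b hb'
            rw [ha']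
            exact ⟨h1.symm, y, hy, x, hx, hxy.symm⟩
        · rcases Finset.mem_insert.mp hb with hb' | hb'
          · rw [hb']; exact hgood a ha'
          · exact hK3 a ha' b hb' hab
  obtain ⟨K, hK1, hK2, hK3⟩ := greedy k le_rfl
  have e : K ≃ Fin k := Finset.equivFinOfCardEq hK2
  obtain ⟨i, j, hij, hno⟩ := hR (fun i => T (e.symm i))
    (fun i => by
      have := hK1 (e.symm i).2
      rw [hL', Finset.mem_sdiff, hLdef, Finset.mem_filter] at this
      exact this.1.2)
    (fun i => hl _)
    (fun i j hij => (hK3 _ (e.symm i).2 _ (e.symm j).2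
      (fun h => hij (e.symm.injective (Subtype.ext h)))).1)
  obtain ⟨_, x, hx, y, hy, hxy⟩ := hK3 _ (e.symm i).2 _ (e.symm j).2
    (fun h => hij (e.symm.injective (Subtype.ext h)))
  exact hno x hx y hy hxy

end Supersat

section Lifts

/-- Index type of pairs `p < p'`. -/
abbrev PairIdx (q : ℕ) := {x : Fin q × Fin q // x.1 < x.2}

/-- Lift data for the complete graph on `q` vertices. -/
abbrev LiftData (q N : ℕ) := PairIdx q → Equiv.Perm (Fin N)

/-- The lift of the complete graph. -/
def liftGraph {q N : ℕ} (σ : LiftData q N) : SimpleGraph (Fin q × Fin N) where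
  Adj u v := (∃ h : u.1 < v.1, σ ⟨(u.1, v.1), h⟩ u.2 = v.2) ∨
    (∃ h : v.1 < u.1, σ ⟨(v.1, u.1), h⟩ v.2 = u.2)
  symm := ⟨fun _ _ h => h.symm⟩
  loopless := ⟨fun u h => by
    rcases h with ⟨h, _⟩ | ⟨h, _⟩ <;> exact absurd h (lt_irrefl _)⟩

lemma card_pairIdx (q : ℕ) : 2 * Fintype.card (PairIdx q) + q = q * q := by
  classical
  have h1 : Fintype.card (PairIdx q)
      = (Finset.univ.filter (fun x : Fin q × Fin q => x.1 < x.2)).card :=
    Fintype.card_subtype _
  have h2 : (Finset.univ.filter (fun x : Fin q × Fin q => x.2 < x.1)).card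
      = (Finset.univ.filter (fun x : Fin q × Fin q => x.1 < x.2)).card := by
    apply Finset.card_bij (fun x _ => (x.2, x.1))
    · intro x hx
      rw [Finset.mem_filter] at hx ⊢
      exact ⟨Finset.mem_univ _, hx.2⟩
    · intro x _ y _ h
      exact Prod.ext (Prod.mk.inj h).2 (Prod.mk.inj h).1
    · intro x hx
      rw [Finset.mem_filter] at hx
      exact ⟨(x.2, x.1), Finset.mem_filter.mpr ⟨Finset.mem_univ _, hx.2⟩, rfl⟩
  have h3 : (Finset.univ.filter (fun x : Fin q × Fin q => x.1 = x.2)).card = q := by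
    have : (Finset.univ.filter (fun x : Fin q × Fin q => x.1 = x.2))
        = Finset.univ.image (fun p : Fin q => (p, p)) := by
      ext ⟨a, b⟩
      simp only [Finset.mem_filter, Finset.mem_univ, true_and, Finset.mem_image, Prod.mk.injEq]
      constructor
      · intro h; exact ⟨a, rfl, h⟩
      · rintro ⟨c, h1, h2⟩; rw [← h1, ← h2]
    rw [this, Finset.card_image_of_injective _ (fun a b h => (Prod.mk.inj h).1)]
    simp
  have h4 : (Finset.univ : Finset (Fin q × Fin q)).card = q * q := by
    rw [Finset.card_univ]; simp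
  have h5 : (Finset.univ : Finset (Fin q × Fin q))
      = (Finset.univ.filter (fun x : Fin q × Fin q => x.1 < x.2)) ∪
        ((Finset.univ.filter (fun x : Fin q × Fin q => x.2 < x.1)) ∪
        (Finset.univ.filter (fun x : Fin q × Fin q => x.1 = x.2))) := by
    ext x
    simp only [Finset.mem_univ, Finset.mem_union, Finset.mem_filter, true_and, true_iff]
    rcases lt_trichotomy x.1 x.2 with h | h | h
    · exact Or.inl h
    · exact Or.inr (Or.inr h)
    · exact Or.inr (Or.inl h)
  rw [h5, Finset.card_union_of_disjoint, Finset.card_union_of_disjoint, h2, h3, ← h1] at h4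
  · omega
  · rw [Finset.disjoint_filter]
    intro x _ h h'
    rw [h'] at h
    exact lt_irrefl _ h
  · rw [Finset.disjoint_union_right]
    constructor
    · rw [Finset.disjoint_filter]
      intro x _ h h'
      exact lt_asymm h h'
    · rw [Finset.disjoint_filter]
      intro x _ h h'
      rw [h'] at h
      exact lt_irrefl _ h

lemma card_small_subsets (r l : ℕ) :
    Fintype.card {A : Finset (Fin r) // A.card ≤ l} ≤ (r + 1) ^ l := by
  classical
  have hf : ∀ f : Fin l → Option (Fin r),
      (Finset.univ.filter (fun x => ∃ i, f i = some x)).card ≤ l := by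
    intro f
    have h1 : ((Finset.univ.filter (fun x : Fin r => ∃ i, f i = some x)).image some)
        ⊆ Finset.univ.image f := by
      intro y hy
      rw [Finset.mem_image] at hy
      obtain ⟨x, hx, rfl⟩ := hy
      rw [Finset.mem_filter] at hx
      obtain ⟨_, i, hi⟩ := hx
      exact Finset.mem_image.mpr ⟨i, Finset.mem_univ _, hi⟩
    have h2 := Finset.card_le_card h1
    rw [Finset.card_image_of_injective _ (Option.some_injective _)] at h2
    refine h2.trans (Finset.card_image_le.trans ?_)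
    simp
  have hsurj : Function.Surjective (fun f : Fin l → Option (Fin r) =>
      (⟨Finset.univ.filter (fun x => ∃ i, f i = some x), hf f⟩ :
        {A : Finset (Fin r) // A.card ≤ l})) := by
    rintro ⟨A, hA⟩
    refine ⟨fun i => if h : (i:ℕ) < A.card then some (A.equivFin.symm ⟨i, h⟩ : Fin r) else none, ?_⟩
    apply Subtype.ext
    simp only
    ext x
    simp only [Finset.mem_filter, Finset.mem_univ, true_and]
    constructor
    · rintro ⟨i, hi⟩
      by_cases h : (i:ℕ) < A.card
      · rw [dif_pos h] at hi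
        rw [← Option.some.inj hi]
        exact (A.equivFin.symm ⟨i, h⟩).2
      · rw [dif_neg h] at hi
        exact absurd hi (by simp)
    · intro hx
      have hlt := (A.equivFin ⟨x, hx⟩).2
      refine ⟨⟨(A.equivFin ⟨x, hx⟩ : ℕ), lt_of_lt_of_le hlt hA⟩, ?_⟩
      rw [dif_pos hlt]
      simp
  have := Fintype.card_le_of_surjective _ hsurj
  rw [Fintype.card_fun, Fintype.card_option, Fintype.card_fin, Fintype.card_fin] at this
  exact this

open Classical in
lemma confSet_split {q N r : ℕ} (R : SimpleGraph (Fin r)) (T : Fin q × Fin N → Finset (Fin r)) :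
    (confSet R T).card ≤ 2 * (∑ e : PairIdx q, (Finset.univ.filter (fun z : Fin N × Fin N =>
      ((e.1.1, z.1), (e.1.2, z.2)) ∈ confSet R T)).card) + q * (N * N) := by
  set M := confSet R T with hM
  have hsymm : ∀ u v, (u, v) ∈ M → (v, u) ∈ M := by
    intro u v h
    rw [hM] at h ⊢
    unfold confSet at h ⊢
    rw [Finset.mem_filter] at h ⊢
    refine ⟨Finset.mem_univ _, h.2.2.1, h.2.1, h.2.2.2.1.symm, fun x hx y hy hxy => ?_⟩
    exact h.2.2.2.2 y hy x hx hxy.symm
  set A := M.filter (fun p => p.1.1 < p.2.1) with hA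
  set B := M.filter (fun p => p.2.1 < p.1.1) with hB
  set C := M.filter (fun p => p.1.1 = p.2.1) with hC
  have hsub : M ⊆ A ∪ (B ∪ C) := by
    intro p hp
    rw [Finset.mem_union, Finset.mem_union]
    rcases lt_trichotomy p.1.1 p.2.1 with h | h | h
    · exact Or.inl (Finset.mem_filter.mpr ⟨hp, h⟩)
    · exact Or.inr (Or.inr (Finset.mem_filter.mpr ⟨hp, h⟩))
    · exact Or.inr (Or.inl (Finset.mem_filter.mpr ⟨hp, h⟩))
  have hAc : A.card ≤ ∑ e : PairIdx q, (Finset.univ.filter (fun z : Fin N × Fin N =>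
      ((e.1.1, z.1), (e.1.2, z.2)) ∈ M)).card := by
    have h1 : A ⊆ Finset.univ.biUnion (fun e : PairIdx q =>
        (Finset.univ.filter (fun z : Fin N × Fin N =>
          ((e.1.1, z.1), (e.1.2, z.2)) ∈ M)).image (fun z => ((e.1.1, z.1), (e.1.2, z.2)))) := by
      rintro ⟨⟨a, x⟩, ⟨b, y⟩⟩ hp
      rw [hA, Finset.mem_filter] at hp
      rw [Finset.mem_biUnion]
      exact ⟨⟨(a, b), hp.2⟩, Finset.mem_univ _, Finset.mem_image.mpr
        ⟨(x, y), Finset.mem_filter.mpr ⟨Finset.mem_univ _, hp.1⟩, rfl⟩⟩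
    refine (Finset.card_le_card h1).trans (Finset.card_biUnion_le.trans ?_)
    exact Finset.sum_le_sum (fun e _ => Finset.card_image_le)
  have hBc : B.card ≤ A.card := by
    apply Finset.card_le_card_of_injOn (fun p => (p.2, p.1))
    · rintro ⟨u, v⟩ hp
      rw [Finset.mem_coe, hB, Finset.mem_filter] at hp
      rw [Finset.mem_coe, hA, Finset.mem_filter]
      exact ⟨hsymm u v hp.1, hp.2⟩
    · rintro ⟨u, v⟩ _ ⟨u', v'⟩ _ h
      have h1 := (Prod.mk.inj h)
      simp only at h1
      exact Prod.ext h1.2 h1.1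
  have hCc : C.card ≤ q * (N * N) := by
    have h1 : C ⊆ (Finset.univ : Finset (Fin q × (Fin N × Fin N))).image
        (fun w => ((w.1, w.2.1), (w.1, w.2.2))) := by
      rintro ⟨⟨a, x⟩, ⟨b, y⟩⟩ hp
      rw [hC, Finset.mem_filter] at hp
      have h2 := hp.2
      simp only at h2
      subst h2
      exact Finset.mem_image.mpr ⟨(a, (x, y)), Finset.mem_univ _, rfl⟩
    refine (Finset.card_le_card h1).trans (Finset.card_image_le.trans ?_)
    rw [Finset.card_univ]
    simp
  have h2 := Finset.card_le_card hsub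
  have h3 := Finset.card_union_le A (B ∪ C)
  have h4 := Finset.card_union_le B C
  omega

open Classical in
lemma exists_lift (q N r k l m : ℕ) (R : SimpleGraph (Fin r)) (hk : 1 ≤ k)
    (hR : NoModel R k l) (hN : 1 ≤ N) (hqk : 32 * k ≤ q) (hkl : 4 * k * l * m ≤ q * N)
    (hnum : (l:ℝ) * Real.log (r + 1) < q / (32768 * k ^ 2)) :
    ∃ σ : LiftData q N, ∀ T : Fin q × Fin N → Finset (Fin r), (∀ v, (T v).card ≤ l) →
      3 * (q * N) ≤ 4 * (Finset.univ.filter (fun v => (T v).Nonempty)).card →
      (∀ x : Fin r, (Finset.univ.filter (fun v => x ∈ T v)).card ≤ m) →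
      ∃ u v, (liftGraph σ).Adj u v ∧ Conf R T u v := by
  by_contra hcon
  push Not at hcon
  have hcardV : Fintype.card (Fin q × Fin N) = q * N := by simp
  -- the admissible assignments
  set TT := (Fin q × Fin N) → {A : Finset (Fin r) // A.card ≤ l} with hTT
  set val : TT → (Fin q × Fin N) → Finset (Fin r) := fun T v => (T v).1 with hval
  set adm : Finset TT := Finset.univ.filter (fun T =>
    3 * (q * N) ≤ 4 * (Finset.univ.filter (fun v => (val T v).Nonempty)).card ∧
      (∀ x : Fin r, (Finset.univ.filter (fun v => x ∈ val T v)).card ≤ m)) with hadm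
  set Me : TT → PairIdx q → Finset (Fin N × Fin N) := fun T e =>
    Finset.univ.filter (fun z : Fin N × Fin N => ((e.1.1, z.1), (e.1.2, z.2)) ∈ confSet R (val T))
    with hMe
  set Bad : TT → Finset (LiftData q N) := fun T => Fintype.piFinset (fun e =>
    Finset.univ.filter (fun π : Equiv.Perm (Fin N) => ∀ x, (x, π x) ∉ Me T e)) with hBad
  have hcover : (Finset.univ : Finset (LiftData q N)) ⊆ adm.biUnion Bad := by
    intro σ _
    obtain ⟨T, hT1, hT2, hT3, hT4⟩ := hcon σ
    rw [Finset.mem_biUnion]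
    refine ⟨fun v => ⟨T v, hT1 v⟩, Finset.mem_filter.mpr ⟨Finset.mem_univ _, hT2, hT3⟩, ?_⟩
    rw [hBad, Fintype.mem_piFinset]
    intro e
    rw [Finset.mem_filter]
    refine ⟨Finset.mem_univ _, fun x hx => ?_⟩
    rw [hMe, Finset.mem_filter] at hx
    have h1 := hx.2
    unfold confSet at h1
    rw [Finset.mem_filter] at h1
    exact hT4 _ _ (Or.inl ⟨e.2, rfl⟩) h1.2
  -- the number of bad lifts for one assignment
  have hNr : (0:ℝ) < N := by exact_mod_cast hN
  have hkr : (0:ℝ) < k := by exact_mod_cast hk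
  have hq1 : 1 ≤ q := by omega
  have hqr : (0:ℝ) < q := by exact_mod_cast hq1
  have hbad : ∀ T ∈ adm, ((Bad T).card : ℝ) ≤ ((N.factorial : ℝ) ^ Fintype.card (PairIdx q))
      * Real.exp (-((N:ℝ) * q ^ 2 / (32768 * k ^ 2))) := by
    intro T hT
    rw [hadm, Finset.mem_filter] at hT
    have h1 := supersat R k l m hk hR (val T) (fun v => (T v).2)
      (by rw [hcardV]; exact hT.2.1) hT.2.2 (by rw [hcardV]; exact hkl)
    rw [hcardV] at h1
    have h2 := confSet_split R (val T)
    obtain ⟨S, hS⟩ : ∃ S : ℝ, S = ∑ e : PairIdx q, ((Me T e).card : ℝ) := ⟨_, rfl⟩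
    have h3 : ((q:ℝ) * N) ^ 2 ≤ 16 * k * (2 * S + q * (N * N)) := by
      have h4 : ((q * N) ^ 2 : ℕ) ≤ 16 * k * (2 * (∑ e : PairIdx q, (Me T e).card)
          + q * (N * N)) := h1.trans (Nat.mul_le_mul_left _ h2)
      rw [hS]
      exact_mod_cast h4
    have hqk' : (32:ℝ) * k ≤ q := by exact_mod_cast hqk
    have h5 : (q:ℝ) ^ 2 * N ^ 2 ≤ 64 * k * S := by
      have h6 : (32 * k) * (q * (N:ℝ) ^ 2) ≤ q * (q * (N:ℝ) ^ 2) :=
        mul_le_mul_of_nonneg_right hqk' (by positivity)
      nlinarith
    -- the densities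
    have h7 : ((q:ℝ) ^ 2 / (64 * k)) ≤ ∑ e : PairIdx q, ((Me T e).card : ℝ) / (N:ℝ) ^ 2 := by
      rw [← Finset.sum_div, ← hS, div_le_div_iff₀ (by positivity) (by positivity)]
      linarith
    have h8 : (∑ e : PairIdx q, ((Me T e).card : ℝ) / (N:ℝ) ^ 2) ^ 2
        ≤ Fintype.card (PairIdx q) * ∑ e : PairIdx q, (((Me T e).card : ℝ) / (N:ℝ) ^ 2) ^ 2 := by
      have := sq_sum_le_card_mul_sum_sq (s := (Finset.univ : Finset (PairIdx q)))
        (f := fun e => ((Me T e).card : ℝ) / (N:ℝ) ^ 2)
      rwa [Finset.card_univ] at this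
    have h9 : (Fintype.card (PairIdx q) : ℝ) ≤ q ^ 2 / 2 := by
      have := card_pairIdx q
      have h10 : 2 * (Fintype.card (PairIdx q) : ℝ) + q = q * q := by exact_mod_cast this
      nlinarith
    obtain ⟨W, hW⟩ : ∃ W : ℝ, W = ∑ e : PairIdx q, (((Me T e).card : ℝ) / (N:ℝ) ^ 2) ^ 2 :=
      ⟨_, rfl⟩
    have hW0 : 0 ≤ W := by rw [hW]; exact Finset.sum_nonneg (fun _ _ => sq_nonneg _)
    rw [← hW] at h8
    have h11 : (q:ℝ) ^ 2 / (2048 * k ^ 2) ≤ W := by
      have h12 : ((q:ℝ) ^ 2 / (64 * k)) ^ 2 ≤ (q ^ 2 / 2) * W := by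
        calc ((q:ℝ) ^ 2 / (64 * k)) ^ 2
            ≤ (∑ e : PairIdx q, ((Me T e).card : ℝ) / (N:ℝ) ^ 2) ^ 2 :=
              pow_le_pow_left₀ (by positivity) h7 2
          _ ≤ _ := h8
          _ ≤ _ := mul_le_mul_of_nonneg_right h9 hW0
      have h13 : ((q:ℝ) ^ 2 / (64 * k)) ^ 2 = (q ^ 2 / 2) * (q ^ 2 / (2048 * k ^ 2)) := by
        field_simp
        norm_num
      rw [h13] at h12
      exact le_of_mul_le_mul_left h12 (by positivity)
    have h14 : ((Bad T).card : ℝ) ≤ ∏ e : PairIdx q, ((N.factorial : ℝ) *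
        Real.exp (-(((((Me T e).card : ℝ)) / (N:ℝ) ^ 2) ^ 2 * N / 16))) := by
      rw [hBad, Fintype.card_piFinset]
      push_cast
      apply Finset.prod_le_prod (fun _ _ => Nat.cast_nonneg _)
      intro e _
      have := perm_avoid N hN (Me T e)
      convert this
    refine h14.trans ?_
    rw [Finset.prod_mul_distrib, Finset.prod_const, ← Real.exp_sum, Finset.card_univ]
    apply mul_le_mul_of_nonneg_left _ (by positivity)
    apply Real.exp_le_exp.mpr
    have h15 : ∑ e : PairIdx q, -(((((Me T e).card : ℝ)) / (N:ℝ) ^ 2) ^ 2 * N / 16)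
        = -(W * N / 16) := by
      rw [hW, Finset.sum_neg_distrib, Finset.sum_mul, Finset.sum_div]
    rw [h15]
    have h16 : (q:ℝ) ^ 2 / (2048 * k ^ 2) * N / 16 ≤ W * N / 16 := by
      have := mul_le_mul_of_nonneg_right h11 hNr.le
      linarith
    have h17 : (q:ℝ) ^ 2 / (2048 * k ^ 2) * N / 16 = N * q ^ 2 / (32768 * k ^ 2) := by
      field_simp
      norm_num
    linarith
  have hF : (0:ℝ) < (N.factorial : ℝ) ^ Fintype.card (PairIdx q) := by
    have := Nat.factorial_pos N
    positivity
  have hcardL : (Fintype.card (LiftData q N) : ℝ)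
      = (N.factorial : ℝ) ^ Fintype.card (PairIdx q) := by
    rw [Fintype.card_fun, Fintype.card_perm, Fintype.card_fin]
    push_cast
    rfl
  have hcardT : (adm.card : ℝ) ≤ ((r:ℝ) + 1) ^ (l * (q * N)) := by
    have h1 : adm.card ≤ ((r + 1) ^ l) ^ (q * N) := by
      calc adm.card ≤ Fintype.card TT := Finset.card_le_univ _
        _ = Fintype.card {A : Finset (Fin r) // A.card ≤ l} ^ (q * N) := by
            rw [Fintype.card_fun, hcardV]
        _ ≤ _ := Nat.pow_le_pow_left (card_small_subsets r l) _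
    rw [← pow_mul] at h1
    exact_mod_cast h1
  have hle : (Fintype.card (LiftData q N) : ℝ)
      ≤ ((r:ℝ) + 1) ^ (l * (q * N)) * (((N.factorial : ℝ) ^ Fintype.card (PairIdx q))
      * Real.exp (-((N:ℝ) * q ^ 2 / (32768 * k ^ 2)))) := by
    have h1 : (Fintype.card (LiftData q N) : ℝ) ≤ ((adm.biUnion Bad).card : ℝ) := by
      rw [← Finset.card_univ]
      exact_mod_cast Finset.card_le_card hcover
    have h2 : ((adm.biUnion Bad).card : ℝ) ≤ ∑ T ∈ adm, ((Bad T).card : ℝ) := by
      exact_mod_cast Finset.card_biUnion_le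
    refine h1.trans (h2.trans ?_)
    refine (Finset.sum_le_sum hbad).trans ?_
    rw [Finset.sum_const, nsmul_eq_mul]
    apply mul_le_mul_of_nonneg_right hcardT (by positivity)
  rw [hcardL] at hle
  have h1 : ((r:ℝ) + 1) ^ (l * (q * N)) = Real.exp ((l * (q * N) : ℕ) * Real.log (r + 1)) := by
    rw [Real.exp_nat_mul, Real.exp_log (by positivity)]
  have h2 : ((r:ℝ) + 1) ^ (l * (q * N)) * Real.exp (-((N:ℝ) * q ^ 2 / (32768 * k ^ 2))) < 1 := by
    rw [h1, ← Real.exp_add]
    have h3 : (q:ℝ) * N * (l * Real.log (r + 1)) < q * N * (q / (32768 * k ^ 2)) :=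
      mul_lt_mul_of_pos_left hnum (by positivity)
    have h4 : (q:ℝ) * N * (q / (32768 * k ^ 2)) = N * q ^ 2 / (32768 * k ^ 2) := by ring
    have h5 : ((l * (q * N) : ℕ) : ℝ) * Real.log (r + 1)
        + -((N:ℝ) * q ^ 2 / (32768 * k ^ 2)) < 0 := by
      push_cast
      linarith
    have h6 := Real.exp_lt_exp.mpr h5
    rwa [Real.exp_zero] at h6
  have h3 : ((r:ℝ) + 1) ^ (l * (q * N)) * (((N.factorial : ℝ) ^ Fintype.card (PairIdx q))
      * Real.exp (-((N:ℝ) * q ^ 2 / (32768 * k ^ 2))))
      = (N.factorial : ℝ) ^ Fintype.card (PairIdx q) * (((r:ℝ) + 1) ^ (l * (q * N))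
        * Real.exp (-((N:ℝ) * q ^ 2 / (32768 * k ^ 2)))) := by ring
  rw [h3] at hle
  have h4 := mul_lt_mul_of_pos_left h2 hF
  rw [mul_one] at h4
  linarith

end Lifts

end Pool.Agent.H56.Minor
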