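import Mathlib
import Pool.Agent.H56.Minor1
import Pool.Agent.H56.Count1
import Pool.Agent.H56.Lower1
import Pool.Agent.H56.Perm1
import Pool.Agent.H56.Lift1

set_option autoImplicit false
set_option linter.unusedSectionVars false

namespace Pool.Agent.H56.Minor

open Finset

lemma exists_R (r k l : ℕ)
    (hnum : ((k + 1 : ℕ) : ℝ) ^ r *
      Real.exp (-((Fintype.card (PairIdx k) : ℝ) * (1 / 2) ^ (l * l))) < 1 / 2) :
    ∃ R : SimpleGraph (Fin r), r * (r - 1) ≤ 2 * E2 R Finset.univ ∧ NoModel R k l := by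
  classical
  set M := {μ : Fin r → Option (Fin k) // ∀ i, (Finset.univ.filter (fun x => μ x = some i)).card ≤ l}
    with hM
  set cl : M → Fin k → Finset (Fin r) := fun μ i =>
    Finset.univ.filter (fun x => μ.1 x = some i) with hcl
  set F : M → PairIdx k → Finset (Sym2 (Fin r)) := fun μ e =>
    ((cl μ e.1.1) ×ˢ (cl μ e.1.2)).image (fun x => s(x.1, x.2)) with hFdef
  have hF : ∀ μ, ∀ p q, p ≠ q → Disjoint (F μ p) (F μ q) := by
    intro μ p q hpq
    rw [Finset.disjoint_left]
    intro e he he'
    simp only [hFdef, Finset.mem_image, Finset.mem_product, hcl, Finset.mem_filter,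
      Finset.mem_univ, true_and, Prod.exists] at he he'
    obtain ⟨u, v, ⟨hu, hv⟩, rfl⟩ := he
    obtain ⟨u', v', ⟨hu', hv'⟩, h⟩ := he'
    rw [Sym2.eq_iff] at h
    rcases h with ⟨rfl, rfl⟩ | ⟨rfl, rfl⟩
    · rw [hu] at hu'
      rw [hv] at hv'
      have e1 := Option.some.inj hu'
      have e2 := Option.some.inj hv'
      apply hpq
      exact Subtype.ext (Prod.ext e1 e2)
    · rw [hv] at hu'
      rw [hu] at hv'
      have e1 := Option.some.inj hu'
      have e2 := Option.some.inj hv'
      have h1 := p.2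
      have h2 := q.2
      rw [← e1, ← e2] at h2
      exact absurd h1 (lt_asymm h2)
  have hlam : ∀ μ, (Fintype.card (PairIdx k) : ℝ) * (1 / 2) ^ (l * l)
      ≤ ∑ p, (1 / 2 : ℝ) ^ (F μ p).card := by
    intro μ
    rw [← nsmul_eq_mul, ← Finset.card_univ, ← Finset.sum_const]
    refine Finset.sum_le_sum (fun e _ => ?_)
    apply pow_le_pow_of_le_one (by norm_num) (by norm_num)
    calc (F μ e).card ≤ ((cl μ e.1.1) ×ˢ (cl μ e.1.2)).card := Finset.card_image_le
      _ = (cl μ e.1.1).card * (cl μ e.1.2).card := Finset.card_product _ _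
      _ ≤ l * l := Nat.mul_le_mul (μ.2 _) (μ.2 _)
  have hcard : (Fintype.card M : ℝ) ≤ ((k + 1 : ℕ) : ℝ) ^ r := by
    have h1 : Fintype.card M ≤ (k + 1) ^ r := by
      calc Fintype.card M ≤ Fintype.card (Fin r → Option (Fin k)) := Fintype.card_subtype_le _
        _ = (k + 1) ^ r := by
            rw [Fintype.card_fun, Fintype.card_option, Fintype.card_fin, Fintype.card_fin]
    exact_mod_cast h1
  obtain ⟨ε, hε1, hε2⟩ := exists_graph r F hF _ hlam
    (lt_of_le_of_lt (mul_le_mul_of_nonneg_right hcard (Real.exp_pos _).le) hnum)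
  refine ⟨gr ε, hε1, ?_⟩
  intro T hT1 hT2 hT3
  set μ0 : Fin r → Option (Fin k) := fun x => if h : ∃ i, x ∈ T i then some h.choose else none
    with hμ0
  have hμT : ∀ x i, μ0 x = some i ↔ x ∈ T i := by
    intro x i
    constructor
    · intro h
      by_cases hex : ∃ i, x ∈ T i
      · have h4 : μ0 x = some hex.choose := by
          rw [hμ0]; simp only; rw [dif_pos hex]
        rw [h4] at h
        rw [← Option.some.inj h]
        exact hex.choose_spec
      · have h4 : μ0 x = none := by
          rw [hμ0]; simp only; rw [dif_neg hex]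
        rw [h4] at h
        exact absurd h (by simp)
    · intro hx
      have hex : ∃ i, x ∈ T i := ⟨i, hx⟩
      have h4 : μ0 x = some hex.choose := by
        rw [hμ0]; simp only; rw [dif_pos hex]
      rw [h4]
      congr 1
      by_contra hne
      exact Finset.disjoint_left.mp (hT3 _ _ hne) hex.choose_spec hx
  have hcl0 : ∀ i, (Finset.univ.filter (fun x => μ0 x = some i)) = T i := by
    intro i
    ext x
    simp [hμT]
  obtain ⟨e, he⟩ := hε2 ⟨μ0, fun i => by rw [hcl0]; exact hT2 i⟩
  refine ⟨e.1.1, e.1.2, ne_of_lt e.2, fun x hx y hy hxy => ?_⟩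
  have hmem : s(x, y) ∈ F ⟨μ0, fun i => by rw [hcl0]; exact hT2 i⟩ e := by
    simp only [hFdef, hcl, Finset.mem_image, Finset.mem_product, Finset.mem_filter,
      Finset.mem_univ, true_and, Prod.exists]
    exact ⟨x, y, ⟨(hμT x _).mpr hx, (hμT y _).mpr hy⟩, rfl⟩
  have h5 := he _ hmem
  have h6 : ε s(x, y) = true := hxy.2
  rw [h5] at h6
  exact absurd h6 (by simp)

/-- Blow-up of a graph. -/
def blowup {r : ℕ} (R : SimpleGraph (Fin r)) (m : ℕ) : SimpleGraph (Fin r × Fin m) where
  Adj u v := R.Adj u.1 v.1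
  symm := ⟨fun _ _ h => h.symm⟩
  loopless := ⟨fun u h => R.loopless.irrefl u.1 h⟩

lemma E2_blowup {r : ℕ} (R : SimpleGraph (Fin r)) (m : ℕ) :
    E2 (blowup R m) Finset.univ = m * m * E2 R Finset.univ := by
  classical
  unfold E2
  have h1 : ∀ u : Fin r × Fin m, dg (blowup R m) Finset.univ u = m * dg R Finset.univ u.1 := by
    intro u
    unfold dg
    have : (Finset.univ.filter ((blowup R m).Adj u))
        = (Finset.univ.filter (R.Adj u.1)) ×ˢ (Finset.univ : Finset (Fin m)) := by
      ext v
      simp only [Finset.mem_filter, Finset.mem_univ, true_and, Finset.mem_product, and_true]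
      exact Iff.rfl
    rw [this, Finset.card_product, Finset.card_univ, Fintype.card_fin, mul_comm]
  rw [Finset.sum_congr rfl (fun u _ => h1 u), Fintype.sum_prod_type]
  simp only [Finset.sum_const, Finset.card_univ, Fintype.card_fin, smul_eq_mul]
  rw [Finset.mul_sum]
  refine Finset.sum_congr rfl (fun x _ => ?_)
  ring

open Classical in
lemma host_no_minor (q N r l m : ℕ) (R : SimpleGraph (Fin r))
    (σ : LiftData q N)
    (hσ : ∀ T : Fin q × Fin N → Finset (Fin r), (∀ v, (T v).card ≤ l) →
      3 * (q * N) ≤ 4 * (Finset.univ.filter (fun v => (T v).Nonempty)).card →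
      (∀ x : Fin r, (Finset.univ.filter (fun v => x ∈ T v)).card ≤ m) →
      ∃ u v, (liftGraph σ).Adj u v ∧ Conf R T u v)
    (hrm : 4 * (r * m) ≤ l * (q * N)) : ¬ IsMinor (liftGraph σ) (blowup R m) := by
  rintro ⟨φ, h1, h2, h3⟩
  set ψ : Fin q × Fin N → Finset (Fin r × Fin m) := fun v =>
    Finset.univ.filter (fun x => x ∈ φ v) with hψ
  have hmem : ∀ v x, x ∈ ψ v ↔ x ∈ φ v := by
    intro v x
    rw [hψ]; simp
  have hdisj : ∀ u v, u ≠ v → Disjoint (ψ u) (ψ v) := by
    intro u v huv
    rw [Finset.disjoint_left]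
    intro x hx hx'
    rw [hmem] at hx hx'
    exact Set.disjoint_left.mp (h2 u v huv) hx hx'
  have hne : ∀ v, (ψ v).Nonempty := by
    intro v
    obtain ⟨⟨x, hx⟩⟩ := (h1 v).nonempty
    exact ⟨x, (hmem v x).mpr hx⟩
  have hsum : ∑ v, (ψ v).card ≤ r * m := by
    rw [← Finset.card_biUnion (fun u _ v _ huv => hdisj u v huv)]
    calc _ ≤ (Finset.univ : Finset (Fin r × Fin m)).card := Finset.card_le_card (Finset.subset_univ _)
      _ = r * m := by rw [Finset.card_univ]; simp
  set T : Fin q × Fin N → Finset (Fin r) := fun v =>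
    if (ψ v).card ≤ l then (ψ v).image Prod.fst else ∅ with hT
  have hT1 : ∀ v, (T v).card ≤ l := by
    intro v
    rw [hT]
    simp only
    split_ifs with h
    · exact Finset.card_image_le.trans h
    · simp
  have hTsub : ∀ v x, x ∈ T v → ∃ i, (x, i) ∈ ψ v := by
    intro v x hx
    rw [hT] at hx
    simp only at hx
    split_ifs at hx with h
    · rw [Finset.mem_image] at hx
      obtain ⟨⟨a, i⟩, h1, h2⟩ := hx
      simp only at h2
      subst h2
      exact ⟨i, h1⟩
    · simp at hx
  have hT2 : 3 * (q * N) ≤ 4 * (Finset.univ.filter (fun v => (T v).Nonempty)).card := by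
    have e1 := Finset.card_filter_add_card_filter_not
      (s := (Finset.univ : Finset (Fin q × Fin N))) (fun v => (ψ v).card ≤ l)
    rw [Finset.card_univ] at e1
    have e0 : Fintype.card (Fin q × Fin N) = q * N := by simp
    rw [e0] at e1
    have e2 : (Finset.univ.filter (fun v => (ψ v).card ≤ l)).card
        ≤ (Finset.univ.filter (fun v => (T v).Nonempty)).card := by
      apply Finset.card_le_card
      intro v hv
      rw [Finset.mem_filter] at hv ⊢
      refine ⟨Finset.mem_univ _, ?_⟩
      rw [hT]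
      simp only
      rw [if_pos hv.2]
      exact (hne v).image _
    have e3 : (l + 1) * (Finset.univ.filter (fun v => ¬ (ψ v).card ≤ l)).card ≤ r * m := by
      calc (l + 1) * (Finset.univ.filter (fun v => ¬ (ψ v).card ≤ l)).card
          = ∑ _v ∈ Finset.univ.filter (fun v => ¬ (ψ v).card ≤ l), (l + 1) := by
            rw [Finset.sum_const, smul_eq_mul, mul_comm]
        _ ≤ ∑ v ∈ Finset.univ.filter (fun v => ¬ (ψ v).card ≤ l), (ψ v).card := by
            refine Finset.sum_le_sum (fun v hv => ?_)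
            rw [Finset.mem_filter] at hv
            omega
        _ ≤ ∑ v, (ψ v).card := Finset.sum_le_sum_of_subset (Finset.filter_subset _ _)
        _ ≤ r * m := hsum
    set b := (Finset.univ.filter (fun v => ¬ (ψ v).card ≤ l)).card
    have e4 : 4 * b ≤ q * N := by
      have e5 : (l + 1) * (4 * b) ≤ (l + 1) * (q * N) := by
        calc (l + 1) * (4 * b) = 4 * ((l + 1) * b) := by ring
          _ ≤ 4 * (r * m) := Nat.mul_le_mul_left _ e3
          _ ≤ l * (q * N) := hrm
          _ ≤ (l + 1) * (q * N) := Nat.mul_le_mul_right _ (by omega)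
      exact Nat.le_of_mul_le_mul_left e5 (by omega)
    omega
  have hT3 : ∀ x : Fin r, (Finset.univ.filter (fun v => x ∈ T v)).card ≤ m := by
    intro x
    have hch : ∀ v, ∃ i : Option (Fin m), x ∈ T v → ∃ j, i = some j ∧ (x, j) ∈ ψ v := by
      intro v
      by_cases h : x ∈ T v
      · obtain ⟨i, hi⟩ := hTsub v x h
        exact ⟨some i, fun _ => ⟨i, rfl, hi⟩⟩
      · exact ⟨none, fun h' => absurd h' h⟩
    choose f hf using hch
    have h4 : ((Finset.univ.filter (fun v => x ∈ T v)).card)
        ≤ ((Finset.univ : Finset (Fin m)).image some).card := by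
      apply Finset.card_le_card_of_injOn f
      · intro v hv
        rw [Finset.mem_coe, Finset.mem_filter] at hv
        obtain ⟨j, hj, _⟩ := hf v hv.2
        rw [Finset.mem_coe, hj]
        exact Finset.mem_image_of_mem _ (Finset.mem_univ _)
      · intro u hu v hv huv
        rw [Finset.mem_coe, Finset.mem_filter] at hu hv
        obtain ⟨j, hj, hj'⟩ := hf u hu.2
        obtain ⟨j2, hj2, hj2'⟩ := hf v hv.2
        rw [hj, hj2] at huv
        have := Option.some.inj huv
        rw [← this] at hj2'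
        by_contra hne'
        exact Finset.disjoint_left.mp (hdisj u v hne') hj' hj2'
    refine h4.trans (Finset.card_image_le.trans ?_)
    simp
  obtain ⟨u, v, huv, hconf⟩ := hσ T hT1 hT2 hT3
  obtain ⟨x, hx, y, hy, hxy⟩ := h3 u v huv
  obtain ⟨hTu, hTv, _, hno⟩ := hconf
  have hTu' : T u = (ψ u).image Prod.fst := by
    rw [hT] at hTu ⊢
    simp only at hTu ⊢
    split_ifs at hTu ⊢ with h
    · rfl
    · simp at hTu
  have hTv' : T v = (ψ v).image Prod.fst := by
    rw [hT] at hTv ⊢
    simp only at hTv ⊢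
    split_ifs at hTv ⊢ with h
    · rfl
    · simp at hTv
  refine hno x.1 ?_ y.1 ?_ hxy
  · rw [hTu']
    exact Finset.mem_image_of_mem _ ((hmem u x).mpr hx)
  · rw [hTv']
    exact Finset.mem_image_of_mem _ ((hmem v y).mpr hy)

/-- Transport of minors along an equivalence of the host. -/
lemma isMinor_of_comap {α V W : Type} {H : SimpleGraph α} (G : SimpleGraph W) (e : V ≃ W)
    (h : IsMinor H (G.comap e)) : IsMinor H G := by
  obtain ⟨φ, h1, h2, h3⟩ := h
  refine ⟨fun a => e '' (φ a), fun a => ?_, fun a b hab => ?_, fun a b hab => ?_⟩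
  · have f : (G.comap e) →g G := ⟨e, fun {x y} hxy => hxy⟩
    refine (h1 a).map (SimpleGraph.induceHom (⟨e, fun {x y} hxy => hxy⟩ : (G.comap e) →g G)
      (Set.mapsTo_image e (φ a))) ?_
    rintro ⟨y, x, hx, rfl⟩
    exact ⟨⟨x, hx⟩, rfl⟩
  · exact Set.disjoint_image_of_injective e.injective (h2 a b hab)
  · obtain ⟨x, hx, y, hy, hxy⟩ := h3 a b hab
    exact ⟨e x, Set.mem_image_of_mem _ hx, e y, Set.mem_image_of_mem _ hy, hxy⟩

lemma E2_comap {V W : Type} [Fintype V] [DecidableEq V] [Fintype W] [DecidableEq W]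
    (G : SimpleGraph W) (e : V ≃ W) : E2 (G.comap e) Finset.univ = E2 G Finset.univ := by
  classical
  unfold E2
  rw [← Equiv.sum_comp e]
  refine Finset.sum_congr rfl (fun x _ => ?_)
  unfold dg
  rw [← Finset.card_map e.toEmbedding]
  congr 1
  ext y
  simp only [Finset.mem_map, Finset.mem_filter, Finset.mem_univ, true_and,
    Equiv.coe_toEmbedding, SimpleGraph.comap_adj]
  constructor
  · rintro ⟨z, hz, rfl⟩
    exact hz
  · intro h
    exact ⟨e.symm y, by simpa using h, by simp⟩

/-- Minors are monotone under injective homomorphisms. -/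
lemma isMinor_of_hom {α β V : Type} {H : SimpleGraph α} {H' : SimpleGraph β} {G : SimpleGraph V}
    (f : α → β) (hf : Function.Injective f) (hadj : ∀ a b, H.Adj a b → H'.Adj (f a) (f b))
    (h : IsMinor H' G) : IsMinor H G := by
  obtain ⟨φ, h1, h2, h3⟩ := h
  exact ⟨fun a => φ (f a), fun a => h1 _, fun a b hab => h2 _ _ (fun e => hab (hf e)),
    fun a b hab => h3 _ _ (hadj a b hab)⟩

end Pool.Agent.H56.Minor
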