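import Mathlib
import Pool.Agent.H56.Minor1
import Pool.Agent.H56.Count1
import Pool.Agent.H56.Lower1

set_option autoImplicit false
set_option linter.unusedSectionVars false

namespace Pool.Agent.H56.Minor

open Finset

lemma card_le_of_isMinor {α : Type} [Fintype α] {n : ℕ} {H : SimpleGraph α}
    {G : SimpleGraph (Fin n)} (h : IsMinor H G) : Fintype.card α ≤ n := by
  classical
  obtain ⟨φ, h1, h2, _⟩ := h
  have hne : ∀ a, ∃ x, x ∈ φ a := fun a => by
    obtain ⟨⟨x, hx⟩⟩ := (h1 a).nonempty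
    exact ⟨x, hx⟩
  choose f hf using hne
  have hinj : Function.Injective f := by
    intro a b hab
    by_contra hne
    exact Set.disjoint_left.mp (h2 a b hne) (hf a) (hab ▸ hf b)
  simpa using Fintype.card_le_of_injective f hinj

lemma threshold_le {α : Type} [Fintype α] (H : SimpleGraph α) (hα : 2 ≤ Fintype.card α) (c : ℝ)
    (hc : ∀ n : ℕ, 0 < n → ∀ G : SimpleGraph (Fin n), c ≤ avgDeg G → IsMinor H G) :
    threshold H ≤ c := by
  unfold threshold
  refine csInf_le ⟨0, fun b hb => ?_⟩ (show c ∈ {c : ℝ | ∀ n : ℕ, 0 < n →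
    ∀ G : SimpleGraph (Fin n), c ≤ avgDeg G → IsMinor H G} from hc)
  by_contra hneg
  push Not at hneg
  have h1 := hb 1 one_pos ⊥ (by
    have : avgDeg (⊥ : SimpleGraph (Fin 1)) = 0 := by simp [avgDeg]
    rw [this]; exact hneg.le)
  have := card_le_of_isMinor h1
  omega

lemma le_threshold {α : Type} (H : SimpleGraph α) {n : ℕ} (hn : 0 < n) (G : SimpleGraph (Fin n))
    (hG : ¬ IsMinor H G)
    (hne : ∃ c, ∀ n : ℕ, 0 < n → ∀ G : SimpleGraph (Fin n), c ≤ avgDeg G → IsMinor H G) :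
    avgDeg G ≤ threshold H := by
  unfold threshold
  apply le_csInf hne
  intro b hb
  by_contra hlt
  push Not at hlt
  exact hG (hb n hn G hlt.le)

open Classical in
lemma upper_forcing (d s t a b : ℕ) (H₀ : SimpleGraph (Fin t))
    (hdeg : ∀ v, (Finset.univ.filter (H₀.Adj v)).card ≤ d) (hd : 1 ≤ d) (hs : 1 ≤ s) (ht : 1 ≤ t)
    (ha : 6 ≤ a) (hab : a ≤ b) (h1 : 16 * d ^ 2 ≤ 2 ^ (a * a)) (h2 : 16 * s ^ 2 ≤ 2 ^ (a * b)) :
    ∀ n : ℕ, 0 < n → ∀ G : SimpleGraph (Fin n), (320:ℝ) * (t * a + s * b) ≤ avgDeg G →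
      IsMinor (addDominant H₀ s) G := by
  intro n hn G hG
  refine upper_core G d s t a b H₀ hdeg hd hs ht ha hab h1 h2 (by simpa using hn) ?_
  rw [Fintype.card_fin]
  have hn' : (0:ℝ) < n := by exact_mod_cast hn
  unfold avgDeg at hG
  rw [le_div_iff₀ hn'] at hG
  have h3 : ((E2 G Finset.univ : ℕ) : ℝ) = 2 * (G.edgeSet.ncard : ℝ) := by
    exact_mod_cast E2_eq G
  have h4 : ((2 * (160 * (t * a + s * b)) * n : ℕ) : ℝ) ≤ ((E2 G Finset.univ : ℕ) : ℝ) := by
    rw [h3]
    push_cast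
    linarith
  exact_mod_cast h4

/-- Choice of the parameters `a`, `b`. -/
lemma choose_ab (d s t : ℕ) (hd : 2 ≤ d) (hs : 2 ≤ s) (hst : s ≤ t) :
    ∃ a b : ℕ, 6 ≤ a ∧ a ≤ b ∧ 16 * d ^ 2 ≤ 2 ^ (a * a) ∧ 16 * s ^ 2 ≤ 2 ^ (a * b) ∧
      (t:ℝ) * a + s * b ≤ 30 * (t * Real.sqrt (Real.log d) + Real.sqrt (s * t * Real.log s)) := by
  have hd' : (2:ℝ) ≤ d := by exact_mod_cast hd
  have hs' : (2:ℝ) ≤ s := by exact_mod_cast hs
  have hst' : (s:ℝ) ≤ t := by exact_mod_cast hst
  have ht' : (2:ℝ) ≤ t := le_trans hs' hst'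
  have hlog2 : (0.69:ℝ) < Real.log 2 := by
    have := Real.log_two_gt_d9; linarith
  have hlog2' : Real.log 2 < (0.7:ℝ) := by
    have := Real.log_two_lt_d9; linarith
  have hld : Real.log 2 ≤ Real.log d := Real.log_le_log (by norm_num) hd'
  have hls : Real.log 2 ≤ Real.log s := Real.log_le_log (by norm_num) hs'
  set Ld := Real.log d with hLd
  set Ls := Real.log s with hLs
  have hLd0 : 0 < Ld := by linarith
  have hLs0 : 0 < Ls := by linarith
  set u := Real.sqrt Ld with hu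
  set w := Real.sqrt ((s / t) * Ls) with hw
  have hu0 : 0 < u := Real.sqrt_pos.mpr hLd0
  have hu2 : u ^ 2 = Ld := Real.sq_sqrt hLd0.le
  have hw0' : 0 < (s / t : ℝ) * Ls := by positivity
  have hw0 : 0 < w := Real.sqrt_pos.mpr hw0'
  have hw2 : w ^ 2 = (s / t) * Ls := Real.sq_sqrt hw0'.le
  set X := Real.sqrt (s * t * Ls) with hX
  have hX0 : 0 < X := Real.sqrt_pos.mpr (by positivity)
  have htw : (t:ℝ) * w = X := by
    rw [hX]
    symm
    rw [Real.sqrt_eq_iff_mul_self_eq_of_pos (by positivity)]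
    calc t * w * (t * w) = t ^ 2 * w ^ 2 := by ring
      _ = s * t * Ls := by rw [hw2]; field_simp
  have hu08 : (0.8:ℝ) ≤ u := by
    rw [hu]
    apply Real.le_sqrt_of_sq_le
    norm_num
    linarith
  set a : ℕ := ⌈4 * u + 4 * w + 6⌉₊ with ha
  set c : ℕ := ⌈12 * Ls / a⌉₊ with hc
  have ha1 : 4 * u + 4 * w + 6 ≤ (a:ℝ) := Nat.le_ceil _
  have ha2 : (a:ℝ) < 4 * u + 4 * w + 6 + 1 := Nat.ceil_lt_add_one (by positivity)
  have ha0 : (0:ℝ) < a := by linarith
  have hc1 : 12 * Ls / a ≤ (c:ℝ) := Nat.le_ceil _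
  have hc2 : (c:ℝ) < 12 * Ls / a + 1 := Nat.ceil_lt_add_one (by positivity)
  have ha6 : 6 ≤ a := by
    have : (6:ℝ) ≤ a := by linarith
    exact_mod_cast this
  refine ⟨a, a + c, ha6, Nat.le_add_right _ _, ?_, ?_, ?_⟩
  · -- 16 d^2 ≤ 2^(a*a)
    have h1 : Real.log (16 * (d:ℝ) ^ 2) ≤ Real.log ((2:ℝ) ^ (a * a)) := by
      rw [Real.log_mul (by norm_num) (by positivity), Real.log_pow, Real.log_pow]
      have h16 : Real.log 16 = 4 * Real.log 2 := by
        rw [show (16:ℝ) = 2 ^ 4 by norm_num, Real.log_pow]; norm_num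
      rw [h16]
      push_cast
      have h2 : 16 * Ld ≤ (a:ℝ) * a := by
        have h21 : 4 * u ≤ (a:ℝ) := by linarith
        calc 16 * Ld = (4 * u) * (4 * u) := by rw [← hu2]; ring
          _ ≤ a * a := mul_le_mul h21 h21 (by positivity) ha0.le
      have h3 : 36 ≤ (a:ℝ) * a := by
        have h31 : 6 ≤ (a:ℝ) := by linarith
        calc (36:ℝ) = 6 * 6 := by norm_num
          _ ≤ a * a := mul_le_mul h31 h31 (by positivity) ha0.le
      have h4 : (a:ℝ) * a * 0.69 ≤ a * a * Real.log 2 := by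
        apply mul_le_mul_of_nonneg_left hlog2.le (by positivity)
      linarith
    have h2 : (16 * (d:ℝ) ^ 2) ≤ (2:ℝ) ^ (a * a) := by
      exact (Real.log_le_log_iff (by positivity) (by positivity)).mp h1
    exact_mod_cast h2
  · have h1 : Real.log (16 * (s:ℝ) ^ 2) ≤ Real.log ((2:ℝ) ^ (a * (a + c))) := by
      rw [Real.log_mul (by norm_num) (by positivity), Real.log_pow, Real.log_pow]
      have h16 : Real.log 16 = 4 * Real.log 2 := by
        rw [show (16:ℝ) = 2 ^ 4 by norm_num, Real.log_pow]; norm_num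
      rw [h16]
      push_cast
      have h2 : 12 * Ls ≤ (a:ℝ) * c := by
        rw [div_le_iff₀ ha0] at hc1
        linarith
      have h3 : 36 ≤ (a:ℝ) * a := by
        have h31 : 6 ≤ (a:ℝ) := by linarith
        calc (36:ℝ) = 6 * 6 := by norm_num
          _ ≤ a * a := mul_le_mul h31 h31 (by positivity) ha0.le
      have h4 : (a:ℝ) * (a + c) * 0.69 ≤ a * (a + c) * Real.log 2 := by
        apply mul_le_mul_of_nonneg_left hlog2.le (by positivity)
      have h5 : (a:ℝ) * (a + c) * 0.69 = 0.69 * (a * a) + 0.69 * (a * c) := by ring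
      linarith
    have h2 : (16 * (s:ℝ) ^ 2) ≤ (2:ℝ) ^ (a * (a + c)) := by
      exact (Real.log_le_log_iff (by positivity) (by positivity)).mp h1
    exact_mod_cast h2
  · push_cast
    -- s * c ≤ 3 X + s
    have h1 : (s:ℝ) * (12 * Ls / a) ≤ 3 * X := by
      have h2 : 4 * w ≤ (a:ℝ) := by linarith
      have h3 : 12 * Ls / a ≤ 12 * Ls / (4 * w) := by
        apply div_le_div_of_nonneg_left (by positivity) (by positivity) h2
      have h4 : (s:ℝ) * (12 * Ls / (4 * w)) = 3 * X := by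
        rw [← htw]
        rw [mul_div_assoc', div_eq_iff (by positivity)]
        have : (s:ℝ) * Ls = t * w ^ 2 := by rw [hw2]; field_simp
        calc (s:ℝ) * (12 * Ls) = 12 * (s * Ls) := by ring
          _ = 12 * (t * w ^ 2) := by rw [this]
          _ = 3 * (t * w) * (4 * w) := by ring
      calc (s:ℝ) * (12 * Ls / a) ≤ s * (12 * Ls / (4 * w)) :=
            mul_le_mul_of_nonneg_left h3 (by positivity)
        _ = 3 * X := h4
    have h5 : (t:ℝ) * a ≤ t * (4 * u + 4 * w + 7) :=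
      mul_le_mul_of_nonneg_left (by linarith) (by positivity)
    have h6 : (s:ℝ) * a ≤ t * a := mul_le_mul_of_nonneg_right hst' (by positivity)
    have h7 : (s:ℝ) * c ≤ 3 * X + s := by
      have : (s:ℝ) * c ≤ s * (12 * Ls / a + 1) := mul_le_mul_of_nonneg_left hc2.le (by positivity)
      linarith
    have h8 : (t:ℝ) * 0.8 ≤ t * u := mul_le_mul_of_nonneg_left hu08 (by positivity)
    have h9 : (t:ℝ) * (4 * u + 4 * w + 7) = 4 * (t * u) + 4 * X + 7 * t := by
      rw [← htw]; ring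
    have h10 : (s:ℝ) * (a + c) = s * a + s * c := by ring
    rw [h10]
    linarith

open Classical in
/-- Upper bound for the threshold. -/
theorem threshold_upper (d s t : ℕ) (hd : 2 ≤ d) (hs : 2 ≤ s) (hst : s ≤ t)
    (H₀ : SimpleGraph (Fin t)) (hdeg : ∀ v, (Finset.univ.filter (H₀.Adj v)).card ≤ d) :
    (∃ c, ∀ n : ℕ, 0 < n → ∀ G : SimpleGraph (Fin n), c ≤ avgDeg G →
      IsMinor (addDominant H₀ s) G) ∧
    threshold (addDominant H₀ s)
      ≤ 9600 * (Real.sqrt (Real.log d) * t + Real.sqrt (s * t * Real.log s)) := by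
  obtain ⟨a, b, h1, h2, h3, h4, h5⟩ := choose_ab d s t hd hs hst
  have hf := upper_forcing d s t a b H₀ hdeg (by omega) (by omega) (by omega) h1 h2 h3 h4
  refine ⟨⟨_, hf⟩, ?_⟩
  refine (threshold_le _ ?_ _ hf).trans ?_
  · rw [Fintype.card_sum, Fintype.card_fin, Fintype.card_fin]; omega
  · nlinarith

lemma log_le_two_sqrt {x : ℝ} (hx : 0 < x) : Real.log x ≤ 2 * Real.sqrt x := by
  have h1 : Real.log (Real.sqrt x) ≤ Real.sqrt x - 1 :=
    Real.log_le_sub_one_of_pos (Real.sqrt_pos.mpr hx)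
  rw [Real.log_sqrt hx.le] at h1
  linarith

/-- Lower bound for the threshold. -/
theorem threshold_lower (s t : ℕ) (hs : 2 ≤ s) (hst : s ≤ t) (ht : 10 ^ 6 ≤ t) :
    ∃ n : ℕ, 0 < n ∧ ∃ G : SimpleGraph (Fin n),
      Real.sqrt (s * t * Real.log s) / 16 ≤ avgDeg G ∧
      ∀ (H₀ : SimpleGraph (Fin t)), ¬ IsMinor (addDominant H₀ s) G := by
  have hs' : (2:ℝ) ≤ s := by exact_mod_cast hs
  have hst' : (s:ℝ) ≤ t := by exact_mod_cast hst
  have ht' : (10:ℝ) ^ 6 ≤ t := by exact_mod_cast ht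
  have hlog2 : (0.69:ℝ) < Real.log 2 := by
    have := Real.log_two_gt_d9; linarith
  have hlog2' : Real.log 2 < (0.7:ℝ) := by
    have := Real.log_two_lt_d9; linarith
  have hls : Real.log 2 ≤ Real.log s := Real.log_le_log (by norm_num) hs'
  set Ls := Real.log s with hLs
  have hLs0 : 0 < Ls := by linarith
  set X := Real.sqrt (s * t * Ls) with hX
  have hX0 : 0 < X := Real.sqrt_pos.mpr (by positivity)
  have hX2 : X ^ 2 = s * t * Ls := Real.sq_sqrt (by positivity)
  have hX1000 : 1000 ≤ X := by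
    rw [hX]
    apply Real.le_sqrt_of_sq_le
    have h1 : (2:ℝ) * 10 ^ 6 ≤ s * t := by nlinarith
    nlinarith
  set n : ℕ := ⌊X / 4⌋₊ with hn
  set K : ℕ := ⌊Ls / 4⌋₊ + 1 with hK
  have hn1 : (n:ℝ) ≤ X / 4 := Nat.floor_le (by positivity)
  have hn2 : X / 4 < n + 1 := Nat.lt_floor_add_one _
  have hnpos : 1 ≤ n := by
    have : (1:ℝ) ≤ n := by linarith
    exact_mod_cast this
  have hK1 : Ls / 4 ≤ (K:ℝ) := by
    rw [hK]; push_cast
    exact (Nat.lt_floor_add_one _).le
  have hK2 : (K:ℝ) ≤ Ls / 4 + 1 := by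
    rw [hK]; push_cast
    have := Nat.floor_le (show 0 ≤ Ls / 4 by positivity)
    linarith
  -- fourth roots
  set r := Real.sqrt (Real.sqrt s) with hr
  set p := Real.sqrt t with hp
  have hs0 : (0:ℝ) < s := by linarith
  have ht0 : (0:ℝ) < t := by linarith
  have hr0 : 0 < r := Real.sqrt_pos.mpr (Real.sqrt_pos.mpr hs0)
  have hr1 : 1 ≤ r := by
    rw [hr]
    apply Real.le_sqrt_of_sq_le
    rw [one_pow]
    apply Real.le_sqrt_of_sq_le
    linarith
  have hr2 : r ^ 2 = Real.sqrt s := Real.sq_sqrt (Real.sqrt_nonneg _)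
  have hr4 : r ^ 4 = (s:ℝ) := by
    calc r ^ 4 = (r ^ 2) ^ 2 := by ring
      _ = (s:ℝ) := by rw [hr2, Real.sq_sqrt hs0.le]
  have hp0 : 0 < p := Real.sqrt_pos.mpr ht0
  have hp2 : p ^ 2 = t := Real.sq_sqrt ht0.le
  have hp1000 : 1000 ≤ p := by
    rw [hp]
    apply Real.le_sqrt_of_sq_le
    linarith
  -- bound on X
  have hXle : X ≤ 1.5 * (r ^ 3 * p) := by
    apply le_of_sq_le_sq _ (by positivity)
    rw [hX2]
    have h1 : Ls ≤ 2 * r ^ 2 := by rw [hr2]; exact log_le_two_sqrt hs0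
    calc (s:ℝ) * t * Ls ≤ s * t * (2 * r ^ 2) := mul_le_mul_of_nonneg_left h1 (by positivity)
      _ = 2 * (r ^ 6 * p ^ 2) := by
          rw [← hr4, hp2]; ring
      _ ≤ 2.25 * (r ^ 6 * p ^ 2) := by
          apply mul_le_mul_of_nonneg_right (by norm_num) (by positivity)
      _ = (1.5 * (r ^ 3 * p)) ^ 2 := by ring
  -- bound on lam
  have hKpow : 1 / (2 * r) ≤ (1 / 2 : ℝ) ^ K := by
    have h1 : Real.log (1 / (2 * r)) ≤ Real.log ((1 / 2 : ℝ) ^ K) := by
      rw [Real.log_pow, Real.log_div (by norm_num) (by positivity), Real.log_one, zero_sub,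
        Real.log_mul (by norm_num) (by positivity), Real.log_div (by norm_num) (by norm_num),
        Real.log_one, zero_sub]
      have h2 : Real.log r = Ls / 4 := by
        rw [hr, Real.log_sqrt (Real.sqrt_nonneg _), Real.log_sqrt hs0.le]
        ring
      rw [h2]
      have h3 : (K:ℝ) * Real.log 2 ≤ (Ls / 4 + 1) * Real.log 2 :=
        mul_le_mul_of_nonneg_right hK2 (by linarith)
      have h4 : Ls / 4 * Real.log 2 ≤ Ls / 4 * 1 :=
        mul_le_mul_of_nonneg_left (by linarith) (by positivity)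
      nlinarith
    exact (Real.log_le_log_iff (by positivity) (by positivity)).mp h1
  have hlam : r ^ 3 * p ^ 2 / 8 ≤ ((s:ℝ) * t) / 4 * (1 / 2) ^ K := by
    calc r ^ 3 * p ^ 2 / 8 = ((s:ℝ) * t) / 4 * (1 / (2 * r)) := by
          rw [← hr4, ← hp2]; field_simp; ring
      _ ≤ _ := mul_le_mul_of_nonneg_left hKpow (by positivity)
  obtain ⟨G, hG1, hG2⟩ := lower_core s t n K (by omega) (by omega) hnpos (by
      have h1 : (4:ℝ) * n ^ 2 ≤ K * (s * t) := by
        have h2 : (n:ℝ) ^ 2 ≤ (X / 4) ^ 2 := pow_le_pow_left₀ (by positivity) hn1 2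
        have h3 : (Ls / 4) * (s * t) ≤ (K:ℝ) * (s * t) :=
          mul_le_mul_of_nonneg_right hK1 (by positivity)
        nlinarith
      exact_mod_cast h1) (by
      -- the numerical condition
      have hT : ((t + s + 1 : ℕ) : ℝ) ≤ 3 * t := by
        push_cast; linarith
      have hT0 : (0:ℝ) < ((t + s + 1 : ℕ) : ℝ) := by positivity
      have hlogT : Real.log ((t + s + 1 : ℕ) : ℝ) ≤ p / 8 := by
        calc Real.log ((t + s + 1 : ℕ) : ℝ) ≤ Real.log (3 * t) := Real.log_le_log hT0 hT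
          _ = Real.log 3 + 4 * Real.log (Real.sqrt p) := by
              rw [Real.log_mul (by norm_num) ht0.ne', Real.log_sqrt hp0.le, hp,
                Real.log_sqrt ht0.le]
              ring
          _ ≤ 2 + 4 * (2 * Real.sqrt (Real.sqrt p)) := by
              have h1 : Real.log 3 ≤ 2 := by
                have := Real.log_le_sub_one_of_pos (show (0:ℝ) < 3 by norm_num)
                linarith
              have h2 : Real.log (Real.sqrt p) ≤ 2 * Real.sqrt (Real.sqrt p) :=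
                log_le_two_sqrt (Real.sqrt_pos.mpr hp0)
              linarith
          _ ≤ p / 8 := by
              set z := Real.sqrt (Real.sqrt p) with hz
              have hz2 : z ^ 2 = Real.sqrt p := Real.sq_sqrt (Real.sqrt_nonneg _)
              have hz4 : z ^ 4 = p := by
                calc z ^ 4 = (z ^ 2) ^ 2 := by ring
                  _ = p := by rw [hz2, Real.sq_sqrt hp0.le]
              have hz5 : 5.5 ≤ z := by
                rw [hz]
                apply Real.le_sqrt_of_sq_le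
                apply Real.le_sqrt_of_sq_le
                norm_num
                linarith
              rw [← hz4]
              have hz6 : (5.5:ℝ) ^ 3 ≤ z ^ 3 := pow_le_pow_left₀ (by norm_num) hz5 3
              have hz7 : (166:ℝ) ≤ z ^ 3 := by
                refine le_trans (by norm_num) hz6
              have hz8 : z * 166 ≤ z * z ^ 3 := mul_le_mul_of_nonneg_left hz7 (by linarith)
              have hz9 : z * z ^ 3 = z ^ 4 := by ring
              rw [hz9] at hz8
              linarith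
      have hexp : ((t + s + 1 : ℕ) : ℝ) ^ n = Real.exp (n * Real.log ((t + s + 1 : ℕ) : ℝ)) := by
        rw [mul_comm, Real.exp_mul, Real.exp_log hT0, Real.rpow_natCast]
      rw [hexp, ← Real.exp_add]
      have h1 : (n:ℝ) * Real.log ((t + s + 1 : ℕ) : ℝ) ≤ (1.5 * (r ^ 3 * p) / 4) * (p / 8) := by
        apply mul_le_mul (by linarith) hlogT _ (by positivity)
        apply Real.log_nonneg
        push_cast
        linarith
      have h2 : (n:ℝ) * Real.log ((t + s + 1 : ℕ) : ℝ) + -(((s:ℝ) * t) / 4 * (1 / 2) ^ K)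
          ≤ -1 := by
        have h3 : (1000:ℝ) ≤ r ^ 3 * p ^ 2 := by
          have h31 : 1 ≤ r ^ 3 := one_le_pow₀ hr1
          have h32 : (1000:ℝ) ≤ p ^ 2 := by rw [hp2]; linarith
          calc (1000:ℝ) = 1 * 1000 := by norm_num
            _ ≤ r ^ 3 * p ^ 2 := mul_le_mul h31 h32 (by norm_num) (by positivity)
        have h4 : (1.5 * (r ^ 3 * p) / 4) * (p / 8) = (3 / 64) * (r ^ 3 * p ^ 2) := by ring
        rw [h4] at h1
        linarith
      calc Real.exp (n * Real.log ((t + s + 1 : ℕ) : ℝ) + -(((s:ℝ) * t) / 4 * (1 / 2) ^ K))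
          ≤ Real.exp (-1) := Real.exp_le_exp.mpr h2
        _ < 1 / 2 := by
            have := Real.exp_neg_one_lt_d9
            linarith)
  refine ⟨n, by omega, G, ?_, hG2⟩
  refine le_trans ?_ hG1
  linarith

end Pool.Agent.H56.Minor
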