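import Mathlib
import Pool.Agent.H56.Minor1
import Pool.Agent.H56.Count1
import Pool.Agent.H56.Lower1
import Pool.Agent.H56.Perm1
import Pool.Agent.H56.Lift1
import Pool.Agent.H56.Host1

set_option autoImplicit false
set_option linter.unusedSectionVars false

namespace Pool.Agent.H56.Minor

open Finset

lemma sixteen_sq_le (w : ℕ) (hw : 16 ≤ w) : 16 * w ^ 2 ≤ 2 ^ w := by
  induction w, hw using Nat.le_induction with
  | base => norm_num
  | succ w hw ih =>
    have h1 : (w + 1) ^ 2 ≤ 2 * w ^ 2 := by nlinarith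
    calc 16 * (w + 1) ^ 2 ≤ 16 * (2 * w ^ 2) := Nat.mul_le_mul_left _ h1
      _ = 2 * (16 * w ^ 2) := by ring
      _ ≤ 2 * 2 ^ w := Nat.mul_le_mul_left _ ih
      _ = 2 ^ (w + 1) := by rw [pow_succ]; ring

/-- Real estimates used below. -/
lemma est1 (z w : ℝ) (hw : 16 ≤ w) (hz : 16 * w ^ 2 ≤ z) :
    z ^ 2 * w * ((2 * w + 1) * 0.7) - (z ^ 3 / 2 - z / 2) ≤ -1 := by
  have hz4 : 4096 ≤ z := by nlinarith
  have hz0 : 0 < z := by linarith
  have h4 : w * ((2 * w + 1) * 0.7) ≤ z / 4 := by nlinarith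
  have h5 : z ^ 2 * w * ((2 * w + 1) * 0.7) ≤ z ^ 3 / 4 := by
    calc z ^ 2 * w * ((2 * w + 1) * 0.7) = z ^ 2 * (w * ((2 * w + 1) * 0.7)) := by ring
      _ ≤ z ^ 2 * (z / 4) := mul_le_mul_of_nonneg_left h4 (by positivity)
      _ = z ^ 3 / 4 := by ring
  have h7 : z + 2 ≤ z ^ 3 / 2 := by
    have : (4096:ℝ) ^ 2 ≤ z ^ 2 := pow_le_pow_left₀ (by norm_num) hz4 2
    have h8 : z * 4096 ^ 2 ≤ z * z ^ 2 := mul_le_mul_of_nonneg_left this hz0.le
    have h9 : z * z ^ 2 = z ^ 3 := by ring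
    rw [h9] at h8
    linarith
  linarith

lemma est2 (z : ℝ) (hz : 4096 ≤ z) : 32 * z ^ 2 ≤ 2 ^ 15 * z ^ 8 := by
  have h2 : (1:ℝ) ≤ z ^ 6 := one_le_pow₀ (by linarith)
  calc 32 * z ^ 2 = 32 * z ^ 2 * 1 := by ring
    _ ≤ 32 * z ^ 2 * z ^ 6 := mul_le_mul_of_nonneg_left h2 (by positivity)
    _ = 32 * z ^ 8 := by ring
    _ ≤ 2 ^ 15 * z ^ 8 := mul_le_mul_of_nonneg_right (by norm_num) (by positivity)

lemma est3 (z w q : ℝ) (hw : 16 ≤ w) (hz : 16 * w ^ 2 ≤ z) (hq : 2 ^ 15 * z ^ 8 ≤ q) :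
    w * (z ^ 2 * w) < q / (32768 * (z ^ 2) ^ 2) := by
  have hz4 : 4096 ≤ z := by nlinarith
  have hz0 : 0 < z := by linarith
  have h3 : w * (z ^ 2 * w) ≤ z ^ 3 / 16 := by
    calc w * (z ^ 2 * w) = z ^ 2 * w ^ 2 := by ring
      _ ≤ z ^ 2 * (z / 16) := mul_le_mul_of_nonneg_left (by linarith) (by positivity)
      _ = z ^ 3 / 16 := by ring
  have h4 : z ^ 4 ≤ q / (32768 * (z ^ 2) ^ 2) := by
    rw [le_div_iff₀ (by positivity)]
    calc z ^ 4 * (32768 * (z ^ 2) ^ 2) = 2 ^ 15 * z ^ 8 := by ring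
      _ ≤ q := hq
  have h5 : z ^ 3 / 16 < z ^ 4 := by
    have h6 : (0:ℝ) < z ^ 3 := by positivity
    have h7 : z ^ 3 * 4096 ≤ z ^ 3 * z := mul_le_mul_of_nonneg_left hz4 h6.le
    have h8 : z ^ 3 * z = z ^ 4 := by ring
    rw [h8] at h7
    linarith
  linarith

lemma est4 (z w : ℝ) (hw : 16 ≤ w) (hz : 16 * w ^ 2 ≤ z) :
    8 * (z ^ 2 * w) ≤ 2 ^ 15 * z ^ 8 := by
  have hz4 : 4096 ≤ z := by nlinarith
  have hz0 : 0 < z := by linarith
  have h3 : w ≤ z := by nlinarith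
  have h4 : (1:ℝ) ≤ z ^ 5 := one_le_pow₀ (by linarith)
  calc 8 * (z ^ 2 * w) ≤ 8 * (z ^ 2 * z) := by
        apply mul_le_mul_of_nonneg_left _ (by norm_num)
        exact mul_le_mul_of_nonneg_left h3 (by positivity)
    _ = 8 * z ^ 3 * 1 := by ring
    _ ≤ 8 * z ^ 3 * z ^ 5 := mul_le_mul_of_nonneg_left h4 (by positivity)
    _ = 8 * z ^ 8 := by ring
    _ ≤ 2 ^ 15 * z ^ 8 := mul_le_mul_of_nonneg_right (by norm_num) (by positivity)

lemma est5 (l x r m E : ℝ) (hr : 2 ≤ r) (hm : 0 < m) (hx : l * x ≤ 8 * (r * m))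
    (hE : r * (r - 1) ≤ 2 * E) : l * x / 32 * (r * m) ≤ m * m * E := by
  have h3 : r * r / 4 ≤ E := by nlinarith
  calc l * x / 32 * (r * m) ≤ (8 * (r * m)) / 32 * (r * m) := by
        apply mul_le_mul_of_nonneg_right _ (by positivity)
        linarith
    _ = m * m * (r * r / 4) := by ring
    _ ≤ m * m * E := mul_le_mul_of_nonneg_left h3 (by positivity)

/-- A lift of a complete graph that is not a minor of some dense graph. -/
theorem lift_core (q N l : ℕ) (hl : 4 ≤ l) (hq : 2 ^ (15 + 8 * l ^ 2) ≤ q) (hN : 1 ≤ N) :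
    ∃ σ : LiftData q N, ∃ n : ℕ, 0 < n ∧ ∃ G : SimpleGraph (Fin n),
      (l:ℝ) * (q * N) / 32 ≤ avgDeg G ∧ ¬ IsMinor (liftGraph σ) G := by
  obtain ⟨w, hw⟩ : ∃ w : ℕ, w = l ^ 2 := ⟨_, rfl⟩
  have hw16 : 16 ≤ w := by rw [hw]; nlinarith
  obtain ⟨Z, hZ⟩ : ∃ Z : ℕ, Z = 2 ^ w := ⟨_, rfl⟩
  have hZw : 16 * w ^ 2 ≤ Z := by rw [hZ]; exact sixteen_sq_le w hw16
  obtain ⟨k, hk⟩ : ∃ k : ℕ, k = Z ^ 2 := ⟨_, rfl⟩
  obtain ⟨r, hr⟩ : ∃ r : ℕ, r = k * w := ⟨_, rfl⟩
  obtain ⟨z, hz⟩ : ∃ z : ℝ, z = (Z:ℝ) := ⟨_, rfl⟩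
  obtain ⟨y, hy⟩ : ∃ y : ℝ, y = (w:ℝ) := ⟨_, rfl⟩
  have hzy : 16 * y ^ 2 ≤ z := by rw [hz, hy]; exact_mod_cast hZw
  have hy16 : 16 ≤ y := by rw [hy]; exact_mod_cast hw16
  have hz4 : 4096 ≤ z := by nlinarith
  have hz0 : 0 < z := by linarith
  have hkr : (k:ℝ) = z ^ 2 := by rw [hk, hz]; push_cast; ring
  have hrr : (r:ℝ) = z ^ 2 * y := by rw [hr, hy]; push_cast; rw [hkr]
  have hlw : l ≤ w := by rw [hw]; nlinarith
  have hlwr : (l:ℝ) ≤ y := by rw [hy]; exact_mod_cast hlw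
  have hq' : 2 ^ 15 * z ^ 8 ≤ (q:ℝ) := by
    have h1 : ((2 ^ (15 + 8 * l ^ 2) : ℕ) : ℝ) ≤ q := by exact_mod_cast hq
    refine le_trans (le_of_eq ?_) h1
    rw [hz, hZ, hw]
    push_cast
    rw [← pow_mul, ← pow_add]
    congr 1
    ring
  -- the auxiliary graph R
  have hcardP : (Fintype.card (PairIdx k) : ℝ) = k * (k - 1) / 2 := by
    have h1 := card_pairIdx k
    have h2 : 2 * (Fintype.card (PairIdx k) : ℝ) + k = k * k := by exact_mod_cast h1
    linarith
  have hhalf : ((1:ℝ) / 2) ^ (l * l) = 1 / z := by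
    rw [hz, hZ, hw, sq]
    push_cast
    rw [one_div_pow]
  have hlog2' : Real.log 2 < (0.7:ℝ) := by
    have := Real.log_two_lt_d9; linarith
  have hnumR : ((k + 1 : ℕ) : ℝ) ^ r *
      Real.exp (-((Fintype.card (PairIdx k) : ℝ) * (1 / 2) ^ (l * l))) < 1 / 2 := by
    have hk1 : (0:ℝ) < ((k + 1 : ℕ) : ℝ) := by positivity
    have h1 : ((k + 1 : ℕ) : ℝ) ^ r = Real.exp (r * Real.log ((k + 1 : ℕ) : ℝ)) := by
      rw [Real.exp_nat_mul, Real.exp_log hk1]
    have h2 : Real.log ((k + 1 : ℕ) : ℝ) ≤ (2 * y + 1) * 0.7 := by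
      have h3 : ((k + 1 : ℕ) : ℝ) ≤ 2 ^ (2 * w + 1) := by
        have : k + 1 ≤ 2 ^ (2 * w + 1) := by
          rw [hk, hZ, ← pow_mul, pow_succ, mul_comm w 2]
          have : 1 ≤ 2 ^ (2 * w) := Nat.one_le_two_pow
          omega
        exact_mod_cast this
      calc Real.log ((k + 1 : ℕ) : ℝ) ≤ Real.log (2 ^ (2 * w + 1)) := Real.log_le_log hk1 h3
        _ = (2 * y + 1) * Real.log 2 := by
            rw [Real.log_pow, hy]; push_cast; ring
        _ ≤ (2 * y + 1) * 0.7 := mul_le_mul_of_nonneg_left hlog2'.le (by linarith)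
    rw [h1, ← Real.exp_add, hhalf, hcardP]
    have h3 : (r:ℝ) * Real.log ((k + 1 : ℕ) : ℝ) ≤ z ^ 2 * y * ((2 * y + 1) * 0.7) := by
      rw [hrr]
      exact mul_le_mul_of_nonneg_left h2 (by positivity)
    have h6 : (k:ℝ) * (k - 1) / 2 * (1 / z) = z ^ 3 / 2 - z / 2 := by
      rw [hkr]; field_simp
    have h7 := est1 z y hy16 hzy
    calc Real.exp (r * Real.log ((k + 1 : ℕ) : ℝ) + -(k * (k - 1) / 2 * (1 / z)))
        ≤ Real.exp (-1) := by
          apply Real.exp_le_exp.mpr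
          rw [h6]
          linarith
      _ < 1 / 2 := by
          have := Real.exp_neg_one_lt_d9
          linarith
  obtain ⟨R, hR1, hR2⟩ := exists_R r k l hnumR
  have hkpos : 1 ≤ k := by
    rw [hk, hZ]
    exact Nat.one_le_pow _ _ (by positivity)
  have hrpos : 1 ≤ r := by
    rw [hr]
    exact Nat.mul_pos hkpos (by omega)
  -- the lift
  obtain ⟨m, hm⟩ : ∃ m : ℕ, m = (l * (q * N)) / (4 * r) := ⟨_, rfl⟩
  have hrm : 4 * (r * m) ≤ l * (q * N) := by
    rw [hm, ← mul_assoc]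
    exact Nat.mul_div_le _ _
  have hkl : 4 * k * l * m ≤ q * N := by
    have h1 : l * (4 * k * l * m) ≤ l * (q * N) := by
      calc l * (4 * k * l * m) = 4 * (r * m) := by rw [hr, hw]; ring
        _ ≤ _ := hrm
    exact Nat.le_of_mul_le_mul_left h1 (by omega)
  have hqk : 32 * k ≤ q := by
    have h1 : (32:ℝ) * k ≤ q := by
      rw [hkr]
      exact (est2 z hz4).trans hq'
    exact_mod_cast h1
  have hnum : (l:ℝ) * Real.log (r + 1) < q / (32768 * k ^ 2) := by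
    have h1 : Real.log ((r:ℝ) + 1) ≤ r := by
      have := Real.log_le_sub_one_of_pos (show (0:ℝ) < (r:ℝ) + 1 by positivity)
      linarith
    have h2 : (l:ℝ) * Real.log (r + 1) ≤ y * (z ^ 2 * y) := by
      rw [← hrr]
      refine mul_le_mul hlwr h1 (Real.log_nonneg ?_) (by linarith)
      have : (0:ℝ) ≤ r := Nat.cast_nonneg r
      linarith
    rw [hkr]
    exact lt_of_le_of_lt h2 (est3 z y q hy16 hzy hq')
  obtain ⟨σ, hσ⟩ := exists_lift q N r k l m R hkpos hR2 hN hqk hkl hnum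
  have hno := host_no_minor q N r l m R σ hσ hrm
  -- size of m
  have hNr : (1:ℝ) ≤ N := by exact_mod_cast hN
  have hq0 : (0:ℝ) ≤ q := Nat.cast_nonneg q
  have hqN : 2 ^ 15 * z ^ 8 ≤ (q:ℝ) * N := by
    have : (q:ℝ) * 1 ≤ q * N := mul_le_mul_of_nonneg_left hNr hq0
    linarith
  have hmlow : (l:ℝ) * (q * N) ≤ 8 * (r * m) := by
    have hx8 : (8:ℝ) * r ≤ l * (q * N) := by
      have h1 : (1:ℝ) ≤ l := by
        have : 1 ≤ l := by omega
        exact_mod_cast this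
      have h2 : (8:ℝ) * r ≤ 2 ^ 15 * z ^ 8 := by
        rw [hrr]; exact est4 z y hy16 hzy
      have h3 : (1:ℝ) * (q * N) ≤ l * (q * N) :=
        mul_le_mul_of_nonneg_right h1 (by positivity)
      linarith
    have h1 : l * (q * N) < 4 * r * (m + 1) := by
      rw [hm]
      exact Nat.lt_mul_div_succ _ (by omega)
    have h2 : (l:ℝ) * (q * N) < 4 * r * (m + 1) := by exact_mod_cast h1
    linarith
  have hr2 : (2:ℝ) ≤ r := by
    rw [hrr]
    have : (1:ℝ) ≤ z ^ 2 := one_le_pow₀ (by linarith)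
    nlinarith
  have hmpos : 0 < m := by
    by_contra h0
    have h1 : m = 0 := by omega
    rw [h1] at hmlow
    have h2 : (0:ℝ) < l * (q * N) := by
      have h3 : (1:ℝ) ≤ l := by
        have : 1 ≤ l := by omega
        exact_mod_cast this
      have h4 : (0:ℝ) < q * N := lt_of_lt_of_le (by positivity) hqN
      nlinarith
    rw [Nat.cast_zero, mul_zero, mul_zero] at hmlow
    linarith
  have e : Fin (r * m) ≃ Fin r × Fin m := finProdFinEquiv.symm
  refine ⟨σ, r * m, Nat.mul_pos hrpos hmpos, (blowup R m).comap e, ?_, ?_⟩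
  · unfold avgDeg
    have hn' : (0:ℝ) < ((r * m : ℕ) : ℝ) := by exact_mod_cast Nat.mul_pos hrpos hmpos
    rw [le_div_iff₀ hn']
    have h1 : (E2 ((blowup R m).comap e) Finset.univ : ℝ)
        = 2 * (((blowup R m).comap e).edgeSet.ncard : ℝ) := by
      exact_mod_cast E2_eq ((blowup R m).comap e)
    rw [← h1, E2_comap, E2_blowup]
    have h2 : ((r * (r - 1) : ℕ) : ℝ) ≤ ((2 * E2 R Finset.univ : ℕ) : ℝ) := by
      exact_mod_cast hR1
    rw [Nat.cast_mul, Nat.cast_sub hrpos, Nat.cast_mul] at h2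
    rw [Nat.cast_mul, Nat.cast_mul, Nat.cast_mul]
    have hm0 : (0:ℝ) < m := by exact_mod_cast hmpos
    exact est5 l (q * N) r m _ hr2 hm0 hmlow (by simpa using h2)
  · intro h
    exact hno (isMinor_of_comap _ e h)

/-- Existence of regular graphs. -/
lemma exists_regular (n d : ℕ) (hd : d < n) (hp : Even (n * d)) :
    ∃ G : SimpleGraph (Fin n), ∀ v, (G.neighborSet v).ncard = d := by
  classical
  -- the connection set as a set of natural numbers
  obtain ⟨A, hA1, hA2, hA3⟩ : ∃ A : Finset ℕ, (∀ x ∈ A, 1 ≤ x ∧ x < n) ∧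
      (∀ x ∈ A, n - x ∈ A) ∧ A.card = d := by
    rcases Nat.even_or_odd' d with ⟨h, hh | hh⟩
    · refine ⟨Finset.Icc 1 h ∪ Finset.Icc (n - h) (n - 1), ?_, ?_, ?_⟩
      · intro x hx
        rw [Finset.mem_union, Finset.mem_Icc, Finset.mem_Icc] at hx
        omega
      · intro x hx
        rw [Finset.mem_union, Finset.mem_Icc, Finset.mem_Icc] at hx ⊢
        omega
      · rw [Finset.card_union_of_disjoint, Nat.card_Icc, Nat.card_Icc]
        · omega
        · rw [Finset.disjoint_left]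
          intro x hx hx'
          rw [Finset.mem_Icc] at hx hx'
          omega
    · have hn : Even n := by
        rw [Nat.even_mul] at hp
        rcases hp with hp | hp
        · exact hp
        · rw [hh] at hp
          exact absurd hp (by simp)
      obtain ⟨g, hg⟩ := hn
      refine ⟨(Finset.Icc 1 h ∪ Finset.Icc (n - h) (n - 1)) ∪ {g}, ?_, ?_, ?_⟩
      · intro x hx
        rw [Finset.mem_union, Finset.mem_union, Finset.mem_Icc, Finset.mem_Icc,
          Finset.mem_singleton] at hx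
        omega
      · intro x hx
        rw [Finset.mem_union, Finset.mem_union, Finset.mem_Icc, Finset.mem_Icc,
          Finset.mem_singleton] at hx ⊢
        omega
      · rw [Finset.card_union_of_disjoint, Finset.card_union_of_disjoint, Nat.card_Icc,
          Nat.card_Icc, Finset.card_singleton]
        · omega
        · rw [Finset.disjoint_left]
          intro x hx hx'
          rw [Finset.mem_Icc] at hx hx'
          omega
        · rw [Finset.disjoint_singleton_right, Finset.mem_union, Finset.mem_Icc, Finset.mem_Icc]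
          omega
  obtain ⟨m, rfl⟩ : ∃ m, n = m + 1 := ⟨n - 1, by omega⟩
  set S : Finset (ZMod (m + 1)) := A.image (fun x : ℕ => (x : ZMod (m + 1))) with hS
  have hinj : ∀ x ∈ A, ∀ y ∈ A, (x : ZMod (m + 1)) = (y : ZMod (m + 1)) → x = y := by
    intro x hx y hy h
    rw [ZMod.natCast_eq_natCast_iff'] at h
    rwa [Nat.mod_eq_of_lt (hA1 x hx).2, Nat.mod_eq_of_lt (hA1 y hy).2] at h
  have hSc : S.card = d := by
    rw [hS, Finset.card_image_of_injOn (fun x hx y hy h => hinj x hx y hy h), hA3]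
  have hSneg : ∀ x ∈ S, -x ∈ S := by
    intro x hx
    rw [hS, Finset.mem_image] at hx ⊢
    obtain ⟨a, ha, rfl⟩ := hx
    refine ⟨m + 1 - a, hA2 a ha, ?_⟩
    rw [Nat.cast_sub (hA1 a ha).2.le]
    simp
  have hS0 : (0 : ZMod (m + 1)) ∉ S := by
    intro h
    rw [hS, Finset.mem_image] at h
    obtain ⟨a, ha, h⟩ := h
    rw [ZMod.natCast_eq_zero_iff] at h
    have h1 := hA1 a ha
    exact absurd (Nat.le_of_dvd (by omega) h) (by omega)
  let G : SimpleGraph (ZMod (m + 1)) :=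
    { Adj := fun u v => v - u ∈ S
      symm := ⟨fun u v h => by
        have := hSneg _ h
        rwa [neg_sub] at this⟩
      loopless := ⟨fun u h => by
        rw [sub_self] at h
        exact hS0 h⟩ }
  have hG : ∀ v, (G.neighborSet v).ncard = d := by
    intro v
    have h1 : G.neighborSet v = (fun x => v + x) '' (S : Set (ZMod (m + 1))) := by
      ext y
      rw [SimpleGraph.mem_neighborSet, Set.mem_image]
      constructor
      · intro h
        exact ⟨y - v, h, by ring⟩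
      · rintro ⟨x, hx, rfl⟩
        show v + x - v ∈ S
        rwa [add_sub_cancel_left]
    rw [h1, Set.ncard_image_of_injective _ (add_right_injective v), Set.ncard_coe_finset, hSc]
  exact ⟨G, hG⟩

end Pool.Agent.H56.Minor
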