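import Mathlib
import Pool.Agent.H56.Minor1
import Pool.Agent.H56.Count1
import Pool.Agent.H56.Lower1
import Pool.Agent.H56.Main1
import Pool.Agent.H56.Perm1
import Pool.Agent.H56.Lift1
import Pool.Agent.H56.Host1
import Pool.Agent.H56.Reg1

set_option autoImplicit false
set_option linter.unusedSectionVars false

namespace Pool.Agent.H56.Minor

open Finset

lemma liftGraph_regular {q N : ℕ} (σ : LiftData q N) (u : Fin q × Fin N) :
    ((liftGraph σ).neighborSet u).ncard = q - 1 := by
  classical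
  -- the neighbour in the part p
  set f : Fin q → Fin q × Fin N := fun p =>
    if h : u.1 < p then (p, σ ⟨(u.1, p), h⟩ u.2)
    else if h : p < u.1 then (p, (σ ⟨(p, u.1), h⟩).symm u.2) else (p, u.2) with hf
  have hf1 : ∀ p, (f p).1 = p := by
    intro p
    simp only [hf]
    split_ifs <;> rfl
  have h1 : (liftGraph σ).neighborSet u = f '' ((Finset.univ.erase u.1 : Finset (Fin q)) : Set (Fin q)) := by
    ext v
    rw [SimpleGraph.mem_neighborSet, Set.mem_image]
    constructor
    · rintro (⟨h, hv⟩ | ⟨h, hv⟩)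
      · refine ⟨v.1, ?_, ?_⟩
        · simp only [Finset.coe_erase, Finset.coe_univ, Set.mem_sdiff, Set.mem_univ,
            Set.mem_singleton_iff, true_and]
          exact (ne_of_lt h).symm
        · simp only [hf]
          rw [dif_pos h, hv]
      · refine ⟨v.1, ?_, ?_⟩
        · simp only [Finset.coe_erase, Finset.coe_univ, Set.mem_sdiff, Set.mem_univ,
            Set.mem_singleton_iff, true_and]
          exact ne_of_lt h
        · simp only [hf]
          rw [dif_neg (lt_asymm h), dif_pos h, ← hv, Equiv.symm_apply_apply]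
    · rintro ⟨p, hp, rfl⟩
      simp only [Finset.coe_erase, Finset.coe_univ, Set.mem_sdiff, Set.mem_univ,
        Set.mem_singleton_iff, true_and] at hp
      rcases lt_or_gt_of_ne hp with h | h
      · right
        have e1 : f p = (p, (σ ⟨(p, u.1), h⟩).symm u.2) := by
          simp only [hf]
          rw [dif_neg (lt_asymm h), dif_pos h]
        rw [e1]
        exact ⟨h, Equiv.apply_symm_apply _ _⟩
      · left
        have e1 : f p = (p, σ ⟨(u.1, p), h⟩ u.2) := by
          simp only [hf]
          rw [dif_pos h]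
        rw [e1]
        exact ⟨h, rfl⟩
  have hinj : Function.Injective f := by
    intro p p' h
    rw [← hf1 p, ← hf1 p', h]
  rw [h1, Set.ncard_image_of_injective _ hinj, Set.ncard_coe_finset,
    Finset.card_erase_of_mem (Finset.mem_univ _), Finset.card_univ, Fintype.card_fin]

lemma ncard_neighborSet_comap {V W : Type} (G : SimpleGraph W) (e : V ≃ W) (v : V) :
    ((G.comap e).neighborSet v).ncard = (G.neighborSet (e v)).ncard := by
  have h : G.neighborSet (e v) = e '' ((G.comap e).neighborSet v) := by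
    ext y
    rw [SimpleGraph.mem_neighborSet, Set.mem_image]
    constructor
    · intro h
      exact ⟨e.symm y, by
        rw [SimpleGraph.mem_neighborSet, SimpleGraph.comap_adj, Equiv.apply_symm_apply]
        exact h, e.apply_symm_apply y⟩
    · rintro ⟨x, hx, rfl⟩
      exact hx
  rw [h, Set.ncard_image_of_injective _ e.injective]

lemma ncard_neighborSet_sum {V W : Type} (G : SimpleGraph V) (H : SimpleGraph W) (d : ℕ)
    (hG : ∀ v, (G.neighborSet v).ncard = d) (hH : ∀ v, (H.neighborSet v).ncard = d) :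
    ∀ v, ((G.sum H).neighborSet v).ncard = d := by
  rintro (v | v)
  · have h : (G.sum H).neighborSet (Sum.inl v) = Sum.inl '' (G.neighborSet v) := by
      ext (y | y)
      · simp
      · simp
    rw [h, Set.ncard_image_of_injective _ Sum.inl_injective, hG]
  · have h : (G.sum H).neighborSet (Sum.inr v) = Sum.inr '' (H.neighborSet v) := by
      ext (y | y)
      · simp
      · simp
    rw [h, Set.ncard_image_of_injective _ Sum.inr_injective, hH]

theorem lower_regular (d t : ℕ) (hd : 400 ≤ Real.log d) (hdt : 2 * d + 2 ≤ t)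
    (hp : Even (t * d)) :
    ∃ H₀ : SimpleGraph (Fin t), (∀ v, (H₀.neighborSet v).ncard = d) ∧
      ∃ n : ℕ, 0 < n ∧ ∃ G : SimpleGraph (Fin n),
        (t:ℝ) * Real.sqrt (Real.log d) / 480 ≤ avgDeg G ∧
        ∀ s : ℕ, ¬ IsMinor (addDominant H₀ s) G := by
  have hd0 : 0 < d := by
    by_contra h
    have : d = 0 := by omega
    rw [this] at hd
    norm_num at hd
  have hdr : (0:ℝ) < d := by exact_mod_cast hd0
  obtain ⟨u, hu⟩ : ∃ u : ℝ, u = Real.sqrt (Real.log d) := ⟨_, rfl⟩
  have hu2 : u ^ 2 = Real.log d := by rw [hu]; exact Real.sq_sqrt (by linarith)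
  have hu20 : 20 ≤ u := by
    rw [hu]; apply Real.le_sqrt_of_sq_le; norm_num; exact hd
  obtain ⟨l, hl⟩ : ∃ l : ℕ, l = ⌊u / 4⌋₊ := ⟨_, rfl⟩
  have hl1 : (l:ℝ) ≤ u / 4 := by rw [hl]; exact Nat.floor_le (by linarith)
  have hl2 : u / 4 < l + 1 := by rw [hl]; exact Nat.lt_floor_add_one _
  have hl4 : 4 ≤ l := by
    have : (4:ℝ) ≤ l := by linarith
    exact_mod_cast this
  have hlu : u / 5 ≤ l := by linarith
  obtain ⟨q, hq⟩ : ∃ q : ℕ, q = d + 1 := ⟨_, rfl⟩
  have hqbig : 2 ^ (15 + 8 * l ^ 2) ≤ q := by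
    have h1 : ((2:ℝ) ^ (15 + 8 * l ^ 2)) ≤ d := by
      rw [← Real.log_le_log_iff (by positivity) hdr, Real.log_pow]
      push_cast
      have hlog2' : Real.log 2 < (0.7:ℝ) := by
        have := Real.log_two_lt_d9; linarith
      have hl2 : (l:ℝ) ^ 2 ≤ u ^ 2 / 16 := by
        calc (l:ℝ) ^ 2 ≤ (u / 4) ^ 2 := pow_le_pow_left₀ (by positivity) hl1 2
          _ = u ^ 2 / 16 := by ring
      have h2 : (15 + 8 * (l:ℝ) ^ 2) * Real.log 2 ≤ (15 + 8 * (l:ℝ) ^ 2) * 0.7 :=
        mul_le_mul_of_nonneg_left hlog2'.le (by positivity)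
      rw [← hu2]
      rw [← hu2] at hd
      linarith
    have h2 : 2 ^ (15 + 8 * l ^ 2) ≤ d := by exact_mod_cast h1
    omega
  obtain ⟨N, hN⟩ : ∃ N : ℕ, N = t / q - 1 := ⟨_, rfl⟩
  have hq0 : 0 < q := by omega
  have htq2 : 2 ≤ t / q := by
    rw [Nat.le_div_iff_mul_le hq0]; omega
  have hN1 : 1 ≤ N := by omega
  have hdiv := Nat.div_add_mod t q
  have hmod := Nat.mod_lt t hq0
  obtain ⟨r, hr⟩ : ∃ r : ℕ, r = q + t % q := ⟨_, rfl⟩
  have htN : t = q * N + r := by
    have h1 : t / q = N + 1 := by omega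
    rw [h1] at hdiv
    have h2 : q * (N + 1) = q * N + q := by ring
    omega
  have hdr' : d < r := by omega
  have hpr : Even (r * d) := by
    have h1 : t * d = q * N * d + r * d := by rw [htN]; ring
    have h2 : Even (q * N * d) := by
      have h3 : q * N * d = (d * (d + 1)) * N := by rw [hq]; ring
      rw [h3]
      exact (Nat.even_mul_succ_self d).mul_right N
    rw [h1, Nat.even_add] at hp
    exact hp.mp h2
  obtain ⟨X, hX⟩ := exists_regular r d hdr' hpr
  obtain ⟨σ, n, hn, G, hG1, hG2⟩ := lift_core q N l hl4 hqbig hN1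
  have hcard : Fintype.card (Fin t) = Fintype.card ((Fin q × Fin N) ⊕ Fin r) := by
    rw [Fintype.card_sum, Fintype.card_prod, Fintype.card_fin, Fintype.card_fin,
      Fintype.card_fin, Fintype.card_fin]
    exact htN
  obtain ⟨e⟩ : Nonempty (Fin t ≃ (Fin q × Fin N) ⊕ Fin r) := ⟨Fintype.equivOfCardEq hcard⟩
  refine ⟨((liftGraph σ).sum X).comap e, ?_, n, hn, G, ?_, ?_⟩
  · intro v
    rw [ncard_neighborSet_comap]
    apply ncard_neighborSet_sum
    · intro w
      rw [liftGraph_regular, hq]
      rfl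
    · exact hX
  · have h1 : (t:ℝ) ≤ 3 * (q * N) := by
      have h2 : t ≤ 3 * (q * N) := by
        have h3 : r < 2 * q := by omega
        have h4 : q * 1 ≤ q * N := Nat.mul_le_mul_left _ hN1
        omega
      exact_mod_cast h2
    refine le_trans ?_ hG1
    rw [← hu]
    have h2 : (t:ℝ) * u ≤ (3 * (q * N)) * (5 * l) := by
      apply mul_le_mul h1 (by linarith) (by linarith) (by positivity)
    have h3 : ((3 * (q * N)) * (5 * l) : ℝ) = 15 * (l * (q * N)) := by ring
    rw [h3] at h2
    linarith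
  · intro s hs
    apply hG2
    refine isMinor_of_hom (fun a => Sum.inl (e.symm (Sum.inl a))) ?_ ?_ hs
    · intro a b h
      have := Sum.inl_injective h
      exact Sum.inl_injective (e.symm.injective this)
    · intro a b hab
      refine ⟨?_, ?_⟩
      · intro h
        have h1 := Sum.inl_injective (e.symm.injective (Sum.inl_injective h))
        exact hab.ne h1
      · intro u v hu hv
        have hu' := Sum.inl_injective hu
        have hv' := Sum.inl_injective hv
        rw [← hu', ← hv', SimpleGraph.comap_adj, Equiv.apply_symm_apply, Equiv.apply_symm_apply]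
        simpa using hab

lemma avgDeg_top (n : ℕ) (hn : 0 < n) : avgDeg (⊤ : SimpleGraph (Fin n)) = n - 1 := by
  classical
  have h1 : E2 (⊤ : SimpleGraph (Fin n)) Finset.univ = n * (n - 1) := by
    unfold E2
    rw [Finset.sum_congr rfl (g := fun _ => n - 1)]
    · simp
    · intro x _
      unfold dg
      trans (Finset.univ.erase x).card
      · congr 1
        ext y
        simp [eq_comm]
      · rw [Finset.card_erase_of_mem (Finset.mem_univ _), Finset.card_univ, Fintype.card_fin]
  have h2 := E2_eq (⊤ : SimpleGraph (Fin n))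
  rw [h1] at h2
  unfold avgDeg
  have h3 : ((n * (n - 1) : ℕ) : ℝ) = 2 * ((⊤ : SimpleGraph (Fin n)).edgeSet.ncard : ℝ) := by
    exact_mod_cast h2
  rw [← h3, Nat.cast_mul, Nat.cast_sub hn]
  have hn' : (0:ℝ) < n := by exact_mod_cast hn
  field_simp
  simp

/-- The main theorem. -/
theorem main :
    ∃ c C : ℝ, 0 < c ∧ 0 < C ∧ ∃ d₀ : ℕ, ∀ d s t : ℕ, d₀ ≤ d → d ≤ s → s ≤ t → 2 * d + 2 ≤ t →
      (∀ H₀ : SimpleGraph (Fin t), (∀ v, (H₀.neighborSet v).ncard = d) →
        c * (t + Real.sqrt (s * t * Real.log s)) ≤ threshold (addDominant H₀ s) ∧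
        threshold (addDominant H₀ s)
          ≤ C * (Real.sqrt (Real.log d) * t + Real.sqrt (s * t * Real.log s))) ∧
      (Even (t * d) → ∃ H₀ : SimpleGraph (Fin t), (∀ v, (H₀.neighborSet v).ncard = d) ∧
        c * (Real.sqrt (Real.log d) * t + Real.sqrt (s * t * Real.log s))
          ≤ threshold (addDominant H₀ s)) := by
  classical
  refine ⟨1 / 960, 9600, by norm_num, by norm_num, ⌈Real.exp 400⌉₊ + 10 ^ 6, ?_⟩
  intro d s t hd hds hst hdt
  have ht6 : 10 ^ 6 ≤ t := ((Nat.le_add_left _ _).trans hd).trans (hds.trans hst)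
  have hlogd : 400 ≤ Real.log d := by
    have h1 : Real.exp 400 ≤ d := by
      calc Real.exp 400 ≤ (⌈Real.exp 400⌉₊ : ℝ) := Nat.le_ceil _
        _ ≤ d := by
            have : ⌈Real.exp 400⌉₊ ≤ d := (Nat.le_add_right _ _).trans hd
            exact_mod_cast this
    rw [Real.le_log_iff_exp_le (lt_of_lt_of_le (Real.exp_pos _) h1)]
    exact h1
  have hd2 : 2 ≤ d := by
    have h1 : 10 ^ 6 ≤ d := (Nat.le_add_left _ _).trans hd
    exact le_trans (by norm_num) h1
  clear hd
  have hdeg : ∀ H₀ : SimpleGraph (Fin t), (∀ v, (H₀.neighborSet v).ncard = d) →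
      ∀ v, (Finset.univ.filter (H₀.Adj v)).card ≤ d := by
    intro H₀ h v
    rw [← h v]
    have : H₀.neighborSet v = ((Finset.univ.filter (H₀.Adj v) : Finset (Fin t)) : Set (Fin t)) := by
      ext y; simp
    rw [this, Set.ncard_coe_finset]
  obtain ⟨n, hn, G, hG1, hG2⟩ := threshold_lower s t (by omega) hst ht6
  have hgen : ∀ H₀ : SimpleGraph (Fin t), (∀ v, (H₀.neighborSet v).ncard = d) →
      Real.sqrt (s * t * Real.log s) / 16 ≤ threshold (addDominant H₀ s) ∧
      (t:ℝ) ≤ threshold (addDominant H₀ s) := by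
    intro H₀ h
    have hne := (threshold_upper d s t (by omega) (by omega) hst H₀ (hdeg H₀ h)).1
    refine ⟨hG1.trans (le_threshold _ hn G (hG2 H₀) hne), ?_⟩
    have h1 : ¬ IsMinor (addDominant H₀ s) (⊤ : SimpleGraph (Fin (t + s - 1))) := by
      intro h2
      have := card_le_of_isMinor h2
      rw [Fintype.card_sum, Fintype.card_fin, Fintype.card_fin] at this
      omega
    have h2 := le_threshold _ (show 0 < t + s - 1 by omega) _ h1 hne
    rw [avgDeg_top _ (by omega)] at h2
    refine le_trans ?_ h2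
    rw [Nat.cast_sub (by omega)]
    push_cast
    have : (2:ℝ) ≤ s := by
      have : 2 ≤ s := by omega
      exact_mod_cast this
    linarith
  have hX0 : 0 ≤ Real.sqrt (s * t * Real.log s) := Real.sqrt_nonneg _
  have ht0 : (0:ℝ) ≤ t := Nat.cast_nonneg t
  refine ⟨fun H₀ h => ⟨?_, ?_⟩, fun hev => ?_⟩
  · obtain ⟨h1, h2⟩ := hgen H₀ h
    linarith
  · exact (threshold_upper d s t (by omega) (by omega) hst H₀ (hdeg H₀ h)).2
  · obtain ⟨H₀, h1, n', hn', G', hG1', hG2'⟩ := lower_regular d t hlogd hdt hev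
    refine ⟨H₀, h1, ?_⟩
    have hne := (threshold_upper d s t (by omega) (by omega) hst H₀ (hdeg H₀ h1)).1
    have h2 := hG1'.trans (le_threshold _ hn' G' (hG2' s) hne)
    have h3 := (hgen H₀ h1).1
    have h4 : (t:ℝ) * Real.sqrt (Real.log d) = Real.sqrt (Real.log d) * t := mul_comm _ _
    rw [h4] at h2
    linarith

end Pool.Agent.H56.Minor
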