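import Mathlib
import Pool.Agent.H56.MinorDefs
import Pool.Agent.H56.Minor1
import Pool.Agent.H56.Count1
import Pool.Agent.H56.Lower1
import Pool.Agent.H56.Main1
import Pool.Agent.H56.Host1

set_option autoImplicit false
set_option linter.unusedSectionVars false

namespace Pool.Agent.H56.Minor

open Finset

/-- Counting lower bound for an arbitrary regular graph. -/
theorem lower_all_core (d t n K : ℕ) (ht : 1 ≤ t) (hn : 1 ≤ n)
    (hK : 4 * n ^ 2 ≤ K * (t * t))
    (hnum : ((t + 1 : ℕ) : ℝ) ^ n * Real.exp (-(((t:ℝ) * d) / 4 * (1 / 2) ^ K)) < 1 / 2)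
    (H₀ : SimpleGraph (Fin t)) (hreg : ∀ v, (H₀.neighborSet v).ncard = d) :
    ∃ G : SimpleGraph (Fin n), ((n:ℝ) - 1) / 2 ≤ avgDeg G ∧ ¬ IsMinor H₀ G := by
  classical
  set M := Fin n → Option (Fin t)
  set cl : M → Fin t → Finset (Fin n) := fun μ x =>
    Finset.univ.filter (fun u => μ u = some x) with hcl
  have hcldisj : ∀ (μ : M) x y, x ≠ y → Disjoint (cl μ x) (cl μ y) := by
    intro μ x y hxy
    rw [Finset.disjoint_left]
    intro u hu hu'
    simp only [hcl, Finset.mem_filter, Finset.mem_univ, true_and] at hu hu'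
    rw [hu] at hu'
    exact hxy (Option.some.inj hu')
  set P := {p : Fin t × Fin t // p.1 < p.2 ∧ H₀.Adj p.1 p.2} with hP
  set F : M → P → Finset (Sym2 (Fin n)) := fun μ p =>
    ((cl μ p.1.1) ×ˢ (cl μ p.1.2)).image (fun x => s(x.1, x.2)) with hFdef
  have hF : ∀ μ, ∀ p q, p ≠ q → Disjoint (F μ p) (F μ q) := by
    intro μ p q hpq
    rw [Finset.disjoint_left]
    intro e he he'
    simp only [hFdef, Finset.mem_image, Finset.mem_product, hcl, Finset.mem_filter,
      Finset.mem_univ, true_and, Prod.exists] at he he'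
    obtain ⟨u, v, ⟨hu, hv⟩, rfl⟩ := he
    obtain ⟨u', v', ⟨hu', hv'⟩, h⟩ := he'
    rw [Sym2.eq_iff] at h
    rcases h with ⟨rfl, rfl⟩ | ⟨rfl, rfl⟩
    · rw [hu] at hu'
      rw [hv] at hv'
      have e1 := Option.some.inj hu'
      have e2 := Option.some.inj hv'
      apply hpq
      exact Subtype.ext (Prod.ext e1 e2)
    · rw [hv] at hu'
      rw [hu] at hv'
      have e1 := Option.some.inj hu'
      have e2 := Option.some.inj hv'
      have h3 := p.2.1
      have h4 := q.2.1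
      rw [e1, e2] at h3
      exact absurd h3 (lt_asymm h4)
  have hlam : ∀ μ, ((t:ℝ) * d) / 4 * (1 / 2) ^ K ≤ ∑ p, (1 / 2 : ℝ) ^ (F μ p).card := by
    intro μ
    set c : Fin t → ℕ := fun x => (cl μ x).card with hc
    have hsum : ∑ x, c x ≤ n := by
      rw [hc, ← Finset.card_biUnion (fun x _ y _ hxy => hcldisj μ x y hxy)]
      calc _ ≤ (Finset.univ : Finset (Fin n)).card := Finset.card_le_card (Finset.subset_univ _)
        _ = n := by simp
    -- darts
    set D : Finset (Fin t × Fin t) := Finset.univ.filter (fun p => H₀.Adj p.1 p.2) with hD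
    have hdeg : ∀ u, (Finset.univ.filter (fun v => H₀.Adj u v)).card = d := by
      intro u
      rw [← hreg u]
      have : H₀.neighborSet u = ((Finset.univ.filter (H₀.Adj u) : Finset (Fin t)) : Set (Fin t)) := by
        ext y; simp
      rw [this, Set.ncard_coe_finset]
    have hsumD : ∀ g : Fin t → ℕ, ∑ p ∈ D, g p.1 = d * ∑ u, g u := by
      intro g
      rw [hD, Finset.sum_filter, Fintype.sum_prod_type, Finset.mul_sum]
      refine Finset.sum_congr rfl (fun u _ => ?_)
      rw [← Finset.sum_filter]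
      simp only
      rw [Finset.sum_const, hdeg, smul_eq_mul]
    have hswap : ∀ g : Fin t → ℕ, ∑ p ∈ D, g p.2 = ∑ p ∈ D, g p.1 := by
      intro g
      refine Finset.sum_nbij' (fun p => (p.2, p.1)) (fun p => (p.2, p.1)) ?_ ?_ ?_ ?_ ?_
      · intro p hp
        rw [hD, Finset.mem_filter] at hp ⊢
        exact ⟨Finset.mem_univ _, hp.2.symm⟩
      · intro p hp
        rw [hD, Finset.mem_filter] at hp ⊢
        exact ⟨Finset.mem_univ _, hp.2.symm⟩
      · intro p _; rfl
      · intro p _; rfl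
      · intro p _; rfl
    have hDc : D.card = t * d := by
      have := hsumD (fun _ => 1)
      simp only [Finset.sum_const, smul_eq_mul, mul_one, Finset.card_univ, Fintype.card_fin] at this
      rw [this, mul_comm]
    have hDsum : ∑ p ∈ D, (c p.1 + c p.2) ≤ 2 * d * n := by
      rw [Finset.sum_add_distrib, hswap, hsumD]
      have : d * ∑ u, c u ≤ d * n := Nat.mul_le_mul_left _ hsum
      linarith
    set Dg := D.filter (fun p => t * (c p.1 + c p.2) ≤ 4 * n) with hDg
    have hgood : t * d ≤ 2 * Dg.card := by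
      have h1 := Finset.card_filter_add_card_filter_not (s := D)
        (fun p => t * (c p.1 + c p.2) ≤ 4 * n)
      rw [hDc] at h1
      set B := D.filter (fun p => ¬ (t * (c p.1 + c p.2) ≤ 4 * n)) with hB
      have h2 : B.card * (4 * n) ≤ t * (2 * d * n) := by
        calc B.card * (4 * n) = ∑ _p ∈ B, 4 * n := by rw [Finset.sum_const, smul_eq_mul]
          _ ≤ ∑ p ∈ B, t * (c p.1 + c p.2) := by
              refine Finset.sum_le_sum (fun p hp => ?_)
              rw [hB, Finset.mem_filter] at hp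
              omega
          _ ≤ ∑ p ∈ D, t * (c p.1 + c p.2) :=
              Finset.sum_le_sum_of_subset (Finset.filter_subset _ _)
          _ = t * ∑ p ∈ D, (c p.1 + c p.2) := by rw [Finset.mul_sum]
          _ ≤ _ := Nat.mul_le_mul_left _ hDsum
      have h3 : 2 * B.card ≤ t * d := by
        have : (2 * n) * (2 * B.card) ≤ (2 * n) * (t * d) := by linarith
        exact Nat.le_of_mul_le_mul_left this (by omega)
      rw [hDg]
      omega
    -- sums over `P` and over darts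
    have hPD : ∑ p ∈ D, (1 / 2 : ℝ) ^ (c p.1 * c p.2)
        = 2 * ∑ p : P, (1 / 2 : ℝ) ^ (c p.1.1 * c p.1.2) := by
      have h1 : ∑ p ∈ D, (1 / 2 : ℝ) ^ (c p.1 * c p.2)
          = ∑ p ∈ D.filter (fun p => p.1 < p.2), (1 / 2 : ℝ) ^ (c p.1 * c p.2)
            + ∑ p ∈ D.filter (fun p => ¬ p.1 < p.2), (1 / 2 : ℝ) ^ (c p.1 * c p.2) :=
        (Finset.sum_filter_add_sum_filter_not _ _ _).symm
      have h2 : ∑ p ∈ D.filter (fun p => ¬ p.1 < p.2), (1 / 2 : ℝ) ^ (c p.1 * c p.2)
          = ∑ p ∈ D.filter (fun p => p.1 < p.2), (1 / 2 : ℝ) ^ (c p.1 * c p.2) := by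
        refine Finset.sum_nbij' (fun p => (p.2, p.1)) (fun p => (p.2, p.1)) ?_ ?_ ?_ ?_ ?_
        · intro p hp
          rw [Finset.mem_filter, hD, Finset.mem_filter] at hp ⊢
          refine ⟨⟨Finset.mem_univ _, hp.1.2.symm⟩, ?_⟩
          have := hp.1.2.ne
          exact lt_of_le_of_ne (not_lt.mp hp.2) this.symm
        · intro p hp
          rw [Finset.mem_filter, hD, Finset.mem_filter] at hp ⊢
          exact ⟨⟨Finset.mem_univ _, hp.1.2.symm⟩, lt_asymm hp.2⟩
        · intro p _; rfl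
        · intro p _; rfl
        · intro p _
          rw [mul_comm]
      have h3 : ∑ p : P, (1 / 2 : ℝ) ^ (c p.1.1 * c p.1.2)
          = ∑ p ∈ D.filter (fun p => p.1 < p.2), (1 / 2 : ℝ) ^ (c p.1 * c p.2) := by
        symm
        apply Finset.sum_subtype
        intro p
        rw [Finset.mem_filter, hD, Finset.mem_filter]
        simp only [Finset.mem_univ, true_and]
        exact and_comm
      rw [h1, h2, h3]; ring
    have hle : ∀ p : P, (1 / 2 : ℝ) ^ (c p.1.1 * c p.1.2) ≤ (1 / 2 : ℝ) ^ (F μ p).card := by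
      intro p
      apply pow_le_pow_of_le_one (by norm_num) (by norm_num)
      rw [hc]
      simp only
      rw [← Finset.card_product]
      exact Finset.card_image_le
    have hgood' : ∀ p ∈ Dg, (1 / 2 : ℝ) ^ K ≤ (1 / 2 : ℝ) ^ (c p.1 * c p.2) := by
      intro p hp
      rw [hDg, Finset.mem_filter] at hp
      apply pow_le_pow_of_le_one (by norm_num) (by norm_num)
      have h1 : (t * t) * (c p.1 * c p.2) ≤ (t * t) * K := by
        have h2 : 4 * (c p.1 * c p.2) ≤ (c p.1 + c p.2) * (c p.1 + c p.2) := by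
          zify
          nlinarith [sq_nonneg ((c p.1 : ℤ) - c p.2)]
        have h3 : (t * (c p.1 + c p.2)) * (t * (c p.1 + c p.2)) ≤ (4 * n) * (4 * n) :=
          Nat.mul_le_mul hp.2 hp.2
        have h4 : (t * t) * (4 * (c p.1 * c p.2)) ≤ (t * t) * ((c p.1 + c p.2) * (c p.1 + c p.2)) :=
          Nat.mul_le_mul_left _ h2
        nlinarith
      exact Nat.le_of_mul_le_mul_left h1 (Nat.mul_pos ht ht)
    have hcast : (t:ℝ) * d ≤ 2 * (Dg.card : ℝ) := by exact_mod_cast hgood
    have h5 : (Dg.card : ℝ) * (1 / 2) ^ K ≤ ∑ p ∈ D, (1 / 2 : ℝ) ^ (c p.1 * c p.2) := by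
      rw [← nsmul_eq_mul, ← Finset.sum_const]
      refine (Finset.sum_le_sum hgood').trans ?_
      exact Finset.sum_le_sum_of_subset_of_nonneg (Finset.filter_subset _ _)
        (fun _ _ _ => by positivity)
    have h6 : ∑ p : P, (1 / 2 : ℝ) ^ (c p.1.1 * c p.1.2) ≤ ∑ p, (1 / 2 : ℝ) ^ (F μ p).card :=
      Finset.sum_le_sum (fun p _ => hle p)
    have h7 : ((t:ℝ) * d) / 4 * (1 / 2) ^ K ≤ (Dg.card : ℝ) / 2 * (1 / 2) ^ K := by
      apply mul_le_mul_of_nonneg_right _ (by positivity)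
      linarith
    rw [hPD] at h5
    linarith
  have hcard : (Fintype.card M : ℝ) = ((t + 1 : ℕ) : ℝ) ^ n := by
    rw [Fintype.card_fun, Fintype.card_option, Fintype.card_fin, Fintype.card_fin]
    push_cast
    rfl
  obtain ⟨ε, hε1, hε2⟩ := exists_graph n F hF _ hlam (by rw [hcard]; exact hnum)
  refine ⟨gr ε, ?_, ?_⟩
  · unfold avgDeg
    have hn' : (0:ℝ) < n := by exact_mod_cast hn
    rw [le_div_iff₀ hn']
    have h1 : (E2 (gr ε) Finset.univ : ℝ) = 2 * ((gr ε).edgeSet.ncard : ℝ) := by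
      exact_mod_cast E2_eq (gr ε)
    have h2 : ((n * (n - 1) : ℕ) : ℝ) ≤ ((2 * E2 (gr ε) Finset.univ : ℕ) : ℝ) := by
      exact_mod_cast hε1
    rw [Nat.cast_mul, Nat.cast_sub hn] at h2
    push_cast at h2
    rw [← h1]
    linarith
  · rintro ⟨φ, h1, h2, h3⟩
    set μ : M := fun u => if h : ∃ x, u ∈ φ x then some h.choose else none with hμ
    have hμφ : ∀ u x, u ∈ φ x → μ u = some x := by
      intro u x hux
      have hex : ∃ x, u ∈ φ x := ⟨x, hux⟩
      have h4 : μ u = some hex.choose := by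
        rw [hμ]; simp only; rw [dif_pos hex]
      rw [h4]
      congr 1
      by_contra hne
      exact Set.disjoint_left.mp (h2 _ _ hne) hex.choose_spec hux
    obtain ⟨p, hp⟩ := hε2 μ
    obtain ⟨u, hu, v, hv, huv⟩ := h3 p.1.1 p.1.2 p.2.2
    have hmem : s(u, v) ∈ F μ p := by
      simp only [hFdef, Finset.mem_image, Finset.mem_product, hcl, Finset.mem_filter,
        Finset.mem_univ, true_and, Prod.exists]
      exact ⟨u, v, ⟨hμφ u _ hu, hμφ v _ hv⟩, rfl⟩
    have h5 := hp _ hmem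
    have h6 : ε s(u, v) = true := huv.2
    rw [h5] at h6
    exact absurd h6 (by simp)

/-- Lower bound for every regular graph. -/
theorem lower_all (d t : ℕ) (ht : 10 ^ 6 ≤ t) (H₀ : SimpleGraph (Fin t))
    (hreg : ∀ v, (H₀.neighborSet v).ncard = d)
    (hL : 3 ≤ Real.sqrt (Real.log (2 + d / Real.log t))) :
    ∃ n : ℕ, 0 < n ∧ ∃ G : SimpleGraph (Fin n),
      Real.sqrt (Real.log (2 + d / Real.log t)) * t / 32 ≤ avgDeg G ∧ ¬ IsMinor H₀ G := by
  obtain ⟨L, hLdef⟩ : ∃ L : ℝ, L = Real.sqrt (Real.log (2 + d / Real.log t)) := ⟨_, rfl⟩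
  rw [← hLdef] at hL ⊢
  have ht' : (10:ℝ) ^ 6 ≤ t := by exact_mod_cast ht
  have ht0 : (0:ℝ) < t := by linarith
  have hlt1 : 1 ≤ Real.log t := by
    rw [Real.le_log_iff_exp_le ht0]
    have := Real.exp_one_lt_d9
    linarith
  have hlt0 : 0 < Real.log t := by linarith
  have hx0 : 0 ≤ (d:ℝ) / Real.log t := by positivity
  have hL2 : L ^ 2 = Real.log (2 + d / Real.log t) := by
    rw [hLdef]
    exact Real.sq_sqrt (Real.log_nonneg (by linarith))
  have hexpL : Real.exp (L ^ 2) = 2 + d / Real.log t := by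
    rw [hL2, Real.exp_log (by linarith)]
  obtain ⟨n, hn⟩ : ∃ n : ℕ, n = ⌊L * t / 8⌋₊ := ⟨_, rfl⟩
  obtain ⟨K, hK⟩ : ∃ K : ℕ, K = ⌊L ^ 2 / 16⌋₊ + 1 := ⟨_, rfl⟩
  have hn1 : (n:ℝ) ≤ L * t / 8 := by rw [hn]; exact Nat.floor_le (by positivity)
  have hn2 : L * t / 8 < n + 1 := by rw [hn]; exact Nat.lt_floor_add_one _
  have hLt : 3 * 10 ^ 6 ≤ L * t := mul_le_mul hL ht' (by norm_num) (by linarith)
  have hnpos : 1 ≤ n := by
    have : (1:ℝ) ≤ n := by linarith
    exact_mod_cast this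
  have hK1 : L ^ 2 / 16 ≤ (K:ℝ) := by
    rw [hK]; push_cast
    exact (Nat.lt_floor_add_one _).le
  have hK2 : (K:ℝ) ≤ L ^ 2 / 16 + 1 := by
    rw [hK]; push_cast
    have := Nat.floor_le (show 0 ≤ L ^ 2 / 16 by positivity)
    linarith
  have hlog2' : Real.log 2 < (0.7:ℝ) := by
    have := Real.log_two_lt_d9; linarith
  have hlog20 : 0 < Real.log 2 := Real.log_pos (by norm_num)
  have hKpow : Real.exp (-(L ^ 2 / 16)) / 2 ≤ (1 / 2 : ℝ) ^ K := by
    have h1 : Real.log (Real.exp (-(L ^ 2 / 16)) / 2) ≤ Real.log ((1 / 2 : ℝ) ^ K) := by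
      rw [Real.log_pow, Real.log_div (Real.exp_pos _).ne' (by norm_num), Real.log_exp,
        Real.log_div (by norm_num) (by norm_num), Real.log_one, zero_sub]
      have h3 : (K:ℝ) * Real.log 2 ≤ (L ^ 2 / 16 + 1) * Real.log 2 :=
        mul_le_mul_of_nonneg_right hK2 hlog20.le
      have h4 : L ^ 2 / 16 * Real.log 2 ≤ L ^ 2 / 16 * 1 :=
        mul_le_mul_of_nonneg_left (by linarith) (by positivity)
      nlinarith
    exact (Real.log_le_log_iff (by positivity) (by positivity)).mp h1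
  have hE : 16 + 4 * L ≤ Real.exp (15 * L ^ 2 / 16) := by
    have h1 := Real.quadratic_le_exp_of_nonneg (show 0 ≤ 15 * L ^ 2 / 16 by positivity)
    have h2 : 9 ≤ L ^ 2 := by nlinarith
    have h3 : 8.4 ≤ 15 * L ^ 2 / 16 := by linarith
    have h4 : 3 * L ≤ L ^ 2 := by nlinarith
    nlinarith
  have hdx : (d:ℝ) ≥ Real.exp (L ^ 2) / 2 * Real.log t := by
    have h1 : (d:ℝ) = (Real.exp (L ^ 2) - 2) * Real.log t := by
      rw [hexpL]; field_simp; ring
    rw [h1]
    have h2 : 4 ≤ Real.exp (L ^ 2) := by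
      have := Real.add_one_le_exp (L ^ 2)
      nlinarith
    have h3 : Real.exp (L ^ 2) / 2 ≤ Real.exp (L ^ 2) - 2 := by linarith
    exact mul_le_mul_of_nonneg_right h3 hlt0.le
  have hlam : (t * Real.log t) * (Real.exp (15 * L ^ 2 / 16) / 16)
      ≤ ((t:ℝ) * d) / 4 * (1 / 2) ^ K := by
    have h1 : Real.exp (15 * L ^ 2 / 16) = Real.exp (L ^ 2) * Real.exp (-(L ^ 2 / 16)) := by
      rw [← Real.exp_add]; congr 1; ring
    calc (t * Real.log t) * (Real.exp (15 * L ^ 2 / 16) / 16)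
        = (t * (Real.exp (L ^ 2) / 2 * Real.log t)) / 4 * (Real.exp (-(L ^ 2 / 16)) / 2) := by
          rw [h1]; ring
      _ ≤ ((t:ℝ) * d) / 4 * (Real.exp (-(L ^ 2 / 16)) / 2) := by
          apply mul_le_mul_of_nonneg_right _ (by positivity)
          have := mul_le_mul_of_nonneg_left hdx ht0.le
          linarith
      _ ≤ _ := mul_le_mul_of_nonneg_left hKpow (by positivity)
  obtain ⟨G, hG1, hG2⟩ := lower_all_core d t n K (by omega) hnpos (by
      have h1 : (4:ℝ) * n ^ 2 ≤ K * (t * t) := by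
        have h2 : (n:ℝ) ^ 2 ≤ (L * t / 8) ^ 2 := pow_le_pow_left₀ (by positivity) hn1 2
        have h3 : (L ^ 2 / 16) * (t * t) ≤ (K:ℝ) * (t * t) :=
          mul_le_mul_of_nonneg_right hK1 (by positivity)
        nlinarith
      exact_mod_cast h1) (by
      have hT0 : (0:ℝ) < ((t + 1 : ℕ) : ℝ) := by positivity
      have hlogT : Real.log ((t + 1 : ℕ) : ℝ) ≤ 2 * Real.log t := by
        have h1 : ((t + 1 : ℕ) : ℝ) ≤ (t:ℝ) ^ 2 := by
          push_cast
          nlinarith
        calc Real.log ((t + 1 : ℕ) : ℝ) ≤ Real.log ((t:ℝ) ^ 2) := Real.log_le_log hT0 h1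
          _ = 2 * Real.log t := by rw [Real.log_pow]; norm_num
      have hexp : ((t + 1 : ℕ) : ℝ) ^ n = Real.exp (n * Real.log ((t + 1 : ℕ) : ℝ)) := by
        rw [mul_comm, Real.exp_mul, Real.exp_log hT0, Real.rpow_natCast]
      rw [hexp, ← Real.exp_add]
      have h1 : (n:ℝ) * Real.log ((t + 1 : ℕ) : ℝ) ≤ (L * t / 8) * (2 * Real.log t) := by
        apply mul_le_mul hn1 hlogT _ (by positivity)
        apply Real.log_nonneg
        push_cast
        linarith
      have h4 : (t:ℝ) * Real.log t ≥ 1 := by nlinarith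
      have h2 : (n:ℝ) * Real.log ((t + 1 : ℕ) : ℝ) + -(((t:ℝ) * d) / 4 * (1 / 2) ^ K)
          ≤ -1 := by
        have h5 : (L * t / 8) * (2 * Real.log t) = (t * Real.log t) * (L / 4) := by ring
        rw [h5] at h1
        have h6 : (t * Real.log t) * (L / 4) - (t * Real.log t) * (Real.exp (15 * L ^ 2 / 16) / 16)
            ≤ -(t * Real.log t) := by
          have h7 : (t * Real.log t) * (L / 4 - Real.exp (15 * L ^ 2 / 16) / 16)
              ≤ (t * Real.log t) * (-1) :=
            mul_le_mul_of_nonneg_left (by linarith) (by linarith)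
          linarith
        linarith
      calc Real.exp (n * Real.log ((t + 1 : ℕ) : ℝ) + -(((t:ℝ) * d) / 4 * (1 / 2) ^ K))
          ≤ Real.exp (-1) := Real.exp_le_exp.mpr h2
        _ < 1 / 2 := by
            have := Real.exp_neg_one_lt_d9
            linarith) H₀ hreg
  refine ⟨n, by omega, G, ?_, hG2⟩
  refine le_trans ?_ hG1
  linarith

end Pool.Agent.H56.Minor
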