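import Mathlib
import Pool.Agent.H56.MinorDefs
import Pool.Agent.H56.Minor1
import Pool.Agent.H56.Main1
import Pool.Agent.H56.Blocks1
import Pool.Agent.H56.LowerAll
import Pool.Agent.H56.Final1

set_option autoImplicit false
set_option linter.unusedSectionVars false

namespace Pool.Agent.H56.Minor

open Finset

/-- A regular graph all of whose components are small. -/
lemma exists_blocks (d t : ℕ) (hd : 1 ≤ d) (hdt : 2 * d + 2 ≤ t) (hp : Even (t * d)) :
    ∃ H₀ : SimpleGraph (Fin t), (∀ v, (H₀.neighborSet v).ncard = d) ∧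
      ∃ blk : Fin t → ℕ, (∀ u v, H₀.Adj u v → blk u = blk v) ∧
        ∀ β, (Finset.univ.filter (fun u => blk u = β)).card ≤ 2 * d + 2 := by
  classical
  obtain ⟨q, hq⟩ : ∃ q : ℕ, q = d + 1 := ⟨_, rfl⟩
  obtain ⟨N, hN⟩ : ∃ N : ℕ, N = t / q - 1 := ⟨_, rfl⟩
  have hq0 : 0 < q := by omega
  have htq2 : 2 ≤ t / q := by
    rw [Nat.le_div_iff_mul_le hq0]; omega
  have hdiv := Nat.div_add_mod t q
  have hmod := Nat.mod_lt t hq0
  obtain ⟨r, hr⟩ : ∃ r : ℕ, r = q + t % q := ⟨_, rfl⟩
  have htN : t = q * N + r := by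
    have h1 : t / q = N + 1 := by omega
    rw [h1] at hdiv
    have h2 : q * (N + 1) = q * N + q := by ring
    omega
  have hdr' : d < r := by omega
  have hpr : Even (r * d) := by
    have h1 : t * d = q * N * d + r * d := by rw [htN]; ring
    have h2 : Even (q * N * d) := by
      have h3 : q * N * d = (d * (d + 1)) * N := by rw [hq]; ring
      rw [h3]
      exact (Nat.even_mul_succ_self d).mul_right N
    rw [h1, Nat.even_add] at hp
    exact hp.mp h2
  obtain ⟨X, hX⟩ := exists_regular r d hdr' hpr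
  set σ : LiftData q N := fun _ => Equiv.refl _ with hσ
  have hcard : Fintype.card (Fin t) = Fintype.card ((Fin q × Fin N) ⊕ Fin r) := by
    rw [Fintype.card_sum, Fintype.card_prod, Fintype.card_fin, Fintype.card_fin,
      Fintype.card_fin, Fintype.card_fin]
    exact htN
  obtain ⟨e⟩ : Nonempty (Fin t ≃ (Fin q × Fin N) ⊕ Fin r) := ⟨Fintype.equivOfCardEq hcard⟩
  set bk : (Fin q × Fin N) ⊕ Fin r → ℕ := fun x => Sum.elim (fun p => (p.2 : ℕ) + 1) (fun _ => 0) x
    with hbk
  refine ⟨((liftGraph σ).sum X).comap e, ?_, fun u => bk (e u), ?_, ?_⟩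
  · intro v
    rw [ncard_neighborSet_comap]
    apply ncard_neighborSet_sum
    · intro w
      rw [liftGraph_regular, hq]
      rfl
    · exact hX
  · intro u v huv
    rw [SimpleGraph.comap_adj] at huv
    change bk (e u) = bk (e v)
    revert huv
    generalize e u = x
    generalize e v = y
    intro huv
    rcases x with x | x <;> rcases y with y | y
    · simp only [SimpleGraph.sum_adj] at huv
      rcases huv with ⟨h, hv⟩ | ⟨h, hv⟩
      · simp only [hσ, Equiv.refl_apply] at hv
        simp only [hbk, Sum.elim_inl, hv]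
      · simp only [hσ, Equiv.refl_apply] at hv
        simp only [hbk, Sum.elim_inl, hv]
    · simp at huv
    · simp at huv
    · simp [hbk]
  · intro β
    have h1 : (Finset.univ.filter (fun u => bk (e u) = β)).card ≤ (Finset.range (2 * d + 2)).card := by
      apply Finset.card_le_card_of_injOn
        (fun u => Sum.elim (fun p : Fin q × Fin N => (p.1 : ℕ)) (fun k : Fin r => (k : ℕ)) (e u))
      · intro u _
        rw [Finset.coe_range, Set.mem_Iio]
        simp only
        rcases e u with x | x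
        · have := x.1.2
          simp only [Sum.elim_inl]
          omega
        · have := x.2
          simp only [Sum.elim_inr]
          omega
      · intro u hu v hv huv
        rw [Finset.mem_coe, Finset.mem_filter] at hu hv
        have h2 : bk (e u) = bk (e v) := hu.2.trans hv.2.symm
        simp only at huv
        apply e.injective
        revert h2 huv
        generalize e u = x
        generalize e v = y
        intro huv h2
        rcases x with x | x <;> rcases y with y | y
        · simp only [hbk, Sum.elim_inl] at h2 huv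
          congr 1
          exact Prod.ext (Fin.ext huv) (Fin.ext (by omega))
        · simp [hbk] at h2
        · simp [hbk] at h2
        · simp only [Sum.elim_inr] at huv
          congr 1
          exact Fin.ext huv
    rwa [Finset.card_range] at h1

/-- Forcing statement for graphs with small components. -/
lemma blocks_forcing (s t a b r l : ℕ) (e : ℝ) (H₀ : SimpleGraph (Fin t))
    (blk : Fin t → ℕ) (hadj0 : ∀ u v, H₀.Adj u v → blk u = blk v)
    (hblk : ∀ β, (Finset.univ.filter (fun u => blk u = β)).card ≤ r)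
    (he : ((8:ℝ) / 2 ^ l) ^ l ≤ e) (he0 : 0 ≤ e) (he4 : 4 * e ≤ 1)
    (hsize : 4 * (r * l ^ 2) ≤ t)
    (hbig : (16:ℝ) * (r * l ^ 2) < 3 * (1 - 2 * e) ^ r * t)
    (hs : 1 ≤ s) (ht : 1 ≤ t)
    (ha : 6 ≤ a) (hab : a ≤ b) (h2 : 16 * s ^ 2 ≤ 2 ^ (a * b)) :
    ∀ n : ℕ, 0 < n → ∀ G : SimpleGraph (Fin n), (480:ℝ) * (t * (a + 2 * l) + s * b) ≤ avgDeg G →
      IsMinor (addDominant H₀ s) G := by
  intro n hn G hG
  refine upper_blocks G s t a b r l e H₀ blk hadj0 hblk he he0 he4 hsize hbig hs ht ha hab h2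
    (by simpa using hn) ?_
  rw [Fintype.card_fin]
  have hn' : (0:ℝ) < n := by exact_mod_cast hn
  unfold avgDeg at hG
  rw [le_div_iff₀ hn'] at hG
  have h3 : ((E2 G Finset.univ : ℕ) : ℝ) = 2 * (G.edgeSet.ncard : ℝ) := by
    exact_mod_cast E2_eq G
  have h4 : ((2 * (240 * (t * (a + 2 * l) + s * b)) * n : ℕ) : ℝ) ≤ ((E2 G Finset.univ : ℕ) : ℝ) := by
    rw [h3]
    push_cast
    linarith
  exact_mod_cast h4

set_option maxHeartbeats 2000000 in
/-- The upper bound for suitable regular graphs, small degree case. -/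
theorem upper_small (d s t : ℕ) (hd : 2 ≤ d) (hds : d ≤ s) (hst : s ≤ t) (hdt : 2 * d + 2 ≤ t)
    (hp : Even (t * d)) (hlt : 400 ≤ Real.log t) (hsm : (d:ℝ) ≤ Real.log t ^ 2) :
    ∃ H₀ : SimpleGraph (Fin t), (∀ v, (H₀.neighborSet v).ncard = d) ∧
      threshold (addDominant H₀ s)
        ≤ 30000 * (Real.sqrt (Real.log (2 + d / Real.log t)) * t
            + Real.sqrt (s * t * Real.log s)) := by
  obtain ⟨H₀, hreg, blk, hb1, hb2⟩ := exists_blocks d t (by omega) hdt hp
  refine ⟨H₀, hreg, ?_⟩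
  obtain ⟨y, hy⟩ : ∃ y : ℝ, y = Real.log t := ⟨_, rfl⟩
  rw [← hy] at hlt hsm ⊢
  have hy0 : 0 < y := by linarith
  have hd' : (2:ℝ) ≤ d := by exact_mod_cast hd
  have ht0 : (0:ℝ) < t := by
    have : 0 < t := by omega
    exact_mod_cast this
  have hx0 : 0 < (d:ℝ) / y := by positivity
  obtain ⟨L, hLdef⟩ : ∃ L : ℝ, L = Real.sqrt (Real.log (2 + d / y)) := ⟨_, rfl⟩
  rw [← hLdef]
  have hL2 : L ^ 2 = Real.log (2 + d / y) := by
    rw [hLdef]
    exact Real.sq_sqrt (Real.log_nonneg (by linarith))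
  have hlog2 : (0.69:ℝ) < Real.log 2 := by
    have := Real.log_two_gt_d9; linarith
  have hlog2' : Real.log 2 < (0.7:ℝ) := by
    have := Real.log_two_lt_d9; linarith
  have hL08 : 0.8 ≤ L := by
    rw [hLdef]
    apply Real.le_sqrt_of_sq_le
    have : Real.log 2 ≤ Real.log (2 + d / y) := Real.log_le_log (by norm_num) (by linarith)
    norm_num
    linarith
  have hL0 : 0 < L := by linarith
  -- the parameters
  obtain ⟨l, hl⟩ : ∃ l : ℕ, l = ⌈2 * L⌉₊ + 6 := ⟨_, rfl⟩
  have hl1 : 2 * L + 6 ≤ (l:ℝ) := by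
    rw [hl]; push_cast
    have := Nat.le_ceil (2 * L)
    linarith
  have hl2 : (l:ℝ) ≤ 2 * L + 7 := by
    rw [hl]; push_cast
    have := (Nat.ceil_lt_add_one (show 0 ≤ 2 * L by linarith)).le
    linarith
  have hl6 : 6 ≤ l := by rw [hl]; omega
  obtain ⟨e, he⟩ : ∃ e : ℝ, e = 1 / (2 ^ 18 * (2 + d / y)) := ⟨_, rfl⟩
  have hden : 2 ≤ 2 + d / y := by linarith
  have he0 : 0 < e := by rw [he]; positivity
  have he4 : 4 * e ≤ 1 := by
    rw [he, mul_one_div, div_le_one (by positivity)]
    linarith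
  have hll : ((8:ℝ) / 2 ^ l) ^ l ≤ e := by
    have h1 : ((8:ℝ) / 2 ^ l) ^ 2 ≤ 1 / 2 ^ l := by
      rw [div_pow, div_le_div_iff₀ (by positivity) (by positivity)]
      have h2 : (64:ℝ) ≤ 2 ^ l := by
        calc (64:ℝ) = 2 ^ 6 := by norm_num
          _ ≤ 2 ^ l := pow_le_pow_right₀ (by norm_num) hl6
      nlinarith [pow_pos (show (0:ℝ) < 2 by norm_num) l]
    have h3 : (((8:ℝ) / 2 ^ l) ^ l) ^ 2 ≤ e ^ 2 := by
      calc (((8:ℝ) / 2 ^ l) ^ l) ^ 2 = (((8:ℝ) / 2 ^ l) ^ 2) ^ l := by
            rw [← pow_mul, ← pow_mul, mul_comm]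
        _ ≤ (1 / 2 ^ l) ^ l := pow_le_pow_left₀ (by positivity) h1 l
        _ = 1 / 2 ^ (l * l) := by rw [div_pow, one_pow, ← pow_mul]
        _ ≤ 1 / (2 ^ 18 * (2 + d / y)) ^ 2 := by
            apply one_div_le_one_div_of_le (by positivity)
            have h4 : Real.log ((2 ^ 18 * (2 + d / y)) ^ 2) ≤ Real.log ((2:ℝ) ^ (l * l)) := by
              rw [Real.log_pow, Real.log_mul (by norm_num) (by positivity), Real.log_pow,
                Real.log_pow, ← hL2]
              push_cast
              have h5 : 36 + 4 * L ^ 2 ≤ (l:ℝ) * l := by nlinarith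
              have h6 : (36 + 4 * L ^ 2) * Real.log 2 ≤ (l:ℝ) * l * Real.log 2 :=
                mul_le_mul_of_nonneg_right h5 (by linarith)
              have h7 : 4 * L ^ 2 * 0.69 ≤ 4 * L ^ 2 * Real.log 2 :=
                mul_le_mul_of_nonneg_left hlog2.le (by positivity)
              nlinarith
            exact (Real.log_le_log_iff (by positivity) (by positivity)).mp h4
        _ = e ^ 2 := by rw [he, div_pow, one_pow]
    exact le_of_sq_le_sq h3 he0.le
  obtain ⟨r, hr⟩ : ∃ r : ℕ, r = 2 * d + 2 := ⟨_, rfl⟩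
  have hrr : (r:ℝ) ≤ 3 * d := by
    rw [hr]; push_cast; linarith
  -- crude bound on `r * l ^ 2`
  have hL2y : L ^ 2 ≤ y := by
    rw [hL2]
    have h1 : 2 + (d:ℝ) / y ≤ Real.exp y := by
      have h2 : (d:ℝ) / y ≤ y := by
        rw [div_le_iff₀ hy0]; nlinarith
      have h3 := Real.quadratic_le_exp_of_nonneg hy0.le
      nlinarith
    calc Real.log (2 + d / y) ≤ Real.log (Real.exp y) := Real.log_le_log (by positivity) h1
      _ = y := Real.log_exp y
  have hl2y : (l:ℝ) ^ 2 ≤ 9 * y := by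
    calc (l:ℝ) ^ 2 ≤ (2 * L + 7) ^ 2 := pow_le_pow_left₀ (by positivity) hl2 2
      _ ≤ 8 * L ^ 2 + 98 := by nlinarith [sq_nonneg (2 * L - 7)]
      _ ≤ 9 * y := by linarith
  have hrl : (r:ℝ) * l ^ 2 ≤ 27 * y ^ 3 := by
    calc (r:ℝ) * l ^ 2 ≤ (3 * y ^ 2) * (9 * y) := by
          apply mul_le_mul _ hl2y (by positivity) (by positivity)
          linarith
      _ = 27 * y ^ 3 := by ring
  have htexp : (t:ℝ) = Real.exp y := by rw [hy, Real.exp_log ht0]
  have hexp5 : (3 / 4 * y) ^ 5 / 120 ≤ Real.exp (3 / 4 * y) := by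
    have h1 := Real.pow_div_factorial_le_exp (3 / 4 * y) (by positivity) 5
    have h2 : ((Nat.factorial 5 : ℕ) : ℝ) = 120 := by norm_num [Nat.factorial]
    rw [h2] at h1
    exact h1
  have hpoly : 16 * (27 * y ^ 3) < 3 * ((3 / 4 * y) ^ 5 / 120) := by
    have h1 : 160000 ≤ y ^ 2 := by nlinarith
    have h2 : 0 < y ^ 3 := by positivity
    have h3 : y ^ 3 * 160000 ≤ y ^ 3 * y ^ 2 := mul_le_mul_of_nonneg_left h1 h2.le
    have h4 : (3 / 4 * y) ^ 5 = 243 / 1024 * (y ^ 3 * y ^ 2) := by ring
    rw [h4]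
    linarith
  have hsize' : (16:ℝ) * (r * l ^ 2) < 3 * Real.exp (3 / 4 * y) := by linarith
  have hsize : 4 * (r * l ^ 2) ≤ t := by
    have h1 : Real.exp (3 / 4 * y) ≤ t := by
      rw [htexp]; apply Real.exp_le_exp.mpr; linarith
    have h2 : (4:ℝ) * (r * l ^ 2) ≤ t := by
      have := Real.exp_pos (3 / 4 * y)
      linarith
    exact_mod_cast h2
  have hbig : (16:ℝ) * (r * l ^ 2) < 3 * (1 - 2 * e) ^ r * t := by
    have h1 : Real.exp (-(4 * e)) ≤ 1 - 2 * e := by
      have h2 : Real.exp (4 * e) * (1 - 2 * e) ≥ 1 := by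
        have h3 := Real.quadratic_le_exp_of_nonneg (show 0 ≤ 4 * e by linarith)
        have h4 : 0 ≤ 1 - 2 * e := by linarith
        have h5 : (1 + 4 * e) * (1 - 2 * e) ≤ Real.exp (4 * e) * (1 - 2 * e) := by
          apply mul_le_mul_of_nonneg_right _ h4
          nlinarith
        nlinarith
      rw [Real.exp_neg, inv_le_iff_one_le_mul₀' (Real.exp_pos _)]
      exact h2
    have h2 : Real.exp (-(y / 4)) ≤ (1 - 2 * e) ^ r := by
      calc Real.exp (-(y / 4)) ≤ Real.exp (r * (-(4 * e))) := by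
            apply Real.exp_le_exp.mpr
            have h3 : (r:ℝ) * (4 * e) ≤ y / 4 := by
              have h4 : e ≤ y / (2 ^ 18 * d) := by
                rw [he, div_le_div_iff₀ (by positivity) (by positivity)]
                have h5 : y * (2 ^ 18 * (2 + d / y)) = 2 ^ 18 * (2 * y + d) := by
                  field_simp
                rw [h5]
                linarith
              calc (r:ℝ) * (4 * e) ≤ (3 * d) * (4 * (y / (2 ^ 18 * d))) := by
                    apply mul_le_mul hrr (by linarith) (by positivity) (by positivity)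
                _ = 12 * y / 2 ^ 18 := by field_simp; ring
                _ ≤ y / 4 := by
                    have : (12:ℝ) * y / 2 ^ 18 = y * (12 / 2 ^ 18) := by ring
                    rw [this]
                    have h6 : y / 4 = y * (1 / 4) := by ring
                    rw [h6]
                    exact mul_le_mul_of_nonneg_left (by norm_num) hy0.le
            linarith
        _ = Real.exp (-(4 * e)) ^ r := by rw [Real.exp_nat_mul]
        _ ≤ (1 - 2 * e) ^ r := pow_le_pow_left₀ (Real.exp_pos _).le h1 r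
    have h3 : Real.exp (3 / 4 * y) ≤ (1 - 2 * e) ^ r * t := by
      calc Real.exp (3 / 4 * y) = Real.exp (-(y / 4)) * t := by
            rw [htexp, ← Real.exp_add]; congr 1; ring
        _ ≤ _ := mul_le_mul_of_nonneg_right h2 ht0.le
    linarith
  obtain ⟨a, b, ha, hab, _, hb, hsum⟩ := choose_ab 2 s t le_rfl (by omega) hst
  have hf := blocks_forcing s t a b r l e H₀ blk hb1 (by rw [hr]; exact hb2) hll he0.le he4
    hsize hbig (by omega) (by omega) ha hab hb
  refine (threshold_le _ ?_ _ hf).trans ?_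
  · rw [Fintype.card_sum, Fintype.card_fin, Fintype.card_fin]; omega
  · obtain ⟨X, hX⟩ : ∃ X : ℝ, X = Real.sqrt (s * t * Real.log s) := ⟨_, rfl⟩
    rw [← hX] at hsum ⊢
    have hX0 : 0 ≤ X := by rw [hX]; exact Real.sqrt_nonneg _
    have h1 : Real.sqrt (Real.log ((2:ℕ):ℝ)) ≤ 1 := by
      rw [Real.sqrt_le_left (by norm_num)]
      push_cast
      linarith
    have h2 : (t:ℝ) * Real.sqrt (Real.log ((2:ℕ):ℝ)) ≤ t * 1 :=
      mul_le_mul_of_nonneg_left h1 ht0.le
    have h3 : (t:ℝ) * (2 * l) ≤ t * (2 * (2 * L + 7)) :=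
      mul_le_mul_of_nonneg_left (by linarith) ht0.le
    have h4 : (t:ℝ) * 0.8 ≤ t * L := mul_le_mul_of_nonneg_left hL08 ht0.le
    nlinarith

/-- The main theorem, final form. -/
theorem main2 :
    ∃ c C : ℝ, 0 < c ∧ 0 < C ∧ ∃ d₀ : ℕ, ∀ d s t : ℕ, d₀ ≤ d → d ≤ s → s ≤ t → 2 * d + 2 ≤ t →
      (∀ H₀ : SimpleGraph (Fin t), (∀ v, (H₀.neighborSet v).ncard = d) →
        c * (Real.sqrt (Real.log (2 + d / Real.log t)) * t + Real.sqrt (s * t * Real.log s))
          ≤ threshold (addDominant H₀ s) ∧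
        threshold (addDominant H₀ s)
          ≤ C * (Real.sqrt (Real.log d) * t + Real.sqrt (s * t * Real.log s))) ∧
      (Even (t * d) →
        (∃ H₀ : SimpleGraph (Fin t), (∀ v, (H₀.neighborSet v).ncard = d) ∧
          c * (Real.sqrt (Real.log d) * t + Real.sqrt (s * t * Real.log s))
            ≤ threshold (addDominant H₀ s)) ∧
        (∃ H₀ : SimpleGraph (Fin t), (∀ v, (H₀.neighborSet v).ncard = d) ∧
          threshold (addDominant H₀ s)
            ≤ C * (Real.sqrt (Real.log (2 + d / Real.log t)) * t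
                + Real.sqrt (s * t * Real.log s)))) := by
  classical
  obtain ⟨c₁, C₁, hc₁, hC₁, d₁, hmain⟩ := main
  refine ⟨min (c₁ / 3) (1 / 64), max (2 * C₁) 30000, by positivity, by positivity,
    max d₁ (⌈Real.exp 400⌉₊ + 10 ^ 6), ?_⟩
  intro d s t hd hds hst hdt
  have hd1 : d₁ ≤ d := le_trans (le_max_left _ _) hd
  have hd2 : ⌈Real.exp 400⌉₊ + 10 ^ 6 ≤ d := le_trans (le_max_right _ _) hd
  clear hd
  have hd6 : 10 ^ 6 ≤ d := (Nat.le_add_left _ _).trans hd2
  have hdexp : ⌈Real.exp 400⌉₊ ≤ d := (Nat.le_add_right _ _).trans hd2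
  clear hd2
  have ht6 : 10 ^ 6 ≤ t := hd6.trans (hds.trans hst)
  have hdE : Real.exp 400 ≤ d := by
    calc Real.exp 400 ≤ (⌈Real.exp 400⌉₊ : ℝ) := Nat.le_ceil _
      _ ≤ d := by exact_mod_cast hdexp
  clear hdexp
  have hd0 : (0:ℝ) < d := lt_of_lt_of_le (Real.exp_pos _) hdE
  have hdt' : (d:ℝ) ≤ t := by exact_mod_cast (hds.trans hst)
  have ht0 : (0:ℝ) < t := lt_of_lt_of_le hd0 hdt'
  have hlt : 400 ≤ Real.log t := by
    rw [Real.le_log_iff_exp_le ht0]
    exact hdE.trans hdt'
  have hlt0 : 0 < Real.log t := by linarith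
  obtain ⟨hA, hB⟩ := hmain d s t hd1 hds hst hdt
  obtain ⟨X, hX⟩ : ∃ X : ℝ, X = Real.sqrt (s * t * Real.log s) := ⟨_, rfl⟩
  have hX0 : 0 ≤ X := by rw [hX]; exact Real.sqrt_nonneg _
  obtain ⟨L, hL⟩ : ∃ L : ℝ, L = Real.sqrt (Real.log (2 + d / Real.log t)) := ⟨_, rfl⟩
  have hL0 : 0 ≤ L := by rw [hL]; exact Real.sqrt_nonneg _
  rw [← hL, ← hX]
  rw [← hX] at hB
  refine ⟨fun H₀ hreg => ⟨?_, ?_⟩, fun hev => ⟨?_, ?_⟩⟩
  · -- lower bound for every H₀
    have h1 := (hA H₀ hreg).1
    rw [← hX] at h1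
    by_cases hL3 : 3 ≤ L
    · obtain ⟨n, hn, G, hG1, hG2⟩ := lower_all d t ht6 H₀ hreg (by rw [← hL]; exact hL3)
      rw [← hL] at hG1
      have hdeg : ∀ v, (Finset.univ.filter (H₀.Adj v)).card ≤ d := by
        intro v
        rw [← hreg v]
        have : H₀.neighborSet v = ((Finset.univ.filter (H₀.Adj v) : Finset (Fin t)) : Set (Fin t)) := by
          ext y; simp
        rw [this, Set.ncard_coe_finset]
      have hne := (threshold_upper d s t (by omega) (by omega) hst H₀ hdeg).1
      have hG3 : ¬ IsMinor (addDominant H₀ s) G := by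
        intro h
        apply hG2
        refine isMinor_of_hom (fun u => Sum.inl u) Sum.inl_injective ?_ h
        intro u v huv
        refine ⟨fun h => huv.ne (Sum.inl_injective h), ?_⟩
        intro u' v' hu hv
        rw [← Sum.inl_injective hu, ← Sum.inl_injective hv]
        exact huv
      have h2 := hG1.trans (le_threshold _ hn G hG3 hne)
      have hc1 : min (c₁ / 3) (1 / 64) ≤ c₁ / 3 := min_le_left _ _
      have hc2 : min (c₁ / 3) (1 / 64) ≤ 1 / 64 := min_le_right _ _
      have h3 : min (c₁ / 3) (1 / 64) * (L * t) ≤ 1 / 64 * (L * t) :=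
        mul_le_mul_of_nonneg_right hc2 (by positivity)
      have h4 : min (c₁ / 3) (1 / 64) * X ≤ c₁ / 3 * X := mul_le_mul_of_nonneg_right hc1 hX0
      have h5 : 0 ≤ c₁ * X := by positivity
      have h6 : 0 ≤ c₁ * t := by positivity
      nlinarith
    · push Not at hL3
      have hc1 : min (c₁ / 3) (1 / 64) ≤ c₁ / 3 := min_le_left _ _
      calc min (c₁ / 3) (1 / 64) * (L * t + X) ≤ c₁ / 3 * (L * t + X) :=
            mul_le_mul_of_nonneg_right hc1 (by positivity)
        _ ≤ c₁ / 3 * (3 * (t + X)) := by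
            apply mul_le_mul_of_nonneg_left _ (by positivity)
            nlinarith
        _ = c₁ * (t + X) := by ring
        _ ≤ _ := h1
  · have h1 := (hA H₀ hreg).2
    rw [← hX] at h1
    refine h1.trans ?_
    apply mul_le_mul_of_nonneg_right _ (by positivity)
    exact le_trans (by linarith) (le_max_left _ _)
  · obtain ⟨H₀, hreg, h1⟩ := hB hev
    refine ⟨H₀, hreg, le_trans ?_ h1⟩
    apply mul_le_mul_of_nonneg_right _ (by positivity)
    exact (min_le_left _ _).trans (by linarith)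
  · by_cases hsm : (d:ℝ) ≤ Real.log t ^ 2
    · obtain ⟨H₀, hreg, h1⟩ := upper_small d s t (by omega) hds hst hdt hev hlt hsm
      rw [← hL, ← hX] at h1
      refine ⟨H₀, hreg, h1.trans ?_⟩
      exact mul_le_mul_of_nonneg_right (le_max_right _ _) (by positivity)
    · push Not at hsm
      obtain ⟨H₀, hreg, _⟩ := hB hev
      refine ⟨H₀, hreg, ?_⟩
      have h1 := (hA H₀ hreg).2
      rw [← hX] at h1
      refine h1.trans ?_
      have h2 : Real.sqrt (Real.log d) ≤ 2 * L := by
        have h3 : Real.log d ≤ 2 * Real.log (2 + d / Real.log t) := by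
          have h4 : Real.log t ≤ Real.sqrt d := Real.le_sqrt_of_sq_le hsm.le
          have h5 : Real.sqrt d ≤ d / Real.log t := by
            rw [le_div_iff₀ hlt0]
            calc Real.sqrt d * Real.log t ≤ Real.sqrt d * Real.sqrt d :=
                  mul_le_mul_of_nonneg_left h4 (Real.sqrt_nonneg _)
              _ = d := Real.mul_self_sqrt hd0.le
          have h6 : Real.log (Real.sqrt d) ≤ Real.log (2 + d / Real.log t) := by
            apply Real.log_le_log (Real.sqrt_pos.mpr hd0)
            linarith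
          rw [Real.log_sqrt hd0.le] at h6
          linarith
        rw [Real.sqrt_le_left (by linarith)]
        rw [mul_pow, hL, Real.sq_sqrt (by
          apply Real.log_nonneg
          have : 0 ≤ (d:ℝ) / Real.log t := by positivity
          linarith)]
        have h7 : 0 ≤ Real.log (2 + d / Real.log t) := by
          apply Real.log_nonneg
          have : 0 ≤ (d:ℝ) / Real.log t := by positivity
          linarith
        linarith
      calc C₁ * (Real.sqrt (Real.log d) * t + X) ≤ C₁ * (2 * (L * t + X)) := by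
            apply mul_le_mul_of_nonneg_left _ hC₁.le
            nlinarith
        _ = (2 * C₁) * (L * t + X) := by ring
        _ ≤ _ := mul_le_mul_of_nonneg_right (le_max_left _ _) (by positivity)

end Pool.Agent.H56.Minor
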