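import Mathlib
import Pool.Agent.H56.MinorDefs
import Pool.Agent.H56.Minor1
import Pool.Agent.H56.Lower1
import Pool.Agent.H56.Main1
import Pool.Agent.H56.Host1
import Pool.Agent.H56.Seeds1
import Pool.Agent.H56.Final1

set_option autoImplicit false
set_option linter.unusedSectionVars false

namespace Pool.Agent.H56.Minor

open Finset

section General

variable {V : Type} [Fintype V] [DecidableEq V]

/-- A dense graph has dense induced subgraphs of every order. -/
lemma dense_subset (Q : SimpleGraph V) (ρ : ℝ) (m : ℕ) (hm : 1 ≤ m) :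
    ∀ k : ℕ, ∀ S : Finset V, S.card = m + k → ρ * (S.card * (S.card - 1)) ≤ E2 Q S →
      ∃ W : Finset V, W ⊆ S ∧ W.card = m ∧ ρ * (m * (m - 1)) ≤ E2 Q W := by
  classical
  intro k
  induction k with
  | zero =>
    intro S hS h
    rw [add_zero] at hS
    rw [hS] at h
    exact ⟨S, Finset.Subset.refl _, hS, h⟩
  | succ k ih =>
    intro S hS h
    have hSne : S.Nonempty := by rw [← Finset.card_pos]; omega
    obtain ⟨v, hv, hmin⟩ := Finset.exists_min_image S (dg Q S) hSne
    have h1 : S.card * dg Q S v ≤ E2 Q S := by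
      unfold E2
      rw [← smul_eq_mul, ← Finset.sum_const]
      exact Finset.sum_le_sum (fun x hx => hmin x hx)
    have h2 := E2_erase (Q := Q) hv
    have h3 : (S.erase v).card = m + k := by
      rw [Finset.card_erase_of_mem hv]; omega
    obtain ⟨W, hW1, hW2, hW3⟩ := ih (S.erase v) h3 (by
      have h1' : ((m:ℝ) + k + 1) * dg Q S v ≤ E2 Q S := by
        rw [hS] at h1
        have : ((m + (k + 1) : ℕ) : ℝ) * dg Q S v ≤ E2 Q S := by exact_mod_cast h1
        push_cast at this
        linarith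
      have h2' : (E2 Q S : ℝ) = E2 Q (S.erase v) + 2 * dg Q S v := by exact_mod_cast h2
      rw [hS] at h
      rw [h3]
      push_cast at h ⊢
      have hm' : (1:ℝ) ≤ m := by exact_mod_cast hm
      have hk' : (0:ℝ) ≤ k := by positivity
      have hn : 0 < (m:ℝ) + k + 1 := by linarith
      -- multiply by `n = m + k + 1`
      have h4 : ((m:ℝ) + k + 1) * (ρ * ((m + k) * (m + k - 1)))
          ≤ (m + k + 1) * E2 Q (S.erase v) := by
        have h5 : ((m:ℝ) + k + 1) * E2 Q (S.erase v) ≥ (m + k - 1) * E2 Q S := by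
          have h6 : ((m:ℝ) + k + 1) * E2 Q S
            = (m + k + 1) * E2 Q (S.erase v) + 2 * ((m + k + 1) * dg Q S v) := by
            rw [h2']; ring
          nlinarith
        have h7 : ((m:ℝ) + k - 1) * (ρ * ((m + (k + 1)) * (m + (k + 1) - 1)))
            ≤ (m + k - 1) * E2 Q S :=
          mul_le_mul_of_nonneg_left h (by linarith)
        calc ((m:ℝ) + k + 1) * (ρ * ((m + k) * (m + k - 1)))
            = (m + k - 1) * (ρ * ((m + (k + 1)) * (m + (k + 1) - 1))) := by ring
          _ ≤ (m + k - 1) * E2 Q S := h7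
          _ ≤ _ := h5
      exact le_of_mul_le_mul_left h4 hn)
    exact ⟨W, hW1.trans (Finset.erase_subset _ _), hW2, hW3⟩

/-- The induced graph on a finset, transported to `Fin m`. -/
lemma E2_comap_sub (Q : SimpleGraph V) (W : Finset V) (m : ℕ) (e : Fin m ≃ W) :
    E2 (Q.comap (fun i => (e i : V))) Finset.univ = E2 Q W := by
  classical
  unfold E2
  rw [← Finset.sum_coe_sort W, ← Equiv.sum_comp e]
  refine Finset.sum_congr rfl (fun i _ => ?_)
  unfold dg
  apply Finset.card_bij (fun j _ => (e j : V))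
  · intro j hj
    rw [Finset.mem_filter] at hj ⊢
    exact ⟨(e j).2, hj.2⟩
  · intro j _ j' _ h
    exact e.injective (Subtype.ext h)
  · intro v hv
    rw [Finset.mem_filter] at hv
    refine ⟨e.symm ⟨v, hv.1⟩, ?_, by simp⟩
    rw [Finset.mem_filter]
    refine ⟨Finset.mem_univ _, ?_⟩
    rw [SimpleGraph.comap_adj]
    simpa using hv.2

/-- Seeds for an arbitrary graph `H₀`, in a small part of a dense graph. -/
theorem general_seeds (Q : SimpleGraph V) (S : Finset V)
    (hdeg : ∀ x ∈ S, 11 * S.card ≤ 20 * dg Q S x) (t m : ℕ) (H₀ : SimpleGraph (Fin t)) (f : ℝ)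
    (hf : ∀ n : ℕ, 0 < n → ∀ G : SimpleGraph (Fin n), f ≤ avgDeg G → IsMinor H₀ G)
    (hm : 1 ≤ m) (hmS : m ≤ S.card) (hfm : f ≤ 11 / 20 * ((m:ℝ) - 1)) :
    ∃ D : Fin t → Finset V, (∀ u, D u ⊆ S) ∧ ∑ u, (D u).card ≤ m ∧
      (∀ u v, u ≠ v → Disjoint (D u) (D v)) ∧
      (∀ u v, H₀.Adj u v → ∃ x ∈ D u, ∃ y ∈ D v, Q.Adj x y) := by
  classical
  obtain ⟨k, hk⟩ : ∃ k, S.card = m + k := ⟨S.card - m, by omega⟩
  obtain ⟨W, hWS, hWc, hWE⟩ := dense_subset Q (11 / 20) m hm k S hk (by
    have h1 : 11 * (S.card * S.card) ≤ 20 * E2 Q S := by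
      unfold E2
      rw [Finset.mul_sum]
      calc 11 * (S.card * S.card) = ∑ _x ∈ S, 11 * S.card := by
            rw [Finset.sum_const, smul_eq_mul]; ring
        _ ≤ ∑ x ∈ S, 20 * dg Q S x := Finset.sum_le_sum hdeg
    have h2 : 11 * ((S.card : ℝ) * S.card) ≤ 20 * E2 Q S := by exact_mod_cast h1
    have h3 : (0:ℝ) ≤ S.card := by positivity
    nlinarith)
  have e : Fin m ≃ W := (Finset.equivFinOfCardEq hWc).symm
  set G' : SimpleGraph (Fin m) := Q.comap (fun i => (e i : V)) with hG'
  have hE : (E2 G' Finset.univ : ℝ) = E2 Q W := by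
    rw [hG', E2_comap_sub]
  have hmr : (0:ℝ) < m := by
    have : 0 < m := by omega
    exact_mod_cast this
  have havg : f ≤ avgDeg G' := by
    refine hfm.trans ?_
    unfold avgDeg
    rw [le_div_iff₀ hmr]
    have h2 : ((E2 G' Finset.univ : ℕ) : ℝ) = 2 * (G'.edgeSet.ncard : ℝ) := by
      exact_mod_cast E2_eq G'
    rw [← h2, hE]
    linarith
  obtain ⟨φ, p1, p2, p3⟩ := hf m (by omega) G' havg
  have hDinj : Function.Injective (fun i => (e i : V)) := fun i j h => e.injective (Subtype.ext h)
  refine ⟨fun u => (Finset.univ.filter (fun i => i ∈ φ u)).image (fun i => (e i : V)),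
    ?_, ?_, ?_, ?_⟩
  · intro u v hv
    rw [Finset.mem_image] at hv
    obtain ⟨i, _, rfl⟩ := hv
    exact hWS (e i).2
  · have h1 : ∀ u : Fin t, ((Finset.univ.filter (fun i => i ∈ φ u)).image
        (fun i => (e i : V))).card = (Finset.univ.filter (fun i => i ∈ φ u)).card :=
      fun u => Finset.card_image_of_injective _ hDinj
    rw [Finset.sum_congr rfl (fun u _ => h1 u), ← Finset.card_biUnion]
    · calc _ ≤ (Finset.univ : Finset (Fin m)).card := Finset.card_le_card (Finset.subset_univ _)
        _ = m := by simp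
    · intro u _ v _ huv
      change Disjoint _ _
      rw [Finset.disjoint_left]
      intro i hi hi'
      rw [Finset.mem_filter] at hi hi'
      exact Set.disjoint_left.mp (p2 u v huv) hi.2 hi'.2
  · intro u v huv
    rw [Finset.disjoint_image hDinj, Finset.disjoint_left]
    intro i hi hi'
    rw [Finset.mem_filter] at hi hi'
    exact Set.disjoint_left.mp (p2 u v huv) hi.2 hi'.2
  · intro u v huv
    obtain ⟨i, hi, j, hj, hij⟩ := p3 u v huv
    exact ⟨e i, Finset.mem_image.mpr ⟨i, Finset.mem_filter.mpr ⟨Finset.mem_univ _, hi⟩, rfl⟩,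
      e j, Finset.mem_image.mpr ⟨j, Finset.mem_filter.mpr ⟨Finset.mem_univ _, hj⟩, rfl⟩, hij⟩

/-- Upper bound for an arbitrary `H₀` and dominant vertices. -/
theorem upper_general (G : SimpleGraph V) (s t a b m : ℕ) (H₀ : SimpleGraph (Fin t)) (f : ℝ)
    (hf : ∀ n : ℕ, 0 < n → ∀ G : SimpleGraph (Fin n), f ≤ avgDeg G → IsMinor H₀ G)
    (hm : 1 ≤ m) (hfm : f ≤ 11 / 20 * ((m:ℝ) - 1))
    (hs : 1 ≤ s) (ht : 1 ≤ t)
    (ha : 6 ≤ a) (hab : a ≤ b) (h2 : 16 * s ^ 2 ≤ 2 ^ (a * b))
    (hV : 0 < Fintype.card V)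
    (hE : 2 * (240 * (t * a + s * b + m)) * Fintype.card V ≤ E2 G Finset.univ) :
    IsMinor (addDominant H₀ s) G := by
  classical
  have hk : (60:ℝ) ≤ 240 * (t * a + s * b + m) := by
    have e1 : (1:ℝ) ≤ m := by exact_mod_cast hm
    have e3 : (0:ℝ) ≤ s * b := by positivity
    have e4 : (0:ℝ) ≤ t * a := by positivity
    nlinarith
  obtain ⟨S, Q, ⟨φ, m1, m2, m3⟩, hScard, hQ⟩ := dense_minor G
    (240 * (t * a + s * b + m)) hk hV (by exact_mod_cast hE)
  have hScard' : 60 * (t * a + s * b + m) ≤ S.card := by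
    have : (60:ℝ) * (t * a + s * b + m) ≤ S.card := by linarith
    exact_mod_cast this
  have hSpos : 0 < S.card := by omega
  obtain ⟨D₀, d1, d2, d3, d4⟩ := general_seeds Q S hQ t m H₀ f hf hm (by omega) hfm
  set D : ℕ → Finset V := fun i => if h : s ≤ i ∧ i - s < t then D₀ ⟨i - s, h.2⟩ else ∅ with hD
  have hDs : ∀ i, i < s → D i = ∅ := by
    intro i hi
    rw [hD]; simp only
    rw [dif_neg (by omega)]
  have hDt : ∀ u : Fin t, D (s + u) = D₀ u := by
    intro u
    rw [hD]; simp only
    have hu := u.2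
    rw [dif_pos (by omega)]
    congr 1
    apply Fin.ext
    simp
  have hDor : ∀ i, D i = ∅ ∨ ∃ u : Fin t, i = s + u ∧ D i = D₀ u := by
    intro i
    by_cases h : s ≤ i ∧ i - s < t
    · right
      refine ⟨⟨i - s, h.2⟩, by simp only; omega, ?_⟩
      rw [hD]; simp only
      rw [dif_pos h]
    · left
      rw [hD]; simp only
      rw [dif_neg h]
  set sz : ℕ → ℕ := fun i => if i < s then b else a with hsz
  set Hn : ℕ → ℕ → Prop := fun j i => i < s ∨ j < s with hHn
  have hszge : ∀ i, 1 ≤ sz i := by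
    intro i
    simp only [hsz]
    split_ifs <;> omega
  have hsumsz : ∑ i ∈ Finset.range (s + t), (sz i + (D i).card) ≤ s * b + t * a + m := by
    rw [Finset.sum_range_add]
    have e1 : ∑ i ∈ Finset.range s, (sz i + (D i).card) = s * b := by
      rw [Finset.sum_congr (g := fun _ => b) rfl
        (fun i hi => by
          rw [hDs i (Finset.mem_range.mp hi), Finset.card_empty, add_zero]
          exact if_pos (Finset.mem_range.mp hi))]
      simp
    have e2 : ∑ x ∈ Finset.range t, (sz (s + x) + (D (s + x)).card) ≤ t * a + m := by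
      rw [Finset.sum_add_distrib]
      have e3 : ∑ x ∈ Finset.range t, sz (s + x) = t * a := by
        rw [Finset.sum_congr rfl (g := fun _ => a)
          (fun i _ => if_neg (by omega))]
        simp
      have e4 : ∑ x ∈ Finset.range t, (D (s + x)).card = ∑ u : Fin t, (D₀ u).card := by
        rw [← Fin.sum_univ_eq_sum_range (fun x => (D (s + x)).card)]
        refine Finset.sum_congr rfl (fun u _ => ?_)
        rw [hDt]
      rw [e3, e4]
      omega
    rw [e1]
    omega
  have hs' : (0:ℝ) < s := by exact_mod_cast hs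
  obtain ⟨A, g1, g2, g3⟩ := greedy_seed Q S hQ Hn sz hszge (s + t) hSpos D
    (by
      intro i _
      rcases hDor i with h | ⟨u, _, h⟩
      · rw [h]; exact Finset.empty_subset _
      · rw [h]; exact d1 u)
    (by
      intro i _ j _ hij
      rcases hDor i with h | ⟨u, hu, h⟩
      · rw [h]; exact Finset.disjoint_empty_left _
      · rcases hDor j with h' | ⟨v, hv, h'⟩
        · rw [h']; exact Finset.disjoint_empty_right _
        · rw [h, h']
          apply d3
          rintro rfl
          exact hij (hu.trans hv.symm))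
    (by omega) (by
      intro i hi F hF
      have tb : ((8:ℝ) / 2 ^ b) ^ b ≤ 1 / (4 * s) :=
        term_bound s b b hs (h2.trans (Nat.pow_le_pow_right (by norm_num)
          (Nat.mul_le_mul_right b hab))) (ha.trans hab)
      have ta : ((8:ℝ) / 2 ^ b) ^ a ≤ 1 / (4 * s) :=
        term_bound s b a hs (by rw [mul_comm b a]; exact h2) (ha.trans hab)
      have hFs : F ⊆ Finset.range s := by
        intro j hj
        rw [Finset.mem_range]
        obtain ⟨h3, h4⟩ := hF j hj
        rcases h4 with h4 | h4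
        · omega
        · exact h4
      have hFc : (F.card : ℝ) ≤ s := by
        have := Finset.card_le_card hFs
        rw [Finset.card_range] at this
        exact_mod_cast this
      have : ∑ j ∈ F, ((8:ℝ) / 2 ^ (sz j)) ^ (sz i) ≤ ∑ j ∈ F, 1 / (4 * (s:ℝ)) := by
        refine Finset.sum_le_sum (fun j hj => ?_)
        have hj' : j < s := Finset.mem_range.mp (hFs hj)
        by_cases his : i < s
        · simp only [hsz, if_pos his, if_pos hj']
          exact tb
        · simp only [hsz, if_neg his, if_pos hj']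
          exact ta
      rw [Finset.sum_const, nsmul_eq_mul] at this
      have h4 : (F.card : ℝ) * (1 / (4 * s)) ≤ s * (1 / (4 * s)) := by
        apply mul_le_mul_of_nonneg_right hFc (by positivity)
      have h5 : (s:ℝ) * (1 / (4 * s)) = 1 / 4 := by field_simp
      linarith)
  -- the model
  set idx : Fin t ⊕ Fin s → ℕ := fun x => Sum.elim (fun u : Fin t => s + (u:ℕ)) (fun w : Fin s => (w:ℕ)) x
    with hidx
  have hidxlt : ∀ x, idx x < s + t := by
    rintro (u | w)
    · have := u.2; simp only [hidx, Sum.elim_inl]; omega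
    · have := w.2; simp only [hidx, Sum.elim_inr]; omega
  have hidxinj : ∀ x y, idx x = idx y → x = y := by
    rintro (u | u) (w | w) h
    · simp only [hidx, Sum.elim_inl] at h
      congr 1
      exact Fin.ext (by omega)
    · simp only [hidx, Sum.elim_inl, Sum.elim_inr] at h
      have := w.2
      omega
    · simp only [hidx, Sum.elim_inl, Sum.elim_inr] at h
      have := u.2
      omega
    · simp only [hidx, Sum.elim_inr] at h
      congr 1
      exact Fin.ext h
  have hadj : ∀ x y, (addDominant H₀ s).Adj x y → ∃ p ∈ A (idx x), ∃ q ∈ A (idx y), Q.Adj p q := by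
    -- it suffices to treat idx x < idx y
    have key : ∀ x y, (addDominant H₀ s).Adj x y → idx x < idx y →
        ∃ p ∈ A (idx x), ∃ q ∈ A (idx y), Q.Adj p q := by
      intro x y hxy hlt
      rcases x with u | u
      · rcases y with w | w
        · -- both in `H₀`
          have h3 : H₀.Adj u w := hxy.2 u w rfl rfl
          obtain ⟨p, hp, q, hq, hpq⟩ := d4 u w h3
          have hAu := (g1 (idx (Sum.inl u)) (hidxlt _)).2.2
          have hAw := (g1 (idx (Sum.inl w)) (hidxlt _)).2.2
          refine ⟨p, hAu ?_, q, hAw ?_, hpq⟩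
          · change p ∈ D (s + u)
            rw [hDt]; exact hp
          · change q ∈ D (s + w)
            rw [hDt]; exact hq
        · refine g3 _ (hidxlt _) _ hlt ?_
          left
          exact w.2
      · refine g3 _ (hidxlt _) _ hlt ?_
        right
        exact u.2
    intro x y hxy
    rcases lt_trichotomy (idx x) (idx y) with h | h | h
    · exact key x y hxy h
    · exact absurd (hidxinj x y h) hxy.1
    · obtain ⟨p, hp, q, hq, hpq⟩ := key y x hxy.symm h
      exact ⟨q, hq, p, hp, hpq.symm⟩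
  refine ⟨fun x => ⋃ y ∈ (A (idx x) : Set V), φ y, ?_, ?_, ?_⟩
  · intro x
    obtain ⟨hAS, hAc, _⟩ := g1 (idx x) (hidxlt x)
    exact union_connected Q G (A (idx x) : Set V) φ (fun y hy => m1 y (hAS hy))
      (fun y hy z hz => m3 y (hAS hy) z (hAS hz)) hAc
  · intro x y hxy
    have hne : idx x ≠ idx y := fun h => hxy (hidxinj x y h)
    rw [Set.disjoint_left]
    intro v hv hv'
    rw [Set.mem_iUnion₂] at hv hv'
    obtain ⟨p, hp, hvp⟩ := hv
    obtain ⟨q, hq, hvq⟩ := hv'
    have hpS := (g1 (idx x) (hidxlt x)).1 hp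
    have hqS := (g1 (idx y) (hidxlt y)).1 hq
    have hpq : p ≠ q := by
      rintro rfl
      exact Finset.disjoint_left.mp (g2 (idx x) (hidxlt x) (idx y) (hidxlt y) hne) hp hq
    exact Set.disjoint_left.mp (m2 p hpS q hqS hpq) hvp hvq
  · intro x y hxy
    obtain ⟨p, hp, q, hq, hpq⟩ := hadj x y hxy
    obtain ⟨v, hv, w, hw, hvw⟩ := m3 p ((g1 (idx x) (hidxlt x)).1 hp) q
      ((g1 (idx y) (hidxlt y)).1 hq) hpq
    exact ⟨v, Set.mem_iUnion₂.mpr ⟨p, hp, hv⟩, w, Set.mem_iUnion₂.mpr ⟨q, hq, hw⟩, hvw⟩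

end General

lemma isMinor_addDominant_left {t s n : ℕ} {H₀ : SimpleGraph (Fin t)} {G : SimpleGraph (Fin n)}
    (h : IsMinor (addDominant H₀ s) G) : IsMinor H₀ G := by
  refine isMinor_of_hom (fun u => Sum.inl u) Sum.inl_injective ?_ h
  intro u v huv
  refine ⟨fun h => huv.ne (Sum.inl_injective h), ?_⟩
  intro u' v' hu hv
  rw [← Sum.inl_injective hu, ← Sum.inl_injective hv]
  exact huv

/-- For every graph `H₀` on `t` vertices, adding `s` dominant vertices gives the threshold
`f(H₀) + √(s t log s)` up to constants. -/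
theorem general (s t : ℕ) (hs : 2 ≤ s) (hst : s ≤ t) (ht : 10 ^ 6 ≤ t) (H₀ : SimpleGraph (Fin t)) :
    1 / 32 * (threshold H₀ + Real.sqrt (s * t * Real.log s)) ≤ threshold (addDominant H₀ s) ∧
    threshold (addDominant H₀ s)
      ≤ 20000 * (threshold H₀ + Real.sqrt (s * t * Real.log s)) := by
  classical
  obtain ⟨X, hX⟩ : ∃ X : ℝ, X = Real.sqrt (s * t * Real.log s) := ⟨_, rfl⟩
  have hX0 : 0 ≤ X := by rw [hX]; exact Real.sqrt_nonneg _
  have ht' : (10:ℝ) ^ 6 ≤ t := by exact_mod_cast ht
  have ht0 : (0:ℝ) < t := by linarith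
  -- the set for `H` is non-empty
  have hne := (threshold_upper t s t (by omega) hs hst H₀ (fun v => by
    refine (Finset.card_le_card (Finset.subset_univ _)).trans ?_
    simp)).1
  have hne0 : ∃ c, ∀ n : ℕ, 0 < n → ∀ G : SimpleGraph (Fin n), c ≤ avgDeg G → IsMinor H₀ G := by
    obtain ⟨c, hc⟩ := hne
    exact ⟨c, fun n hn G hG => isMinor_addDominant_left (hc n hn G hG)⟩
  rw [← hX]
  have hmono : threshold H₀ ≤ threshold (addDominant H₀ s) := by
    unfold threshold
    apply csInf_le_csInf
    · refine ⟨0, fun b hb => ?_⟩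
      by_contra hneg
      push Not at hneg
      have h1 := hb 1 one_pos ⊥ (by
        have : avgDeg (⊥ : SimpleGraph (Fin 1)) = 0 := by simp [avgDeg]
        rw [this]; exact hneg.le)
      have := card_le_of_isMinor h1
      rw [Fintype.card_fin] at this
      omega
    · obtain ⟨c, hc⟩ := hne
      exact ⟨c, hc⟩
    · intro c hc n hn G hG
      exact isMinor_addDominant_left (hc n hn G hG)
  have hft : (t:ℝ) - 2 ≤ threshold H₀ := by
    have h1 : ¬ IsMinor H₀ (⊤ : SimpleGraph (Fin (t - 1))) := by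
      intro h2
      have := card_le_of_isMinor h2
      rw [Fintype.card_fin] at this
      omega
    have h2 := le_threshold _ (show 0 < t - 1 by omega) _ h1 hne0
    rw [avgDeg_top _ (by omega), Nat.cast_sub (by omega)] at h2
    push_cast at h2
    linarith
  refine ⟨?_, ?_⟩
  · obtain ⟨n, hn, G, hG1, hG2⟩ := threshold_lower s t hs hst ht
    have h1 := hG1.trans (le_threshold _ hn G (hG2 H₀) hne)
    rw [← hX] at h1
    linarith
  · obtain ⟨f, hf⟩ : ∃ f : ℝ, f = threshold H₀ + 1 := ⟨_, rfl⟩
    have hfpos : 0 < f := by linarith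
    have hforce : ∀ n : ℕ, 0 < n → ∀ G : SimpleGraph (Fin n), f ≤ avgDeg G → IsMinor H₀ G := by
      intro n hn G hG
      by_contra hno
      have := le_threshold H₀ hn G hno hne0
      linarith
    obtain ⟨m, hm⟩ : ∃ m : ℕ, m = ⌈2 * f⌉₊ + 1 := ⟨_, rfl⟩
    have hm1 : 2 * f + 1 ≤ m := by
      rw [hm]; push_cast
      have := Nat.le_ceil (2 * f)
      linarith
    have hm2 : (m:ℝ) ≤ 2 * f + 2 := by
      rw [hm]; push_cast
      have := (Nat.ceil_lt_add_one (show 0 ≤ 2 * f by linarith)).le
      linarith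
    obtain ⟨a, b, ha, hab, _, hb, hsum⟩ := choose_ab 2 s t le_rfl hs hst
    have hf2 : ∀ n : ℕ, 0 < n → ∀ G : SimpleGraph (Fin n),
        (480:ℝ) * (t * a + s * b + m) ≤ avgDeg G → IsMinor (addDominant H₀ s) G := by
      intro n hn G hG
      refine upper_general G s t a b m H₀ f hforce (by omega) (by linarith) (by omega) (by omega)
        ha hab hb (by simpa using hn) ?_
      rw [Fintype.card_fin]
      have hn' : (0:ℝ) < n := by exact_mod_cast hn
      unfold avgDeg at hG
      rw [le_div_iff₀ hn'] at hG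
      have h3 : ((E2 G Finset.univ : ℕ) : ℝ) = 2 * (G.edgeSet.ncard : ℝ) := by
        exact_mod_cast E2_eq G
      have h4 : ((2 * (240 * (t * a + s * b + m)) * n : ℕ) : ℝ)
          ≤ ((E2 G Finset.univ : ℕ) : ℝ) := by
        rw [h3]
        push_cast
        linarith
      exact_mod_cast h4
    refine (threshold_le _ ?_ _ hf2).trans ?_
    · rw [Fintype.card_sum, Fintype.card_fin, Fintype.card_fin]; omega
    · rw [← hX] at hsum
      have hlog2' : Real.log 2 < (0.7:ℝ) := by
        have := Real.log_two_lt_d9; linarith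
      have h1 : Real.sqrt (Real.log ((2:ℕ):ℝ)) ≤ 1 := by
        rw [Real.sqrt_le_left (by norm_num)]
        push_cast
        linarith
      have h2 : (t:ℝ) * Real.sqrt (Real.log ((2:ℕ):ℝ)) ≤ t * 1 :=
        mul_le_mul_of_nonneg_left h1 ht0.le
      linarith

end Pool.Agent.H56.Minor
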