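import Mathlib
import Pool.Agent.H56.MinorDefs
import Pool.Agent.H56.General1
import Pool.Agent.H56.Final2

set_option autoImplicit false
set_option linter.unusedSectionVars false

namespace Pool.Agent.H56.Minor

open Finset

lemma threshold_nonneg {t : ℕ} (H₀ : SimpleGraph (Fin t)) (ht : 2 ≤ t) : 0 ≤ threshold H₀ := by
  unfold threshold
  apply Real.sInf_nonneg
  intro b hb
  by_contra hneg
  push Not at hneg
  have h1 := hb 1 one_pos ⊥ (by
    have : avgDeg (⊥ : SimpleGraph (Fin 1)) = 0 := by simp [avgDeg]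
    rw [this]; exact hneg.le)
  have := card_le_of_isMinor h1
  rw [Fintype.card_fin] at this
  omega

/-- The main theorem, final form. -/
theorem main3 :
    ∃ c C : ℝ, 0 < c ∧ 0 < C ∧ ∃ d₀ : ℕ, ∀ d s t : ℕ, d₀ ≤ d → d ≤ s → s ≤ t → 2 * d + 2 ≤ t →
      (∀ H₀ : SimpleGraph (Fin t), (∀ v, (H₀.neighborSet v).ncard = d) →
        (c * (threshold H₀ + Real.sqrt (s * t * Real.log s)) ≤ threshold (addDominant H₀ s) ∧
          threshold (addDominant H₀ s) ≤ C * (threshold H₀ + Real.sqrt (s * t * Real.log s))) ∧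
        (c * (Real.sqrt (Real.log (2 + d / Real.log t)) * t + Real.sqrt (s * t * Real.log s))
            ≤ threshold (addDominant H₀ s) ∧
          threshold (addDominant H₀ s)
            ≤ C * (Real.sqrt (Real.log d) * t + Real.sqrt (s * t * Real.log s)))) ∧
      (Even (t * d) →
        (∃ H₀ : SimpleGraph (Fin t), (∀ v, (H₀.neighborSet v).ncard = d) ∧
          c * (Real.sqrt (Real.log d) * t + Real.sqrt (s * t * Real.log s))
            ≤ threshold (addDominant H₀ s)) ∧
        (∃ H₀ : SimpleGraph (Fin t), (∀ v, (H₀.neighborSet v).ncard = d) ∧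
          threshold (addDominant H₀ s)
            ≤ C * (Real.sqrt (Real.log (2 + d / Real.log t)) * t
                + Real.sqrt (s * t * Real.log s)))) := by
  classical
  obtain ⟨c₁, C₁, hc₁, hC₁, d₁, hmain⟩ := main2
  refine ⟨min c₁ (1 / 32), max C₁ 20000, by positivity, by positivity, max d₁ (10 ^ 6), ?_⟩
  intro d s t hd hds hst hdt
  have hd1 : d₁ ≤ d := le_trans (le_max_left _ _) hd
  have hd2 : 10 ^ 6 ≤ d := le_trans (le_max_right _ _) hd
  clear hd
  obtain ⟨hA, hB⟩ := hmain d s t hd1 hds hst hdt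
  obtain ⟨X, hX⟩ : ∃ X : ℝ, X = Real.sqrt (s * t * Real.log s) := ⟨_, rfl⟩
  have hX0 : 0 ≤ X := by rw [hX]; exact Real.sqrt_nonneg _
  have hL0 : 0 ≤ Real.sqrt (Real.log (2 + d / Real.log t)) * t := by positivity
  have hD0 : 0 ≤ Real.sqrt (Real.log d) * t := by positivity
  rw [← hX] at hA hB ⊢
  have hc1 : min c₁ (1 / 32) ≤ c₁ := min_le_left _ _
  have hc2 : min c₁ (1 / 32) ≤ 1 / 32 := min_le_right _ _
  have hC1 : C₁ ≤ max C₁ 20000 := le_max_left _ _
  have hC2 : (20000:ℝ) ≤ max C₁ 20000 := le_max_right _ _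
  refine ⟨fun H₀ hreg => ⟨⟨?_, ?_⟩, ⟨?_, ?_⟩⟩, fun hev => ⟨?_, ?_⟩⟩
  · have hg := (general s t (by omega) hst (by omega) H₀).1
    rw [← hX] at hg
    refine le_trans ?_ hg
    apply mul_le_mul_of_nonneg_right hc2
    have := threshold_nonneg H₀ (by omega)
    linarith
  · have hg := (general s t (by omega) hst (by omega) H₀).2
    rw [← hX] at hg
    refine hg.trans ?_
    apply mul_le_mul_of_nonneg_right hC2
    have := threshold_nonneg H₀ (by omega)
    linarith
  · exact le_trans (mul_le_mul_of_nonneg_right hc1 (by linarith)) (hA H₀ hreg).1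
  · exact le_trans (hA H₀ hreg).2 (mul_le_mul_of_nonneg_right hC1 (by linarith))
  · obtain ⟨H₀, hreg, h⟩ := (hB hev).1
    exact ⟨H₀, hreg, le_trans (mul_le_mul_of_nonneg_right hc1 (by linarith)) h⟩
  · obtain ⟨H₀, hreg, h⟩ := (hB hev).2
    exact ⟨H₀, hreg, le_trans h (mul_le_mul_of_nonneg_right hC1 (by linarith))⟩

end Pool.Agent.H56.Minor
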