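import Pool.Agent.H56.MassDefs

/-!
Mass distribution function of a nonincreasing summable sequence of lengths: basic definitions and
the combinatorial part (upper bound, halving, packing lemma).
-/

namespace Pool.Agent.H56.Mass

open Finset Filter Topology

/-- working version of `Splits` with a partial colouring -/
def Cov (l : ℕ → ℝ) (ε : ℝ) (N : ℕ) : Prop :=
  ∃ γ : ℕ → ℕ, ∀ i < N, ε ≤ ∑' j, if γ j = i then l j else 0

/-- number of lengths at least `t` -/
noncomputable def cnt (l : ℕ → ℝ) (t : ℝ) : ℕ := Set.ncard {j | t ≤ l j}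

/-- truncated total length -/
noncomputable def V (l : ℕ → ℝ) (t : ℝ) : ℝ := ∑' j, min (l j) t

/-- total length of the lengths smaller than `t` -/
noncomputable def sm (l : ℕ → ℝ) (t : ℝ) : ℝ := ∑' j, l (j + cnt l t)

/-- the standing assumptions -/
structure Good (l : ℕ → ℝ) : Prop where
  pos : ∀ j, 0 < l j
  anti : Antitone l
  summ : Summable l

variable {l : ℕ → ℝ}

lemma Good.tendsto (h : Good l) : Tendsto l atTop (𝓝 0) := h.summ.tendsto_atTop_zero

lemma lt_cnt_iff (h : Good l) {t : ℝ} (ht : 0 < t) (j : ℕ) : j < cnt l t ↔ t ≤ l j := by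
  classical
  have hev : ∀ᶠ j in atTop, l j < t := h.tendsto.eventually_lt_const ht
  obtain ⟨K, hK⟩ := eventually_atTop.1 hev
  have hex : ∃ k, l k < t := ⟨K, hK K le_rfl⟩
  set k := Nat.find hex with hk
  have hset : {j | t ≤ l j} = Set.Iio k := by
    ext j
    constructor
    · intro (hj : t ≤ l j)
      by_contra hc
      have hc' : k ≤ j := not_lt.1 hc
      have h1 := Nat.find_spec hex
      have h2 := h.anti hc'
      have h3 : l (Nat.find hex) < t := h1
      rw [← hk] at h3
      linarith
    · intro (hj : j < k)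
      have := Nat.find_min hex hj
      exact not_lt.1 this
  have hc : cnt l t = k := by
    unfold cnt
    rw [hset]
    have : (Set.Iio k) = ((Finset.range k : Finset ℕ) : Set ℕ) := by
      ext x; simp
    rw [this, Set.ncard_coe_finset]
    simp
  rw [hc]
  have := Set.ext_iff.1 hset j
  simp only [Set.mem_ofPred_eq, Set.mem_Iio] at this
  exact this.symm

lemma cnt_le_iff (h : Good l) {t : ℝ} (ht : 0 < t) (j : ℕ) : cnt l t ≤ j ↔ l j < t := by
  rw [← not_lt, lt_cnt_iff h ht, not_le]

lemma cnt_anti (h : Good l) {s t : ℝ} (hs : 0 < s) (hst : s ≤ t) : cnt l t ≤ cnt l s := by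
  by_contra hc
  rw [not_le] at hc
  have h1 := (lt_cnt_iff h (lt_of_lt_of_le hs hst) (cnt l s)).1 hc
  have h2 := (cnt_le_iff h hs (cnt l s)).1 le_rfl
  linarith

lemma summable_min (h : Good l) {t : ℝ} (ht : 0 < t) : Summable (fun j => min (l j) t) :=
  Summable.of_nonneg_of_le (fun j => le_min (h.pos j).le ht.le) (fun _ => min_le_left _ _) h.summ

lemma summable_shift (h : Good l) (k : ℕ) : Summable (fun j => l (j + k)) :=
  (summable_nat_add_iff k).2 h.summ

lemma sm_nonneg (h : Good l) (t : ℝ) : 0 ≤ sm l t := tsum_nonneg fun _ => (h.pos _).le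

lemma sm_pos (h : Good l) (t : ℝ) : 0 < sm l t :=
  (summable_shift h _).tsum_pos (fun _ => (h.pos _).le) 0 (h.pos _)

lemma V_eq (h : Good l) {t : ℝ} (ht : 0 < t) : V l t = t * cnt l t + sm l t := by
  unfold V sm
  rw [← (summable_min h ht).sum_add_tsum_nat_add (cnt l t)]
  congr 1
  · have : ∀ j ∈ Finset.range (cnt l t), min (l j) t = t := by
      intro j hj
      exact min_eq_right ((lt_cnt_iff h ht j).1 (Finset.mem_range.1 hj))
    rw [Finset.sum_congr rfl this]
    simp [mul_comm]
  · congr 1
    ext j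
    exact min_eq_left ((cnt_le_iff h ht _).1 (Nat.le_add_left _ _)).le

/-- V grows at least with slope cnt at the right end -/
lemma V_sub_ge (h : Good l) {s t : ℝ} (hs : 0 < s) (hst : s ≤ t) :
    (t - s) * cnt l t ≤ V l t - V l s := by
  have ht := lt_of_lt_of_le hs hst
  unfold V
  rw [← (summable_min h ht).tsum_sub (summable_min h hs)]
  have hsum := (summable_min h ht).sub (summable_min h hs)
  have h1 : ∑ j ∈ Finset.range (cnt l t), (min (l j) t - min (l j) s) ≤
      ∑' j, (min (l j) t - min (l j) s) :=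
    hsum.sum_le_tsum _ (fun j _ => sub_nonneg.2 (min_le_min_left _ hst))
  refine le_trans (le_of_eq ?_) h1
  have : ∀ j ∈ Finset.range (cnt l t), (min (l j) t - min (l j) s) = t - s := by
    intro j hj
    have hj' := (lt_cnt_iff h ht j).1 (Finset.mem_range.1 hj)
    rw [min_eq_right hj', min_eq_right (hst.trans hj')]
  rw [Finset.sum_congr rfl this, Finset.sum_const, Finset.card_range, nsmul_eq_mul]
  ring

/-- V grows at most with slope cnt at the left end -/
lemma V_sub_le (h : Good l) {s t : ℝ} (hs : 0 < s) (hst : s ≤ t) :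
    V l t - V l s ≤ (t - s) * cnt l s := by
  have ht := lt_of_lt_of_le hs hst
  unfold V
  rw [← (summable_min h ht).tsum_sub (summable_min h hs)]
  have h2 : ∑' j, (min (l j) t - min (l j) s) =
      ∑ j ∈ Finset.range (cnt l s), (min (l j) t - min (l j) s) := by
    apply tsum_eq_sum
    intro j hj
    rw [Finset.mem_range, not_lt] at hj
    have hj' := (cnt_le_iff h hs j).1 hj
    rw [min_eq_left hj'.le, min_eq_left (hj'.le.trans hst), sub_self]
  rw [h2]
  calc ∑ j ∈ Finset.range (cnt l s), (min (l j) t - min (l j) s)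
      ≤ ∑ j ∈ Finset.range (cnt l s), (t - s) := by
        apply Finset.sum_le_sum
        intro j hj
        have hj' := (lt_cnt_iff h hs j).1 (Finset.mem_range.1 hj)
        rw [min_eq_right hj']
        linarith [min_le_right (l j) t]
    _ = (t - s) * cnt l s := by
        rw [Finset.sum_const, Finset.card_range, nsmul_eq_mul]
        ring

lemma V_nonneg (h : Good l) {t : ℝ} (ht : 0 < t) : 0 ≤ V l t :=
  tsum_nonneg fun j => le_min (h.pos j).le ht.le

/-- concavity: V(x t) >= x V(t) for x ≤ 1 -/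
lemma V_mul_ge (h : Good l) {x t : ℝ} (hx : 0 < x) (hx1 : x ≤ 1) (ht : 0 < t) :
    x * V l t ≤ V l (x * t) := by
  unfold V
  rw [← tsum_mul_left]
  apply Summable.tsum_le_tsum _ ((summable_min h ht).mul_left x) (summable_min h (mul_pos hx ht))
  intro j
  apply le_min
  · calc x * min (l j) t ≤ 1 * min (l j) t := by
          apply mul_le_mul_of_nonneg_right hx1 (le_min (h.pos j).le ht.le)
      _ ≤ l j := by rw [one_mul]; exact min_le_left _ _
  · exact mul_le_mul_of_nonneg_left (min_le_right _ _) hx.le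

lemma V_tendsto_zero (h : Good l) : Tendsto (V l) (𝓝[>] 0) (𝓝 0) := by
  have key : Tendsto (fun t : ℝ => ∑' j, min (l j) t) (𝓝[>] 0) (𝓝 (∑' j : ℕ, (0:ℝ))) := by
   apply tendsto_tsum_of_dominated_convergence h.summ
   · intro j
     have h1 : Tendsto (fun t : ℝ => min (l j) t) (𝓝[>] 0) (𝓝 (min (l j) 0)) := by
       apply Tendsto.min tendsto_const_nhds
       exact tendsto_nhdsWithin_of_tendsto_nhds tendsto_id
     rwa [min_eq_right (h.pos j).le] at h1
   · filter_upwards [self_mem_nhdsWithin] with t ht j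
     have ht' : (0:ℝ) < t := ht
     rw [Real.norm_eq_abs, abs_of_nonneg (le_min (h.pos j).le ht'.le)]
     exact min_le_left _ _
  rw [tsum_zero] at key
  exact key

/-! ### Covers -/

lemma summable_ite (h : Good l) (γ : ℕ → ℕ) (i : ℕ) :
    Summable (fun j => if γ j = i then l j else 0) := by
  apply Summable.of_nonneg_of_le _ _ h.summ
  · intro j; split_ifs; exacts [(h.pos j).le, le_rfl]
  · intro j; split_ifs; exacts [le_rfl, (h.pos j).le]

lemma Cov.mono {ε : ℝ} {M N : ℕ} (hMN : M ≤ N) (hc : Cov l ε N) : Cov l ε M := by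
  obtain ⟨γ, hγ⟩ := hc
  exact ⟨γ, fun i hi => hγ i (lt_of_lt_of_le hi hMN)⟩

lemma Cov.le_V (h : Good l) {ε : ℝ} (hε : 0 < ε) {N : ℕ} (hc : Cov l ε N) :
    (N : ℝ) * ε ≤ V l ε := by
  classical
  obtain ⟨γ, hγ⟩ := hc
  have hsm : ∀ i, Summable (fun j => if γ j = i then min (l j) ε else 0) := by
    intro i
    apply Summable.of_nonneg_of_le _ _ (summable_min h hε)
    · intro j; split_ifs; exacts [le_min (h.pos j).le hε.le, le_rfl]
    · intro j; split_ifs; exacts [le_rfl, le_min (h.pos j).le hε.le]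
  have key : ∀ i ∈ Finset.range N, ε ≤ ∑' j, if γ j = i then min (l j) ε else 0 := by
    intro i hi
    rw [Finset.mem_range] at hi
    by_cases hex : ∃ j, γ j = i ∧ ε ≤ l j
    · obtain ⟨j, hj1, hj2⟩ := hex
      calc ε = (if γ j = i then min (l j) ε else 0) := by rw [if_pos hj1, min_eq_right hj2]
        _ ≤ _ := (hsm i).le_tsum j (fun j' _ => by
            split_ifs; exacts [le_min (h.pos j').le hε.le, le_rfl])
    · push Not at hex
      refine (hγ i hi).trans (le_of_eq ?_)
      congr 1
      ext j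
      by_cases hj : γ j = i
      · rw [if_pos hj, if_pos hj, min_eq_left (hex j hj).le]
      · rw [if_neg hj, if_neg hj]
  calc (N:ℝ) * ε = ∑ i ∈ Finset.range N, ε := by simp
    _ ≤ ∑ i ∈ Finset.range N, ∑' j, (if γ j = i then min (l j) ε else 0) := Finset.sum_le_sum key
    _ = ∑' j, ∑ i ∈ Finset.range N, (if γ j = i then min (l j) ε else 0) := by
        rw [Summable.tsum_finsetSum (fun i _ => hsm i)]
    _ ≤ V l ε := by
        unfold V
        apply Summable.tsum_le_tsum _ (summable_sum fun i _ => hsm i) (summable_min h hε)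
        intro j
        rw [Finset.sum_ite_eq]
        split_ifs
        · exact le_rfl
        · exact le_min (h.pos j).le hε.le

lemma splits_iff (h : Good l) {ε : ℝ} {N : ℕ} (hN : 0 < N) : Splits l ε N ↔ Cov l ε N := by
  classical
  constructor
  · rintro ⟨γ, hγ⟩
    refine ⟨fun j => (γ j : ℕ), fun i hi => ?_⟩
    refine (hγ ⟨i, hi⟩).trans (le_of_eq ?_)
    congr 1
    ext j
    have : ((γ j : ℕ) = i) ↔ (γ j = ⟨i, hi⟩) := by
      constructor
      · intro hh; exact Fin.ext hh
      · intro hh; rw [hh]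
    simp only [this]
  · rintro ⟨γ, hγ⟩
    refine ⟨fun j => if hj : γ j < N then ⟨γ j, hj⟩ else ⟨0, hN⟩, fun i => ?_⟩
    refine (hγ i i.2).trans ?_
    apply Summable.tsum_le_tsum _ (summable_ite h γ i)
    · apply Summable.of_nonneg_of_le _ _ h.summ
      · intro j; split_ifs <;> first | exact (h.pos j).le | exact le_rfl
      · intro j; split_ifs <;> first | exact (h.pos j).le | exact le_rfl
    · intro j
      by_cases hj : γ j = i
      · rw [if_pos hj]
        have hlt : γ j < N := by rw [hj]; exact i.2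
        have hlt' : (if hj : γ j < N then (⟨γ j, hj⟩ : Fin N) else ⟨0, hN⟩) = i := by
          rw [dif_pos hlt]
          exact Fin.ext hj
        show l j ≤ if (if hj : γ j < N then (⟨γ j, hj⟩ : Fin N) else ⟨0, hN⟩) = i then l j else 0
        rw [if_pos hlt']
      · rw [if_neg hj]
        split_ifs <;> first | exact (h.pos j).le | exact le_rfl

lemma bddAbove_splits (h : Good l) {ε : ℝ} (hε : 0 < ε) : BddAbove {N : ℕ | Splits l ε N} := by
  refine ⟨⌊V l ε / ε⌋₊, ?_⟩
  intro N hN
  rcases Nat.eq_zero_or_pos N with h0 | h0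
  · rw [h0]; exact Nat.zero_le _
  · have h1 := Cov.le_V h hε ((splits_iff h h0).1 hN)
    apply Nat.le_floor
    rw [le_div_iff₀ hε]
    exact h1

lemma le_massDist (h : Good l) {ε : ℝ} (hε : 0 < ε) {N : ℕ} (hc : Cov l ε N) :
    N ≤ massDist l ε := by
  rcases Nat.eq_zero_or_pos N with h0 | h0
  · rw [h0]; exact Nat.zero_le _
  · exact le_csSup (bddAbove_splits h hε) ((splits_iff h h0).2 hc)

lemma massDist_cov (h : Good l) {ε : ℝ} (hε : 0 < ε) : Cov l ε (massDist l ε) := by
  rcases Nat.eq_zero_or_pos (massDist l ε) with h0 | h0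
  · rw [h0]; exact ⟨fun _ => 0, fun i hi => absurd hi (Nat.not_lt_zero _)⟩
  · have hne : {N : ℕ | Splits l ε N}.Nonempty := by
      by_contra hc
      rw [Set.not_nonempty_iff_eq_empty] at hc
      unfold massDist at h0
      rw [hc] at h0
      simp at h0
    have := Nat.sSup_mem hne (bddAbove_splits h hε)
    exact (splits_iff h h0).1 this

lemma massDist_le (h : Good l) {ε : ℝ} (hε : 0 < ε) : (massDist l ε : ℝ) * ε ≤ V l ε :=
  Cov.le_V h hε (massDist_cov h hε)

end Pool.Agent.H56.Mass
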