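import Pool.Agent.H56.Mass1

/-!
Mass distribution: halving inequality and packing lemma.
-/

namespace Pool.Agent.H56.Mass

open Finset Filter Topology

variable {l : ℕ → ℝ}

lemma le_tsum_ite (h : Good l) {κ : ℕ → ℕ} {i j : ℕ} (hj : κ j = i) :
    l j ≤ ∑' j', if κ j' = i then l j' else 0 := by
  calc l j = (if κ j = i then l j else 0) := by rw [if_pos hj]
    _ ≤ _ := (summable_ite h κ i).le_tsum j (fun j' _ => by
        split_ifs; exacts [(h.pos j').le, le_rfl])

lemma halving (h : Good l) {ε : ℝ} (hε : 0 < ε) {N : ℕ} (hc : Cov l (ε / 2) N) :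
    Cov l ε (cnt l ε + (N - cnt l ε) / 2) := by
  classical
  obtain ⟨γ, hγ⟩ := hc
  set n := cnt l ε with hn
  let p : ℕ → Prop := fun i => i < N ∧ ∀ j, γ j = i → l j < ε
  have hcard : ∀ hf : (setOf p).Finite, N - n ≤ hf.toFinset.card := by
    intro hf
    have hsub : Finset.range N ⊆ hf.toFinset ∪ (Finset.range n).image γ := by
      intro i hi
      rw [Finset.mem_range] at hi
      by_cases hp : p i
      · exact Finset.mem_union_left _ ((Set.Finite.mem_toFinset hf).2 hp)
      · apply Finset.mem_union_right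
        have : ∃ j, γ j = i ∧ ε ≤ l j := by
          by_contra hcon
          push Not at hcon
          exact hp ⟨hi, hcon⟩
        obtain ⟨j, hj1, hj2⟩ := this
        rw [Finset.mem_image]
        exact ⟨j, Finset.mem_range.2 ((lt_cnt_iff h hε j).2 hj2), hj1⟩
    have h1 := Finset.card_le_card hsub
    have h2 := Finset.card_union_le hf.toFinset ((Finset.range n).image γ)
    have h3 : ((Finset.range n).image γ).card ≤ n := by
      simpa using Finset.card_image_le (s := Finset.range n) (f := γ)
    rw [Finset.card_range] at h1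
    omega
  refine ⟨fun j => if j < n then j else if p (γ j) then n + Nat.count p (γ j) / 2 else n + N, ?_⟩
  intro i hi
  by_cases hin : i < n
  · have h1 := (lt_cnt_iff h hε i).1 hin
    refine h1.trans ?_
    apply le_tsum_ite h (κ := fun j => if j < n then j else if p (γ j) then
      n + Nat.count p (γ j) / 2 else n + N)
    simp only [if_pos hin]
  · rw [not_lt] at hin
    obtain ⟨q, rfl⟩ := Nat.exists_eq_add_of_le hin
    have hq : 2 * q + 1 < N - n := by omega
    have e0 := Nat.count_nth (p := p) (n := 2 * q) (fun hf => lt_of_lt_of_le (by omega) (hcard hf))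
    have e1 := Nat.count_nth (p := p) (n := 2 * q + 1)
      (fun hf => lt_of_lt_of_le (by omega) (hcard hf))
    have p0 : p (Nat.nth p (2 * q)) :=
      Nat.nth_mem (2 * q) (fun hf => lt_of_lt_of_le (by omega) (hcard hf))
    have p1 : p (Nat.nth p (2 * q + 1)) :=
      Nat.nth_mem (2 * q + 1) (fun hf => lt_of_lt_of_le (by omega) (hcard hf))
    set i0 := Nat.nth p (2 * q) with hi0
    set i1 := Nat.nth p (2 * q + 1) with hi1
    have hne : i0 ≠ i1 := by
      intro hh
      rw [← hh] at e1
      omega
    have g0 := hγ i0 p0.1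
    have g1 := hγ i1 p1.1
    have hle : (∑' j, if γ j = i0 then l j else 0) + (∑' j, if γ j = i1 then l j else 0) ≤
        ∑' j, if (if j < n then j else if p (γ j) then n + Nat.count p (γ j) / 2 else n + N)
          = n + q then l j else 0 := by
      rw [← (summable_ite h γ i0).tsum_add (summable_ite h γ i1)]
      apply Summable.tsum_le_tsum _ ((summable_ite h γ i0).add (summable_ite h γ i1))
        (summable_ite h (fun j => if j < n then j else if p (γ j) then
          n + Nat.count p (γ j) / 2 else n + N) (n + q))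
      intro j
      by_cases h0 : γ j = i0
      · have h1 : ¬ (γ j = i1) := by rw [h0]; exact hne
        have hjn : ¬ j < n := by
          rw [not_lt]
          exact (cnt_le_iff h hε j).2 (p0.2 j h0)
        have hpj : p (γ j) := by rw [h0]; exact p0
        have hcol : n + Nat.count p (γ j) / 2 = n + q := by rw [h0, e0]; omega
        rw [if_pos h0, if_neg h1, if_neg hjn, if_pos hpj, if_pos hcol, add_zero]
      · by_cases h1 : γ j = i1
        · have hjn : ¬ j < n := by
            rw [not_lt]
            exact (cnt_le_iff h hε j).2 (p1.2 j h1)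
          have hpj : p (γ j) := by rw [h1]; exact p1
          have hcol : n + Nat.count p (γ j) / 2 = n + q := by rw [h1, e1]; omega
          rw [if_neg h0, if_pos h1, if_neg hjn, if_pos hpj, if_pos hcol, zero_add]
        · rw [if_neg h0, if_neg h1, add_zero]
          split_ifs <;> first | exact (h.pos j).le | exact le_rfl
    have : ε ≤ (∑' j, if γ j = i0 then l j else 0) + (∑' j, if γ j = i1 then l j else 0) := by
      linarith
    exact this.trans hle

/-- consequence of `halving` -/
lemma cnt_le_massDist (h : Good l) {ε : ℝ} (hε : 0 < ε) :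
    (cnt l ε : ℝ) ≤ 2 * massDist l ε - massDist l (ε / 2) + 1 := by
  have h1 := le_massDist h hε (halving h hε (massDist_cov h (half_pos hε)))
  have h2 : cnt l ε + massDist l (ε / 2) ≤ 2 * massDist l ε + 1 := by omega
  have h3 : ((cnt l ε + massDist l (ε / 2) : ℕ) : ℝ) ≤ ((2 * massDist l ε + 1 : ℕ) : ℝ) := by
    exact_mod_cast h2
  push_cast at h3
  linarith

/-! ### packing into `T` bins -/

/-- level of bin `i` after the items `j0, …, k-1` are placed according to `f` -/
noncomputable def lev (l : ℕ → ℝ) (j0 : ℕ) (f : ℕ → ℕ) (k i : ℕ) : ℝ :=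
  ∑ j ∈ Finset.Ico j0 k, if f j = i then l j else 0

/-- there is an assignment of the items `j0, …, k-1` to `T` bins all whose levels satisfy `C` -/
def St (l : ℕ → ℝ) (j0 T : ℕ) (C : ℝ → Prop) (k : ℕ) : Prop :=
  ∃ f : ℕ → ℕ, (∀ j ∈ Finset.Ico j0 k, f j < T) ∧ ∀ i < T, C (lev l j0 f k i)

lemma lev_total {j0 T k : ℕ} {f : ℕ → ℕ} (hf : ∀ j ∈ Finset.Ico j0 k, f j < T) :
    ∑ i ∈ Finset.range T, lev l j0 f k i = ∑ j ∈ Finset.Ico j0 k, l j := by
  unfold lev
  rw [Finset.sum_comm]
  apply Finset.sum_congr rfl
  intro j hj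
  rw [Finset.sum_ite_eq, if_pos (Finset.mem_range.2 (hf j hj))]

lemma St.extend {j0 T k : ℕ} {C : ℝ → Prop} (hk : j0 ≤ k) {f : ℕ → ℕ}
    (hf : ∀ j ∈ Finset.Ico j0 k, f j < T) (hC : ∀ i < T, C (lev l j0 f k i)) {i : ℕ} (hi : i < T)
    (hCi : C (lev l j0 f k i + l k)) : St l j0 T C (k + 1) := by
  classical
  refine ⟨Function.update f k i, ?_, ?_⟩
  · intro j hj
    rw [Finset.mem_Ico] at hj
    by_cases hjk : j = k
    · rw [hjk, Function.update_self]; exact hi
    · rw [Function.update_of_ne hjk]
      exact hf j (Finset.mem_Ico.2 ⟨hj.1, by omega⟩)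
  · intro i' hi'
    have hlev : lev l j0 (Function.update f k i) (k + 1) i' =
        lev l j0 f k i' + (if i = i' then l k else 0) := by
      unfold lev
      rw [Finset.sum_Ico_succ_top hk]
      congr 1
      · apply Finset.sum_congr rfl
        intro j hj
        rw [Finset.mem_Ico] at hj
        rw [Function.update_of_ne (by omega)]
      · rw [Function.update_self]
    rw [hlev]
    by_cases hii : i = i'
    · rw [if_pos hii, ← hii]; exact hCi
    · rw [if_neg hii, add_zero]; exact hC i' hi'

lemma St.maximal {j0 T k0 K : ℕ} {C : ℝ → Prop} (hk0 : j0 ≤ k0) (h0 : St l j0 T C k0)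
    (hK : k0 ≤ K) (hnot : ¬ St l j0 T C K) :
    ∃ k, k0 ≤ k ∧ ∃ f : ℕ → ℕ, (∀ j ∈ Finset.Ico j0 k, f j < T) ∧ (∀ i < T, C (lev l j0 f k i)) ∧
      ∀ i < T, ¬ C (lev l j0 f k i + l k) := by
  by_contra hcon
  push Not at hcon
  apply hnot
  induction K, hK using Nat.le_induction with
  | base => exact h0
  | succ m hm ih =>
    by_cases hst : St l j0 T C m
    · obtain ⟨f, hf, hC⟩ := hst
      obtain ⟨i, hi, hCi⟩ := hcon m hm f hf hC
      exact St.extend (hk0.trans hm) hf hC hi hCi
    · exact absurd (ih hst) hst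

lemma sum_Ico_le_tail (h : Good l) {j0 k : ℕ} (hk : j0 ≤ k) :
    (∑ j ∈ Finset.Ico j0 k, l j) + (∑' j, l (j + k)) = ∑' j, l (j + j0) := by
  have h1 := (summable_shift h j0).sum_add_tsum_nat_add (k - j0)
  rw [← h1]
  congr 1
  · rw [Finset.sum_Ico_eq_sum_range]
    apply Finset.sum_congr rfl
    intro j _
    rw [add_comm]
  · congr 1
    ext j
    congr 1
    omega

lemma exists_sum_gt (h : Good l) {j0 : ℕ} {B : ℝ} (hB : B < ∑' j, l (j + j0)) (k0 : ℕ) :
    ∃ K, k0 ≤ K ∧ j0 ≤ K ∧ B < ∑ j ∈ Finset.Ico j0 K, l j := by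
  have ht := (summable_shift h j0).hasSum.tendsto_sum_nat
  have hev := (ht.eventually_const_lt hB).and (eventually_ge_atTop k0)
  obtain ⟨n, hn1, hn2⟩ := hev.exists
  refine ⟨j0 + n, by omega, by omega, ?_⟩
  rw [Finset.sum_Ico_eq_sum_range]
  have : j0 + n - j0 = n := by omega
  rw [this]
  refine lt_of_lt_of_le hn1 (le_of_eq ?_)
  apply Finset.sum_congr rfl
  intro j _
  rw [add_comm]

lemma packing (h : Good l) {ε : ℝ} (hε : 0 < ε) {T : ℕ} (hT : 0 < T) (hm : T * ε < sm l ε) :
    Cov l ε (cnt l ε + T) ∨ ∃ t, 0 < t ∧ t < ε ∧ cnt l ε + T < cnt l t ∧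
      T * (ε - t) < sm l ε - sm l t ∧ sm l ε ≤ T * (ε + t) := by
  classical
  set j0 := cnt l ε with hj0
  have hTpos : (0:ℝ) < T := by exact_mod_cast hT
  -- first stage
  obtain ⟨K, -, hK2, hK3⟩ := exists_sum_gt h (j0 := j0) (B := T * ε) hm 0
  have hst0 : St l j0 T (fun x => x ≤ ε) j0 :=
    ⟨fun _ => 0, by simp, fun i _ => by simp [lev, hε.le]⟩
  have hnotK : ¬ St l j0 T (fun x => x ≤ ε) K := by
    rintro ⟨f, hf, hC⟩
    have h1 := lev_total (l := l) hf
    have h2 : ∑ i ∈ Finset.range T, lev l j0 f K i ≤ ∑ i ∈ Finset.range T, ε :=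
      Finset.sum_le_sum fun i hi => hC i (Finset.mem_range.1 hi)
    rw [h1] at h2
    simp at h2
    linarith
  obtain ⟨k, hk, f, hf, hC, hnC⟩ := St.maximal le_rfl hst0 hK2 hnotK
  have hlk : l k < ε := (cnt_le_iff h hε k).1 hk
  have hlkpos := h.pos k
  by_cases hmass : sm l ε ≤ T * (ε + l k)
  · right
    refine ⟨l k, hlkpos, hlk, ?_, ?_, hmass⟩
    · -- count
      have hsub : Finset.range T ⊆ (Finset.Ico j0 k).image f := by
        intro i hi
        rw [Finset.mem_range] at hi
        by_contra hcon
        have hz : lev l j0 f k i = 0 := by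
          unfold lev
          apply Finset.sum_eq_zero
          intro j hj
          rw [if_neg]
          intro hfj
          exact hcon (Finset.mem_image.2 ⟨j, hj, hfj⟩)
        have := hnC i hi
        rw [hz, zero_add] at this
        exact this hlk.le
      have h1 := Finset.card_le_card hsub
      have h2 := Finset.card_image_le (s := Finset.Ico j0 k) (f := f)
      rw [Finset.card_range] at h1
      rw [Nat.card_Ico] at h2
      have h3 : k < cnt l (l k) := (lt_cnt_iff h hlkpos k).2 le_rfl
      omega
    · -- mass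
      have h3 : k < cnt l (l k) := (lt_cnt_iff h hlkpos k).2 le_rfl
      have h4 : ∑ j ∈ Finset.Ico j0 k, l j ≤ sm l ε - sm l (l k) := by
        have e1 := sum_Ico_le_tail h (j0 := j0) (k := cnt l (l k)) (by omega)
        have e2 : sm l ε = ∑' j, l (j + j0) := rfl
        have e3 : sm l (l k) = ∑' j, l (j + cnt l (l k)) := rfl
        have e4 : ∑ j ∈ Finset.Ico j0 k, l j ≤ ∑ j ∈ Finset.Ico j0 (cnt l (l k)), l j := by
          apply Finset.sum_le_sum_of_subset_of_nonneg
          · apply Finset.Ico_subset_Ico le_rfl h3.le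
          · intro j _ _; exact (h.pos j).le
        rw [e2, e3, ← e1]
        linarith
      refine lt_of_lt_of_le ?_ h4
      rw [← lev_total (l := l) hf]
      calc (T:ℝ) * (ε - l k) = ∑ i ∈ Finset.range T, (ε - l k) := by
            rw [Finset.sum_const, Finset.card_range, nsmul_eq_mul]
        _ < ∑ i ∈ Finset.range T, lev l j0 f k i := by
            apply Finset.sum_lt_sum_of_nonempty
            · exact ⟨0, Finset.mem_range.2 hT⟩
            · intro i hi
              have := hnC i (Finset.mem_range.1 hi)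
              simp only [not_le] at this
              linarith
  · left
    rw [not_le] at hmass
    -- second stage
    have hst1 : St l j0 T (fun x => x < ε + l k) k :=
      ⟨f, hf, fun i hi => lt_of_le_of_lt (hC i hi) (by linarith)⟩
    obtain ⟨K', hK1', hK2', hK3'⟩ := exists_sum_gt h (j0 := j0) (B := T * (ε + l k)) hmass k
    have hnotK' : ¬ St l j0 T (fun x => x < ε + l k) K' := by
      rintro ⟨f', hf', hC'⟩
      have h1 := lev_total (l := l) hf'
      have h2 : ∑ i ∈ Finset.range T, lev l j0 f' K' i ≤ ∑ i ∈ Finset.range T, (ε + l k) :=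
        Finset.sum_le_sum fun i hi => (hC' i (Finset.mem_range.1 hi)).le
      rw [h1, Finset.sum_const, Finset.card_range, nsmul_eq_mul] at h2
      linarith
    obtain ⟨m, hm', g, hg, hCg, hnCg⟩ := St.maximal hk hst1 hK1' hnotK'
    have hfull : ∀ i < T, ε ≤ lev l j0 g m i := by
      intro i hi
      have h1 := hnCg i hi
      simp only [not_lt] at h1
      have h2 := h.anti hm'
      linarith
    refine ⟨fun j => if j < j0 then j else if j < m then j0 + g j else j0 + T, ?_⟩
    intro i hi
    by_cases hij : i < j0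
    · refine ((lt_cnt_iff h hε i).1 hij).trans ?_
      apply le_tsum_ite h (κ := fun j => if j < j0 then j else if j < m then j0 + g j else j0 + T)
      simp only [if_pos hij]
    · rw [not_lt] at hij
      obtain ⟨q, rfl⟩ := Nat.exists_eq_add_of_le hij
      have hq : q < T := by omega
      refine (hfull q hq).trans ?_
      have hs := summable_ite h (fun j => if j < j0 then j else if j < m then j0 + g j else j0 + T)
        (j0 + q)
      have h1 := hs.sum_le_tsum (Finset.Ico j0 m) (fun j _ => by
        split_ifs <;> first | exact (h.pos j).le | exact le_rfl)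
      refine le_trans (le_of_eq ?_) h1
      unfold lev
      apply Finset.sum_congr rfl
      intro j hj
      rw [Finset.mem_Ico] at hj
      simp only [if_neg (not_lt.2 hj.1), if_pos hj.2]
      congr 1
      simp

end Pool.Agent.H56.Mass
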