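import Pool.Agent.H56.Mass2

/-!
Mass distribution: scales at which there is almost no waste.
-/

namespace Pool.Agent.H56.Mass

open Finset Filter Topology

variable {l : ℕ → ℝ}

set_option maxHeartbeats 2000000 in
lemma good_scale (h : Good l) {d a a' p u η ε : ℝ} (hd0 : 0 < d) (ha : 0 < a)
    (ha' : 0 < a') (hp : 0 < p) (hη : 0 < η) (hη2 : η ≤ 1 / 2) (hε : 0 < ε)
    (H1 : a' * p * (1 + 2 * η) ≤ a * u * (1 - 2 * η ^ 2))
    (H2 : 3 * a' * η ^ d ≤ a)
    (h1 : ∀ t, 0 < t → t ≤ ε → a * t ^ (1 - d) ≤ sm l t)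
    (h2 : ∀ t, 0 < t → t ≤ ε → (cnt l t : ℝ) * t ^ d ≤ p)
    (h3 : sm l ε ≤ a' * ε ^ (1 - d))
    (h4 : u * ε ^ (1 - d) ≤ V l ε)
    (h5 : ε ≤ η ^ 2 * sm l ε) :
    (1 - 2 * η ^ 2) * V l ε ≤ massDist l ε * ε := by
  have hsm := sm_pos h ε
  have hδ : η ^ 2 ≤ 1 / 4 := by nlinarith
  have hδ0 : 0 < η ^ 2 := by positivity
  set S := sm l ε / ε with hS
  have hSε : sm l ε = S * ε := by rw [hS]; field_simp
  have hSpos : 0 < S := div_pos hsm hε
  have hδS : 1 ≤ η ^ 2 * S := by
    rw [hSε] at h5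
    have : ε * 1 ≤ ε * (η ^ 2 * S) := by nlinarith
    exact le_of_mul_le_mul_left this hε
  set T := ⌊(1 - η ^ 2) * S⌋₊ with hT
  have hnn : 0 ≤ (1 - η ^ 2) * S := mul_nonneg (by linarith) hSpos.le
  have hT1 : (T : ℝ) ≤ (1 - η ^ 2) * S := Nat.floor_le hnn
  have hT2 : (1 - 2 * η ^ 2) * S ≤ T := by
    have := Nat.lt_floor_add_one ((1 - η ^ 2) * S)
    rw [← hT] at this
    nlinarith
  have hTpos : 0 < T := by
    have : (0:ℝ) < T := lt_of_lt_of_le (mul_pos (by linarith) hSpos) hT2
    exact_mod_cast this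
  have hTε : T * ε < sm l ε := by
    rw [hSε]
    have : (T:ℝ) * ε ≤ (1 - η ^ 2) * S * ε := mul_le_mul_of_nonneg_right hT1 hε.le
    have h6 : 0 < η ^ 2 * S * ε := by positivity
    nlinarith
  have hV := V_eq h hε
  rcases packing h hε hTpos hTε with hc | ⟨t, ht0, htε, hta, htb, htc⟩
  · have h6 := le_massDist h hε hc
    have h7 : ((cnt l ε + T : ℕ) : ℝ) ≤ massDist l ε := by exact_mod_cast h6
    push_cast at h7
    have h8 : (cnt l ε + T : ℝ) * ε ≤ massDist l ε * ε := mul_le_mul_of_nonneg_right h7 hε.le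
    refine le_trans ?_ h8
    rw [hV, hSε]
    have h9 : (0:ℝ) ≤ η ^ 2 * (ε * cnt l ε) := by positivity
    have h10 : (1 - 2 * η ^ 2) * S * ε ≤ T * ε := mul_le_mul_of_nonneg_right hT2 hε.le
    nlinarith
  · exfalso
    -- `δ ε ≤ t`
    have hc1 : η ^ 2 * ε ≤ t := by
      have e1 : S * ε ≤ (1 - η ^ 2) * S * (ε + t) := by
        rw [← hSε]
        exact htc.trans (mul_le_mul_of_nonneg_right hT1 (by linarith))
      have e2 : ε ≤ (1 - η ^ 2) * (ε + t) := by
        have : S * ε ≤ S * ((1 - η ^ 2) * (ε + t)) := by nlinarith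
        exact le_of_mul_le_mul_left this hSpos
      have e3 : 0 ≤ η ^ 2 * t := by positivity
      nlinarith
    have hεd : 0 < ε ^ d := Real.rpow_pos_of_pos hε d
    have htd : 0 < t ^ d := Real.rpow_pos_of_pos ht0 d
    have e1d : ∀ x : ℝ, 0 < x → x ^ (1 - d) = x / x ^ d := by
      intro x hx
      rw [Real.rpow_sub hx, Real.rpow_one]
    -- mass inequality
    have hb1 : a * t * ε ^ d < a' * t ^ d * (2 * η ^ 2 * ε + t) := by
      have e1 : sm l t < S * (2 * η ^ 2 * ε + t) := by
        have e2 : (1 - 2 * η ^ 2) * S * (ε - t) ≤ T * (ε - t) :=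
          mul_le_mul_of_nonneg_right hT2 (by linarith)
        have e3 : 0 ≤ η ^ 2 * S * t := by positivity
        rw [hSε] at htb
        nlinarith
      have e2 : S ≤ a' / ε ^ d := by
        rw [hS, div_le_iff₀ hε]
        rw [e1d ε hε] at h3
        calc sm l ε ≤ a' * (ε / ε ^ d) := h3
          _ = a' / ε ^ d * ε := by ring
      have e3 := h1 t ht0 htε.le
      rw [e1d t ht0] at e3
      have e4 : a * (t / t ^ d) < a' / ε ^ d * (2 * η ^ 2 * ε + t) :=
        lt_of_le_of_lt e3 (lt_of_lt_of_le e1 (mul_le_mul_of_nonneg_right e2 (by positivity)))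
      have e5 : a * (t / t ^ d) = a * t * ε ^ d / (t ^ d * ε ^ d) := by field_simp
      have e6 : a' / ε ^ d * (2 * η ^ 2 * ε + t) =
          a' * t ^ d * (2 * η ^ 2 * ε + t) / (t ^ d * ε ^ d) := by field_simp
      rw [e5, e6] at e4
      exact (div_lt_div_iff_of_pos_right (by positivity)).1 e4
    by_cases hcase : η * ε ≤ t
    · -- count inequality
      have ha1 : (1 - 2 * η ^ 2) * u * t ^ d < p * ε ^ d := by
        have e1 : (cnt l ε : ℝ) + T < cnt l t := by exact_mod_cast hta
        have e2 : (1 - 2 * η ^ 2) * (V l ε / ε) ≤ cnt l ε + T := by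
          rw [hV, hSε]
          have e3 : (ε * cnt l ε + S * ε) / ε = cnt l ε + S := by field_simp
          rw [e3]
          have e4 : (0:ℝ) ≤ η ^ 2 * cnt l ε := by positivity
          nlinarith
        have e3 : u / ε ^ d ≤ V l ε / ε := by
          rw [le_div_iff₀ hε]
          rw [e1d ε hε] at h4
          calc u / ε ^ d * ε = u * (ε / ε ^ d) := by ring
            _ ≤ V l ε := h4
        have e4 : (1 - 2 * η ^ 2) * (u / ε ^ d) < cnt l t :=
          lt_of_le_of_lt ((mul_le_mul_of_nonneg_left e3 (by linarith)).trans e2) e1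
        have e5 := h2 t ht0 htε.le
        have e6 : (1 - 2 * η ^ 2) * (u / ε ^ d) * t ^ d < p :=
          lt_of_lt_of_le (mul_lt_mul_of_pos_right e4 htd) e5
        have e7 : (1 - 2 * η ^ 2) * (u / ε ^ d) * t ^ d = (1 - 2 * η ^ 2) * u * t ^ d / ε ^ d := by
          field_simp
        rw [e7, div_lt_iff₀ hεd] at e6
        exact e6
      have hb2 : a * ε ^ d < a' * t ^ d * (1 + 2 * η) := by
        have e1 : 2 * η ^ 2 * ε ≤ 2 * η * t := by nlinarith
        have e2 : t * (a * ε ^ d) < t * (a' * t ^ d * (1 + 2 * η)) := by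
          calc t * (a * ε ^ d) = a * t * ε ^ d := by ring
            _ < a' * t ^ d * (2 * η ^ 2 * ε + t) := hb1
            _ ≤ a' * t ^ d * (2 * η * t + t) := by
                apply mul_le_mul_of_nonneg_left (by linarith) (by positivity)
            _ = _ := by ring
        exact lt_of_mul_lt_mul_left e2 ht0.le
      have e1 : a * p * ε ^ d < a * p * ε ^ d := by
        calc a * p * ε ^ d = p * (a * ε ^ d) := by ring
          _ < p * (a' * t ^ d * (1 + 2 * η)) := mul_lt_mul_of_pos_left hb2 hp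
          _ = (a' * p * (1 + 2 * η)) * t ^ d := by ring
          _ ≤ (a * u * (1 - 2 * η ^ 2)) * t ^ d := mul_le_mul_of_nonneg_right H1 htd.le
          _ = a * ((1 - 2 * η ^ 2) * u * t ^ d) := by ring
          _ < a * (p * ε ^ d) := mul_lt_mul_of_pos_left ha1 ha
          _ = a * p * ε ^ d := by ring
      exact lt_irrefl _ e1
    · rw [not_le] at hcase
      have e1 : t ^ d < η ^ d * ε ^ d := by
        rw [← Real.mul_rpow hη.le hε.le]
        exact Real.rpow_lt_rpow ht0.le hcase hd0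
      have e2 : a * ε ^ d < 3 * a' * t ^ d := by
        have e3 : t * (a * ε ^ d) < t * (3 * a' * t ^ d) := by
          calc t * (a * ε ^ d) = a * t * ε ^ d := by ring
            _ < a' * t ^ d * (2 * η ^ 2 * ε + t) := hb1
            _ ≤ a' * t ^ d * (2 * t + t) := by
                apply mul_le_mul_of_nonneg_left (by linarith) (by positivity)
            _ = _ := by ring
        exact lt_of_mul_lt_mul_left e3 ht0.le
      have e3 : a * ε ^ d < a * ε ^ d := by
        calc a * ε ^ d < 3 * a' * t ^ d := e2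
          _ < 3 * a' * (η ^ d * ε ^ d) := mul_lt_mul_of_pos_left e1 (by positivity)
          _ = 3 * a' * η ^ d * ε ^ d := by ring
          _ ≤ a * ε ^ d := mul_le_mul_of_nonneg_right H2 hεd.le
      exact lt_irrefl _ e3

/-- crude bound: at least half of the mass is used -/
lemma V_le_crude (h : Good l) {ε : ℝ} (hε : 0 < ε) :
    V l ε ≤ (2 * massDist l ε + 4) * ε := by
  have hV := V_eq h hε
  set S := sm l ε / ε with hS
  have hsm := sm_pos h ε
  have hSε : sm l ε = S * ε := by rw [hS]; field_simp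
  have hSpos : 0 < S := div_pos hsm hε
  set T := ⌊S / 2⌋₊ with hT
  have hT1 : (T : ℝ) ≤ S / 2 := Nat.floor_le (by linarith)
  have hT2 : S / 2 - 1 < T := by
    have := Nat.lt_floor_add_one (S / 2)
    rw [← hT] at this
    linarith
  have hcov : Cov l ε (cnt l ε + T) := by
    rcases Nat.eq_zero_or_pos T with h0 | h0
    · rw [h0, add_zero]
      refine ⟨id, fun i hi => ?_⟩
      exact ((lt_cnt_iff h hε i).1 hi).trans (le_tsum_ite h (κ := id) rfl)
    · have hTε : T * ε < sm l ε := by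
        rw [hSε]
        have : (T:ℝ) * ε ≤ S / 2 * ε := mul_le_mul_of_nonneg_right hT1 hε.le
        have h6 : 0 < S * ε := by positivity
        nlinarith
      rcases packing h hε h0 hTε with hc | ⟨t, ht0, htε, -, -, htc⟩
      · exact hc
      · exfalso
        have hTpos : (0:ℝ) < T := by exact_mod_cast h0
        have e1 : (T:ℝ) * (ε + t) < T * (2 * ε) := mul_lt_mul_of_pos_left (by linarith) hTpos
        have e2 : (T:ℝ) * (2 * ε) ≤ S / 2 * (2 * ε) := mul_le_mul_of_nonneg_right hT1 (by linarith)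
        rw [hSε] at htc
        nlinarith
  have h6 := le_massDist h hε hcov
  have h7 : ((cnt l ε + T : ℕ) : ℝ) ≤ massDist l ε := by exact_mod_cast h6
  push_cast at h7
  rw [hV, hSε]
  have h8 : (cnt l ε : ℝ) + S ≤ 2 * massDist l ε + 4 := by
    have : (0:ℝ) ≤ cnt l ε := by positivity
    linarith
  nlinarith

end Pool.Agent.H56.Mass
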