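import Pool.Agent.H56.Mass3

/-!
Mass distribution: normalised functions and the asymptotic form of `good_scale`.
-/

namespace Pool.Agent.H56.Mass

open Finset Filter Topology

variable {l : ℕ → ℝ}

noncomputable def vv (l : ℕ → ℝ) (d t : ℝ) : ℝ := V l t / t ^ (1 - d)
noncomputable def nn (l : ℕ → ℝ) (d t : ℝ) : ℝ := cnt l t * t ^ d
noncomputable def sg (l : ℕ → ℝ) (d t : ℝ) : ℝ := sm l t / t ^ (1 - d)
noncomputable def mm (l : ℕ → ℝ) (d t : ℝ) : ℝ := massDist l t * t ^ d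

lemma rpow_split {d t : ℝ} (ht : 0 < t) : t ^ (1 - d) * t ^ d = t := by
  rw [← Real.rpow_add ht]
  simp

lemma vv_eq (h : Good l) {d t : ℝ} (ht : 0 < t) : vv l d t = nn l d t + sg l d t := by
  unfold vv nn sg
  have h1 : 0 < t ^ (1 - d) := Real.rpow_pos_of_pos ht _
  rw [V_eq h ht, add_div]
  congr 1
  rw [div_eq_iff h1.ne']
  calc t * (cnt l t : ℝ) = cnt l t * (t ^ (1 - d) * t ^ d) := by rw [rpow_split ht]; ring
    _ = _ := by ring

lemma nn_nonneg {d t : ℝ} (ht : 0 < t) : 0 ≤ nn l d t := by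
  unfold nn
  have : 0 < t ^ d := Real.rpow_pos_of_pos ht _
  positivity

lemma sg_pos (h : Good l) {d t : ℝ} (ht : 0 < t) : 0 < sg l d t :=
  div_pos (sm_pos h t) (Real.rpow_pos_of_pos ht _)

lemma mm_le_vv (h : Good l) {d t : ℝ} (ht : 0 < t) : mm l d t ≤ vv l d t := by
  unfold mm vv
  have h1 : 0 < t ^ (1 - d) := Real.rpow_pos_of_pos ht _
  rw [le_div_iff₀ h1]
  calc (massDist l t : ℝ) * t ^ d * t ^ (1 - d) = massDist l t * (t ^ (1 - d) * t ^ d) := by ring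
    _ = massDist l t * t := by rw [rpow_split ht]
    _ ≤ V l t := massDist_le h ht

lemma vv_le_crude (h : Good l) {d t : ℝ} (ht : 0 < t) : vv l d t ≤ 2 * mm l d t + 4 * t ^ d := by
  unfold mm vv
  have h1 : 0 < t ^ (1 - d) := Real.rpow_pos_of_pos ht _
  rw [div_le_iff₀ h1]
  calc V l t ≤ (2 * massDist l t + 4) * t := V_le_crude h ht
    _ = (2 * massDist l t + 4) * (t ^ (1 - d) * t ^ d) := by rw [rpow_split ht]
    _ = _ := by ring

lemma mul_rpow_scale {d x t : ℝ} (hx : 0 < x) (ht : 0 < t) :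
    (x * t) ^ (1 - d) = x ^ (1 - d) * t ^ (1 - d) := Real.mul_rpow hx.le ht.le

lemma scale1 (h : Good l) {d x t : ℝ} (hx : 0 < x) (hx1 : x ≤ 1) (ht : 0 < t) :
    (1 - x) * nn l d t ≤ vv l d t - x ^ (1 - d) * vv l d (x * t) := by
  unfold nn vv
  have h1 : 0 < t ^ (1 - d) := Real.rpow_pos_of_pos ht _
  have h2 : 0 < x ^ (1 - d) := Real.rpow_pos_of_pos hx _
  have hV := V_sub_ge h (mul_pos hx ht) (show x * t ≤ t by nlinarith)
  rw [mul_rpow_scale hx ht]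
  have e1 : x ^ (1 - d) * (V l (x * t) / (x ^ (1 - d) * t ^ (1 - d))) =
      V l (x * t) / t ^ (1 - d) := by field_simp
  rw [e1, ← sub_div, le_div_iff₀ h1]
  calc (1 - x) * (cnt l t * t ^ d) * t ^ (1 - d) =
      (1 - x) * cnt l t * (t ^ (1 - d) * t ^ d) := by ring
    _ = (t - x * t) * cnt l t := by rw [rpow_split ht]; ring
    _ ≤ _ := hV

lemma scale2 (h : Good l) {d x t : ℝ} (hx : 0 < x) (hx1 : x ≤ 1) (ht : 0 < t) :
    x ^ d * (vv l d t - x ^ (1 - d) * vv l d (x * t)) ≤ (1 - x) * nn l d (x * t) := by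
  unfold nn vv
  have h1 : 0 < t ^ (1 - d) := Real.rpow_pos_of_pos ht _
  have h2 : 0 < x ^ (1 - d) := Real.rpow_pos_of_pos hx _
  have h3 : 0 < x ^ d := Real.rpow_pos_of_pos hx _
  have hV := V_sub_le h (mul_pos hx ht) (show x * t ≤ t by nlinarith)
  rw [mul_rpow_scale hx ht, Real.mul_rpow hx.le ht.le]
  have e1 : x ^ (1 - d) * (V l (x * t) / (x ^ (1 - d) * t ^ (1 - d))) =
      V l (x * t) / t ^ (1 - d) := by field_simp
  rw [e1, ← sub_div]
  have e2 : (V l t - V l (x * t)) / t ^ (1 - d) ≤ (1 - x) * cnt l (x * t) * t ^ d := by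
    rw [div_le_iff₀ h1]
    calc V l t - V l (x * t) ≤ (t - x * t) * cnt l (x * t) := hV
      _ = (1 - x) * cnt l (x * t) * (t ^ (1 - d) * t ^ d) := by rw [rpow_split ht]; ring
      _ = _ := by ring
  calc x ^ d * ((V l t - V l (x * t)) / t ^ (1 - d)) ≤
      x ^ d * ((1 - x) * cnt l (x * t) * t ^ d) := mul_le_mul_of_nonneg_left e2 h3.le
    _ = _ := by ring

lemma scale3 (h : Good l) {d x t : ℝ} (hx : 0 < x) (hx1 : x ≤ 1) (ht : 0 < t) :
    x ^ d * vv l d t ≤ vv l d (x * t) := by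
  unfold vv
  have h1 : 0 < t ^ (1 - d) := Real.rpow_pos_of_pos ht _
  have h2 : 0 < x ^ (1 - d) := Real.rpow_pos_of_pos hx _
  have hV := V_mul_ge h hx hx1 ht
  rw [mul_rpow_scale hx ht, le_div_iff₀ (mul_pos h2 h1)]
  calc x ^ d * (V l t / t ^ (1 - d)) * (x ^ (1 - d) * t ^ (1 - d)) =
      (x ^ (1 - d) * x ^ d) * V l t := by field_simp
    _ = x * V l t := by rw [rpow_split hx]
    _ ≤ _ := hV

/-! ### filters -/

lemma ev_all {P : ℝ → Prop} (hP : ∀ᶠ t in 𝓝[>] (0:ℝ), P t) :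
    ∀ᶠ t in 𝓝[>] (0:ℝ), ∀ s, 0 < s → s ≤ t → P s := by
  rw [eventually_nhdsWithin_iff, Metric.eventually_nhds_iff] at hP
  obtain ⟨δ, hδ, hP⟩ := hP
  rw [eventually_nhdsWithin_iff, Metric.eventually_nhds_iff]
  refine ⟨δ, hδ, fun t ht ht0 s hs hst => ?_⟩
  apply hP _ hs
  rw [Real.dist_eq, sub_zero] at ht ⊢
  have ht0' : (0:ℝ) < t := ht0
  rw [abs_of_pos hs]
  rw [abs_of_pos ht0'] at ht
  linarith

lemma ev_pos : ∀ᶠ t in 𝓝[>] (0:ℝ), 0 < t := self_mem_nhdsWithin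

lemma tendsto_mul_nhdsGT {x : ℝ} (hx : 0 < x) :
    Tendsto (fun t => x * t) (𝓝[>] (0:ℝ)) (𝓝[>] (0:ℝ)) := by
  apply tendsto_nhdsWithin_of_tendsto_nhds_of_eventually_within
  · have : Tendsto (fun t : ℝ => x * t) (𝓝 0) (𝓝 (x * 0)) := tendsto_id.const_mul x
    rw [mul_zero] at this
    exact tendsto_nhdsWithin_of_tendsto_nhds this
  · filter_upwards [ev_pos] with t ht
    exact mul_pos hx ht

lemma tendsto_rpow_zero {d : ℝ} (hd : 0 < d) : Tendsto (fun t : ℝ => t ^ d) (𝓝[>] 0) (𝓝 0) := by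
  have h1 : Tendsto (fun t : ℝ => t ^ d) (𝓝 0) (𝓝 ((0:ℝ) ^ d)) :=
    (Real.continuousAt_rpow_const 0 d (Or.inr hd.le)).tendsto
  rw [Real.zero_rpow hd.ne'] at h1
  exact tendsto_nhdsWithin_of_tendsto_nhds h1

lemma good_ev (h : Good l) {d a a' p u ω : ℝ} (hd0 : 0 < d) (ha : 0 < a)
    (ha' : 0 < a') (hp : 0 < p) (hcond : a' * p < a * u) (hω : 0 < ω) :
    ∀ᶠ ε in 𝓝[>] (0:ℝ), (∀ t, 0 < t → t ≤ ε → a ≤ sg l d t) →
      (∀ t, 0 < t → t ≤ ε → nn l d t ≤ p) → sg l d ε ≤ a' → u ≤ vv l d ε →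
      (1 - ω) * vv l d ε ≤ mm l d ε := by
  -- choose η
  have hη : ∀ᶠ η in 𝓝[>] (0:ℝ), 0 < η ∧ η ≤ 1 / 2 ∧
      a' * p * (1 + 2 * η) ≤ a * u * (1 - 2 * η ^ 2) ∧ 3 * a' * η ^ d ≤ a ∧ 2 * η ^ 2 ≤ ω := by
    have t1 : ∀ᶠ η in 𝓝[>] (0:ℝ), η < 1 / 2 :=
      eventually_nhdsWithin_of_eventually_nhds (eventually_lt_nhds (by norm_num))
    have t2 : ∀ᶠ η in 𝓝[>] (0:ℝ), a' * p * (1 + 2 * η) < a * u * (1 - 2 * η ^ 2) := by
      apply eventually_nhdsWithin_of_eventually_nhds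
      have c1 : ContinuousAt (fun η : ℝ => a' * p * (1 + 2 * η)) 0 := by fun_prop
      have c2 : ContinuousAt (fun η : ℝ => a * u * (1 - 2 * η ^ 2)) 0 := by fun_prop
      exact c1.eventually_lt c2 (by simpa using hcond)
    have t3 : ∀ᶠ η in 𝓝[>] (0:ℝ), 3 * a' * η ^ d < a := by
      have : Tendsto (fun η : ℝ => 3 * a' * η ^ d) (𝓝[>] 0) (𝓝 (3 * a' * 0)) :=
        (tendsto_rpow_zero hd0).const_mul _
      rw [mul_zero] at this
      exact this.eventually_lt_const ha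
    have t4 : ∀ᶠ η in 𝓝[>] (0:ℝ), 2 * η ^ 2 < ω := by
      apply eventually_nhdsWithin_of_eventually_nhds
      have c1 : ContinuousAt (fun η : ℝ => 2 * η ^ 2) 0 := by fun_prop
      exact c1.eventually_lt continuousAt_const (by simpa using hω)
    filter_upwards [ev_pos, t1, t2, t3, t4] with η e0 e1 e2 e3 e4
    exact ⟨e0, e1.le, e2.le, e3.le, e4.le⟩
  obtain ⟨η, hη0, hη1, H1, H2, hω2⟩ := hη.exists
  have hsmall : ∀ᶠ ε in 𝓝[>] (0:ℝ), ε ^ d < η ^ 2 * a :=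
    (tendsto_rpow_zero hd0).eventually_lt_const (by positivity)
  filter_upwards [ev_pos, hsmall] with ε hε hεs b1 b2 b3 b4
  have hεp : 0 < ε ^ (1 - d) := Real.rpow_pos_of_pos hε _
  have c1 : ∀ t, 0 < t → t ≤ ε → a * t ^ (1 - d) ≤ sm l t := by
    intro t ht0 htε
    have := b1 t ht0 htε
    unfold sg at this
    rwa [le_div_iff₀ (Real.rpow_pos_of_pos ht0 _)] at this
  have c3 : sm l ε ≤ a' * ε ^ (1 - d) := by
    unfold sg at b3
    rwa [div_le_iff₀ hεp] at b3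
  have c4 : u * ε ^ (1 - d) ≤ V l ε := by
    unfold vv at b4
    rwa [le_div_iff₀ hεp] at b4
  have c5 : ε ≤ η ^ 2 * sm l ε := by
    calc ε = ε ^ (1 - d) * ε ^ d := (rpow_split hε).symm
      _ ≤ ε ^ (1 - d) * (η ^ 2 * a) := mul_le_mul_of_nonneg_left hεs.le hεp.le
      _ = η ^ 2 * (a * ε ^ (1 - d)) := by ring
      _ ≤ η ^ 2 * sm l ε := mul_le_mul_of_nonneg_left (c1 ε hε le_rfl) (by positivity)
  have key := good_scale h hd0 ha ha' hp hη0 hη1 hε H1 H2 c1 b2 c3 c4 c5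
  unfold vv mm
  have hVnn := V_nonneg h hε
  have e1 : (1 - ω) * V l ε ≤ massDist l ε * ε := by
    refine le_trans ?_ key
    exact mul_le_mul_of_nonneg_right (by linarith) hVnn
  calc (1 - ω) * (V l ε / ε ^ (1 - d)) = ((1 - ω) * V l ε) / ε ^ (1 - d) := by ring
    _ ≤ (massDist l ε * ε) / ε ^ (1 - d) := div_le_div_of_nonneg_right e1 hεp.le
    _ = massDist l ε * ε ^ d := by
        rw [div_eq_iff hεp.ne']
        calc (massDist l ε : ℝ) * ε = massDist l ε * (ε ^ (1 - d) * ε ^ d) := by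
              rw [rpow_split hε]
          _ = _ := by ring

/-- the derivative of `x ^ e` at one, as a limit from the left -/
lemma tendsto_slope_one (e : ℝ) :
    Tendsto (fun x : ℝ => (1 - x ^ e) / (1 - x)) (𝓝[<] 1) (𝓝 e) := by
  have h1 : HasDerivAt (fun x : ℝ => x ^ e) (e * 1 ^ (e - 1)) 1 :=
    Real.hasDerivAt_rpow_const (Or.inl one_ne_zero)
  rw [Real.one_rpow, mul_one] at h1
  have h2 := hasDerivAt_iff_tendsto_slope.1 h1
  have h3 : 𝓝[<] (1:ℝ) ≤ 𝓝[≠] 1 := nhdsWithin_mono _ (fun x hx => ne_of_lt hx)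
  have h4 := h2.mono_left h3
  refine h4.congr' ?_
  filter_upwards [self_mem_nhdsWithin] with x hx
  have hx' : x < 1 := hx
  rw [slope_def_field]
  simp only [Real.one_rpow]
  rw [div_eq_div_iff (by linarith) (by linarith)]
  ring

end Pool.Agent.H56.Mass
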