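import Pool.Agent.H56.Mass4

/-!
Mass distribution: if the mass distribution function is asymptotic to a power, so is `V`.
-/

namespace Pool.Agent.H56.Mass

open Finset Filter Topology

variable {l : ℕ → ℝ}

lemma two_rpow_gt {d : ℝ} (hd0 : 0 < d) : (1:ℝ) < 2 ^ d := Real.one_lt_rpow (by norm_num) hd0

lemma two_rpow_lt {d : ℝ} (hd1 : d < 1) : (2:ℝ) ^ d < 2 := by
  calc (2:ℝ) ^ d < 2 ^ (1:ℝ) := Real.rpow_lt_rpow_of_exponent_lt (by norm_num) hd1
    _ = 2 := Real.rpow_one 2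

/-- bound for the counting function -/
lemma nn_lt (h : Good l) {d c b : ℝ} (hd0 : 0 < d)
    (hN : Tendsto (mm l d) (𝓝[>] 0) (𝓝 c)) (hb : c * (2 - 2 ^ d) < b) :
    ∀ᶠ t in 𝓝[>] (0:ℝ), nn l d t < b := by
  have h1 : Tendsto (fun t => mm l d ((1/2) * t)) (𝓝[>] 0) (𝓝 c) :=
    hN.comp (tendsto_mul_nhdsGT (by norm_num))
  have h2 : Tendsto (fun t => 2 * mm l d t - 2 ^ d * mm l d ((1/2) * t) + t ^ d) (𝓝[>] 0)
      (𝓝 (2 * c - 2 ^ d * c + 0)) :=
    ((hN.const_mul 2).sub (h1.const_mul _)).add (tendsto_rpow_zero hd0)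
  have h3 : 2 * c - 2 ^ d * c + 0 < b := by nlinarith
  filter_upwards [h2.eventually_lt_const h3, ev_pos] with t ht ht0
  refine lt_of_le_of_lt ?_ ht
  have h4 := cnt_le_massDist h ht0
  unfold nn mm
  have h5 : 0 < t ^ d := Real.rpow_pos_of_pos ht0 _
  have h6 : (2:ℝ) ^ d * ((massDist l (1 / 2 * t) : ℝ) * (1 / 2 * t) ^ d) =
      massDist l (t / 2) * t ^ d := by
    rw [Real.mul_rpow (by norm_num) ht0.le]
    have : (2:ℝ) ^ d * (1 / 2) ^ d = 1 := by
      rw [← Real.mul_rpow (by norm_num) (by norm_num)]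
      norm_num
    have e : (1:ℝ) / 2 * t = t / 2 := by ring
    rw [e]
    calc (2:ℝ) ^ d * ((massDist l (t / 2) : ℝ) * ((1 / 2) ^ d * t ^ d)) =
        (2 ^ d * (1 / 2) ^ d) * (massDist l (t / 2) * t ^ d) := by ring
      _ = _ := by rw [this, one_mul]
  rw [h6]
  calc (cnt l t : ℝ) * t ^ d ≤ (2 * massDist l t - massDist l (t / 2) + 1) * t ^ d :=
        mul_le_mul_of_nonneg_right h4 h5.le
    _ = _ := by ring

lemma vv_gt (h : Good l) {d c b : ℝ} (hN : Tendsto (mm l d) (𝓝[>] 0) (𝓝 c)) (hb : b < c) :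
    ∀ᶠ t in 𝓝[>] (0:ℝ), b < vv l d t := by
  filter_upwards [hN.eventually_const_lt hb, ev_pos] with t ht ht0
  exact lt_of_lt_of_le ht (mm_le_vv h ht0)

lemma vv_bdd (h : Good l) {d c : ℝ} (hd0 : 0 < d) (hN : Tendsto (mm l d) (𝓝[>] 0) (𝓝 c)) :
    ∀ᶠ t in 𝓝[>] (0:ℝ), vv l d t < 2 * c + 1 := by
  have h2 : Tendsto (fun t => 2 * mm l d t + 4 * t ^ d) (𝓝[>] 0) (𝓝 (2 * c + 4 * 0)) :=
    (hN.const_mul 2).add ((tendsto_rpow_zero hd0).const_mul 4)
  filter_upwards [h2.eventually_lt_const (show 2 * c + 4 * 0 < 2 * c + 1 by linarith), ev_pos]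
    with t ht ht0
  exact lt_of_le_of_lt (vv_le_crude h ht0) ht

section
variable {d c : ℝ}

lemma sg_bdd (h : Good l) (hd0 : 0 < d) (hN : Tendsto (mm l d) (𝓝[>] 0) (𝓝 c)) :
    ∀ᶠ t in 𝓝[>] (0:ℝ), sg l d t < 2 * c + 1 := by
  filter_upwards [vv_bdd h hd0 hN, ev_pos] with t ht ht0
  have := vv_eq h (d := d) ht0
  have h2 := nn_nonneg (l := l) (d := d) ht0
  linarith

lemma isBoundedUnder_of_ev {f : ℝ → ℝ} {B : ℝ} (hf : ∀ᶠ t in 𝓝[>] (0:ℝ), f t ≤ B) :
    IsBoundedUnder (· ≤ ·) (𝓝[>] (0:ℝ)) f := ⟨B, by simpa using hf⟩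

lemma isBoundedUnder_of_ev' {f : ℝ → ℝ} {B : ℝ} (hf : ∀ᶠ t in 𝓝[>] (0:ℝ), B ≤ f t) :
    IsBoundedUnder (· ≥ ·) (𝓝[>] (0:ℝ)) f := ⟨B, by simpa using hf⟩

/-- the inf principle -/
lemma le_liminf_sg (h : Good l) (hd0 : 0 < d) (hd1 : d < 1) (hc : 0 < c)
    (hN : Tendsto (mm l d) (𝓝[>] 0) (𝓝 c)) :
    c * d ≤ liminf (sg l d) (𝓝[>] 0) := by
  set s0 := liminf (sg l d) (𝓝[>] 0) with hs0
  have h21 := two_rpow_gt hd0
  have h22 := two_rpow_lt hd1
  have bU : IsBoundedUnder (· ≤ ·) (𝓝[>] (0:ℝ)) (sg l d) :=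
    isBoundedUnder_of_ev (B := 2 * c + 1) ((sg_bdd h hd0 hN).mono fun _ => le_of_lt)
  have bL : IsBoundedUnder (· ≥ ·) (𝓝[>] (0:ℝ)) (sg l d) :=
    isBoundedUnder_of_ev' (B := 0) (ev_pos.mono fun t ht => (sg_pos h ht).le)
  -- positivity of s0
  have hs0pos : 0 < s0 := by
    set g := c * (2 ^ d - 1) / 4 with hg
    have hgpos : 0 < g := by
      have : 0 < c * (2 ^ d - 1) := mul_pos hc (by linarith)
      positivity
    refine lt_of_lt_of_le hgpos ?_
    apply le_liminf_of_le bU.isCoboundedUnder_ge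
    filter_upwards [nn_lt h hd0 hN (show c * (2 - 2 ^ d) < c * (2 - 2 ^ d) + g by linarith),
      vv_gt h hN (show c - g < c by linarith), ev_pos] with t h1 h2 h3
    have := vv_eq h (d := d) h3
    have e : c * (2 ^ d - 1) = 4 * g := by rw [hg]; ring
    nlinarith
  -- inequality for fixed x
  have key : ∀ x : ℝ, 0 < x → x < 1 → c - c * ((1 - x ^ (1 - d)) / (1 - x)) ≤ s0 := by
    intro x hx0 hx1
    have hx' : 0 < 1 - x := by linarith
    have hxp : 0 < x ^ (1 - d) := Real.rpow_pos_of_pos hx0 _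
    let F : ℝ → ℝ := fun κ =>
      c * (1 - κ) - (c * (1 + κ) / (1 - κ) - x ^ (1 - d) * (c * (1 - κ))) / (1 - x)
    have hF : Tendsto F (𝓝[>] 0) (𝓝 (c - c * ((1 - x ^ (1 - d)) / (1 - x)))) := by
      have hcont : ContinuousAt F 0 := by
        have h1 : ContinuousAt (fun κ : ℝ => c * (1 + κ) / (1 - κ)) 0 :=
          ContinuousAt.div (by fun_prop) (by fun_prop) (by norm_num)
        have h2 : ContinuousAt (fun κ : ℝ => x ^ (1 - d) * (c * (1 - κ))) 0 := by fun_prop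
        have h3 : ContinuousAt (fun κ : ℝ => c * (1 - κ)) 0 := by fun_prop
        exact h3.sub ((h1.sub h2).div_const _)
      have e : F 0 = c - c * ((1 - x ^ (1 - d)) / (1 - x)) := by
        simp only [F]
        field_simp
        ring
      rw [← e]
      exact tendsto_nhdsWithin_of_tendsto_nhds hcont
    have hG : Tendsto (fun κ : ℝ => s0 * (1 + κ)) (𝓝[>] 0) (𝓝 s0) := by
      have h3 : ContinuousAt (fun κ : ℝ => s0 * (1 + κ)) 0 := by fun_prop
      have := tendsto_nhdsWithin_of_tendsto_nhds (s := Set.Ioi 0) h3.tendsto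
      simpa using this
    refine le_of_tendsto_of_tendsto hF hG ?_
    -- small κ
    have k1 : ∀ᶠ κ in 𝓝[>] (0:ℝ), κ < 1 / 2 :=
      eventually_nhdsWithin_of_eventually_nhds (eventually_lt_nhds (by norm_num))
    have k2 : ∀ᶠ κ in 𝓝[>] (0:ℝ),
        (s0 * (1 + κ)) * (c * (2 - 2 ^ d) * (1 + κ)) < (s0 * (1 - κ)) * (c * (1 - κ)) := by
      apply eventually_nhdsWithin_of_eventually_nhds
      have c1 : ContinuousAt (fun κ : ℝ => (s0 * (1 + κ)) * (c * (2 - 2 ^ d) * (1 + κ))) 0 := by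
        fun_prop
      have c2 : ContinuousAt (fun κ : ℝ => (s0 * (1 - κ)) * (c * (1 - κ))) 0 := by fun_prop
      refine c1.eventually_lt c2 ?_
      have : s0 * (c * (2 - 2 ^ d)) < s0 * c :=
        mul_lt_mul_of_pos_left (by nlinarith) hs0pos
      simpa using this
    filter_upwards [ev_pos, k1, k2] with κ hκ0 hκ1 hκ2
    -- events
    have E0 : ∃ᶠ t in 𝓝[>] (0:ℝ), sg l d t < s0 * (1 + κ) :=
      frequently_lt_of_liminf_lt bU.isCoboundedUnder_ge (by rw [← hs0]; nlinarith)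
    have E1 : ∀ᶠ t in 𝓝[>] (0:ℝ), s0 * (1 - κ) < sg l d t :=
      eventually_lt_of_lt_liminf (by rw [← hs0]; nlinarith) bL
    have hpp : 0 < c * (2 - 2 ^ d) := mul_pos hc (by linarith)
    have E2 : ∀ᶠ t in 𝓝[>] (0:ℝ), nn l d t < c * (2 - 2 ^ d) * (1 + κ) :=
      nn_lt h hd0 hN (by nlinarith)
    have E3 : ∀ᶠ t in 𝓝[>] (0:ℝ), c * (1 - κ) < vv l d t := vv_gt h hN (by nlinarith)
    have E4 : ∀ᶠ t in 𝓝[>] (0:ℝ), mm l d t < c * (1 + κ) :=
      hN.eventually_lt_const (by nlinarith)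
    have E5 := good_ev h hd0 (a := s0 * (1 - κ)) (a' := s0 * (1 + κ))
      (p := c * (2 - 2 ^ d) * (1 + κ)) (u := c * (1 - κ)) (ω := κ)
      (mul_pos hs0pos (by linarith)) (mul_pos hs0pos (by linarith))
      (mul_pos hpp (by linarith)) hκ2 hκ0
    obtain ⟨t, a0, a1, a2, a3, a4, a5, a6⟩ :=
      (E0.and_eventually ((ev_all E1).and ((ev_all E2).and ((ev_all E3).and
        (E4.and (E5.and ev_pos)))))).exists
    have b1 := a5 (fun s h1 h2 => (a1 s h1 h2).le) (fun s h1 h2 => (a2 s h1 h2).le) a0.le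
      (a3 t a6 le_rfl).le
    have hκ' : 0 < 1 - κ := by linarith
    have b2 : vv l d t ≤ c * (1 + κ) / (1 - κ) := by
      rw [le_div_iff₀ hκ']
      linarith
    have b3 := scale1 h (d := d) hx0 hx1.le a6
    have b4 := a3 (x * t) (mul_pos hx0 a6) (by nlinarith)
    have b5 : nn l d t ≤ (c * (1 + κ) / (1 - κ) - x ^ (1 - d) * (c * (1 - κ))) / (1 - x) := by
      rw [le_div_iff₀ hx']
      have : x ^ (1 - d) * (c * (1 - κ)) ≤ x ^ (1 - d) * vv l d (x * t) :=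
        mul_le_mul_of_nonneg_left b4.le hxp.le
      linarith
    have b6 := vv_eq h (d := d) a6
    have b7 := a3 t a6 le_rfl
    show F κ ≤ s0 * (1 + κ)
    simp only [F]
    linarith
  -- let x tend to one
  have hlim : Tendsto (fun x : ℝ => c - c * ((1 - x ^ (1 - d)) / (1 - x))) (𝓝[<] 1)
      (𝓝 (c - c * (1 - d))) := (tendsto_const_nhds).sub ((tendsto_slope_one (1 - d)).const_mul c)
  have hfin : c - c * (1 - d) ≤ s0 := by
    refine le_of_tendsto hlim ?_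
    have e1 : ∀ᶠ x in 𝓝[<] (1:ℝ), 0 < x :=
      eventually_nhdsWithin_of_eventually_nhds (eventually_gt_nhds (by norm_num))
    filter_upwards [e1, self_mem_nhdsWithin] with x hx0 hx1
    exact key x hx0 hx1
  linarith

/-- the sup principle -/
lemma limsup_vv_le (h : Good l) (hd0 : 0 < d) (hd1 : d < 1) (hc : 0 < c)
    (hN : Tendsto (mm l d) (𝓝[>] 0) (𝓝 c)) :
    limsup (vv l d) (𝓝[>] 0) ≤ c := by
  set ρ := limsup (vv l d) (𝓝[>] 0) with hρ
  have h21 := two_rpow_gt hd0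
  have h22 := two_rpow_lt hd1
  have bU : IsBoundedUnder (· ≤ ·) (𝓝[>] (0:ℝ)) (vv l d) :=
    isBoundedUnder_of_ev (B := 2 * c + 1) ((vv_bdd h hd0 hN).mono fun _ => le_of_lt)
  have bL : IsBoundedUnder (· ≥ ·) (𝓝[>] (0:ℝ)) (vv l d) :=
    isBoundedUnder_of_ev' (B := c / 2) ((vv_gt h hN (by linarith)).mono fun _ => le_of_lt)
  have hρpos : 0 < ρ := by
    refine lt_of_lt_of_le (show 0 < c / 2 by linarith) ?_
    apply le_limsup_of_frequently_le _ bU
    exact ((vv_gt h hN (show c / 2 < c by linarith)).mono fun _ => le_of_lt).frequently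
  have hs0 := le_liminf_sg h hd0 hd1 hc hN
  have bLs : IsBoundedUnder (· ≥ ·) (𝓝[>] (0:ℝ)) (sg l d) :=
    isBoundedUnder_of_ev' (B := 0) (ev_pos.mono fun t ht => (sg_pos h ht).le)
  -- inequality for fixed x close to one
  have key : ∀ x : ℝ, 0 < x → x < 1 → (1 - x ^ d) / (1 - x) * (2 - 2 ^ d) < d * x ^ d →
      x ^ d * ρ ≤ c := by
    intro x hx0 hx1 hx2
    have hx' : 0 < 1 - x := by linarith
    have hxp : 0 < x ^ (1 - d) := Real.rpow_pos_of_pos hx0 _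
    have hxd : 0 < x ^ d := Real.rpow_pos_of_pos hx0 _
    have hxd1 : x ^ d < 1 := Real.rpow_lt_one hx0.le hx1 hd0
    have hsplit := rpow_split (d := d) hx0
    let A' : ℝ → ℝ := fun κ =>
      ρ * (1 + κ) - x ^ d * (ρ * (1 - κ) - x ^ (1 - d) * (ρ * (1 + κ))) / (1 - x)
    have hA'0 : A' 0 = ρ * ((1 - x ^ d) / (1 - x)) := by
      simp only [A']
      field_simp
      have : x ^ d * (1 - x ^ (1 - d)) = x ^ d - x := by
        rw [mul_sub, mul_one, mul_comm (x ^ d) (x ^ (1 - d)), hsplit]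
      linear_combination (-1 : ℝ) * this
    have hA'c : ContinuousAt A' 0 := by
      have h1 : ContinuousAt (fun κ : ℝ => ρ * (1 + κ)) 0 := by fun_prop
      have h2 : ContinuousAt (fun κ : ℝ =>
        x ^ d * (ρ * (1 - κ) - x ^ (1 - d) * (ρ * (1 + κ)))) 0 := by fun_prop
      exact h1.sub (h2.div_const _)
    have hA'pos : 0 < A' 0 := by
      rw [hA'0]
      exact mul_pos hρpos (div_pos (by linarith) hx')
    have hL : Tendsto (fun κ : ℝ => (1 - κ) * (x ^ d * (ρ * (1 - κ)))) (𝓝[>] 0)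
        (𝓝 (x ^ d * ρ)) := by
      have h3 : ContinuousAt (fun κ : ℝ => (1 - κ) * (x ^ d * (ρ * (1 - κ)))) 0 := by fun_prop
      have := tendsto_nhdsWithin_of_tendsto_nhds (s := Set.Ioi 0) h3.tendsto
      simpa using this
    have hR : Tendsto (fun κ : ℝ => c * (1 + κ)) (𝓝[>] 0) (𝓝 c) := by
      have h3 : ContinuousAt (fun κ : ℝ => c * (1 + κ)) 0 := by fun_prop
      have := tendsto_nhdsWithin_of_tendsto_nhds (s := Set.Ioi 0) h3.tendsto
      simpa using this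
    refine le_of_tendsto_of_tendsto hL hR ?_
    have k1 : ∀ᶠ κ in 𝓝[>] (0:ℝ), κ < 1 / 2 :=
      eventually_nhdsWithin_of_eventually_nhds (eventually_lt_nhds (by norm_num))
    have k2 : ∀ᶠ κ in 𝓝[>] (0:ℝ), A' κ * (c * (2 - 2 ^ d) * (1 + κ)) <
        (c * d * (1 - κ)) * (x ^ d * (ρ * (1 - κ))) := by
      apply eventually_nhdsWithin_of_eventually_nhds
      have c1 : ContinuousAt (fun κ : ℝ => A' κ * (c * (2 - 2 ^ d) * (1 + κ))) 0 := by
        apply ContinuousAt.mul hA'c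
        fun_prop
      have c2 : ContinuousAt (fun κ : ℝ => (c * d * (1 - κ)) * (x ^ d * (ρ * (1 - κ)))) 0 := by
        fun_prop
      refine c1.eventually_lt c2 ?_
      rw [hA'0]
      have e1 : (c * ρ) * ((1 - x ^ d) / (1 - x) * (2 - 2 ^ d)) < (c * ρ) * (d * x ^ d) :=
        mul_lt_mul_of_pos_left hx2 (mul_pos hc hρpos)
      have e2 : ρ * ((1 - x ^ d) / (1 - x)) * (c * (2 - 2 ^ d) * (1 + 0)) =
        (c * ρ) * ((1 - x ^ d) / (1 - x) * (2 - 2 ^ d)) := by ring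
      have e3 : (c * d * (1 - 0)) * (x ^ d * (ρ * (1 - 0))) = (c * ρ) * (d * x ^ d) := by ring
      rw [e2, e3]
      exact e1
    have k3 : ∀ᶠ κ in 𝓝[>] (0:ℝ), 0 < A' κ :=
      eventually_nhdsWithin_of_eventually_nhds
        (hA'c.tendsto.eventually_const_lt hA'pos)
    filter_upwards [ev_pos, k1, k2, k3] with κ hκ0 hκ1 hκ2 hκ3
    have E0 : ∃ᶠ t in 𝓝[>] (0:ℝ), ρ * (1 - κ) < vv l d t :=
      frequently_lt_of_lt_limsup bL.isCoboundedUnder_le (by rw [← hρ]; nlinarith)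
    have E1 : ∀ᶠ t in 𝓝[>] (0:ℝ), vv l d t < ρ * (1 + κ) :=
      eventually_lt_of_limsup_lt (by rw [← hρ]; nlinarith) bU
    have hpp : 0 < c * (2 - 2 ^ d) := mul_pos hc (by linarith)
    have E2 : ∀ᶠ t in 𝓝[>] (0:ℝ), nn l d t < c * (2 - 2 ^ d) * (1 + κ) :=
      nn_lt h hd0 hN (by nlinarith)
    have hcd : 0 < c * d := mul_pos hc hd0
    have E3 : ∀ᶠ t in 𝓝[>] (0:ℝ), c * d * (1 - κ) < sg l d t :=
      eventually_lt_of_lt_liminf (lt_of_lt_of_le (by nlinarith) hs0) bLs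
    have E4 : ∀ᶠ t in 𝓝[>] (0:ℝ), mm l d t < c * (1 + κ) :=
      hN.eventually_lt_const (by nlinarith)
    have E5 := good_ev h hd0 (a := c * d * (1 - κ)) (a' := A' κ)
      (p := c * (2 - 2 ^ d) * (1 + κ)) (u := x ^ d * (ρ * (1 - κ))) (ω := κ)
      (mul_pos hcd (by linarith)) hκ3
      (mul_pos hpp (by linarith)) hκ2 hκ0
    have tx := tendsto_mul_nhdsGT hx0
    obtain ⟨t, a0, a1, a2, a3, a4, a5, a6⟩ :=
      (E0.and_eventually ((ev_all E1).and ((tx.eventually (ev_all E2)).and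
        ((tx.eventually (ev_all E3)).and ((tx.eventually E4).and
        ((tx.eventually E5).and ev_pos)))))).exists
    have hxt : 0 < x * t := mul_pos hx0 a6
    have hxt' : x * t ≤ t := by nlinarith
    have b1 := a1 t a6 le_rfl
    have b2 := a1 (x * t) hxt hxt'
    have b3 := scale2 h (d := d) hx0 hx1.le a6
    have b4 := scale3 h (d := d) hx0 hx1.le a6
    have b5 : x ^ d * (ρ * (1 - κ)) ≤ vv l d (x * t) :=
      (mul_le_mul_of_nonneg_left a0.le hxd.le).trans b4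
    have b6 := vv_eq h (d := d) hxt
    have b7 : x ^ d * (ρ * (1 - κ) - x ^ (1 - d) * (ρ * (1 + κ))) / (1 - x) ≤ nn l d (x * t) := by
      rw [div_le_iff₀ hx', mul_comm (nn l d (x * t))]
      refine le_trans ?_ b3
      apply mul_le_mul_of_nonneg_left _ hxd.le
      have := mul_le_mul_of_nonneg_left b2.le hxp.le
      linarith
    have b8 : sg l d (x * t) ≤ A' κ := by
      simp only [A']
      linarith
    have b9 := a5 (fun s h1 h2 => (a3 s h1 h2).le) (fun s h1 h2 => (a2 s h1 h2).le) b8 b5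
    have hκ' : 0 ≤ 1 - κ := by linarith
    have b10 : (1 - κ) * (x ^ d * (ρ * (1 - κ))) ≤ (1 - κ) * vv l d (x * t) :=
      mul_le_mul_of_nonneg_left b5 hκ'
    show (1 - κ) * (x ^ d * (ρ * (1 - κ))) ≤ c * (1 + κ)
    linarith
  -- let x tend to one
  have hxd : Tendsto (fun x : ℝ => x ^ d) (𝓝[<] 1) (𝓝 1) := by
    have h1 : Tendsto (fun x : ℝ => x ^ d) (𝓝 1) (𝓝 ((1:ℝ) ^ d)) :=
      (Real.continuousAt_rpow_const 1 d (Or.inl one_ne_zero)).tendsto
    rw [Real.one_rpow] at h1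
    exact tendsto_nhdsWithin_of_tendsto_nhds h1
  have hlim : Tendsto (fun x : ℝ => x ^ d * ρ) (𝓝[<] 1) (𝓝 (1 * ρ)) := hxd.mul_const ρ
  rw [one_mul] at hlim
  refine le_of_tendsto hlim ?_
  have e1 : ∀ᶠ x in 𝓝[<] (1:ℝ), 0 < x :=
    eventually_nhdsWithin_of_eventually_nhds (eventually_gt_nhds (by norm_num))
  have e2 : ∀ᶠ x in 𝓝[<] (1:ℝ), (1 - x ^ d) / (1 - x) * (2 - 2 ^ d) < d * x ^ d := by
    have t1 : Tendsto (fun x : ℝ => (1 - x ^ d) / (1 - x) * (2 - 2 ^ d)) (𝓝[<] 1)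
      (𝓝 (d * (2 - 2 ^ d))) := (tendsto_slope_one d).mul_const _
    have t2 : Tendsto (fun x : ℝ => d * x ^ d) (𝓝[<] 1) (𝓝 (d * 1)) := hxd.const_mul d
    exact t1.eventually_lt t2 (by nlinarith)
  filter_upwards [e1, e2, self_mem_nhdsWithin] with x hx0 hx2 hx1
  exact key x hx0 hx1 hx2

lemma tendsto_vv (h : Good l) (hd0 : 0 < d) (hd1 : d < 1) (hc : 0 < c)
    (hN : Tendsto (mm l d) (𝓝[>] 0) (𝓝 c)) : Tendsto (vv l d) (𝓝[>] 0) (𝓝 c) := by
  have bU : IsBoundedUnder (· ≤ ·) (𝓝[>] (0:ℝ)) (vv l d) :=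
    isBoundedUnder_of_ev (B := 2 * c + 1) ((vv_bdd h hd0 hN).mono fun _ => le_of_lt)
  rw [tendsto_order]
  refine ⟨fun b hb => vv_gt h hN hb, fun b hb => ?_⟩
  exact eventually_lt_of_limsup_lt (lt_of_le_of_lt (limsup_vv_le h hd0 hd1 hc hN) hb) bU

/-- monotone density -/
lemma tendsto_nn (h : Good l) (hv : Tendsto (vv l d) (𝓝[>] 0) (𝓝 c)) :
    Tendsto (nn l d) (𝓝[>] 0) (𝓝 (c * (1 - d))) := by
  have hxd : Tendsto (fun x : ℝ => x ^ d) (𝓝[<] 1) (𝓝 1) := by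
    have h1 : Tendsto (fun x : ℝ => x ^ d) (𝓝 1) (𝓝 ((1:ℝ) ^ d)) :=
      (Real.continuousAt_rpow_const 1 d (Or.inl one_ne_zero)).tendsto
    rw [Real.one_rpow] at h1
    exact tendsto_nhdsWithin_of_tendsto_nhds h1
  have e1 : ∀ᶠ x in 𝓝[<] (1:ℝ), 0 < x :=
    eventually_nhdsWithin_of_eventually_nhds (eventually_gt_nhds (by norm_num))
  have hvx : ∀ x : ℝ, 0 < x → Tendsto (fun t => vv l d t - x ^ (1 - d) * vv l d (x * t)) (𝓝[>] 0)
      (𝓝 (c - x ^ (1 - d) * c)) := fun x hx =>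
    hv.sub ((hv.comp (tendsto_mul_nhdsGT hx)).const_mul _)
  rw [tendsto_order]
  constructor
  · intro b hb
    have hlim : Tendsto (fun x : ℝ => x ^ d * (c * ((1 - x ^ (1 - d)) / (1 - x)))) (𝓝[<] 1)
        (𝓝 (1 * (c * (1 - d)))) := hxd.mul ((tendsto_slope_one (1 - d)).const_mul c)
    rw [one_mul] at hlim
    obtain ⟨x, hx1, hx0, hxb⟩ :=
      ((eventually_mem_nhdsWithin (a := (1:ℝ)) (s := Set.Iio 1)).and
        (e1.and (hlim.eventually_const_lt hb))).exists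
    have hx1' : x < 1 := hx1
    have hx' : 0 < 1 - x := by linarith
    have h2 : b * (1 - x) < x ^ d * (c - x ^ (1 - d) * c) := by
      have : x ^ d * (c * ((1 - x ^ (1 - d)) / (1 - x))) =
        x ^ d * (c - x ^ (1 - d) * c) / (1 - x) := by ring
      rw [this, lt_div_iff₀ hx'] at hxb
      exact hxb
    have h3 := ((hvx x hx0).const_mul (x ^ d)).eventually_const_lt h2
    have tx := tendsto_mul_nhdsGT (x := x⁻¹) (by positivity)
    filter_upwards [tx.eventually (h3.and ev_pos), ev_pos] with t ht ht0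
    have h4 := scale2 h (d := d) hx0 hx1'.le ht.2
    have h5 : x * (x⁻¹ * t) = t := by field_simp
    have h6 := ht.1
    rw [h5] at h4 h6
    have h7 : b * (1 - x) < (1 - x) * nn l d t := lt_of_lt_of_le h6 h4
    rw [mul_comm] at h7
    exact lt_of_mul_lt_mul_left h7 hx'.le
  · intro b hb
    have hlim : Tendsto (fun x : ℝ => c * ((1 - x ^ (1 - d)) / (1 - x))) (𝓝[<] 1)
        (𝓝 (c * (1 - d))) := (tendsto_slope_one (1 - d)).const_mul c
    obtain ⟨x, hx1, hx0, hxb⟩ :=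
      ((eventually_mem_nhdsWithin (a := (1:ℝ)) (s := Set.Iio 1)).and
        (e1.and (hlim.eventually_lt_const hb))).exists
    have hx1' : x < 1 := hx1
    have hx' : 0 < 1 - x := by linarith
    have h2 : c - x ^ (1 - d) * c < b * (1 - x) := by
      have : c * ((1 - x ^ (1 - d)) / (1 - x)) = (c - x ^ (1 - d) * c) / (1 - x) := by ring
      rw [this, div_lt_iff₀ hx'] at hxb
      exact hxb
    have h3 := (hvx x hx0).eventually_lt_const h2
    filter_upwards [h3, ev_pos] with t ht ht0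
    have h4 := scale1 h (d := d) hx0 hx1'.le ht0
    have h7 : (1 - x) * nn l d t < b * (1 - x) := lt_of_le_of_lt h4 ht
    rw [mul_comm b] at h7
    exact lt_of_mul_lt_mul_left h7 hx'.le

end

end Pool.Agent.H56.Mass
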