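import Pool.Agent.H56.Mass5

/-!
Mass distribution: index asymptotics, the forward direction, and the main theorem.
-/

namespace Pool.Agent.H56.Mass

open Finset Filter Topology

variable {l : ℕ → ℝ} {d : ℝ}

lemma tendsto_l_nhdsGT (h : Good l) : Tendsto l atTop (𝓝[>] (0:ℝ)) :=
  tendsto_nhdsWithin_of_tendsto_nhds_of_eventually_within _ h.tendsto
    (Eventually.of_forall fun j => h.pos j)

lemma idx_rpow (h : Good l) (hd0 : 0 < d) (j : ℕ) :
    l j * ((j:ℝ) + 1) ^ (1 / d) = (((j:ℝ) + 1) * (l j) ^ d) ^ (1 / d) := by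
  have h1 : (0:ℝ) ≤ (j:ℝ) + 1 := by positivity
  rw [Real.mul_rpow h1 (Real.rpow_nonneg (h.pos j).le d), ← Real.rpow_mul (h.pos j).le]
  have : d * (1 / d) = 1 := by field_simp
  rw [this, Real.rpow_one, mul_comm]

lemma idx_rpow' (h : Good l) (hd0 : 0 < d) (j : ℕ) :
    ((j:ℝ) + 1) * (l j) ^ d = (l j * ((j:ℝ) + 1) ^ (1 / d)) ^ d := by
  have h1 : (0:ℝ) ≤ (j:ℝ) + 1 := by positivity
  rw [Real.mul_rpow (h.pos j).le (Real.rpow_nonneg h1 _), ← Real.rpow_mul h1]
  have : (1 / d) * d = 1 := by field_simp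
  rw [this, Real.rpow_one, mul_comm]

lemma idx_of_nn (h : Good l) (hd0 : 0 < d) {A : ℝ} (hA : 0 < A)
    (hn : Tendsto (nn l d) (𝓝[>] 0) (𝓝 A)) :
    Tendsto (fun j : ℕ => l j * ((j:ℝ) + 1) ^ (1 / d)) atTop (𝓝 (A ^ (1 / d))) := by
  have hl := tendsto_l_nhdsGT h
  have hw : Tendsto (fun j : ℕ => ((j:ℝ) + 1) * (l j) ^ d) atTop (𝓝 A) := by
    rw [tendsto_order]
    constructor
    · intro b hb
      have hlim : Tendsto (fun x : ℝ => b * x ^ d) (𝓝[>] 1) (𝓝 (b * 1)) := by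
        have h1 : Tendsto (fun x : ℝ => x ^ d) (𝓝 1) (𝓝 ((1:ℝ) ^ d)) :=
          (Real.continuousAt_rpow_const 1 d (Or.inl one_ne_zero)).tendsto
        rw [Real.one_rpow] at h1
        exact (tendsto_nhdsWithin_of_tendsto_nhds h1).const_mul b
      rw [mul_one] at hlim
      obtain ⟨x, hx1, hxb⟩ := ((eventually_mem_nhdsWithin (a := (1:ℝ)) (s := Set.Ioi 1)).and
        (hlim.eventually_lt_const hb)).exists
      have hx1' : 1 < x := hx1
      have hx0 : 0 < x := by linarith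
      have hxd : 0 < x ^ d := Real.rpow_pos_of_pos hx0 _
      have h3 := hl.eventually ((tendsto_mul_nhdsGT hx0).eventually
        (hn.eventually_const_lt hxb))
      filter_upwards [h3] with j hj
      have hj0 := h.pos j
      have h4 : cnt l (x * l j) ≤ j :=
        (cnt_le_iff h (mul_pos hx0 hj0) j).2 (by nlinarith)
      have h5 : (cnt l (x * l j) : ℝ) ≤ (j:ℝ) + 1 := by
        have : (cnt l (x * l j) : ℝ) ≤ j := by exact_mod_cast h4
        linarith
      unfold nn at hj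
      rw [Real.mul_rpow hx0.le hj0.le] at hj
      have h6 : 0 < (l j) ^ d := Real.rpow_pos_of_pos hj0 _
      have h7 : (cnt l (x * l j) : ℝ) * (x ^ d * l j ^ d) ≤ ((j:ℝ) + 1) * (x ^ d * l j ^ d) :=
        mul_le_mul_of_nonneg_right h5 (by positivity)
      have h8 : x ^ d * b < x ^ d * (((j:ℝ) + 1) * l j ^ d) := by
        calc x ^ d * b = b * x ^ d := by ring
          _ < _ := hj
          _ ≤ ((j:ℝ) + 1) * (x ^ d * l j ^ d) := h7
          _ = _ := by ring
      exact lt_of_mul_lt_mul_left h8 hxd.le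
    · intro b hb
      have h3 := hl.eventually (hn.eventually_lt_const hb)
      filter_upwards [h3] with j hj
      have hj0 := h.pos j
      refine lt_of_le_of_lt ?_ hj
      unfold nn
      have h4 : j < cnt l (l j) := (lt_cnt_iff h hj0 j).2 le_rfl
      have h5 : (j:ℝ) + 1 ≤ cnt l (l j) := by exact_mod_cast h4
      exact mul_le_mul_of_nonneg_right h5 (Real.rpow_nonneg hj0.le _)
  have hcont : Tendsto (fun y : ℝ => y ^ (1 / d)) (𝓝 A) (𝓝 (A ^ (1 / d))) :=
    (Real.continuousAt_rpow_const A (1 / d) (Or.inl hA.ne')).tendsto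
  refine (hcont.comp hw).congr (fun j => ?_)
  exact (idx_rpow h hd0 j).symm

lemma tendsto_cnt (h : Good l) : Tendsto (cnt l) (𝓝[>] (0:ℝ)) atTop := by
  rw [tendsto_atTop]
  intro K
  have h1 : ∀ᶠ t in 𝓝[>] (0:ℝ), t < l K :=
    eventually_nhdsWithin_of_eventually_nhds (eventually_lt_nhds (h.pos K))
  filter_upwards [h1, ev_pos] with t ht ht0
  exact ((lt_cnt_iff h ht0 K).2 ht.le).le

lemma nn_of_idx (h : Good l) (hd0 : 0 < d) {L : ℝ}
    (hl : Tendsto (fun j : ℕ => l j * ((j:ℝ) + 1) ^ (1 / d)) atTop (𝓝 L)) :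
    Tendsto (nn l d) (𝓝[>] 0) (𝓝 (L ^ d)) := by
  have hw : Tendsto (fun j : ℕ => ((j:ℝ) + 1) * (l j) ^ d) atTop (𝓝 (L ^ d)) := by
    have hcont : Tendsto (fun y : ℝ => y ^ d) (𝓝 L) (𝓝 (L ^ d)) :=
      (Real.continuousAt_rpow_const L d (Or.inr hd0.le)).tendsto
    refine (hcont.comp hl).congr (fun j => ?_)
    exact (idx_rpow' h hd0 j).symm
  have hc := tendsto_cnt h
  have hup : Tendsto (fun t => (((cnt l t - 1 : ℕ) : ℝ) + 1) * (l (cnt l t - 1)) ^ d) (𝓝[>] 0)
      (𝓝 (L ^ d)) := by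
    have hc1 : Tendsto (fun t => cnt l t - 1) (𝓝[>] (0:ℝ)) atTop :=
      (tendsto_sub_atTop_nat 1).comp hc
    exact hw.comp hc1
  have hlo : Tendsto (fun t => ((cnt l t : ℝ) / (cnt l t + 1)) *
      (((cnt l t : ℝ) + 1) * (l (cnt l t)) ^ d)) (𝓝[>] 0) (𝓝 (L ^ d)) := by
    have h1 : Tendsto (fun n : ℕ => (n:ℝ) / (n + 1)) atTop (𝓝 1) :=
      tendsto_natCast_div_add_atTop (1:ℝ)
    have h2 := (h1.comp hc).mul (hw.comp hc)
    rw [one_mul] at h2
    exact h2
  refine tendsto_of_tendsto_of_tendsto_of_le_of_le' hlo hup ?_ ?_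
  · filter_upwards [ev_pos] with t ht
    unfold nn
    have h1 : l (cnt l t) < t := (cnt_le_iff h ht _).1 le_rfl
    have h2 : (l (cnt l t)) ^ d ≤ t ^ d := Real.rpow_le_rpow (h.pos _).le h1.le hd0.le
    have h3 : (cnt l t : ℝ) / (cnt l t + 1) * (((cnt l t : ℝ) + 1) * l (cnt l t) ^ d) =
      cnt l t * l (cnt l t) ^ d := by
      have : (cnt l t : ℝ) + 1 ≠ 0 := by positivity
      field_simp
    rw [h3]
    exact mul_le_mul_of_nonneg_left h2 (Nat.cast_nonneg _)
  · filter_upwards [ev_pos, hc.eventually_ge_atTop 1] with t ht hk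
    unfold nn
    have h1 : t ≤ l (cnt l t - 1) := (lt_cnt_iff h ht _).1 (by omega)
    have h2 : t ^ d ≤ (l (cnt l t - 1)) ^ d := Real.rpow_le_rpow ht.le h1 hd0.le
    have h3 : (((cnt l t - 1 : ℕ) : ℝ) + 1) = cnt l t := by
      have : ((cnt l t - 1 : ℕ) : ℝ) = (cnt l t : ℝ) - 1 := by
        rw [Nat.cast_sub hk]; simp
      rw [this]; ring
    rw [h3]
    exact mul_le_mul_of_nonneg_left h2 (Nat.cast_nonneg _)

lemma pow_mul_vv_tendsto (h : Good l) {x t : ℝ} (hx0 : 0 < x) (hx1 : x < 1) (ht : 0 < t) :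
    Tendsto (fun k : ℕ => (x ^ (1 - d)) ^ k * vv l d (x ^ k * t)) atTop (𝓝 0) := by
  have h1 : 0 < t ^ (1 - d) := Real.rpow_pos_of_pos ht _
  have e : ∀ k : ℕ, (x ^ (1 - d)) ^ k * vv l d (x ^ k * t) = V l (x ^ k * t) / t ^ (1 - d) := by
    intro k
    unfold vv
    have hk : 0 < x ^ k := pow_pos hx0 k
    rw [Real.mul_rpow hk.le ht.le]
    have e1 : (x ^ k) ^ (1 - d) = (x ^ (1 - d)) ^ k := by
      rw [← Real.rpow_natCast, ← Real.rpow_natCast, ← Real.rpow_mul hx0.le, ← Real.rpow_mul hx0.le,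
        mul_comm]
    rw [e1]
    have h2 : 0 < (x ^ (1 - d)) ^ k := pow_pos (Real.rpow_pos_of_pos hx0 _) k
    field_simp
  simp_rw [e]
  have h3 : Tendsto (fun k : ℕ => x ^ k * t) atTop (𝓝[>] 0) := by
    apply tendsto_nhdsWithin_of_tendsto_nhds_of_eventually_within
    · have := (tendsto_pow_atTop_nhds_zero_of_lt_one hx0.le hx1).mul_const t
      rwa [zero_mul] at this
    · exact Eventually.of_forall fun k => mul_pos (pow_pos hx0 k) ht
  have h4 := ((V_tendsto_zero h).comp h3).div_const (t ^ (1 - d))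
  rwa [zero_div] at h4

/-- Abelian direction -/
lemma vv_of_nn (h : Good l) (hd1 : d < 1) {A : ℝ}
    (hn : Tendsto (nn l d) (𝓝[>] 0) (𝓝 A)) :
    Tendsto (vv l d) (𝓝[>] 0) (𝓝 (A / (1 - d))) := by
  have hd1' : 0 < 1 - d := by linarith
  have hxd : Tendsto (fun x : ℝ => x ^ d) (𝓝[<] 1) (𝓝 1) := by
    have h1 : Tendsto (fun x : ℝ => x ^ d) (𝓝 1) (𝓝 ((1:ℝ) ^ d)) :=
      (Real.continuousAt_rpow_const 1 d (Or.inl one_ne_zero)).tendsto
    rw [Real.one_rpow] at h1
    exact tendsto_nhdsWithin_of_tendsto_nhds h1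
  have e1 : ∀ᶠ x in 𝓝[<] (1:ℝ), 0 < x :=
    eventually_nhdsWithin_of_eventually_nhds (eventually_gt_nhds (by norm_num))
  have hsl := tendsto_slope_one (1 - d)
  -- iteration
  have up : ∀ x : ℝ, 0 < x → x < 1 → ∀ B : ℝ, ∀ t : ℝ, 0 < t →
      (∀ s, 0 < s → s ≤ t → nn l d s ≤ B) →
      vv l d t * (1 - x ^ (1 - d)) ≤ (1 - x) * B / x ^ d := by
    intro x hx0 hx1 B t ht hB
    set q := x ^ (1 - d) with hq
    have hq0 : 0 < q := Real.rpow_pos_of_pos hx0 _
    have hq1 : q < 1 := Real.rpow_lt_one hx0.le hx1 hd1'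
    have hxdp : 0 < x ^ d := Real.rpow_pos_of_pos hx0 _
    set C := (1 - x) * B / x ^ d with hC
    have hind : ∀ k : ℕ, vv l d t * (1 - q) ≤
        (q ^ k * vv l d (x ^ k * t)) * (1 - q) + C * (1 - q ^ k) := by
      intro k
      induction k with
      | zero => simp
      | succ k ih =>
        have hk0 : 0 < x ^ k * t := mul_pos (pow_pos hx0 k) ht
        have h2 := scale2 h (d := d) hx0 hx1.le hk0
        have e2 : x * (x ^ k * t) = x ^ (k + 1) * t := by ring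
        rw [e2] at h2
        have hk1 : x ^ (k + 1) * t ≤ t := by
          have : x ^ (k + 1) ≤ 1 := pow_le_one₀ hx0.le hx1.le
          nlinarith
        have h3 := hB (x ^ (k + 1) * t) (mul_pos (pow_pos hx0 _) ht) hk1
        have h4 : vv l d (x ^ k * t) - q * vv l d (x ^ (k + 1) * t) ≤ C := by
          rw [hC, le_div_iff₀ hxdp]
          have : (1 - x) * nn l d (x ^ (k + 1) * t) ≤ (1 - x) * B :=
            mul_le_mul_of_nonneg_left h3 (by linarith)
          linarith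
        have h5 : 0 < q ^ k * (1 - q) := mul_pos (pow_pos hq0 k) (by linarith)
        have h6 := mul_le_mul_of_nonneg_left h4 h5.le
        calc vv l d t * (1 - q) ≤ _ := ih
          _ ≤ _ := by rw [pow_succ q k]; nlinarith
    have hlim : Tendsto (fun k : ℕ => (q ^ k * vv l d (x ^ k * t)) * (1 - q) + C * (1 - q ^ k))
        atTop (𝓝 (0 * (1 - q) + C * (1 - 0))) := by
      apply Tendsto.add
      · exact (pow_mul_vv_tendsto h hx0 hx1 ht).mul_const _
      · exact ((tendsto_const_nhds).sub (tendsto_pow_atTop_nhds_zero_of_lt_one hq0.le hq1)).const_mul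
          C
    have := ge_of_tendsto' hlim hind
    simpa using this
  have lo : ∀ x : ℝ, 0 < x → x < 1 → ∀ B : ℝ, ∀ t : ℝ, 0 < t →
      (∀ s, 0 < s → s ≤ t → B ≤ nn l d s) →
      (1 - x) * B ≤ vv l d t * (1 - x ^ (1 - d)) := by
    intro x hx0 hx1 B t ht hB
    set q := x ^ (1 - d) with hq
    have hq0 : 0 < q := Real.rpow_pos_of_pos hx0 _
    have hq1 : q < 1 := Real.rpow_lt_one hx0.le hx1 hd1'
    set C := (1 - x) * B with hC
    have hind : ∀ k : ℕ, 
        (q ^ k * vv l d (x ^ k * t)) * (1 - q) + C * (1 - q ^ k) ≤ vv l d t * (1 - q) := by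
      intro k
      induction k with
      | zero => simp
      | succ k ih =>
        have hk0 : 0 < x ^ k * t := mul_pos (pow_pos hx0 k) ht
        have h2 := scale1 h (d := d) hx0 hx1.le hk0
        have e2 : x * (x ^ k * t) = x ^ (k + 1) * t := by ring
        rw [e2] at h2
        have hk1 : x ^ k * t ≤ t := by
          have : x ^ k ≤ 1 := pow_le_one₀ hx0.le hx1.le
          nlinarith
        have h3 := hB (x ^ k * t) hk0 hk1
        have h4 : C ≤ vv l d (x ^ k * t) - q * vv l d (x ^ (k + 1) * t) := by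
          have : (1 - x) * B ≤ (1 - x) * nn l d (x ^ k * t) :=
            mul_le_mul_of_nonneg_left h3 (by linarith)
          rw [hC]
          linarith
        have h5 : 0 < q ^ k * (1 - q) := mul_pos (pow_pos hq0 k) (by linarith)
        have h6 := mul_le_mul_of_nonneg_left h4 h5.le
        refine le_trans ?_ ih
        rw [pow_succ q k]
        nlinarith
    have hlim : Tendsto (fun k : ℕ => (q ^ k * vv l d (x ^ k * t)) * (1 - q) + C * (1 - q ^ k))
        atTop (𝓝 (0 * (1 - q) + C * (1 - 0))) := by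
      apply Tendsto.add
      · exact (pow_mul_vv_tendsto h hx0 hx1 ht).mul_const _
      · exact ((tendsto_const_nhds).sub (tendsto_pow_atTop_nhds_zero_of_lt_one hq0.le hq1)).const_mul
          C
    have := le_of_tendsto' hlim hind
    simpa using this
  rw [tendsto_order]
  constructor
  · intro b hb
    rw [lt_div_iff₀ hd1'] at hb
    -- choose B < A with b (1-d) < B
    obtain ⟨B, hB1, hB2⟩ := exists_between hb
    have hlim : Tendsto (fun x : ℝ => b * ((1 - x ^ (1 - d)) / (1 - x))) (𝓝[<] 1)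
        (𝓝 (b * (1 - d))) := hsl.const_mul b
    obtain ⟨x, hx1, hx0, hxb⟩ :=
      ((eventually_mem_nhdsWithin (a := (1:ℝ)) (s := Set.Iio 1)).and
        (e1.and (hlim.eventually_lt_const hB1))).exists
    have hx1' : x < 1 := hx1
    have hx' : 0 < 1 - x := by linarith
    have hq1 : x ^ (1 - d) < 1 := Real.rpow_lt_one hx0.le hx1' hd1'
    have hev := ev_all (hn.eventually_const_lt hB2)
    filter_upwards [hev, ev_pos] with t ht ht0
    have h3 := lo x hx0 hx1' B t ht0 (fun s h1 h2 => (ht s h1 h2).le)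
    have h4 : b * (1 - x ^ (1 - d)) < B * (1 - x) := by
      rw [← mul_div_assoc, div_lt_iff₀ hx'] at hxb
      exact hxb
    have h5 : b * (1 - x ^ (1 - d)) < vv l d t * (1 - x ^ (1 - d)) := by linarith
    exact lt_of_mul_lt_mul_right h5 (by linarith)
  · intro b hb
    rw [gt_iff_lt, div_lt_iff₀ hd1'] at hb
    obtain ⟨B, hB1, hB2⟩ := exists_between hb
    have hlim : Tendsto (fun x : ℝ => b * ((1 - x ^ (1 - d)) / (1 - x)) * x ^ d) (𝓝[<] 1)
        (𝓝 (b * (1 - d) * 1)) := (hsl.const_mul b).mul hxd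
    rw [mul_one] at hlim
    obtain ⟨x, hx1, hx0, hxb⟩ :=
      ((eventually_mem_nhdsWithin (a := (1:ℝ)) (s := Set.Iio 1)).and
        (e1.and (hlim.eventually_const_lt hB2))).exists
    have hx1' : x < 1 := hx1
    have hx' : 0 < 1 - x := by linarith
    have hq1 : x ^ (1 - d) < 1 := Real.rpow_lt_one hx0.le hx1' hd1'
    have hxdp : 0 < x ^ d := Real.rpow_pos_of_pos hx0 _
    have hev := ev_all (hn.eventually_lt_const hB1)
    filter_upwards [hev, ev_pos] with t ht ht0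
    have h3 := up x hx0 hx1' B t ht0 (fun s h1 h2 => (ht s h1 h2).le)
    have h4 : (1 - x) * B / x ^ d < b * (1 - x ^ (1 - d)) := by
      rw [div_lt_iff₀ hxdp]
      have : b * ((1 - x ^ (1 - d)) / (1 - x)) * x ^ d =
        (b * (1 - x ^ (1 - d)) * x ^ d) / (1 - x) := by ring
      rw [this, lt_div_iff₀ hx'] at hxb
      linarith
    have h5 : vv l d t * (1 - x ^ (1 - d)) < b * (1 - x ^ (1 - d)) := by linarith
    exact lt_of_mul_lt_mul_right h5 (by linarith)

/-- forward direction -/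
lemma mm_of_nn (h : Good l) (hd0 : 0 < d) (hd1 : d < 1) {A : ℝ} (hA : 0 < A)
    (hn : Tendsto (nn l d) (𝓝[>] 0) (𝓝 A)) :
    Tendsto (mm l d) (𝓝[>] 0) (𝓝 (A / (1 - d))) := by
  have hd1' : 0 < 1 - d := by linarith
  have hv := vv_of_nn h hd1 hn
  set v := A / (1 - d) with hvdef
  have hvA : v * (1 - d) = A := by rw [hvdef]; field_simp
  have hvpos : 0 < v := div_pos hA hd1'
  have hsg : Tendsto (sg l d) (𝓝[>] 0) (𝓝 (v - A)) := by
    refine (hv.sub hn).congr' ?_
    filter_upwards [ev_pos] with t ht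
    rw [vv_eq h ht]; ring
  set s := v - A with hs
  have hspos : 0 < s := by rw [hs, ← hvA]; nlinarith
  have hAv : A < v := by linarith
  -- choose κ
  have k2 : ∀ᶠ κ in 𝓝[>] (0:ℝ),
      (s * (1 + κ)) * (A * (1 + κ)) < (s * (1 - κ)) * (v * (1 - κ)) := by
    apply eventually_nhdsWithin_of_eventually_nhds
    have c1 : ContinuousAt (fun κ : ℝ => (s * (1 + κ)) * (A * (1 + κ))) 0 := by fun_prop
    have c2 : ContinuousAt (fun κ : ℝ => (s * (1 - κ)) * (v * (1 - κ))) 0 := by fun_prop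
    refine c1.eventually_lt c2 ?_
    have : s * A < s * v := mul_lt_mul_of_pos_left hAv hspos
    simpa using this
  have k1 : ∀ᶠ κ in 𝓝[>] (0:ℝ), κ < 1 / 2 :=
    eventually_nhdsWithin_of_eventually_nhds (eventually_lt_nhds (by norm_num))
  obtain ⟨κ, hκ0, hκ1, hκ2⟩ := (ev_pos.and (k1.and k2)).exists
  have hgood : ∀ ω : ℝ, 0 < ω → ∀ᶠ t in 𝓝[>] (0:ℝ), (1 - ω) * vv l d t ≤ mm l d t := by
    intro ω hω
    have E := good_ev h hd0 (a := s * (1 - κ)) (a' := s * (1 + κ)) (p := A * (1 + κ))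
      (u := v * (1 - κ)) (ω := ω) (mul_pos hspos (by linarith)) (mul_pos hspos (by linarith))
      (mul_pos hA (by linarith)) hκ2 hω
    have E1 : ∀ᶠ t in 𝓝[>] (0:ℝ), s * (1 - κ) < sg l d t :=
      hsg.eventually_const_lt (by nlinarith)
    have E2 : ∀ᶠ t in 𝓝[>] (0:ℝ), nn l d t < A * (1 + κ) := hn.eventually_lt_const (by nlinarith)
    have E3 : ∀ᶠ t in 𝓝[>] (0:ℝ), sg l d t < s * (1 + κ) := hsg.eventually_lt_const (by nlinarith)
    have E4 : ∀ᶠ t in 𝓝[>] (0:ℝ), v * (1 - κ) < vv l d t := hv.eventually_const_lt (by nlinarith)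
    filter_upwards [E, ev_all E1, ev_all E2, E3, E4] with t e e1 e2 e3 e4
    exact e (fun s h1 h2 => (e1 s h1 h2).le) (fun s h1 h2 => (e2 s h1 h2).le) e3.le e4.le
  rw [tendsto_order]
  constructor
  · intro b hb
    obtain ⟨ω, hω0, hωb⟩ : ∃ ω : ℝ, 0 < ω ∧ b < (1 - ω) * v := by
      have c1 : ContinuousAt (fun ω : ℝ => (1 - ω) * v) 0 := by fun_prop
      have c2 : ∀ᶠ ω in 𝓝[>] (0:ℝ), b < (1 - ω) * v :=
        eventually_nhdsWithin_of_eventually_nhds
          (c1.tendsto.eventually_const_lt (by simpa using hb))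
      exact (ev_pos.and c2).exists
    have h1 := (hv.const_mul (1 - ω)).eventually_const_lt hωb
    filter_upwards [h1, hgood ω hω0] with t h2 h3
    linarith
  · intro b hb
    filter_upwards [hv.eventually_lt_const hb, ev_pos] with t h1 h2
    exact lt_of_le_of_lt (mm_le_vv h h2) h1

lemma good_of_dim (hd0 : 0 < d) (hd1 : d < 1) (hpos : ∀ j, 0 < l j) (hanti : Antitone l)
    (hdim : HasMinkowskiDim l d) : Good l := by
  refine ⟨hpos, hanti, ?_⟩
  obtain ⟨C, hC1, -⟩ := EReal.lt_iff_exists_real_btwn.1 hdim.2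
  have hev := eventually_lt_of_limsup_lt hC1
  have hs : Summable (fun j : ℕ => C * (1 / ((j:ℝ) + 1) ^ (1 / d))) := by
    apply Summable.mul_left
    have h1 : 1 < 1 / d := by
      rw [lt_div_iff₀ hd0]; linarith
    have h2 := Real.summable_one_div_nat_rpow.2 h1
    have h3 := (summable_nat_add_iff 1).2 h2
    refine h3.congr fun j => ?_
    push_cast
    rfl
  apply summable_of_isBigO_nat hs
  apply Asymptotics.IsBigO.of_bound 1
  filter_upwards [hev] with j hj
  have hj' : l j * ((j : ℝ) + 1) ^ (1 / d) < C := by exact_mod_cast hj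
  have hp : 0 < ((j:ℝ) + 1) ^ (1 / d) := Real.rpow_pos_of_pos (by positivity) _
  have h1 : l j ≤ C * (1 / ((j:ℝ) + 1) ^ (1 / d)) := by
    rw [mul_one_div, le_div_iff₀ hp]
    exact hj'.le
  rw [one_mul, Real.norm_eq_abs, Real.norm_eq_abs, abs_of_pos (hpos j)]
  exact h1.trans (le_abs_self _)

theorem main (d : ℝ) (hd0 : 0 < d) (hd1 : d < 1) (l : ℕ → ℝ) (hpos : ∀ j, 0 < l j)
    (hanti : Antitone l) (hdim : HasMinkowskiDim l d) :
    (IsMinkowskiMeasurable l d ↔ ∃ c : ℝ, 0 < c ∧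
      Tendsto (fun ε : ℝ => (massDist l ε : ℝ) * ε ^ d) (𝓝[>] 0) (𝓝 c)) ∧
    ∀ L : ℝ, 0 < L →
      (Tendsto (fun j : ℕ => l j * ((j : ℝ) + 1) ^ (1 / d)) atTop (𝓝 L) ↔
        Tendsto (fun ε : ℝ => (massDist l ε : ℝ) * ε ^ d) (𝓝[>] 0) (𝓝 (L ^ d / (1 - d)))) := by
  have h := good_of_dim hd0 hd1 hpos hanti hdim
  have hd1' : 0 < 1 - d := by linarith
  have fwd : ∀ L : ℝ, 0 < L →
      Tendsto (fun j : ℕ => l j * ((j : ℝ) + 1) ^ (1 / d)) atTop (𝓝 L) →
        Tendsto (fun ε : ℝ => (massDist l ε : ℝ) * ε ^ d) (𝓝[>] 0) (𝓝 (L ^ d / (1 - d))) := by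
    intro L hL hl
    exact mm_of_nn h hd0 hd1 (Real.rpow_pos_of_pos hL d) (nn_of_idx h hd0 hl)
  have bwd : ∀ c : ℝ, 0 < c →
      Tendsto (fun ε : ℝ => (massDist l ε : ℝ) * ε ^ d) (𝓝[>] 0) (𝓝 c) →
      Tendsto (fun j : ℕ => l j * ((j : ℝ) + 1) ^ (1 / d)) atTop
        (𝓝 ((c * (1 - d)) ^ (1 / d))) := by
    intro c hc hN
    exact idx_of_nn h hd0 (mul_pos hc hd1') (tendsto_nn h (tendsto_vv h hd0 hd1 hc hN))
  refine ⟨⟨?_, ?_⟩, ?_⟩
  · rintro ⟨L, hL, hl⟩
    exact ⟨L ^ d / (1 - d), div_pos (Real.rpow_pos_of_pos hL d) hd1', fwd L hL hl⟩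
  · rintro ⟨c, hc, hN⟩
    exact ⟨(c * (1 - d)) ^ (1 / d), Real.rpow_pos_of_pos (mul_pos hc hd1') _, bwd c hc hN⟩
  · intro L hL
    refine ⟨fwd L hL, fun hN => ?_⟩
    have h1 := bwd _ (div_pos (Real.rpow_pos_of_pos hL d) hd1') hN
    have h2 : (L ^ d / (1 - d) * (1 - d)) ^ (1 / d) = L := by
      rw [div_mul_cancel₀ _ hd1'.ne', ← Real.rpow_mul hL.le]
      have : d * (1 / d) = 1 := by field_simp
      rw [this, Real.rpow_one]
    rwa [h2] at h1

end Pool.Agent.H56.Mass
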