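import Mathlib

/-!
Definitions for MP_f4cb44_an: the mass distribution function of a sequence of lengths.

A sequence `l : ℕ → ℝ` is indexed from zero, so that `l j` is the length with number `j + 1`.
-/

namespace Pool.Agent.H56.Mass

open Filter Topology

/-- The set of all indices can be split into `N` pairwise disjoint sets (the fibres of `γ`), each of
total length at least `ε`. -/
def Splits (l : ℕ → ℝ) (ε : ℝ) (N : ℕ) : Prop :=
  ∃ γ : ℕ → Fin N, ∀ i : Fin N, ε ≤ ∑' j, if γ j = i then l j else 0

/-- The mass distribution function: the largest `N` for which the indices can be split into `N`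
pairwise disjoint sets, each of total length at least `ε`. -/
noncomputable def massDist (l : ℕ → ℝ) (ε : ℝ) : ℕ := sSup {N : ℕ | Splits l ε N}

/-- `l` has Minkowski dimension `d`: the lower and upper limits of `l_j j ^ (1 / d)` are positive and
finite (`l j` is the length with number `j + 1`). -/
def HasMinkowskiDim (l : ℕ → ℝ) (d : ℝ) : Prop :=
  0 < liminf (fun j : ℕ => ((l j * ((j : ℝ) + 1) ^ (1 / d) : ℝ) : EReal)) atTop ∧
    limsup (fun j : ℕ => ((l j * ((j : ℝ) + 1) ^ (1 / d) : ℝ) : EReal)) atTop < ⊤

/-- `l` is Minkowski measurable of dimension `d`: the limit of `l_j j ^ (1 / d)` exists and is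
positive and finite (`l j` is the length with number `j + 1`). -/
def IsMinkowskiMeasurable (l : ℕ → ℝ) (d : ℝ) : Prop :=
  ∃ L : ℝ, 0 < L ∧ Tendsto (fun j : ℕ => l j * ((j : ℝ) + 1) ^ (1 / d)) atTop (𝓝 L)

end Pool.Agent.H56.Mass
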